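import Mathlib
import Pool.Agent.Y957.VK.Stm

/-!
The sums `∑_{|u| ≤ P} min (2 P + 1, 1 / (2 ‖a u‖))` when the multiples `a u`, `1 ≤ u < K`, are not close to
integers.
-/

set_option autoImplicit false

open Finset

namespace Pool.Agent.Q263.WE

open Pool.Agent.Y957.VK (dz mn WJ TT J S_VMVT S_DBL)

lemma dz_nonneg (θ : ℝ) : 0 ≤ dz θ := abs_nonneg _

lemma dz_le (θ : ℝ) : dz θ ≤ 1 / 2 := abs_sub_round θ

lemma dz_le_int (θ : ℝ) (n : ℤ) : dz θ ≤ |θ - n| := round_le θ n

lemma dz_neg (θ : ℝ) : dz (-θ) = dz θ := by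
  apply le_antisymm
  · have := dz_le_int (-θ) (-round θ)
    refine this.trans (le_of_eq ?_)
    unfold dz
    rw [← abs_neg]
    congr 1
    push_cast
    ring
  · have := dz_le_int θ (-round (-θ))
    refine this.trans (le_of_eq ?_)
    unfold dz
    rw [← abs_neg]
    congr 1
    push_cast
    ring

lemma dz_add_int (θ : ℝ) (n : ℤ) : dz (θ + n) = dz θ := by
  unfold dz
  rw [round_add_intCast]
  congr 1
  push_cast
  ring

lemma mn_nonneg (V : ℕ) (θ : ℝ) : 0 ≤ mn V θ := by
  unfold mn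
  split_ifs
  · positivity
  · have := dz_nonneg θ
    positivity

lemma mn_le (V : ℕ) (θ : ℝ) : mn V θ ≤ 2 * V + 1 := by
  unfold mn
  split_ifs
  · exact le_rfl
  · exact min_le_left _ _

/-- one block -/
lemma block (V K : ℕ) (a δ : ℝ) (hδ : 0 < δ) (hδ1 : δ ≤ 1)
    (h : ∀ u : ℕ, 1 ≤ u → u < K → δ ≤ dz (a * u)) (u0 : ℤ) :
    ∑ i ∈ range K, mn V (a * ((u0 + i : ℤ) : ℝ)) ≤
      2 * (2 * V + 1) + 1 / δ * (1 + Real.log (1 / δ)) := by
  classical
  set s : ℕ → ℝ := fun i => a * ((u0 + i : ℤ) : ℝ) - round (a * ((u0 + i : ℤ) : ℝ)) with hs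
  set n : ℕ := ⌊1 / δ⌋₊ with hn
  have hn1 : 1 ≤ n := by
    rw [hn]
    apply Nat.le_floor
    rw [Nat.cast_one, le_div_iff₀ hδ]
    linarith
  set g : ℕ → ℝ := fun k => if k = 0 then 2 * (V : ℝ) + 1 else 1 / (2 * k * δ) with hg
  have hsa : ∀ i : ℕ, |s i| = dz (a * ((u0 + i : ℤ) : ℝ)) := fun i => rfl
  have hfl : ∀ i : ℕ, ⌊|s i| / δ⌋₊ ≤ n := by
    intro i
    rw [hn]
    apply Nat.floor_le_floor
    apply div_le_div_of_nonneg_right _ hδ.le
    rw [hsa]
    exact (dz_le _).trans (by norm_num)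
  have hmn : ∀ i : ℕ, mn V (a * ((u0 + i : ℤ) : ℝ)) ≤ g ⌊|s i| / δ⌋₊ := by
    intro i
    simp only [hg]
    split_ifs with h0
    · exact mn_le _ _
    · have h1 : (⌊|s i| / δ⌋₊ : ℝ) ≤ |s i| / δ := Nat.floor_le (by positivity)
      have h2 : (0 : ℝ) < (⌊|s i| / δ⌋₊ : ℝ) := by exact_mod_cast Nat.pos_of_ne_zero h0
      have h3 : (⌊|s i| / δ⌋₊ : ℝ) * δ ≤ |s i| := by rwa [le_div_iff₀ hδ] at h1
      have h4 : 0 < (⌊|s i| / δ⌋₊ : ℝ) * δ := mul_pos h2 hδ
      unfold mn
      rw [← hsa, if_neg (by intro h5; linarith)]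
      refine (min_le_right _ _).trans ?_
      apply one_div_le_one_div_of_le
      · positivity
      · rw [mul_assoc]
        linarith
  set φ : ℕ → Bool × ℕ := fun i => (decide (0 ≤ s i), ⌊|s i| / δ⌋₊) with hφ
  have hinj : Set.InjOn φ (range K : Set ℕ) := by
    intro i hi j hj hij
    rw [Finset.mem_coe, Finset.mem_range] at hi hj
    simp only [hφ, Prod.mk.injEq, decide_eq_decide] at hij
    obtain ⟨h1, h2⟩ := hij
    have h3 : |s i| / δ < ⌊|s i| / δ⌋₊ + 1 := Nat.lt_floor_add_one _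
    have h4 : (⌊|s i| / δ⌋₊ : ℝ) ≤ |s i| / δ := Nat.floor_le (by positivity)
    have h5 : |s j| / δ < ⌊|s j| / δ⌋₊ + 1 := Nat.lt_floor_add_one _
    have h6 : (⌊|s j| / δ⌋₊ : ℝ) ≤ |s j| / δ := Nat.floor_le (by positivity)
    rw [← h2] at h5 h6
    have h7 : |s i - s j| < δ := by
      have h8 : |(|s i| / δ - |s j| / δ)| < 1 := by
        rw [abs_lt]
        constructor <;> linarith
      have h9 : |(|s i| - |s j|)| < δ := by
        rw [← sub_div, abs_div, abs_of_pos hδ, div_lt_one hδ] at h8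
        exact h8
      by_cases h10 : 0 ≤ s i
      · rw [abs_of_nonneg h10, abs_of_nonneg (h1.1 h10)] at h9
        exact h9
      · have h11 : ¬ 0 ≤ s j := fun h12 => h10 (h1.2 h12)
        push Not at h10 h11
        rw [abs_of_neg h10, abs_of_neg h11] at h9
        have e1 : -s i - -s j = -(s i - s j) := by ring
        rw [e1, abs_neg] at h9
        exact h9
    by_contra hne
    have key : ∀ i j : ℕ, i < K → j < i → |s i - s j| < δ → False := by
      intro i j hi hj h7
      obtain ⟨u, rfl⟩ : ∃ u, i = j + u := ⟨i - j, by omega⟩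
      have h8 := h u (by omega) (by omega)
      have h9 : dz (a * u) ≤ |s (j + u) - s j| := by
        refine (dz_le_int _ (round (a * ((u0 + ((j + u : ℕ) : ℤ) : ℤ) : ℝ)) -
          round (a * ((u0 + j : ℤ) : ℝ)))).trans (le_of_eq ?_)
        simp only [hs]
        congr 1
        push_cast
        ring
      linarith
    rcases lt_or_gt_of_ne hne with h8 | h8
    · apply key j i hj h8
      rw [abs_sub_comm]
      exact h7
    · exact key i j hi h8 h7
  have hg0 : ∀ k, 0 ≤ g k := by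
    intro k
    simp only [hg]
    split_ifs <;> positivity
  calc ∑ i ∈ range K, mn V (a * ((u0 + i : ℤ) : ℝ)) ≤ ∑ i ∈ range K, g (φ i).2 :=
        Finset.sum_le_sum fun i _ => hmn i
    _ = ∑ z ∈ (range K).image φ, g z.2 := by
        rw [Finset.sum_image hinj]
    _ ≤ ∑ z ∈ (Finset.univ : Finset Bool) ×ˢ range (n + 1), g z.2 := by
        apply Finset.sum_le_sum_of_subset_of_nonneg
        · intro z hz
          rw [Finset.mem_image] at hz
          obtain ⟨i, _, rfl⟩ := hz
          rw [Finset.mem_product]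
          refine ⟨Finset.mem_univ _, ?_⟩
          rw [Finset.mem_range]
          have := hfl i
          simp only [hφ]
          omega
        · intro z _ _
          exact hg0 _
    _ = 2 * ∑ k ∈ range (n + 1), g k := by
        rw [Finset.sum_product]
        simp only [Finset.sum_const, Finset.card_univ, Fintype.card_bool]
        rw [nsmul_eq_mul]
        norm_num
    _ = 2 * (2 * V + 1) + 1 / δ * ∑ k ∈ range n, 1 / ((k : ℝ) + 1) := by
        rw [Finset.sum_range_succ']
        have e1 : g 0 = 2 * (V : ℝ) + 1 := by simp [hg]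
        have e2 : ∑ k ∈ range n, g (k + 1) = 1 / (2 * δ) * ∑ k ∈ range n, 1 / ((k : ℝ) + 1) := by
          rw [Finset.mul_sum]
          refine Finset.sum_congr rfl fun k _ => ?_
          simp only [hg]
          rw [if_neg (by omega)]
          push_cast
          field_simp
        rw [e1, e2]
        field_simp
        ring
    _ ≤ _ := by
        have h1 : ∑ k ∈ range n, 1 / ((k : ℝ) + 1) ≤ 1 + Real.log n := by
          have h2 := harmonic_le_one_add_log n
          have e1 : ((harmonic n : ℚ) : ℝ) = ∑ k ∈ range n, 1 / ((k : ℝ) + 1) := by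
            unfold harmonic
            push_cast
            refine Finset.sum_congr rfl fun k _ => ?_
            rw [one_div]
          rw [e1] at h2
          exact h2
        have h2 : Real.log n ≤ Real.log (1 / δ) := by
          apply Real.log_le_log
          · exact_mod_cast hn1
          · exact Nat.floor_le (by positivity)
        have h3 : 1 / δ * ∑ k ∈ range n, 1 / ((k : ℝ) + 1) ≤
            1 / δ * (1 + Real.log (1 / δ)) :=
          mul_le_mul_of_nonneg_left (h1.trans (by linarith)) (by positivity)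
        linarith

lemma sum_blocks (g : ℕ → ℝ) (K B : ℕ) :
    ∑ t ∈ range (B * K), g t = ∑ b ∈ range B, ∑ i ∈ range K, g (b * K + i) := by
  induction B with
  | zero => simp
  | succ B ih =>
    rw [Finset.sum_range_succ, ← ih, add_mul, one_mul, Finset.sum_range_add]

/-- **the bound for the factor** -/
theorem wj_le (s M j K : ℕ) (a δ : ℝ) (hK : 1 ≤ K) (hδ : 0 < δ) (hδ1 : δ ≤ 1)
    (h : ∀ u : ℕ, 1 ≤ u → u < K → δ ≤ dz (a * u)) :
    WJ s M j a ≤ ((2 * ((s * M ^ j : ℕ) : ℝ) + 1) / K + 1) *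
      (2 * (2 * ((s * M ^ j : ℕ) : ℝ) + 1) + 1 / δ * (1 + Real.log (1 / δ))) := by
  unfold WJ
  set P : ℕ := s * M ^ j with hP
  have hK0 : (0 : ℝ) < K := by exact_mod_cast hK
  set B : ℕ := (2 * P + 1) / K + 1 with hB
  have hBK : 2 * P + 1 ≤ B * K := by
    rw [hB, mul_comm ((2 * P + 1) / K + 1) K]
    exact (Nat.lt_mul_div_succ (2 * P + 1) (show 0 < K by omega)).le
  have e1 : ∑ u ∈ Finset.Icc (-(P : ℤ)) (P : ℤ), mn P (a * u) =
      ∑ t ∈ range (2 * P + 1), mn P (a * ((-(P : ℤ) + t : ℤ) : ℝ)) := by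
    symm
    refine Finset.sum_bij (fun t _ => -(P : ℤ) + t) ?_ ?_ ?_ ?_
    · intro t ht
      rw [Finset.mem_range] at ht
      rw [Finset.mem_Icc]
      constructor <;> omega
    · intro t _ t' _ h
      have h' : -(P : ℤ) + t = -(P : ℤ) + t' := h
      omega
    · intro u hu
      rw [Finset.mem_Icc] at hu
      refine ⟨(u + P).toNat, ?_, ?_⟩
      · rw [Finset.mem_range]
        omega
      · have h' : ((u + P).toNat : ℤ) = u + P := Int.toNat_of_nonneg (by linarith)
        rw [h']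
        ring
    · intro t _
      rfl
  rw [e1]
  have h0 : ∀ t : ℕ, 0 ≤ mn P (a * ((-(P : ℤ) + t : ℤ) : ℝ)) := fun t => mn_nonneg _ _
  calc ∑ t ∈ range (2 * P + 1), mn P (a * ((-(P : ℤ) + t : ℤ) : ℝ))
      ≤ ∑ t ∈ range (B * K), mn P (a * ((-(P : ℤ) + t : ℤ) : ℝ)) := by
        apply Finset.sum_le_sum_of_subset_of_nonneg
        · exact Finset.range_subset_range.2 hBK
        · intro t _ _
          exact h0 t
    _ = ∑ b ∈ range B, ∑ i ∈ range K, mn P (a * ((-(P : ℤ) + ((b * K + i : ℕ) : ℤ) : ℤ) : ℝ)) :=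
        sum_blocks _ K B
    _ ≤ ∑ _b ∈ range B, (2 * (2 * (P : ℝ) + 1) + 1 / δ * (1 + Real.log (1 / δ))) := by
        refine Finset.sum_le_sum fun b _ => ?_
        have h1 := block P K a δ hδ hδ1 h (-(P : ℤ) + ((b * K : ℕ) : ℤ))
        refine le_trans (le_of_eq ?_) h1
        refine Finset.sum_congr rfl fun i _ => ?_
        congr 2
        push_cast
        ring
    _ = (B : ℝ) * (2 * (2 * (P : ℝ) + 1) + 1 / δ * (1 + Real.log (1 / δ))) := by
        rw [Finset.sum_const, Finset.card_range, nsmul_eq_mul]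
    _ ≤ _ := by
        apply mul_le_mul_of_nonneg_right
        · rw [hB]
          push_cast
          have : (((2 * P + 1) / K : ℕ) : ℝ) ≤ ((2 * P + 1 : ℕ) : ℝ) / K := Nat.cast_div_le
          push_cast at this
          linarith
        · have : 0 ≤ Real.log (1 / δ) := Real.log_nonneg (by rw [le_div_iff₀ hδ]; linarith)
          positivity

end Pool.Agent.Q263.WE
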