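import Mathlib
import Pool.Agent.Q263.WE.Wb
import Pool.Agent.Y957.VK.Triv
import Pool.Agent.Y331.VK.Lin
import Pool.Agent.Y235.VK.Hol
import Pool.Agent.Y950.VK.Cnt
import Pool.Agent.Y911.VK.Cond
import Pool.Agent.Y901.VK.Vmvt
import Pool.Agent.Y309.VK.DA
import Pool.Agent.Y93.VK.DB

/-!
The bilinear Weyl sums of growing degree: a bound with constants `exp (poly)`, if one coefficient is not well
approximable.
-/

set_option autoImplicit false

open Finset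

namespace Pool.Agent.Q263.WE

open Pool.Agent.Y957.VK (dz mn WJ TT J S_VMVT S_DBL S_REC S_CNT)

theorem vmvt : S_VMVT := Pool.Agent.Y901.VK.vmvt
  (Pool.Agent.Y957.VK.rec_of Pool.Agent.Y235.VK.hol (Pool.Agent.Y950.VK.cnt Pool.Agent.Y331.VK.lin))
  Pool.Agent.Y911.VK.cond

theorem dbl : S_DBL := Pool.Agent.Y957.VK.dbl_of Pool.Agent.Y309.VK.da Pool.Agent.Y93.VK.db

/-- the trivial bound -/
lemma wj_triv (s M j : ℕ) (a : ℝ) : WJ s M j a ≤ (2 * ((s * M ^ j : ℕ) : ℝ) + 1) ^ 2 := by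
  unfold WJ
  calc _ ≤ ∑ _u ∈ Finset.Icc (-((s * M ^ j : ℕ) : ℤ)) ((s * M ^ j : ℕ) : ℤ),
        (2 * ((s * M ^ j : ℕ) : ℝ) + 1) := Finset.sum_le_sum fun u _ => mn_le _ _
    _ = _ := by
        rw [Finset.sum_const, Int.card_Icc, nsmul_eq_mul]
        have e1 : ((s * M ^ j : ℕ) : ℤ) + 1 - -((s * M ^ j : ℕ) : ℤ) =
            ((2 * (s * M ^ j) + 1 : ℕ) : ℤ) := by
          push_cast
          ring
        rw [e1, Int.toNat_natCast]
        push_cast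
        ring

lemma wj_nonneg (s M j : ℕ) (a : ℝ) : 0 ≤ WJ s M j a :=
  Finset.sum_nonneg fun _ _ => mn_nonneg _ _

lemma wj_triv' (s M j : ℕ) (hs : 1 ≤ s) (hM : 1 ≤ M) (a : ℝ) :
    WJ s M j a ≤ (3 * ((s : ℝ) * (M : ℝ) ^ j)) ^ 2 := by
  refine (wj_triv s M j a).trans ?_
  apply pow_le_pow_left₀ (by positivity)
  have h1 : 1 ≤ s * M ^ j := Nat.mul_pos hs (Nat.pow_pos hM)
  have h2 : (1 : ℝ) ≤ ((s * M ^ j : ℕ) : ℝ) := by exact_mod_cast h1
  have h3 : ((s * M ^ j : ℕ) : ℝ) = (s : ℝ) * (M : ℝ) ^ j := by push_cast; ring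
  rw [← h3]
  linarith

lemma prod_pow (s r M : ℕ) : ∏ j ∈ Finset.Icc 1 r, (3 * ((s : ℝ) * (M : ℝ) ^ j)) ^ 2 =
    (3 * (s : ℝ)) ^ (2 * r) * (M : ℝ) ^ (r * (r + 1)) := by
  induction r with
  | zero => simp
  | succ r ih =>
    rw [Finset.prod_Icc_succ_top (by omega), ih]
    have e1 : (M : ℝ) ^ ((r + 1) * (r + 1 + 1)) = (M : ℝ) ^ (r * (r + 1)) * ((M : ℝ) ^ (r + 1)) ^ 2 := by
      rw [← pow_mul, ← pow_add]
      congr 1
      ring
    rw [e1, show 2 * (r + 1) = 2 * r + 2 by ring, pow_add]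
    ring

lemma const_bound (C r L : ℕ) (hr : 2 ≤ r) (hL : 1 ≤ L) :
    Real.exp (C * ((r : ℝ) + (r * L : ℕ)) ^ C) ^ 2 *
      (3 * ((r ^ 2 + r * (r * L) : ℕ) : ℝ)) ^ (2 * r) ≤
      Real.exp (((2 * C + 6 : ℕ) : ℝ) * ((r : ℝ) + L) ^ (2 * C + 6)) := by
  have hr1 : (2 : ℝ) ≤ r := by exact_mod_cast hr
  have hL1 : (1 : ℝ) ≤ L := by exact_mod_cast hL
  set y : ℝ := (r : ℝ) + L with hy
  have hy1 : 1 ≤ y := by rw [hy]; linarith
  have h1 : (r : ℝ) + (r * L : ℕ) ≤ y ^ 2 := by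
    push_cast
    rw [hy]
    nlinarith
  have h2 : (((r ^ 2 + r * (r * L) : ℕ) : ℝ)) ≤ y ^ 3 := by
    push_cast
    rw [hy]
    nlinarith [mul_nonneg (by linarith : (0 : ℝ) ≤ r) (by linarith : (0 : ℝ) ≤ L),
      mul_nonneg (mul_nonneg (by linarith : (0 : ℝ) ≤ r) (by linarith : (0 : ℝ) ≤ L)) (by linarith : (0 : ℝ) ≤ L),
      mul_nonneg (mul_nonneg (by linarith : (0 : ℝ) ≤ r) (by linarith : (0 : ℝ) ≤ r)) (by linarith : (0 : ℝ) ≤ (r : ℝ) - 2),
      mul_nonneg (mul_nonneg (by linarith : (0 : ℝ) ≤ r) (by linarith : (0 : ℝ) ≤ r)) (by linarith : (0 : ℝ) ≤ L),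
      pow_nonneg (by linarith : (0 : ℝ) ≤ L) 3]
  set S : ℝ := ((r ^ 2 + r * (r * L) : ℕ) : ℝ) with hS
  have hS0 : 0 < S := by
    rw [hS]
    push_cast
    positivity
  have h3 : (3 * S) ^ (2 * r) ≤ Real.exp (6 * y ^ 4) := by
    have h4 : 3 * S ≤ Real.exp (3 * S) := by
      have := Real.add_one_le_exp (3 * S)
      linarith
    calc (3 * S) ^ (2 * r) ≤ (Real.exp (3 * S)) ^ (2 * r) := pow_le_pow_left₀ (by positivity) h4 _
      _ = Real.exp (((2 * r : ℕ) : ℝ) * (3 * S)) := by rw [Real.exp_nat_mul]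
      _ ≤ _ := by
          apply Real.exp_le_exp.2
          push_cast
          have h5 : (r : ℝ) ≤ y := by rw [hy]; linarith
          calc 2 * (r : ℝ) * (3 * S) = 6 * (r * S) := by ring
            _ ≤ 6 * (y * y ^ 3) := by
                apply mul_le_mul_of_nonneg_left _ (by norm_num)
                exact mul_le_mul h5 h2 hS0.le (by linarith)
            _ = _ := by ring
  have h6 : Real.exp (C * ((r : ℝ) + (r * L : ℕ)) ^ C) ^ 2 ≤ Real.exp (2 * C * y ^ (2 * C)) := by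
    rw [← Real.exp_nat_mul]
    apply Real.exp_le_exp.2
    push_cast
    push_cast at h1
    rw [mul_assoc]
    apply mul_le_mul_of_nonneg_left _ (by norm_num)
    apply mul_le_mul_of_nonneg_left _ (Nat.cast_nonneg _)
    rw [pow_mul]
    exact pow_le_pow_left₀ (by positivity) h1 _
  calc _ ≤ Real.exp (2 * C * y ^ (2 * C)) * Real.exp (6 * y ^ 4) :=
        mul_le_mul h6 h3 (by positivity) (Real.exp_pos _).le
    _ = Real.exp (2 * C * y ^ (2 * C) + 6 * y ^ 4) := by rw [Real.exp_add]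
    _ ≤ _ := by
        apply Real.exp_le_exp.2
        push_cast
        have h7 : y ^ (2 * C) ≤ y ^ (2 * C + 6) := pow_le_pow_right₀ hy1 (by omega)
        have h8 : y ^ 4 ≤ y ^ (2 * C + 6) := pow_le_pow_right₀ hy1 (by omega)
        have h9 : (0 : ℝ) ≤ C := Nat.cast_nonneg _
        nlinarith

/-- **the bound for the bilinear sums** -/
theorem tt_bound : ∃ C : ℕ, ∀ (r L V j0 : ℕ) (α : ℕ → ℝ) (σ : ℝ), 2 ≤ r → 1 ≤ L → 1 ≤ V → 1 ≤ j0 →
    j0 ≤ r → 0 ≤ σ →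
    WJ (r ^ 2 + r * (r * L)) V j0 (α j0) ≤
      (3 * (((r ^ 2 + r * (r * L) : ℕ) : ℝ) * (V : ℝ) ^ j0)) ^ 2 * σ →
    ‖TT r V α‖ ^ (4 * (r ^ 2 + r * (r * L)) ^ 2) ≤ (V : ℝ) ^ (8 * (r ^ 2 + r * (r * L)) ^ 2) *
      (Real.exp (C * ((r : ℝ) + L) ^ C) * (V : ℝ) ^ (r * (r + 1) * Real.exp (-L) : ℝ) * σ) := by
  obtain ⟨C, hC⟩ := vmvt
  refine ⟨2 * C + 6, ?_⟩
  intro r L V j0 α σ hr hL hV hj0 hj0r hσ hW
  have hJ := hC r (r * L) V hr hV
  set s : ℕ := r ^ 2 + r * (r * L) with hs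
  have hs1 : 1 ≤ s := by
    rw [hs]
    have : 1 ≤ r ^ 2 := Nat.one_le_pow _ _ (by omega)
    omega
  have hD := dbl s r V α hs1 (by omega) hV
  have hVR : (1 : ℝ) ≤ V := by exact_mod_cast hV
  have hV0 : (0 : ℝ) < V := by linarith
  have hr1 : (2 : ℝ) ≤ r := by exact_mod_cast hr
  -- the mean value
  have hexp : (1 - 1 / (r : ℝ)) ^ (r * L) ≤ Real.exp (-L) := by
    have h1 : 1 - 1 / (r : ℝ) ≤ Real.exp (-(1 / (r : ℝ))) := by
      have := Real.add_one_le_exp (-(1 / (r : ℝ)))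
      linarith
    have h2 : 0 ≤ 1 - 1 / (r : ℝ) := by
      rw [sub_nonneg, div_le_one (by linarith)]
      linarith
    calc (1 - 1 / (r : ℝ)) ^ (r * L) ≤ (Real.exp (-(1 / (r : ℝ)))) ^ (r * L) :=
          pow_le_pow_left₀ h2 h1 _
      _ = Real.exp (-L) := by
          rw [← Real.exp_nat_mul]
          congr 1
          push_cast
          field_simp
  set E : ℝ := Real.exp (C * ((r : ℝ) + (r * L : ℕ)) ^ C) with hE
  set X : ℝ := (2 * s : ℝ) - r * (r + 1) / 2 + r * (r + 1) / 2 * Real.exp (-L) with hX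
  have hJ2 : (J s r V : ℝ) ≤ E * (V : ℝ) ^ X := by
    refine hJ.trans ?_
    rw [hE]
    apply mul_le_mul_of_nonneg_left _ (Real.exp_pos _).le
    apply Real.rpow_le_rpow_of_exponent_le hVR
    rw [hX, hs]
    push_cast
    have h3 : (r : ℝ) * (r + 1) / 2 * (1 - 1 / (r : ℝ)) ^ (r * L) ≤
        r * (r + 1) / 2 * Real.exp (-L) := mul_le_mul_of_nonneg_left hexp (by positivity)
    linarith
  -- the product
  have hprod : ∏ j ∈ Finset.Icc 1 r, WJ s V j (α j) ≤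
      ((3 * (s : ℝ)) ^ (2 * r) * (V : ℝ) ^ (r * (r + 1))) * σ := by
    have hmem : j0 ∈ Finset.Icc 1 r := Finset.mem_Icc.2 ⟨hj0, hj0r⟩
    rw [← prod_pow, ← Finset.mul_prod_erase _ _ hmem, ← Finset.mul_prod_erase _ _ hmem]
    calc WJ s V j0 (α j0) * ∏ j ∈ (Finset.Icc 1 r).erase j0, WJ s V j (α j)
        ≤ ((3 * ((s : ℝ) * (V : ℝ) ^ j0)) ^ 2 * σ) *
          ∏ j ∈ (Finset.Icc 1 r).erase j0, (3 * ((s : ℝ) * (V : ℝ) ^ j)) ^ 2 := by
          apply mul_le_mul hW _ (Finset.prod_nonneg fun _ _ => wj_nonneg _ _ _ _) (by positivity)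
          apply Finset.prod_le_prod
          · intro j _
            exact wj_nonneg _ _ _ _
          · intro j _
            exact wj_triv' s V j hs1 hV _
      _ = _ := by ring
  have hc := const_bound C r L hr hL
  rw [← hs, ← hE] at hc
  have hE0 : 0 < E := by rw [hE]; positivity
  calc ‖TT r V α‖ ^ (4 * s ^ 2) ≤ (V : ℝ) ^ (8 * s ^ 2 - 4 * s) * (J s r V : ℝ) ^ 2 *
        ∏ j ∈ Finset.Icc 1 r, WJ s V j (α j) := hD
    _ ≤ (V : ℝ) ^ (8 * s ^ 2 - 4 * s) * (E * (V : ℝ) ^ X) ^ 2 *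
        (((3 * (s : ℝ)) ^ (2 * r) * (V : ℝ) ^ (r * (r + 1))) * σ) := by
        apply mul_le_mul _ hprod (Finset.prod_nonneg fun _ _ => wj_nonneg _ _ _ _) (by positivity)
        apply mul_le_mul_of_nonneg_left _ (by positivity)
        exact pow_le_pow_left₀ (Nat.cast_nonneg _) hJ2 2
    _ = (V : ℝ) ^ (8 * s ^ 2) * ((E ^ 2 * (3 * (s : ℝ)) ^ (2 * r)) *
        (V : ℝ) ^ (r * (r + 1) * Real.exp (-L) : ℝ) * σ) := by
        have h4 : 4 * s ≤ 8 * s ^ 2 := by nlinarith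
        have e1 : (V : ℝ) ^ (8 * s ^ 2 - 4 * s) * ((V : ℝ) ^ X) ^ 2 * (V : ℝ) ^ (r * (r + 1)) =
            (V : ℝ) ^ (8 * s ^ 2) * (V : ℝ) ^ (r * (r + 1) * Real.exp (-L) : ℝ) := by
          rw [← Real.rpow_natCast, ← Real.rpow_natCast ((V : ℝ) ^ X) 2, ← Real.rpow_natCast,
            ← Real.rpow_natCast, ← Real.rpow_mul hV0.le, ← Real.rpow_add hV0, ← Real.rpow_add hV0,
            ← Real.rpow_add hV0]
          congr 1
          rw [Nat.cast_sub h4, hX]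
          push_cast
          ring
        calc _ = ((V : ℝ) ^ (8 * s ^ 2 - 4 * s) * ((V : ℝ) ^ X) ^ 2 * (V : ℝ) ^ (r * (r + 1))) *
              (E ^ 2 * (3 * (s : ℝ)) ^ (2 * r)) * σ := by ring
          _ = _ := by rw [e1]; ring
    _ ≤ _ := by
        apply mul_le_mul_of_nonneg_left _ (by positivity)
        apply mul_le_mul_of_nonneg_right _ hσ
        exact mul_le_mul_of_nonneg_right hc (by positivity)

end Pool.Agent.Q263.WE
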