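import Mathlib
import Pool.Agent.Q263.WE.Tt
import Pool.Agent.H332R2.Lit.Glas

/-!
From complete sums over an interval to the bilinear sums.
-/

set_option autoImplicit false

open Finset Polynomial

namespace Pool.Agent.Q263.WE

open Pool.Agent.Y957.VK (dz mn WJ TT J S_VMVT S_DBL)
open Pool.Agent.H332R2.Lit (e e_add norm_e e_zero)

lemma e_int (n : ℤ) : e (n : ℝ) = 1 := by
  unfold e
  rw [Complex.exp_eq_one_iff]
  exact ⟨n, by push_cast; ring⟩

lemma tt_e (r V : ℕ) (α : ℕ → ℝ) : TT r V α = ∑ x ∈ Finset.Icc 1 V, ∑ y ∈ Finset.Icc 1 V,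
    e (∑ j ∈ Finset.Icc 1 r, α j * ((x : ℝ) * y) ^ j) := by
  unfold TT e
  refine Finset.sum_congr rfl fun x _ => Finset.sum_congr rfl fun y _ => ?_
  congr 1
  ring

lemma shift_k (G : ℕ → ℂ) (hG : ∀ i, ‖G i‖ ≤ 1) (M k : ℕ) :
    ‖∑ i ∈ range M, G (i + k) - ∑ i ∈ range M, G i‖ ≤ 2 * k := by
  induction k with
  | zero => simp
  | succ k ih =>
    have h1 : ∑ i ∈ range M, G (i + (k + 1)) - ∑ i ∈ range M, G (i + k) = G (M + k) - G k := by
      have h2 := Finset.sum_range_succ' (fun i => G (i + k)) M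
      have h3 := Finset.sum_range_succ (fun i => G (i + k)) M
      have e1 : ∑ i ∈ range M, G (i + (k + 1)) = ∑ i ∈ range M, G (i + 1 + k) :=
        Finset.sum_congr rfl fun i _ => by congr 1; ring
      rw [e1]
      rw [h3, zero_add] at h2
      linear_combination -h2
    have e2 : ∑ i ∈ range M, G (i + (k + 1)) - ∑ i ∈ range M, G i =
        (G (M + k) - G k) + (∑ i ∈ range M, G (i + k) - ∑ i ∈ range M, G i) := by
      rw [← h1]
      ring
    rw [e2]
    refine (norm_add_le _ _).trans ?_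
    have h4 : ‖G (M + k) - G k‖ ≤ 2 := by
      refine (norm_sub_le _ _).trans ?_
      linarith [hG (M + k), hG k]
    push_cast
    linarith

/-- **the shift** -/
theorem shift (G : ℕ → ℂ) (hG : ∀ i, ‖G i‖ ≤ 1) (M V : ℕ) (hV : 1 ≤ V) (T : ℝ)
    (hT : ∀ i, ‖∑ x ∈ Finset.Icc 1 V, ∑ y ∈ Finset.Icc 1 V, G (i + x * y)‖ ≤ (V : ℝ) ^ 2 * T) :
    ‖∑ i ∈ range M, G i‖ ≤ M * T + 2 * (V : ℝ) ^ 2 := by
  have hV0 : (0 : ℝ) < V := by exact_mod_cast hV
  set S := ∑ i ∈ range M, G i with hS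
  have h1 : ‖∑ x ∈ Finset.Icc 1 V, ∑ y ∈ Finset.Icc 1 V, (∑ i ∈ range M, G (i + x * y) - S)‖ ≤
      (V : ℝ) ^ 2 * (2 * (V : ℝ) ^ 2) := by
    refine (norm_sum_le _ _).trans ?_
    calc ∑ x ∈ Finset.Icc 1 V, ‖∑ y ∈ Finset.Icc 1 V, (∑ i ∈ range M, G (i + x * y) - S)‖
        ≤ ∑ _x ∈ Finset.Icc 1 V, ((V : ℝ) * (2 * (V : ℝ) ^ 2)) := by
          refine Finset.sum_le_sum fun x hx => ?_
          refine (norm_sum_le _ _).trans ?_
          calc ∑ y ∈ Finset.Icc 1 V, ‖∑ i ∈ range M, G (i + x * y) - S‖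
              ≤ ∑ _y ∈ Finset.Icc 1 V, (2 * (V : ℝ) ^ 2) := by
                refine Finset.sum_le_sum fun y hy => ?_
                rw [Finset.mem_Icc] at hx hy
                refine (shift_k G hG M (x * y)).trans ?_
                have h2 : ((x * y : ℕ) : ℝ) ≤ (V : ℝ) ^ 2 := by
                  rw [pow_two]
                  push_cast
                  have hx2 : (x : ℝ) ≤ V := by exact_mod_cast hx.2
                  have hy2 : (y : ℝ) ≤ V := by exact_mod_cast hy.2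
                  exact mul_le_mul hx2 hy2 (Nat.cast_nonneg _) hV0.le
                linarith
            _ = _ := by
                rw [Finset.sum_const, Nat.card_Icc, nsmul_eq_mul]
                simp
      _ = _ := by
          rw [Finset.sum_const, Nat.card_Icc, nsmul_eq_mul]
          simp
          ring
  have h2 : ∑ x ∈ Finset.Icc 1 V, ∑ y ∈ Finset.Icc 1 V, (∑ i ∈ range M, G (i + x * y) - S) =
      ∑ i ∈ range M, (∑ x ∈ Finset.Icc 1 V, ∑ y ∈ Finset.Icc 1 V, G (i + x * y)) -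
        (V : ℂ) ^ 2 * S := by
    simp_rw [Finset.sum_sub_distrib]
    congr 1
    · rw [Finset.sum_comm' (s := range M) (t' := Finset.Icc 1 V) (s' := fun _ => range M)
        (t := fun _ => Finset.Icc 1 V) (by simp [and_comm])]
      refine Finset.sum_congr rfl fun x _ => ?_
      rw [Finset.sum_comm]
    · rw [Finset.sum_const, Finset.sum_const, Nat.card_Icc, nsmul_eq_mul, nsmul_eq_mul]
      simp
      ring
  have h3 : ‖∑ i ∈ range M, (∑ x ∈ Finset.Icc 1 V, ∑ y ∈ Finset.Icc 1 V, G (i + x * y))‖ ≤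
      M * ((V : ℝ) ^ 2 * T) := by
    refine (norm_sum_le _ _).trans ?_
    calc _ ≤ ∑ _i ∈ range M, (V : ℝ) ^ 2 * T := Finset.sum_le_sum fun i _ => hT i
      _ = _ := by rw [Finset.sum_const, Finset.card_range, nsmul_eq_mul]
  have h4 : ‖(V : ℂ) ^ 2 * S‖ ≤ (V : ℝ) ^ 2 * (M * T + 2 * (V : ℝ) ^ 2) := by
    have e1 : (V : ℂ) ^ 2 * S = ∑ i ∈ range M, (∑ x ∈ Finset.Icc 1 V, ∑ y ∈ Finset.Icc 1 V,
        G (i + x * y)) - ∑ x ∈ Finset.Icc 1 V, ∑ y ∈ Finset.Icc 1 V,
          (∑ i ∈ range M, G (i + x * y) - S) := by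
      rw [h2]
      ring
    rw [e1]
    refine (norm_sub_le _ _).trans ?_
    linarith
  rw [norm_mul, norm_pow, Complex.norm_natCast] at h4
  exact le_of_mul_le_mul_left h4 (by positivity)

/-- the bilinear sums of a polynomial -/
lemma poly_tt (f : ℝ[X]) (r V : ℕ) (hf : f.natDegree ≤ r) (i : ℝ) :
    ‖∑ x ∈ Finset.Icc 1 V, ∑ y ∈ Finset.Icc 1 V, e (f.eval (i + (x : ℝ) * y))‖ =
      ‖TT r V (fun j => (taylor i f).coeff j)‖ := by
  have h1 : ∀ t : ℝ, e (f.eval (i + t)) =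
      e ((taylor i f).coeff 0) * e (∑ j ∈ Finset.Icc 1 r, (taylor i f).coeff j * t ^ j) := by
    intro t
    rw [← e_add]
    congr 1
    rw [add_comm i t, ← taylor_eval, Polynomial.eval_eq_sum_range' (n := r + 1)
      (by rw [natDegree_taylor]; omega)]
    rw [Finset.sum_range_succ', pow_zero, mul_one, add_comm]
    congr 1
    rw [Finset.range_eq_Ico, Finset.sum_Ico_add' (fun j => (taylor i f).coeff j * t ^ j) 0 r 1]
    rfl
  rw [tt_e]
  have h2 : ∑ x ∈ Finset.Icc 1 V, ∑ y ∈ Finset.Icc 1 V, e (f.eval (i + (x : ℝ) * y)) =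
      e ((taylor i f).coeff 0) * ∑ x ∈ Finset.Icc 1 V, ∑ y ∈ Finset.Icc 1 V,
        e (∑ j ∈ Finset.Icc 1 r, (taylor i f).coeff j * ((x : ℝ) * y) ^ j) := by
    rw [Finset.mul_sum]
    refine Finset.sum_congr rfl fun x _ => ?_
    rw [Finset.mul_sum]
    refine Finset.sum_congr rfl fun y _ => ?_
    rw [h1]
  rw [h2, norm_mul, norm_e, one_mul]

lemma top_coeff (f : ℝ[X]) (j0 : ℕ) (hf : f.natDegree ≤ j0) (i : ℝ) :
    (taylor i f).coeff j0 = f.coeff j0 := by
  rcases Nat.lt_or_ge f.natDegree j0 with h | h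
  · rw [Polynomial.coeff_eq_zero_of_natDegree_lt (by rw [natDegree_taylor]; exact h),
      Polynomial.coeff_eq_zero_of_natDegree_lt h]
  · have h1 : f.natDegree = j0 := le_antisymm hf h
    subst h1
    rw [coeff_taylor_natDegree]
    rfl

/-- **Weyl sums of growing degree**, first form -/
theorem weyl1 : ∃ C : ℕ, ∀ (r L V j0 K M : ℕ) (f : ℝ[X]) (δ y : ℝ), 2 ≤ r → 1 ≤ L → 1 ≤ V → 1 ≤ j0 →
    j0 ≤ r → f.natDegree ≤ j0 → 1 ≤ K → 0 < δ → δ ≤ 1 →
    (∀ u : ℕ, 1 ≤ u → u < K → δ ≤ dz (f.coeff j0 * u)) →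
    Real.exp (C * ((r : ℝ) + L) ^ C) * (V : ℝ) ^ (r * (r + 1) * Real.exp (-L) : ℝ) *
      ((1 / K + 1 / (V : ℝ) ^ j0 + (1 / δ * (1 + Real.log (1 / δ))) / (K * (V : ℝ) ^ j0) +
        (1 / δ * (1 + Real.log (1 / δ))) / ((V : ℝ) ^ j0) ^ 2)) ≤
      Real.exp (-(4 * ((r ^ 2 + r * (r * L) : ℕ) : ℝ) ^ 2 * y)) →
    ∀ c : ℝ, ‖∑ i ∈ range M, e (f.eval ((i : ℝ) + c))‖ ≤ M * Real.exp (-y) + 2 * (V : ℝ) ^ 2 := by
  obtain ⟨C, hC⟩ := tt_bound
  refine ⟨C + 1, ?_⟩
  intro r L V j0 K M f δ y hr hL hV hj0 hj0r hf hK hδ hδ1 hdz hmain c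
  set s : ℕ := r ^ 2 + r * (r * L) with hs
  have hs1 : 1 ≤ s := by
    rw [hs]
    have : 1 ≤ r ^ 2 := Nat.one_le_pow _ _ (by omega)
    omega
  have hV0 : (0 : ℝ) < V := by exact_mod_cast hV
  have hV1 : (1 : ℝ) ≤ V := by exact_mod_cast hV
  have hK0 : (0 : ℝ) < K := by exact_mod_cast hK
  have hr1 : (2 : ℝ) ≤ r := by exact_mod_cast hr
  have hL1 : (1 : ℝ) ≤ L := by exact_mod_cast hL
  set W : ℝ := (V : ℝ) ^ j0 with hW
  have hW1 : 1 ≤ W := one_le_pow₀ hV1
  set D : ℝ := 1 / δ * (1 + Real.log (1 / δ)) with hD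
  have hD0 : 0 ≤ D := by
    have : 0 ≤ Real.log (1 / δ) := Real.log_nonneg (by rw [le_div_iff₀ hδ]; linarith)
    rw [hD]
    positivity
  set σ : ℝ := 2 * (1 / K + 1 / W + D / (K * W) + D / W ^ 2) with hσ
  have hσ0 : 0 ≤ σ := by rw [hσ]; positivity
  apply shift (fun i => e (f.eval ((i : ℝ) + c))) (fun i => (norm_e _).le) M V hV
  intro i
  have e1 : ∑ x ∈ Finset.Icc 1 V, ∑ y ∈ Finset.Icc 1 V,
      e (f.eval (((i + x * y : ℕ) : ℝ) + c)) =
      ∑ x ∈ Finset.Icc 1 V, ∑ y ∈ Finset.Icc 1 V, e (f.eval (((i : ℝ) + c) + (x : ℝ) * y)) := by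
    refine Finset.sum_congr rfl fun x _ => Finset.sum_congr rfl fun y _ => ?_
    congr 2
    push_cast
    ring
  rw [e1, poly_tt f r V (by omega)]
  set α : ℕ → ℝ := fun j => (taylor ((i : ℝ) + c) f).coeff j with hα
  have hwj : WJ s V j0 (α j0) ≤ (3 * ((s : ℝ) * (V : ℝ) ^ j0)) ^ 2 * σ := by
    have h1 := wj_le s V j0 K (f.coeff j0) δ hK hδ hδ1 hdz
    rw [← top_coeff f j0 hf ((i : ℝ) + c)] at h1
    refine h1.trans ?_
    rw [← hD]
    have e2 : ((s * V ^ j0 : ℕ) : ℝ) = s * W := by push_cast; rw [hW]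
    rw [e2, ← hW]
    have hs0 : (1 : ℝ) ≤ s := by exact_mod_cast hs1
    set P : ℝ := (s : ℝ) * W with hP
    have hP1 : 1 ≤ P := by rw [hP]; nlinarith
    have hPW : W ≤ P := by rw [hP]; nlinarith
    have h2 : (2 * P + 1) / K + 1 ≤ 3 * P / K + 1 := by
      have : (2 * P + 1) / K ≤ 3 * P / K := div_le_div_of_nonneg_right (by linarith) hK0.le
      linarith
    have h3 : 2 * (2 * P + 1) + D ≤ 6 * P + D := by linarith
    calc ((2 * P + 1) / K + 1) * (2 * (2 * P + 1) + D) ≤ (3 * P / K + 1) * (6 * P + D) :=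
          mul_le_mul h2 h3 (by positivity) (by positivity)
      _ = 9 * P ^ 2 * (2 / K + 2 / 3 / P + D / (3 * K * P) + D / (9 * P ^ 2)) := by
          field_simp
          ring
      _ ≤ 9 * P ^ 2 * σ := by
          apply mul_le_mul_of_nonneg_left _ (by positivity)
          have h4 : 2 / 3 / P ≤ 2 * (1 / W) := by
            rw [← mul_div_assoc, mul_one]
            calc 2 / 3 / P ≤ 2 / P := div_le_div_of_nonneg_right (by norm_num) (by linarith)
              _ ≤ 2 / W := div_le_div_of_nonneg_left (by norm_num) (by linarith) hPW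
          have h5 : D / (3 * K * P) ≤ 2 * (D / (K * W)) := by
            calc D / (3 * K * P) ≤ D / (K * W) := by
                  apply div_le_div_of_nonneg_left hD0 (by positivity)
                  nlinarith
              _ ≤ _ := by
                  have : 0 ≤ D / (K * W) := by positivity
                  linarith
          have h6 : D / (9 * P ^ 2) ≤ 2 * (D / W ^ 2) := by
            calc D / (9 * P ^ 2) ≤ D / W ^ 2 := by
                  apply div_le_div_of_nonneg_left hD0 (by positivity)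
                  nlinarith
              _ ≤ _ := by
                  have : 0 ≤ D / W ^ 2 := by positivity
                  linarith
          rw [hσ]
          have h7 : (2 : ℝ) / K = 2 * (1 / K) := by ring
          rw [h7]
          linarith
      _ = _ := by ring
  have hb := hC r L V j0 α σ hr hL hV hj0 hj0r hσ0 (by rw [← hs]; exact hwj)
  rw [← hs] at hb
  have h8 : Real.exp (C * ((r : ℝ) + L) ^ C) * (V : ℝ) ^ (r * (r + 1) * Real.exp (-L) : ℝ) * σ ≤
      Real.exp (-(4 * (s : ℝ) ^ 2 * y)) := by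
    refine le_trans ?_ hmain
    rw [hσ]
    set Z : ℝ := 1 / K + 1 / W + D / (K * W) + D / W ^ 2 with hZ
    have hZ0 : 0 ≤ Z := by rw [hZ]; positivity
    have h9 : Real.exp (C * ((r : ℝ) + L) ^ C) * 2 ≤
        Real.exp (((C + 1 : ℕ) : ℝ) * ((r : ℝ) + L) ^ (C + 1)) := by
      have h10 : (2 : ℝ) ≤ Real.exp 1 := by
        have := Real.add_one_le_exp (1 : ℝ)
        linarith
      calc Real.exp (C * ((r : ℝ) + L) ^ C) * 2 ≤ Real.exp (C * ((r : ℝ) + L) ^ C) * Real.exp 1 :=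
            mul_le_mul_of_nonneg_left h10 (Real.exp_pos _).le
        _ = Real.exp (C * ((r : ℝ) + L) ^ C + 1) := by rw [Real.exp_add]
        _ ≤ _ := by
            apply Real.exp_le_exp.2
            push_cast
            have h11 : (1 : ℝ) ≤ (r : ℝ) + L := by linarith
            have h12 : ((r : ℝ) + L) ^ C ≤ ((r : ℝ) + L) ^ (C + 1) :=
              pow_le_pow_right₀ h11 (by omega)
            have h13 : 1 ≤ ((r : ℝ) + L) ^ (C + 1) := one_le_pow₀ h11
            have h14 : (0 : ℝ) ≤ C := Nat.cast_nonneg _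
            nlinarith
    calc Real.exp (C * ((r : ℝ) + L) ^ C) * (V : ℝ) ^ (r * (r + 1) * Real.exp (-L) : ℝ) * (2 * Z)
        = (Real.exp (C * ((r : ℝ) + L) ^ C) * 2) *
          ((V : ℝ) ^ (r * (r + 1) * Real.exp (-L) : ℝ) * Z) := by ring
      _ ≤ Real.exp (((C + 1 : ℕ) : ℝ) * ((r : ℝ) + L) ^ (C + 1)) *
          ((V : ℝ) ^ (r * (r + 1) * Real.exp (-L) : ℝ) * Z) :=
          mul_le_mul_of_nonneg_right h9 (by positivity)
      _ = _ := by ring
  have h9 : ‖TT r V α‖ ^ (4 * s ^ 2) ≤ ((V : ℝ) ^ 2 * Real.exp (-y)) ^ (4 * s ^ 2) := by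
    refine hb.trans ?_
    rw [mul_pow, ← pow_mul, ← Real.exp_nat_mul]
    have e3 : 2 * (4 * s ^ 2) = 8 * s ^ 2 := by ring
    rw [e3]
    apply mul_le_mul_of_nonneg_left _ (by positivity)
    refine h8.trans (le_of_eq ?_)
    congr 1
    push_cast
    ring
  exact le_of_pow_le_pow_left₀ (by positivity) (by positivity) h9

end Pool.Agent.Q263.WE
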