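import Mathlib
import Pool.Agent.Q263.WE.Shf

/-!
A nonnegative trigonometric majorant of the cells `[c / q, (c + 1) / q)`.
-/

set_option autoImplicit false

open Finset

namespace Pool.Agent.Q263.WE

open Pool.Agent.Y957.VK (dz)
open Pool.Agent.H332R2.Lit (e e_add norm_e e_zero)

/-- the sum `∑_{k < Q} e(k x)` -/
noncomputable def gs (Q : ℕ) (x : ℝ) : ℂ := ∑ k ∈ range Q, e (k * x)

lemma gs_add_int (Q : ℕ) (x : ℝ) (n : ℤ) : gs Q (x + n) = gs Q x := by
  unfold gs
  refine Finset.sum_congr rfl fun k _ => ?_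
  rw [mul_add, e_add]
  have h1 := e_int ((k : ℤ) * n)
  push_cast at h1
  rw [h1, mul_one]

lemma e_neg (x : ℝ) : e (-x) = (starRingEnd ℂ) (e x) := by
  unfold e
  rw [← Complex.exp_conj]
  congr 1
  simp only [map_mul, Complex.conj_I, Complex.conj_ofReal, map_ofNat]
  push_cast
  ring

lemma norm_one_sub_e (x : ℝ) : 4 * dz x ≤ ‖1 - e x‖ := by
  have h1 : e x = e (x - round x) := by
    have h2 := e_int (round x)
    have h3 : x = (x - round x) + round x := by ring
    nth_rw 1 [h3]
    rw [e_add, h2, mul_one]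
  rw [h1]
  set y : ℝ := x - round x with hy
  have hy1 : |y| ≤ 1 / 2 := abs_sub_round x
  have h2 : ‖1 - e y‖ = 2 * |Real.sin (Real.pi * y)| := by
    have h3 : e y = Complex.exp (Complex.I * ((2 * Real.pi * y : ℝ) : ℂ)) := by
      unfold e
      congr 1
      push_cast
      ring
    rw [h3, norm_sub_rev, Complex.norm_exp_I_mul_ofReal_sub_one]
    rw [Real.norm_eq_abs, abs_mul, abs_of_pos (by norm_num : (0 : ℝ) < 2)]
    congr 3
    ring
  rw [h2]
  have h3 : |Real.sin (Real.pi * y)| = Real.sin (Real.pi * |y|) := by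
    rcases abs_cases y with ⟨h4, h5⟩ | ⟨h4, h5⟩
    · rw [h4, abs_of_nonneg]
      apply Real.sin_nonneg_of_nonneg_of_le_pi
      · positivity
      · rw [h4] at hy1
        nlinarith [Real.pi_pos]
    · rw [h4, mul_neg, Real.sin_neg, abs_of_nonpos]
      rw [h4] at hy1
      have : 0 ≤ Real.sin (Real.pi * (-y)) := by
        apply Real.sin_nonneg_of_nonneg_of_le_pi
        · nlinarith [Real.pi_pos]
        · nlinarith [Real.pi_pos]
      rw [mul_neg, Real.sin_neg] at this
      linarith
  rw [h3]
  have h4 : 2 / Real.pi * (Real.pi * |y|) ≤ Real.sin (Real.pi * |y|) := by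
    apply Real.mul_le_sin
    · positivity
    · nlinarith [Real.pi_pos]
  have h5 : 2 / Real.pi * (Real.pi * |y|) = 2 * |y| := by
    field_simp
  have h6 : dz x = |y| := rfl
  rw [h6]
  linarith

lemma gs_bound (Q : ℕ) (x : ℝ) : ‖gs Q x‖ * (2 * dz x) ≤ 1 := by
  have h1 : gs Q x * (1 - e x) = 1 - e (Q * x) := by
    induction Q with
    | zero => simp [gs, e_zero]
    | succ Q ih =>
      have h2 : gs (Q + 1) x = gs Q x + e (Q * x) := by
        unfold gs
        rw [Finset.sum_range_succ]
      rw [h2, add_mul, ih]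
      have h3 : e (((Q + 1 : ℕ) : ℝ) * x) = e (Q * x) * e x := by
        rw [← e_add]
        congr 1
        push_cast
        ring
      rw [h3]
      ring
  have h2 : ‖gs Q x‖ * ‖1 - e x‖ ≤ 2 := by
    rw [← norm_mul, h1]
    refine (norm_sub_le _ _).trans ?_
    rw [norm_e, norm_one]
    norm_num
  have h3 := norm_one_sub_e x
  have h4 : ‖gs Q x‖ * (4 * dz x) ≤ ‖gs Q x‖ * ‖1 - e x‖ :=
    mul_le_mul_of_nonneg_left h3 (norm_nonneg _)
  linarith

/-- orthogonality -/
lemma orth (Q : ℕ) (hQ : 1 ≤ Q) (k l : ℕ) (hk : k < Q) (hl : l < Q) :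
    ∑ j ∈ range Q, e (-(((k : ℝ) - l) * (j / Q))) = if k = l then (Q : ℂ) else 0 := by
  have hQ0 : (Q : ℝ) ≠ 0 := by
    have : (0 : ℝ) < Q := by exact_mod_cast hQ
    exact this.ne'
  split_ifs with h
  · subst h
    simp [e_zero]
  · set x : ℝ := -(((k : ℝ) - l) / Q) with hx
    have h1 : ∑ j ∈ range Q, e (-(((k : ℝ) - l) * (j / Q))) = gs Q x := by
      unfold gs
      refine Finset.sum_congr rfl fun j _ => ?_
      congr 1
      rw [hx]
      ring
    rw [h1]
    have h2 : gs Q x * (1 - e x) = 0 := by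
      have h3 : gs Q x * (1 - e x) = 1 - e (Q * x) := by
        have key : ∀ R : ℕ, gs R x * (1 - e x) = 1 - e (R * x) := by
          intro R
          induction R with
          | zero => simp [gs, e_zero]
          | succ R ih =>
            have h2 : gs (R + 1) x = gs R x + e (R * x) := by
              unfold gs
              rw [Finset.sum_range_succ]
            rw [h2, add_mul, ih]
            have h3 : e (((R + 1 : ℕ) : ℝ) * x) = e (R * x) * e x := by
              rw [← e_add]
              congr 1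
              push_cast
              ring
            rw [h3]
            ring
        exact key Q
      rw [h3]
      have h4 : (Q : ℝ) * x = (((l : ℤ) - k : ℤ) : ℝ) := by
        rw [hx]
        push_cast
        field_simp
        ring
      rw [h4, e_int, sub_self]
    rcases mul_eq_zero.1 h2 with h3 | h3
    · exact h3
    · exfalso
      have h4 : ‖1 - e x‖ = 0 := by rw [h3, norm_zero]
      have h5 := norm_one_sub_e x
      have h6 : dz x ≤ 0 := by linarith
      have h7 : dz x = 0 := le_antisymm h6 (dz_nonneg x)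
      have h8 : x = round x := by
        unfold dz at h7
        have := abs_eq_zero.1 h7
        linarith
      have h9 : (((l : ℤ) - k : ℤ) : ℝ) = ((Q * round x : ℤ) : ℝ) := by
        push_cast
        rw [← h8, hx]
        field_simp
        ring
      have h10 : (l : ℤ) - k = Q * round x := by exact_mod_cast h9
      have h11 : |(l : ℤ) - k| < Q := by
        rw [abs_lt]
        constructor <;> omega
      have h12 : round x = 0 := by
        by_contra hne
        have h13 : 1 ≤ |round x| := Int.one_le_abs hne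
        rw [h10, abs_mul, Nat.abs_cast] at h11
        have h14 : (1 : ℤ) ≤ Q := by exact_mod_cast hQ
        nlinarith
      rw [h12, mul_zero] at h10
      apply h
      omega

/-- Parseval -/
lemma parseval (Q : ℕ) (hQ : 1 ≤ Q) (x : ℝ) :
    ∑ j ∈ range Q, ‖gs Q (x - j / Q)‖ ^ 2 = (Q : ℝ) ^ 2 := by
  have h1 : ∀ y : ℝ, ((‖gs Q y‖ ^ 2 : ℝ) : ℂ) =
      ∑ k ∈ range Q, ∑ l ∈ range Q, e (((k : ℝ) - l) * y) := by
    intro y
    have h2 : ((‖gs Q y‖ ^ 2 : ℝ) : ℂ) = gs Q y * (starRingEnd ℂ) (gs Q y) := by
      rw [Complex.mul_conj, Complex.normSq_eq_norm_sq]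
    rw [h2]
    unfold gs
    rw [map_sum, Finset.sum_mul_sum]
    refine Finset.sum_congr rfl fun k _ => Finset.sum_congr rfl fun l _ => ?_
    rw [← e_neg, ← e_add]
    congr 1
    ring
  have h2 : ((∑ j ∈ range Q, ‖gs Q (x - j / Q)‖ ^ 2 : ℝ) : ℂ) = ((Q : ℝ) ^ 2 : ℝ) := by
    push_cast
    have h3 : ∀ j : ℕ, ((‖gs Q (x - j / Q)‖ : ℂ)) ^ 2 =
        ∑ k ∈ range Q, ∑ l ∈ range Q, e (((k : ℝ) - l) * x) * e (-(((k : ℝ) - l) * (j / Q))) := by
      intro j
      have h4 := h1 (x - j / Q)
      push_cast at h4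
      rw [h4]
      refine Finset.sum_congr rfl fun k _ => Finset.sum_congr rfl fun l _ => ?_
      rw [← e_add]
      congr 1
      ring
    simp_rw [h3]
    rw [Finset.sum_comm]
    have h5 : ∀ k ∈ range Q, ∀ l ∈ range Q,
        ∑ j ∈ range Q, e (((k : ℝ) - l) * x) * e (-(((k : ℝ) - l) * (j / Q))) =
          if k = l then (Q : ℂ) else 0 := by
      intro k hk l hl
      rw [Finset.mem_range] at hk hl
      rw [← Finset.mul_sum, orth Q hQ k l hk hl]
      split_ifs with h
      · subst h
        simp [e_zero]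
      · simp
    calc _ = ∑ k ∈ range Q, ∑ l ∈ range Q, (if k = l then (Q : ℂ) else 0) := by
          refine Finset.sum_congr rfl fun k hk => ?_
          rw [Finset.sum_comm]
          exact Finset.sum_congr rfl fun l hl => h5 k hk l hl
      _ = _ := by
          simp only [Finset.sum_ite_eq]
          rw [Finset.sum_ite_mem]
          simp
          ring
  exact_mod_cast h2

end Pool.Agent.Q263.WE
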