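import Mathlib
import Pool.Agent.Q263.WE.Maj

/-!
Joint distribution in growing dimension: small exponential sums imply that the vector of the cells is uniformly
distributed, up to a small error in total variation.
-/

set_option autoImplicit false

open Finset

namespace Pool.Agent.Q263.WE

open Pool.Agent.Y957.VK (dz)
open Pool.Agent.H332R2.Lit (e e_add norm_e e_zero)

/-- the shifts for the cell `c` -/
noncomputable def Sc (q w c : ℕ) : Finset ℕ := by
  classical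
  exact (range ((q * w) ^ 3)).filter (fun j => ∃ n : ℤ,
    (c : ℤ) * (q ^ 2 * w ^ 3) - (q * w) ^ 2 ≤ j + n * (q * w) ^ 3 ∧
      (j : ℤ) + n * (q * w) ^ 3 ≤ (c + 1) * (q ^ 2 * w ^ 3) + (q * w) ^ 2)

lemma mem_Sc (q w c j : ℕ) : j ∈ Sc q w c ↔ j < (q * w) ^ 3 ∧ ∃ n : ℤ,
    (c : ℤ) * (q ^ 2 * w ^ 3) - (q * w) ^ 2 ≤ j + n * (q * w) ^ 3 ∧
      (j : ℤ) + n * (q * w) ^ 3 ≤ (c + 1) * (q ^ 2 * w ^ 3) + (q * w) ^ 2 := by
  classical
  unfold Sc
  rw [Finset.mem_filter, Finset.mem_range]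

lemma card_Sc (q w c : ℕ) :
    (Sc q w c).card ≤ q ^ 2 * w ^ 3 + 2 * (q * w) ^ 2 + 1 := by
  set a : ℤ := (c : ℤ) * (q ^ 2 * w ^ 3) - (q * w) ^ 2 with ha
  set b : ℤ := ((c : ℤ) + 1) * (q ^ 2 * w ^ 3) + (q * w) ^ 2 with hb
  have h1 : Sc q w c ⊆ (Finset.Icc a b).image (fun i : ℤ => (i % ((q * w : ℕ) ^ 3 : ℤ)).toNat) := by
    intro j hj
    rw [mem_Sc] at hj
    obtain ⟨hj1, n, hn1, hn2⟩ := hj
    rw [Finset.mem_image]
    refine ⟨(j : ℤ) + n * (q * w) ^ 3, Finset.mem_Icc.2 ⟨hn1, hn2⟩, ?_⟩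
    have h2 : ((j : ℤ) + n * (q * w) ^ 3) % ((q * w : ℕ) ^ 3 : ℤ) = j := by
      push_cast
      rw [Int.add_mul_emod_self_right]
      apply Int.emod_eq_of_lt (by positivity)
      exact_mod_cast hj1
    rw [h2, Int.toNat_natCast]
  refine (Finset.card_le_card h1).trans (Finset.card_image_le.trans ?_)
  rw [Int.card_Icc]
  have h2 : b + 1 - a = ((q ^ 2 * w ^ 3 + 2 * (q * w) ^ 2 + 1 : ℕ) : ℤ) := by
    rw [ha, hb]
    push_cast
    ring
  rw [h2, Int.toNat_natCast]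

lemma card_Sc' (q w c : ℕ) : (Sc q w c).card ≤ (q * w) ^ 3 := by
  have h1 : Sc q w c ⊆ range ((q * w) ^ 3) := by
    intro j hj
    rw [mem_Sc] at hj
    exact Finset.mem_range.2 hj.1
  simpa using Finset.card_le_card h1

/-- the majorant of the cell `c` -/
noncomputable def Tc (q w c : ℕ) (x : ℝ) : ℝ :=
  (∑ j ∈ Sc q w c, ‖gs ((q * w) ^ 3) (x - j / ((q * w : ℕ) ^ 3 : ℝ))‖ ^ 2) / ((q * w : ℕ) ^ 3 : ℝ) ^ 2

lemma tc_nonneg (q w c : ℕ) (x : ℝ) : 0 ≤ Tc q w c x := by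
  unfold Tc
  positivity

lemma tc_ge (q w c : ℕ) (hq : 1 ≤ q) (hw : 1 ≤ w) (x : ℝ) (hx : ⌊(q : ℝ) * Int.fract x⌋₊ = c) :
    1 - 1 / (4 * (w : ℝ)) ≤ Tc q w c x := by
  classical
  set Q : ℕ := (q * w) ^ 3 with hQ
  have hqw : 1 ≤ q * w := Nat.mul_pos hq hw
  have hQ1 : 1 ≤ Q := Nat.one_le_pow _ _ hqw
  have hQ0 : (0 : ℝ) < Q := by exact_mod_cast hQ1
  have hq0 : (0 : ℝ) < q := by exact_mod_cast hq
  have hw0 : (0 : ℝ) < w := by exact_mod_cast hw
  have hq1 : (1 : ℝ) ≤ q := by exact_mod_cast hq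
  have hQr : ((q * w : ℕ) ^ 3 : ℝ) = Q := by rw [hQ]; push_cast; ring
  have hQe : (Q : ℝ) = ((q : ℝ) * w) ^ 3 := by rw [← hQr]; push_cast; ring
  have hpar := parseval Q hQ1 x
  unfold Tc
  rw [hQr, ← hQ]
  have hsub : Sc q w c ⊆ range Q := by
    intro j hj
    rw [mem_Sc] at hj
    exact Finset.mem_range.2 hj.1
  have hfr : (c : ℝ) ≤ q * Int.fract x ∧ q * Int.fract x < c + 1 := by
    have h1 : 0 ≤ (q : ℝ) * Int.fract x := mul_nonneg hq0.le (Int.fract_nonneg _)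
    constructor
    · rw [← hx]
      exact Nat.floor_le h1
    · rw [← hx]
      exact Nat.lt_floor_add_one _
  have hout : ∀ j ∈ range Q \ Sc q w c, ‖gs Q (x - j / Q)‖ ^ 2 ≤ ((q : ℝ) * w) ^ 2 / 4 := by
    intro j hj
    rw [Finset.mem_sdiff, Finset.mem_range, mem_Sc] at hj
    obtain ⟨hj1, hj2⟩ := hj
    have hdz : 1 / ((q : ℝ) * w) ≤ dz (x - j / Q) := by
      unfold dz
      set n := round (x - (j : ℝ) / Q) with hn
      have h3 : ¬ ((c : ℤ) * (q ^ 2 * w ^ 3) - (q * w) ^ 2 ≤ j + (n - ⌊x⌋) * (q * w) ^ 3 ∧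
          (j : ℤ) + (n - ⌊x⌋) * (q * w) ^ 3 ≤ (c + 1) * (q ^ 2 * w ^ 3) + (q * w) ^ 2) := by
        intro h4
        exact hj2 ⟨hj1, n - ⌊x⌋, h4.1, h4.2⟩
      rw [not_and_or, not_le, not_le] at h3
      have e1 : x - (j : ℝ) / Q - n = Int.fract x - ((j : ℝ) + (n - ⌊x⌋) * Q) / Q := by
        rw [Int.fract]
        field_simp
        ring
      rw [e1]
      rcases h3 with h3 | h3
      · have h5 : (j : ℝ) + (n - ⌊x⌋) * Q < (c : ℝ) * (q ^ 2 * w ^ 3) - (q * w) ^ 2 := by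
          rw [hQe]
          exact_mod_cast h3
        have h6 : ((j : ℝ) + (n - ⌊x⌋) * Q) / Q < c / q - 1 / (q * w) := by
          rw [div_lt_iff₀ hQ0, hQe]
          have e2 : ((c : ℝ) / q - 1 / (q * w)) * ((q : ℝ) * w) ^ 3 =
              (c : ℝ) * (q ^ 2 * w ^ 3) - (q * w) ^ 2 := by
            field_simp
          rw [e2, ← hQe]
          exact h5
        have h7 : (c : ℝ) / q ≤ Int.fract x := by
          rw [div_le_iff₀ hq0]
          linarith [hfr.1]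
        rw [abs_of_nonneg (by
          have : 0 < 1 / ((q : ℝ) * w) := by positivity
          linarith)]
        linarith
      · have h5 : ((c : ℝ) + 1) * (q ^ 2 * w ^ 3) + (q * w) ^ 2 < (j : ℝ) + (n - ⌊x⌋) * Q := by
          rw [hQe]
          exact_mod_cast h3
        have h6 : ((c : ℝ) + 1) / q + 1 / (q * w) < ((j : ℝ) + (n - ⌊x⌋) * Q) / Q := by
          rw [lt_div_iff₀ hQ0]
          have e2 : (((c : ℝ) + 1) / q + 1 / (q * w)) * (Q : ℝ) =
              ((c : ℝ) + 1) * (q ^ 2 * w ^ 3) + (q * w) ^ 2 := by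
            rw [hQe]
            field_simp
          rw [e2]
          exact h5
        have h7 : Int.fract x < ((c : ℝ) + 1) / q := by
          rw [lt_div_iff₀ hq0]
          linarith [hfr.2]
        rw [abs_of_nonpos (by
          have : 0 < 1 / ((q : ℝ) * w) := by positivity
          linarith)]
        linarith
    have h8 := gs_bound Q (x - j / Q)
    have h9 : ‖gs Q (x - j / Q)‖ * (2 * (1 / ((q : ℝ) * w))) ≤ 1 :=
      (mul_le_mul_of_nonneg_left (by linarith) (norm_nonneg _)).trans h8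
    have h10 : ‖gs Q (x - j / Q)‖ ≤ (q : ℝ) * w / 2 := by
      have e3 : ‖gs Q (x - j / Q)‖ * (2 * (1 / ((q : ℝ) * w))) =
          ‖gs Q (x - j / Q)‖ / ((q : ℝ) * w / 2) := by
        field_simp
      rw [e3, div_le_one (by positivity)] at h9
      exact h9
    calc ‖gs Q (x - j / Q)‖ ^ 2 ≤ ((q : ℝ) * w / 2) ^ 2 :=
          pow_le_pow_left₀ (norm_nonneg _) h10 2
      _ = _ := by ring
  have hsum : ∑ j ∈ range Q \ Sc q w c, ‖gs Q (x - j / Q)‖ ^ 2 ≤ Q * (((q : ℝ) * w) ^ 2 / 4) := by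
    refine (Finset.sum_le_sum hout).trans ?_
    rw [Finset.sum_const, nsmul_eq_mul]
    apply mul_le_mul_of_nonneg_right _ (by positivity)
    have : (range Q \ Sc q w c).card ≤ Q := by
      simpa using Finset.card_le_card (Finset.sdiff_subset (s := range Q) (t := Sc q w c))
    exact_mod_cast this
  have htot := Finset.sum_sdiff (f := fun j : ℕ => ‖gs Q (x - j / Q)‖ ^ 2) hsub
  rw [hpar] at htot
  rw [le_div_iff₀ (by positivity)]
  have h11 : (1 - 1 / (4 * (w : ℝ))) * (Q : ℝ) ^ 2 ≤ (Q : ℝ) ^ 2 - Q * (((q : ℝ) * w) ^ 2 / 4) := by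
    have h12 : (Q : ℝ) * (((q : ℝ) * w) ^ 2 / 4) ≤ 1 / (4 * (w : ℝ)) * (Q : ℝ) ^ 2 := by
      have h13 : ((q : ℝ) * w) ^ 2 / 4 ≤ 1 / (4 * (w : ℝ)) * Q := by
        rw [hQe, one_div, ← div_eq_inv_mul, div_le_div_iff₀ (by norm_num) (by positivity)]
        have e4 : ((q : ℝ) * w) ^ 3 * 4 = ((q : ℝ) * w) ^ 2 * (4 * w) * q := by ring
        rw [e4]
        exact le_mul_of_one_le_right (by positivity) hq1
      calc (Q : ℝ) * (((q : ℝ) * w) ^ 2 / 4) ≤ Q * (1 / (4 * (w : ℝ)) * Q) :=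
            mul_le_mul_of_nonneg_left h13 hQ0.le
        _ = _ := by ring
    linarith
  linarith

/-- the coefficients of the majorant -/
noncomputable def ac (q w c : ℕ) (p : ℕ × ℕ) : ℂ :=
  (∑ j ∈ Sc q w c, e (-(((p.1 : ℝ) - p.2) * (j / ((q * w : ℕ) ^ 3 : ℝ))))) /
    ((q * w : ℕ) ^ 3 : ℂ) ^ 2

lemma tc_eq (q w c : ℕ) (x : ℝ) : ((Tc q w c x : ℝ) : ℂ) =
    ∑ p ∈ range ((q * w) ^ 3) ×ˢ range ((q * w) ^ 3), ac q w c p *
      e ((((p.1 : ℤ) - p.2 : ℤ) : ℝ) * x) := by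
  set Q : ℕ := (q * w) ^ 3 with hQ
  have hQr : ((q * w : ℕ) ^ 3 : ℝ) = Q := by rw [hQ]; push_cast; ring
  have hQc : ((q * w : ℕ) ^ 3 : ℂ) = Q := by rw [hQ]; push_cast; ring
  have h1 : ∀ y : ℝ, ((‖gs Q y‖ : ℂ)) ^ 2 =
      ∑ k ∈ range Q, ∑ l ∈ range Q, e (((k : ℝ) - l) * y) := by
    intro y
    have h2 : ((‖gs Q y‖ : ℂ)) ^ 2 = gs Q y * (starRingEnd ℂ) (gs Q y) := by
      rw [Complex.mul_conj, Complex.normSq_eq_norm_sq]
      push_cast
      ring
    rw [h2]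
    unfold gs
    rw [map_sum, Finset.sum_mul_sum]
    refine Finset.sum_congr rfl fun k _ => Finset.sum_congr rfl fun l _ => ?_
    rw [← e_neg, ← e_add]
    congr 1
    ring
  unfold Tc ac
  rw [hQr, hQc, ← hQ, Finset.sum_product]
  push_cast
  simp_rw [h1]
  rw [Finset.sum_comm, Finset.sum_div]
  refine Finset.sum_congr rfl fun k _ => ?_
  rw [Finset.sum_comm, Finset.sum_div]
  refine Finset.sum_congr rfl fun l _ => ?_
  rw [div_mul_eq_mul_div, Finset.sum_mul]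
  congr 1
  refine Finset.sum_congr rfl fun j _ => ?_
  rw [← e_add]
  congr 1
  ring

lemma norm_ac (q w c : ℕ) (hq : 1 ≤ q) (hw : 1 ≤ w) :
    ∑ p ∈ range ((q * w) ^ 3) ×ˢ range ((q * w) ^ 3), ‖ac q w c p‖ ≤ ((q * w : ℕ) : ℝ) ^ 3 := by
  have hqw : 1 ≤ q * w := Nat.mul_pos hq hw
  set Q : ℕ := (q * w) ^ 3 with hQ
  have hQ1 : 1 ≤ Q := Nat.one_le_pow _ _ hqw
  have hQ0 : (0 : ℝ) < Q := by exact_mod_cast hQ1
  have hQr : ((q * w : ℕ) ^ 3 : ℝ) = Q := by rw [hQ]; push_cast; ring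
  have hQc : ((q * w : ℕ) ^ 3 : ℂ) = Q := by rw [hQ]; push_cast; ring
  have h1 : ∀ p : ℕ × ℕ, ‖ac q w c p‖ ≤ 1 / Q := by
    intro p
    unfold ac
    rw [hQr, hQc, norm_div, norm_pow, Complex.norm_natCast]
    have h2 : ‖∑ j ∈ Sc q w c, e (-(((p.1 : ℝ) - p.2) * (j / (Q : ℝ))))‖ ≤ Q := by
      refine (norm_sum_le _ _).trans ?_
      simp_rw [norm_e]
      rw [Finset.sum_const, nsmul_eq_mul, mul_one]
      exact_mod_cast card_Sc' q w c
    rw [div_le_div_iff₀ (by positivity) hQ0]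
    nlinarith
  rw [hQr]
  calc ∑ p ∈ range Q ×ˢ range Q, ‖ac q w c p‖ ≤ ∑ _p ∈ range Q ×ˢ range Q, 1 / (Q : ℝ) :=
        Finset.sum_le_sum fun p _ => h1 p
    _ = Q := by
        rw [Finset.sum_const, Finset.card_product, Finset.card_range, nsmul_eq_mul]
        push_cast
        field_simp

lemma const_ac (q w c : ℕ) (hq : 1 ≤ q) (hw : 1 ≤ w) :
    ∑ p ∈ (range ((q * w) ^ 3) ×ˢ range ((q * w) ^ 3)).filter (fun p => (p.1 : ℤ) - p.2 = 0),
      ac q w c p = (((Sc q w c).card / ((q * w : ℕ) : ℝ) ^ 3 : ℝ) : ℂ) := by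
  have hqw : 1 ≤ q * w := Nat.mul_pos hq hw
  set Q : ℕ := (q * w) ^ 3 with hQ
  have hQ1 : 1 ≤ Q := Nat.one_le_pow _ _ hqw
  have hQ0 : (Q : ℂ) ≠ 0 := by
    have : Q ≠ 0 := by omega
    exact_mod_cast this
  have hQr : ((q * w : ℕ) ^ 3 : ℝ) = Q := by rw [hQ]; push_cast; ring
  have hQc : ((q * w : ℕ) ^ 3 : ℂ) = Q := by rw [hQ]; push_cast; ring
  have h1 : ∀ p ∈ (range Q ×ˢ range Q).filter (fun p => (p.1 : ℤ) - p.2 = 0),
      ac q w c p = (Sc q w c).card / (Q : ℂ) ^ 2 := by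
    intro p hp
    rw [Finset.mem_filter] at hp
    have h2 : (p.1 : ℝ) - p.2 = 0 := by exact_mod_cast hp.2
    unfold ac
    rw [hQr, hQc]
    simp_rw [h2, zero_mul, neg_zero, e_zero]
    rw [Finset.sum_const, nsmul_eq_mul, mul_one]
  have h2 : (range Q ×ˢ range Q).filter (fun p => (p.1 : ℤ) - p.2 = 0) =
      (range Q).image (fun k => (k, k)) := by
    ext ⟨k, l⟩
    rw [Finset.mem_filter, Finset.mem_product, Finset.mem_range, Finset.mem_range,
      Finset.mem_image]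
    constructor
    · rintro ⟨⟨h3, h4⟩, h5⟩
      simp only at h5
      refine ⟨k, Finset.mem_range.2 h3, ?_⟩
      rw [Prod.mk.injEq]
      exact ⟨rfl, by omega⟩
    · rintro ⟨k', h3, h4⟩
      rw [Prod.mk.injEq] at h4
      obtain ⟨rfl, rfl⟩ := h4
      rw [Finset.mem_range] at h3
      exact ⟨⟨h3, h3⟩, by simp⟩
  rw [Finset.sum_congr rfl h1, Finset.sum_const, h2, Finset.card_image_of_injective _ (by
    intro a b hab
    exact (Prod.mk.inj hab).1), Finset.card_range, nsmul_eq_mul]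
  push_cast
  rw [hQr.symm] at *
  push_cast at hQc
  rw [hQc]
  field_simp

/-- the product of trigonometric polynomials -/
lemma prod_char {N : ℕ} {ι : Type} [DecidableEq ι] (S : Finset ℕ) (ξ : ℕ → Fin N → ℝ) (I : Finset ι) (h : ι → ℤ)
    (a : Fin N → ι → ℂ) (η : ℝ) (hη : 0 ≤ η)
    (hW : ∀ φ : Fin N → ι, (∀ l, φ l ∈ I) → (∃ l, h (φ l) ≠ 0) →
      ‖∑ m ∈ S, e (∑ l, (h (φ l) : ℝ) * ξ m l)‖ ≤ η) :
    ‖∑ m ∈ S, ∏ l, ∑ i ∈ I, a l i * e ((h i : ℝ) * ξ m l) -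
      S.card * ∏ l, ∑ i ∈ I.filter (fun i => h i = 0), a l i‖ ≤ η * ∏ l, ∑ i ∈ I, ‖a l i‖ := by
  classical
  have h1 : ∀ m, ∏ l, ∑ i ∈ I, a l i * e ((h i : ℝ) * ξ m l) =
      ∑ φ ∈ Fintype.piFinset (fun _ : Fin N => I), (∏ l, a l (φ l)) *
        e (∑ l, (h (φ l) : ℝ) * ξ m l) := by
    intro m
    rw [Finset.prod_univ_sum]
    refine Finset.sum_congr rfl fun φ _ => ?_
    rw [Finset.prod_mul_distrib]
    congr 1
    have key : ∀ (T : Finset (Fin N)) (g : Fin N → ℝ), ∏ l ∈ T, e (g l) = e (∑ l ∈ T, g l) := by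
      intro T g
      induction T using Finset.induction_on with
      | empty => simp [e_zero]
      | insert x T hx ih => rw [Finset.prod_insert hx, Finset.sum_insert hx, ih, e_add]
    exact key univ _
  have h2 : ∑ m ∈ S, ∏ l, ∑ i ∈ I, a l i * e ((h i : ℝ) * ξ m l) =
      ∑ φ ∈ Fintype.piFinset (fun _ : Fin N => I), (∏ l, a l (φ l)) *
        ∑ m ∈ S, e (∑ l, (h (φ l) : ℝ) * ξ m l) := by
    simp_rw [h1]
    rw [Finset.sum_comm]
    refine Finset.sum_congr rfl fun φ _ => ?_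
    rw [Finset.mul_sum]
  have h3 : (S.card : ℂ) * ∏ l, ∑ i ∈ I.filter (fun i => h i = 0), a l i =
      ∑ φ ∈ Fintype.piFinset (fun _ : Fin N => I),
        (∏ l, a l (φ l)) * (if ∀ l, h (φ l) = 0 then (S.card : ℂ) else 0) := by
    rw [Finset.prod_univ_sum]
    simp_rw [mul_ite, mul_zero]
    rw [← Finset.sum_filter]
    have e1 : (Fintype.piFinset fun _ : Fin N => I.filter (fun i => h i = 0)) =
        (Fintype.piFinset fun _ : Fin N => I).filter (fun φ => ∀ l, h (φ l) = 0) := by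
      ext φ
      rw [Finset.mem_filter, Fintype.mem_piFinset, Fintype.mem_piFinset]
      simp_rw [Finset.mem_filter]
      exact forall_and
    rw [e1, ← Finset.sum_mul]
    ring
  rw [h2, h3, ← Finset.sum_sub_distrib]
  have h4 : η * ∏ l, ∑ i ∈ I, ‖a l i‖ =
      ∑ φ ∈ Fintype.piFinset (fun _ : Fin N => I), (∏ l, ‖a l (φ l)‖) * η := by
    rw [Finset.prod_univ_sum, ← Finset.sum_mul]
    ring
  rw [h4]
  refine (norm_sum_le _ _).trans (Finset.sum_le_sum fun φ hφ => ?_)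
  rw [← mul_sub, norm_mul, norm_prod]
  rw [Fintype.mem_piFinset] at hφ
  by_cases h0 : ∀ l, h (φ l) = 0
  · rw [if_pos h0]
    have e2 : ∑ m ∈ S, e (∑ l, (h (φ l) : ℝ) * ξ m l) = S.card := by
      have : ∀ m, ∑ l, (h (φ l) : ℝ) * ξ m l = 0 := by
        intro m
        apply Finset.sum_eq_zero
        intro l _
        rw [h0 l]
        simp
      simp_rw [this, e_zero]
      simp
    rw [e2, sub_self, norm_zero, mul_zero]
    positivity
  · rw [if_neg h0, sub_zero]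
    push Not at h0
    exact mul_le_mul_of_nonneg_left (hW φ hφ h0) (Finset.prod_nonneg fun _ _ => norm_nonneg _)

/-- the vector of the cells -/
noncomputable def cells {N : ℕ} (q : ℕ) (y : Fin N → ℝ) : Fin N → ℕ :=
  fun l => ⌊(q : ℝ) * Int.fract (y l)⌋₊

lemma cells_lt {N : ℕ} (q : ℕ) (hq : 1 ≤ q) (y : Fin N → ℝ) (l : Fin N) : cells q y l < q := by
  unfold cells
  have hq0 : (0 : ℝ) < q := by exact_mod_cast hq
  rw [Nat.floor_lt (mul_nonneg hq0.le (Int.fract_nonneg _))]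
  have := Int.fract_lt_one (y l)
  nlinarith

/-- the upper bound -/
lemma upper {N : ℕ} (S : Finset ℕ) (ξ : ℕ → Fin N → ℝ) (q w : ℕ) (hq : 1 ≤ q) (hw : 1 ≤ w)
    (η : ℝ) (hη : 0 ≤ η)
    (hW : ∀ h : Fin N → ℤ, (∃ l, h l ≠ 0) → (∀ l, |h l| < ((q * w) ^ 3 : ℕ)) →
      ‖∑ m ∈ S, e (∑ l, (h l : ℝ) * ξ m l)‖ ≤ η) (𝒜 : Finset (Fin N → ℕ)) :
    ((S.filter (fun m => cells q (ξ m) ∈ 𝒜)).card : ℝ) * (1 - 1 / (4 * (w : ℝ))) ^ N ≤
      𝒜.card * (S.card * ((1 + 3 / w) / (q : ℝ)) ^ N + (((q * w : ℕ) : ℝ) ^ 3) ^ N * η) := by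
  classical
  have hq0 : (0 : ℝ) < q := by exact_mod_cast hq
  have hw0 : (0 : ℝ) < w := by exact_mod_cast hw
  have hw1 : (1 : ℝ) ≤ w := by exact_mod_cast hw
  have hθ : 0 ≤ 1 - 1 / (4 * (w : ℝ)) := by
    rw [sub_nonneg, div_le_one (by positivity)]
    linarith
  have hone : ∀ c : Fin N → ℕ, ∑ m ∈ S, ∏ l, Tc q w (c l) (ξ m l) ≤
      S.card * ((1 + 3 / w) / (q : ℝ)) ^ N + (((q * w : ℕ) : ℝ) ^ 3) ^ N * η := by
    intro c
    have h1 := prod_char S ξ (range ((q * w) ^ 3) ×ˢ range ((q * w) ^ 3))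
      (fun p => (p.1 : ℤ) - p.2) (fun l => ac q w (c l)) η hη (by
        intro φ hφ hne
        apply hW (fun l => ((φ l).1 : ℤ) - (φ l).2) hne
        intro l
        have h2 := hφ l
        rw [Finset.mem_product, Finset.mem_range, Finset.mem_range] at h2
        rw [abs_lt]
        constructor <;> omega)
    simp_rw [← tc_eq, const_ac q w _ hq hw] at h1
    have h2 : ∏ l : Fin N, ∑ p ∈ range ((q * w) ^ 3) ×ˢ range ((q * w) ^ 3), ‖ac q w (c l) p‖ ≤
        (((q * w : ℕ) : ℝ) ^ 3) ^ N := by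
      calc _ ≤ ∏ _l : Fin N, ((q * w : ℕ) : ℝ) ^ 3 :=
            Finset.prod_le_prod (fun _ _ => Finset.sum_nonneg fun _ _ => norm_nonneg _)
              fun l _ => norm_ac q w (c l) hq hw
        _ = _ := by rw [Finset.prod_const, Finset.card_univ, Fintype.card_fin]
    have h3 : ∏ l : Fin N, ((Sc q w (c l)).card / ((q * w : ℕ) : ℝ) ^ 3) ≤
        ((1 + 3 / w) / (q : ℝ)) ^ N := by
      calc _ ≤ ∏ _l : Fin N, ((1 + 3 / w) / (q : ℝ)) := by
            apply Finset.prod_le_prod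
            · intro _ _
              positivity
            · intro l _
              have h4 := card_Sc q w (c l)
              have h5 : ((Sc q w (c l)).card : ℝ) ≤ (q : ℝ) ^ 2 * (w : ℝ) ^ 3 +
                  2 * ((q : ℝ) * w) ^ 2 + 1 := by exact_mod_cast h4
              have h6 : (1 : ℝ) ≤ ((q : ℝ) * w) ^ 2 := by
                apply one_le_pow₀
                have hq1 : (1 : ℝ) ≤ q := by exact_mod_cast hq
                nlinarith
              rw [div_le_div_iff₀ (by positivity) hq0]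
              push_cast
              have e1 : (1 + 3 / (w : ℝ)) * ((q : ℝ) * w) ^ 3 =
                  ((q : ℝ) ^ 2 * (w : ℝ) ^ 3 + 3 * ((q : ℝ) * w) ^ 2) * q := by
                field_simp
              rw [e1]
              apply mul_le_mul_of_nonneg_right _ hq0.le
              linarith
        _ = _ := by rw [Finset.prod_const, Finset.card_univ, Fintype.card_fin]
    have h4 : ((∑ m ∈ S, ∏ l, Tc q w (c l) (ξ m l) -
        S.card * ∏ l : Fin N, ((Sc q w (c l)).card / ((q * w : ℕ) : ℝ) ^ 3) : ℝ) : ℂ) =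
        ∑ m ∈ S, ∏ l, ((Tc q w (c l) (ξ m l) : ℝ) : ℂ) -
          (S.card : ℂ) * ∏ l : Fin N, (((Sc q w (c l)).card / ((q * w : ℕ) : ℝ) ^ 3 : ℝ) : ℂ) := by
      push_cast
      rfl
    rw [← h4, Complex.norm_real, Real.norm_eq_abs] at h1
    have h5 := (abs_le.1 h1).2
    have h6 : η * ∏ l : Fin N, ∑ p ∈ range ((q * w) ^ 3) ×ˢ range ((q * w) ^ 3),
        ‖ac q w (c l) p‖ ≤ (((q * w : ℕ) : ℝ) ^ 3) ^ N * η := by
      rw [mul_comm]
      exact mul_le_mul_of_nonneg_right h2 hη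
    have h7 : (S.card : ℝ) * ∏ l : Fin N, ((Sc q w (c l)).card / ((q * w : ℕ) : ℝ) ^ 3) ≤
        S.card * ((1 + 3 / w) / (q : ℝ)) ^ N := mul_le_mul_of_nonneg_left h3 (Nat.cast_nonneg _)
    linarith
  have hcount : ((S.filter (fun m => cells q (ξ m) ∈ 𝒜)).card : ℝ) * (1 - 1 / (4 * (w : ℝ))) ^ N ≤
      ∑ c ∈ 𝒜, ∑ m ∈ S, ∏ l, Tc q w (c l) (ξ m l) := by
    rw [Finset.sum_comm, Finset.card_filter]
    push_cast
    rw [Finset.sum_mul]
    refine Finset.sum_le_sum fun m _ => ?_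
    split_ifs with h
    · rw [one_mul]
      have h1 : ∏ l, Tc q w (cells q (ξ m) l) (ξ m l) ≤ ∑ c ∈ 𝒜, ∏ l, Tc q w (c l) (ξ m l) :=
        Finset.single_le_sum (f := fun c : Fin N → ℕ => ∏ l, Tc q w (c l) (ξ m l))
          (fun c _ => Finset.prod_nonneg fun _ _ => tc_nonneg _ _ _ _) h
      refine le_trans ?_ h1
      calc (1 - 1 / (4 * (w : ℝ))) ^ N = ∏ _l : Fin N, (1 - 1 / (4 * (w : ℝ))) := by
            rw [Finset.prod_const, Finset.card_univ, Fintype.card_fin]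
        _ ≤ _ := Finset.prod_le_prod (fun _ _ => hθ) fun l _ =>
            tc_ge q w _ hq hw _ rfl
    · rw [zero_mul]
      exact Finset.sum_nonneg fun c _ => Finset.prod_nonneg fun _ _ => tc_nonneg _ _ _ _
  refine hcount.trans ((Finset.sum_le_sum fun c _ => hone c).trans (le_of_eq ?_))
  rw [Finset.sum_const, nsmul_eq_mul]

/-- **Joint distribution in growing dimension.** -/
theorem joint {N : ℕ} (S : Finset ℕ) (ξ : ℕ → Fin N → ℝ) (q w : ℕ) (hq : 1 ≤ q) (hw : 1 ≤ w)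
    (hNw : 8 * N ≤ w) (η : ℝ) (hη : 0 ≤ η)
    (hW : ∀ h : Fin N → ℤ, (∃ l, h l ≠ 0) → (∀ l, |h l| < ((q * w) ^ 3 : ℕ)) →
      ‖∑ m ∈ S, e (∑ l, (h l : ℝ) * ξ m l)‖ ≤ η) (𝒜 : Finset (Fin N → ℕ))
    (h𝒜 : 𝒜 ⊆ Fintype.piFinset fun _ => range q) :
    |((S.filter (fun m => cells q (ξ m) ∈ 𝒜)).card : ℝ) - S.card * (𝒜.card / (q : ℝ) ^ N)| ≤
      S.card * (10 * N / w) + 2 * (q : ℝ) ^ N * (((q * w : ℕ) : ℝ) ^ 3) ^ N * η := by
  classical
  have hq0 : (0 : ℝ) < q := by exact_mod_cast hq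
  have hw0 : (0 : ℝ) < w := by exact_mod_cast hw
  have hw1 : (1 : ℝ) ≤ w := by exact_mod_cast hw
  set t : ℝ := (N : ℝ) / w with ht
  have ht0 : 0 ≤ t := by positivity
  have ht1 : t ≤ 1 / 8 := by
    rw [ht, div_le_div_iff₀ hw0 (by norm_num)]
    have : (8 : ℝ) * N ≤ w := by exact_mod_cast hNw
    linarith
  have hbern : 1 - t / 4 ≤ (1 - 1 / (4 * (w : ℝ))) ^ N := by
    have h1 := one_add_mul_le_pow (a := -(1 / (4 * (w : ℝ)))) (by
      have : 1 / (4 * (w : ℝ)) ≤ 1 := by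
        rw [div_le_one (by positivity)]
        linarith
      linarith) N
    have e1 : 1 + (N : ℝ) * -(1 / (4 * (w : ℝ))) = 1 - t / 4 := by
      rw [ht]
      field_simp
      ring
    have e2 : 1 + -(1 / (4 * (w : ℝ))) = 1 - 1 / (4 * (w : ℝ)) := by ring
    rw [e1, e2] at h1
    exact h1
  have hexp : (1 + 3 / (w : ℝ)) ^ N ≤ 1 + 6 * t := by
    calc (1 + 3 / (w : ℝ)) ^ N ≤ (Real.exp (3 / w)) ^ N := by
          apply pow_le_pow_left₀ (by positivity)
          have := Real.add_one_le_exp (3 / (w : ℝ))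
          linarith
      _ = Real.exp (3 * t) := by
          rw [← Real.exp_nat_mul]
          congr 1
          rw [ht]
          ring
      _ ≤ 1 + 6 * t := by
          have h1 := Real.abs_exp_sub_one_sub_id_le (x := 3 * t) (by
            rw [abs_of_nonneg (by positivity)]
            linarith)
          have h2 := (abs_le.1 h1).2
          nlinarith
  have key : ∀ ℬ : Finset (Fin N → ℕ), ℬ ⊆ Fintype.piFinset (fun _ : Fin N => range q) →
      ((S.filter (fun m => cells q (ξ m) ∈ ℬ)).card : ℝ) ≤ S.card * (ℬ.card / (q : ℝ) ^ N) +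
        (S.card * (10 * t) + 2 * (q : ℝ) ^ N * (((q * w : ℕ) : ℝ) ^ 3) ^ N * η) := by
    intro ℬ hℬ
    have h1 := upper S ξ q w hq hw η hη hW ℬ
    have hcard : (ℬ.card : ℝ) ≤ (q : ℝ) ^ N := by
      have h2 := Finset.card_le_card hℬ
      rw [Fintype.card_piFinset_const, Finset.card_range] at h2
      exact_mod_cast h2
    set x : ℝ := ((S.filter (fun m => cells q (ξ m) ∈ ℬ)).card : ℝ) with hx
    have hx0 : 0 ≤ x := Nat.cast_nonneg _
    have h3 : x * (1 - t / 4) ≤ x * (1 - 1 / (4 * (w : ℝ))) ^ N :=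
      mul_le_mul_of_nonneg_left hbern hx0
    set b : ℝ := ℬ.card / (q : ℝ) ^ N with hb
    have hb0 : 0 ≤ b := by positivity
    have hb1 : b ≤ 1 := by rw [hb, div_le_one (by positivity)]; exact hcard
    set R : ℝ := (((q * w : ℕ) : ℝ) ^ 3) ^ N with hR
    have hR0 : 0 ≤ R := by positivity
    have h4 : (ℬ.card : ℝ) * (S.card * ((1 + 3 / w) / (q : ℝ)) ^ N + R * η) ≤
        S.card * b * (1 + 6 * t) + (q : ℝ) ^ N * R * η := by
      have e1 : (ℬ.card : ℝ) * (S.card * ((1 + 3 / w) / (q : ℝ)) ^ N + R * η) =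
          S.card * b * (1 + 3 / w) ^ N + ℬ.card * (R * η) := by
        rw [hb, div_pow]
        field_simp
      rw [e1]
      have h5 : (S.card : ℝ) * b * (1 + 3 / w) ^ N ≤ S.card * b * (1 + 6 * t) :=
        mul_le_mul_of_nonneg_left hexp (by positivity)
      have h6 : (ℬ.card : ℝ) * (R * η) ≤ (q : ℝ) ^ N * (R * η) :=
        mul_le_mul_of_nonneg_right hcard (by positivity)
      linarith
    have h5 : x * (1 - t / 4) ≤ S.card * b * (1 + 6 * t) + (q : ℝ) ^ N * R * η :=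
      h3.trans (h1.trans h4)
    have hSb : (S.card : ℝ) * b ≤ S.card := mul_le_of_le_one_right (Nat.cast_nonneg _) hb1
    have hSb0 : 0 ≤ (S.card : ℝ) * b := by positivity
    have hZ0 : 0 ≤ (q : ℝ) ^ N * R * η := by positivity
    set Z : ℝ := (q : ℝ) ^ N * R * η with hZ
    have h6 : (S.card : ℝ) * b * (1 + 6 * t) + Z ≤
        (S.card * b + (S.card * (10 * t) + 2 * Z)) * (1 - t / 4) := by
      have hS0 : (0 : ℝ) ≤ S.card := Nat.cast_nonneg _
      nlinarith [mul_nonneg hS0 ht0, mul_nonneg hSb0 ht0, mul_nonneg hZ0 ht0,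
        mul_nonneg (mul_nonneg hS0 ht0) ht0]
    have h7 : x * (1 - t / 4) ≤ (S.card * b + (S.card * (10 * t) + 2 * Z)) * (1 - t / 4) :=
      h5.trans h6
    have h8 : x ≤ S.card * b + (S.card * (10 * t) + 2 * Z) :=
      le_of_mul_le_mul_right h7 (by linarith)
    rw [hZ] at h8
    linarith
  have hA := key 𝒜 h𝒜
  have hC := key ((Fintype.piFinset fun _ : Fin N => range q) \ 𝒜) Finset.sdiff_subset
  have hcomp : ((S.filter (fun m => cells q (ξ m) ∈ 𝒜)).card : ℝ) +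
      ((S.filter (fun m => cells q (ξ m) ∈
        (Fintype.piFinset fun _ : Fin N => range q) \ 𝒜)).card : ℝ) = S.card := by
    have h1 := Finset.card_filter_add_card_filter_not (s := S) (p := fun m => cells q (ξ m) ∈ 𝒜)
    have h2 : S.filter (fun m => cells q (ξ m) ∈ (Fintype.piFinset fun _ : Fin N => range q) \ 𝒜) =
        S.filter (fun m => ¬ cells q (ξ m) ∈ 𝒜) := by
      ext m
      rw [Finset.mem_filter, Finset.mem_filter, Finset.mem_sdiff]
      constructor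
      · rintro ⟨h3, _, h4⟩
        exact ⟨h3, h4⟩
      · rintro ⟨h3, h4⟩
        refine ⟨h3, ?_, h4⟩
        rw [Fintype.mem_piFinset]
        intro l
        exact Finset.mem_range.2 (cells_lt q hq (ξ m) l)
    rw [h2]
    exact_mod_cast h1
  have hcc : ((((Fintype.piFinset fun _ : Fin N => range q) \ 𝒜).card : ℕ) : ℝ) =
      (q : ℝ) ^ N - 𝒜.card := by
    rw [Finset.card_sdiff_of_subset h𝒜, Nat.cast_sub (Finset.card_le_card h𝒜),
      Fintype.card_piFinset_const, Finset.card_range]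
    push_cast
    rfl
  rw [hcc, sub_div, div_self (by positivity)] at hC
  have e1 : (10 : ℝ) * N / w = 10 * t := by rw [ht]; ring
  rw [e1, abs_le]
  constructor <;> linarith

end Pool.Agent.Q263.WE
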