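import Mathlib
import Pool.Agent.Q263.WE.Shf

/-!
Weyl sums of growing degree: the asymptotic form.
-/

set_option autoImplicit false

open Finset Polynomial Filter Topology

namespace Pool.Agent.Q263.WE

open Pool.Agent.Y957.VK (dz mn WJ TT J S_VMVT S_DBL)
open Pool.Agent.H332R2.Lit (e e_add norm_e e_zero)

lemma ev_pow (A p q : ℝ) (hpq : p < q) : ∀ᶠ x : ℝ in atTop, A * x ^ p ≤ x ^ q := by
  have h1 : Tendsto (fun x : ℝ => x ^ (q - p)) atTop atTop := tendsto_rpow_atTop (by linarith)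
  filter_upwards [h1.eventually_ge_atTop A, eventually_gt_atTop 0] with x hx hx0
  have h2 : x ^ q = x ^ (q - p) * x ^ p := by rw [← Real.rpow_add hx0]; congr 1; ring
  rw [h2]
  exact mul_le_mul_of_nonneg_right hx (Real.rpow_nonneg hx0.le _)

lemma tendsto_log_nat : Tendsto (fun M : ℕ => Real.log M) atTop atTop :=
  Real.tendsto_log_atTop.comp tendsto_natCast_atTop_atTop

lemma ev_log (A p q : ℝ) (hpq : p < q) :
    ∀ᶠ M : ℕ in atTop, A * (Real.log M) ^ p ≤ (Real.log M) ^ q :=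
  tendsto_log_nat.eventually (ev_pow A p q hpq)

/-- the sum of the four terms -/
noncomputable def Zt (K : ℕ) (δ W : ℝ) : ℝ :=
  1 / K + 1 / W + (1 / δ * (1 + Real.log (1 / δ))) / (K * W) +
    (1 / δ * (1 + Real.log (1 / δ))) / W ^ 2

/-- **Weyl sums of growing degree** -/
theorem weyl (a : ℝ) (ha0 : 0 < a) : ∃ κ : ℝ, 0 < κ ∧ κ ≤ a ∧ κ < 1 / 2 ∧
    ∀ᶠ M : ℕ in atTop, ∀ (r V j0 K : ℕ) (f : ℝ[X]) (δ : ℝ), 2 ≤ r → (r : ℝ) ≤ (Real.log M) ^ κ →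
      1 ≤ V → V ≤ M → 1 ≤ j0 → j0 ≤ r → f.natDegree ≤ j0 → 1 ≤ K → 0 < δ → δ ≤ 1 →
      (∀ u : ℕ, 1 ≤ u → u < K → δ ≤ dz (f.coeff j0 * u)) →
      Zt K δ ((V : ℝ) ^ j0) ≤ Real.exp (-(Real.log M) ^ (1 - κ)) →
      ∀ c : ℝ, ‖∑ i ∈ range M, e (f.eval ((i : ℝ) + c))‖ ≤
        M * Real.exp (-(Real.log M) ^ (1 - a)) + 2 * (V : ℝ) ^ 2 := by
  obtain ⟨C, hC⟩ := weyl1
  set κ : ℝ := min (a / 12) (1 / (3 * C + 3)) with hκ
  have hκ0 : 0 < κ := by
    rw [hκ]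
    apply lt_min
    · positivity
    · positivity
  have hκa : κ ≤ a / 12 := min_le_left _ _
  have hκC : κ ≤ 1 / (3 * C + 3) := min_le_right _ _
  have hC0 : (0 : ℝ) ≤ C := Nat.cast_nonneg _
  have hκC2 : κ * (3 * C + 3) ≤ 1 := by
    rw [le_div_iff₀ (by positivity)] at hκC
    exact hκC
  have hκ13 : κ ≤ 1 / 3 := by
    refine hκC.trans ?_
    apply one_div_le_one_div_of_le (by norm_num)
    linarith
  refine ⟨κ, hκ0, by linarith, by linarith, ?_⟩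
  have hev1 := ev_log (4 * (C * 10 ^ C)) (3 * κ * C) (1 - κ) (by nlinarith)
  have hev2 := ev_log (4 * 400) (10 * κ + (1 - a)) (1 - κ) (by linarith)
  filter_upwards [hev1, hev2, tendsto_log_nat.eventually_ge_atTop 1, eventually_ge_atTop 1] with
    M h1 h2 h3 hM1
  intro r V j0 K f δ hr hrM hV hVM hj0 hj0r hf hK hδ hδ1 hdz hZ c
  set ℓ : ℝ := Real.log M with hℓ
  have hℓ0 : 0 < ℓ := by linarith
  have hℓκ : 1 ≤ ℓ ^ κ := Real.one_le_rpow h3 hκ0.le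
  have hr1 : (2 : ℝ) ≤ r := by exact_mod_cast hr
  set L : ℕ := ⌈4 * (r : ℝ) * (r + 1) * ℓ ^ κ⌉₊ with hL
  have hLlow : 4 * (r : ℝ) * (r + 1) * ℓ ^ κ ≤ L := Nat.le_ceil _
  have hpos : 0 < 4 * (r : ℝ) * (r + 1) * ℓ ^ κ := by positivity
  have hL1 : 1 ≤ L := Nat.one_le_iff_ne_zero.2 (Nat.ceil_pos.2 hpos).ne'
  have e3κ : ℓ ^ (3 * κ) = ℓ ^ κ * ℓ ^ κ * ℓ ^ κ := by
    rw [← Real.rpow_add hℓ0, ← Real.rpow_add hℓ0]
    congr 1
    ring
  have h3κ : 1 ≤ ℓ ^ (3 * κ) := Real.one_le_rpow h3 (by linarith)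
  have hLupp : (L : ℝ) ≤ 9 * ℓ ^ (3 * κ) := by
    have h4 : (L : ℝ) < 4 * (r : ℝ) * (r + 1) * ℓ ^ κ + 1 := Nat.ceil_lt_add_one hpos.le
    have h5 : (r : ℝ) * (r + 1) ≤ 2 * (ℓ ^ κ * ℓ ^ κ) := by nlinarith
    have h6 : 4 * (r : ℝ) * (r + 1) * ℓ ^ κ ≤ 8 * ℓ ^ (3 * κ) := by
      rw [e3κ]
      nlinarith
    linarith
  have hrL : (r : ℝ) + L ≤ 10 * ℓ ^ (3 * κ) := by
    have h4 : (r : ℝ) ≤ ℓ ^ (3 * κ) :=
      hrM.trans (Real.rpow_le_rpow_of_exponent_le h3 (by linarith))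
    linarith
  set X : ℝ := ℓ ^ (1 - κ) with hX
  have hX0 : 0 < X := by rw [hX]; positivity
  have hexp1 : (C : ℝ) * ((r : ℝ) + L) ^ C ≤ X / 4 := by
    have h4 : ((r : ℝ) + L) ^ C ≤ 10 ^ C * ℓ ^ (3 * κ * C) := by
      calc ((r : ℝ) + L) ^ C ≤ (10 * ℓ ^ (3 * κ)) ^ C := pow_le_pow_left₀ (by positivity) hrL _
        _ = _ := by
            rw [mul_pow, ← Real.rpow_natCast (ℓ ^ (3 * κ)), ← Real.rpow_mul hℓ0.le]
    have h5 := mul_le_mul_of_nonneg_left h4 hC0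
    nlinarith
  have hexp2 : Real.log V * (r * (r + 1) * Real.exp (-L)) ≤ X / 4 := by
    have hL0 : (0 : ℝ) < L := by exact_mod_cast hL1
    have h4 : Real.exp (-(L : ℝ)) ≤ 1 / L := by
      rw [Real.exp_neg, ← one_div]
      apply one_div_le_one_div_of_le hL0
      have := Real.add_one_le_exp (L : ℝ)
      linarith
    have h5 : Real.log V ≤ ℓ := by
      rw [hℓ]
      apply Real.log_le_log
      · exact_mod_cast hV
      · exact_mod_cast hVM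
    have h6 : 0 ≤ Real.log V := Real.log_natCast_nonneg V
    have h7 : ℓ = X * ℓ ^ κ := by
      rw [hX, ← Real.rpow_add hℓ0]
      rw [show 1 - κ + κ = 1 by ring, Real.rpow_one]
    calc Real.log V * (r * (r + 1) * Real.exp (-L)) ≤ ℓ * (r * (r + 1) * (1 / L)) := by
          apply mul_le_mul h5 _ (by positivity) hℓ0.le
          exact mul_le_mul_of_nonneg_left h4 (by positivity)
      _ = (ℓ * (r * (r + 1))) / L := by ring
      _ ≤ X / 4 := by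
          rw [div_le_div_iff₀ hL0 (by norm_num)]
          calc ℓ * (r * (r + 1)) * 4 = X * (4 * r * (r + 1) * ℓ ^ κ) := by
                nth_rw 1 [h7]
                ring
            _ ≤ X * L := mul_le_mul_of_nonneg_left hLlow hX0.le
  set s : ℝ := ((r ^ 2 + r * (r * L) : ℕ) : ℝ) with hs
  have hsb : s ≤ 10 * ℓ ^ (5 * κ) := by
    have e5 : ℓ ^ (5 * κ) = ℓ ^ κ * ℓ ^ κ * ℓ ^ (3 * κ) := by
      rw [← Real.rpow_add hℓ0, ← Real.rpow_add hℓ0]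
      congr 1
      ring
    rw [hs, e5]
    push_cast
    have h4 : (r : ℝ) ^ 2 ≤ ℓ ^ κ * ℓ ^ κ := by nlinarith
    have h5 : (r : ℝ) ^ 2 + r * (r * L) = (r : ℝ) ^ 2 * (1 + L) := by ring
    rw [h5]
    calc (r : ℝ) ^ 2 * (1 + L) ≤ (ℓ ^ κ * ℓ ^ κ) * (10 * ℓ ^ (3 * κ)) :=
          mul_le_mul h4 (by linarith) (by positivity) (by positivity)
      _ = _ := by ring
  have hexp3 : 4 * s ^ 2 * ℓ ^ (1 - a) ≤ X / 4 := by
    have hs0 : 0 ≤ s := by rw [hs]; positivity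
    have h4 : s ^ 2 ≤ 100 * ℓ ^ (10 * κ) := by
      have e10 : ℓ ^ (10 * κ) = ℓ ^ (5 * κ) * ℓ ^ (5 * κ) := by
        rw [← Real.rpow_add hℓ0]
        congr 1
        ring
      rw [e10]
      nlinarith
    have h5 : ℓ ^ (10 * κ + (1 - a)) = ℓ ^ (10 * κ) * ℓ ^ (1 - a) := Real.rpow_add hℓ0 _ _
    have h6 : 0 ≤ ℓ ^ (1 - a) := by positivity
    rw [h5] at h2
    nlinarith
  apply hC r L V j0 K M f δ (ℓ ^ (1 - a)) hr hL1 hV hj0 hj0r hf hK hδ hδ1 hdz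
  rw [← hs]
  have hV0 : (0 : ℝ) < V := by exact_mod_cast hV
  unfold Zt at hZ
  calc _ ≤ Real.exp (X / 4) * Real.exp (X / 4) * Real.exp (-X) := by
        apply mul_le_mul _ hZ
        · have hlog : 0 ≤ Real.log (1 / δ) := Real.log_nonneg (by rw [le_div_iff₀ hδ]; linarith)
          positivity
        · positivity
        · apply mul_le_mul (Real.exp_le_exp.2 hexp1) _ (by positivity) (by positivity)
          rw [Real.rpow_def_of_pos hV0]
          exact Real.exp_le_exp.2 hexp2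
    _ = Real.exp (X / 4 + X / 4 + -X) := by rw [Real.exp_add, Real.exp_add]
    _ ≤ _ := by
        apply Real.exp_le_exp.2
        linarith

end Pool.Agent.Q263.WE
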