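import Mathlib
import Pool.Agent.Q263.WE.Wey
import Pool.Agent.Q263.WE.Jnt

/-!
Families of polynomials of growing degree one of whose coefficients is not a Liouville number: the vectors of the
values modulo one are uniformly distributed, with a small error in total variation.
-/

set_option autoImplicit false

open Finset Polynomial Filter Topology

namespace Pool.Agent.Q263.WE

open Pool.Agent.Y957.VK (dz)
open Pool.Agent.H332R2.Lit (e e_add norm_e e_zero)

/-- every nontrivial integral combination of the `N` sequences has the same exponentials as a polynomial whose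
leading coefficient is badly approximable, with exponent `μ` and constant `A` -/
def PolyType (N : ℕ) (ξ : ℕ → Fin N → ℝ) (A : ℝ) (μ : ℕ) : Prop :=
  ∃ c : ℝ, ∀ h : Fin N → ℤ, (∃ l, h l ≠ 0) → ∃ (f : ℝ[X]) (j0 : ℕ), 1 ≤ j0 ∧ j0 ≤ N + 1 ∧
    f.natDegree ≤ j0 ∧ (∀ m : ℕ, e (∑ l, (h l : ℝ) * ξ m l) = e (f.eval ((m : ℝ) + c))) ∧
    ∀ u : ℕ, 1 ≤ u → 1 ≤ A * (((N : ℝ) + 1) * (∑ l, |(h l : ℝ)|) * u) ^ μ * dz (f.coeff j0 * u)

lemma self_le_exp (y : ℝ) : y ≤ Real.exp y := by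
  have := Real.add_one_le_exp y
  linarith

lemma exp_two_ge : (5 : ℝ) ≤ Real.exp 2 := by
  have h2 : Real.exp 2 = Real.exp 1 * Real.exp 1 := by rw [← Real.exp_add]; norm_num
  have h3 := Real.exp_one_gt_d9
  nlinarith

lemma exp_one_ge : (2 : ℝ) ≤ Real.exp 1 := by
  have := Real.add_one_le_exp (1 : ℝ)
  linarith

lemma exp_three_ge : (6 : ℝ) ≤ Real.exp 3 := by
  have h6 : Real.exp 3 = Real.exp 2 * Real.exp 1 := by rw [← Real.exp_add]; norm_num
  nlinarith [exp_two_ge, exp_one_ge]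

lemma exp_four_ge : (20 : ℝ) ≤ Real.exp 4 := by
  have h6 : Real.exp 4 = Real.exp 2 * Real.exp 2 := by rw [← Real.exp_add]; norm_num
  nlinarith [exp_two_ge]

lemma ceil_exp (y : ℝ) (hy : 0 ≤ y) : (⌈Real.exp y⌉₊ : ℝ) ≤ Real.exp (y + 1) := by
  have h1 : (⌈Real.exp y⌉₊ : ℝ) < Real.exp y + 1 := Nat.ceil_lt_add_one (Real.exp_pos _).le
  have h2 : 1 ≤ Real.exp y := Real.one_le_exp hy
  rw [Real.exp_add]
  nlinarith [Real.exp_pos y, exp_one_ge]

lemma ceil_exp2 (y : ℝ) (hy : 0 ≤ y) : (⌈2 * Real.exp y⌉₊ : ℝ) ≤ Real.exp (y + 2) := by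
  have h1 : (⌈2 * Real.exp y⌉₊ : ℝ) < 2 * Real.exp y + 1 := Nat.ceil_lt_add_one (by positivity)
  have h2 : 1 ≤ Real.exp y := Real.one_le_exp hy
  rw [Real.exp_add]
  nlinarith [Real.exp_pos y, exp_two_ge]

lemma floor_exp (y : ℝ) (hy : 1 ≤ y) : Real.exp (y - 1) ≤ ⌊Real.exp y⌋₊ := by
  have h1 : Real.exp y < ⌊Real.exp y⌋₊ + 1 := Nat.lt_floor_add_one _
  have h2 : Real.exp y = Real.exp (y - 1) * Real.exp 1 := by
    rw [← Real.exp_add]
    congr 1
    ring
  have h3 : 1 ≤ Real.exp (y - 1) := Real.one_le_exp (by linarith)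
  nlinarith [exp_one_ge]

lemma mul_ge_one {a b : ℝ} (ha : 1 ≤ a) (hb : 1 ≤ b) : 1 ≤ a * b := by nlinarith

lemma d_bounds (δ x : ℝ) (hδ : 0 < δ) (hδ1 : δ ≤ 1) (h : 1 / δ ≤ Real.exp x) :
    1 ≤ 1 / δ * (1 + Real.log (1 / δ)) ∧
      1 / δ * (1 + Real.log (1 / δ)) ≤ Real.exp (2 * x) := by
  have hinv1 : 1 ≤ 1 / δ := by rw [le_div_iff₀ hδ]; linarith
  constructor
  · have := Real.log_nonneg hinv1
    nlinarith
  · have h1 : 1 + Real.log (1 / δ) ≤ 1 / δ := by
      have := Real.log_le_sub_one_of_pos (show 0 < 1 / δ by linarith)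
      linarith
    calc _ ≤ (1 / δ) * (1 / δ) := mul_le_mul_of_nonneg_left h1 (by linarith)
      _ ≤ Real.exp x * Real.exp x := mul_le_mul h h (by linarith) (Real.exp_pos _).le
      _ = _ := by rw [← Real.exp_add]; congr 1; ring

/-- the four terms -/
lemma zt_le (K V j0 : ℕ) (δ x1 x2 : ℝ) (hK : 2 * Real.exp x1 ≤ K) (hV : 1 ≤ V)
    (hVl : Real.exp (3 + 2 * x2 + x1) ≤ V) (hj0 : 1 ≤ j0) (hK1 : 1 ≤ K)
    (hD1 : 1 ≤ 1 / δ * (1 + Real.log (1 / δ)))
    (hDb : 1 / δ * (1 + Real.log (1 / δ)) ≤ Real.exp (2 * x2)) :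
    Zt K δ ((V : ℝ) ^ j0) ≤ Real.exp (-x1) := by
  have hV1R : (1 : ℝ) ≤ V := by exact_mod_cast hV
  have hV0 : (0 : ℝ) < V := by linarith
  have hK1R : (1 : ℝ) ≤ K := by exact_mod_cast hK1
  have hK0 : (0 : ℝ) < K := by linarith
  have hWV : (V : ℝ) ≤ (V : ℝ) ^ j0 := by
    calc (V : ℝ) = (V : ℝ) ^ 1 := (pow_one _).symm
      _ ≤ _ := pow_le_pow_right₀ hV1R hj0
  unfold Zt
  set W : ℝ := (V : ℝ) ^ j0 with hWd
  set D : ℝ := 1 / δ * (1 + Real.log (1 / δ)) with hD
  have h1 : 1 / (K : ℝ) ≤ Real.exp (-x1) / 2 := by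
    rw [Real.exp_neg, div_le_div_iff₀ hK0 (by norm_num)]
    have h2 : Real.exp x1 * (Real.exp x1)⁻¹ = 1 := mul_inv_cancel₀ (Real.exp_pos _).ne'
    have h3 : 0 < (Real.exp x1)⁻¹ := by positivity
    nlinarith
  have h2 : 1 / W + D / (K * W) + D / W ^ 2 ≤ 3 * D / V := by
    have h3 : 1 / W ≤ D / V := by
      rw [div_le_div_iff₀ (by linarith) hV0]
      nlinarith
    have h4 : D / (K * W) ≤ D / V := by
      apply div_le_div_of_nonneg_left (by linarith) hV0
      nlinarith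
    have h5 : D / W ^ 2 ≤ D / V := by
      apply div_le_div_of_nonneg_left (by linarith) hV0
      nlinarith
    have e1 : 3 * D / V = D / V + D / V + D / V := by ring
    rw [e1]
    linarith
  have h3 : 3 * D / V ≤ Real.exp (-x1) / 2 := by
    rw [div_le_div_iff₀ hV0 (by norm_num)]
    calc 3 * D * 2 = 6 * D := by ring
      _ ≤ Real.exp 3 * Real.exp (2 * x2) :=
          mul_le_mul exp_three_ge hDb (by linarith) (Real.exp_pos _).le
      _ = Real.exp (-x1) * Real.exp (3 + 2 * x2 + x1) := by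
          rw [← Real.exp_add, ← Real.exp_add]
          congr 1
          ring
      _ ≤ Real.exp (-x1) * V := mul_le_mul_of_nonneg_left hVl (Real.exp_pos _).le
  have e1 : 1 / (K : ℝ) + 1 / W + D / (K * W) + D / W ^ 2 =
      1 / (K : ℝ) + (1 / W + D / (K * W) + D / W ^ 2) := by ring
  rw [e1]
  linarith

/-- **The law of the cells.** -/
theorem law : ∃ κ : ℝ, 0 < κ ∧ κ < 1 / 16 ∧ ∀ᶠ M : ℕ in atTop, ∀ (N q μ : ℕ) (A : ℝ)
    (ξ : ℕ → Fin N → ℝ), (N : ℝ) ≤ (Real.log M) ^ κ → 1 ≤ q → (q : ℝ) ≤ Real.exp ((Real.log M) ^ κ) →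
    (μ : ℝ) ≤ (Real.log M) ^ κ → 1 ≤ A → A ≤ Real.exp ((Real.log M) ^ κ) → PolyType N ξ A μ →
    ∀ 𝒜 : Finset (Fin N → ℕ), 𝒜 ⊆ (Fintype.piFinset fun _ => range q) →
      |(((range M).filter (fun m => cells q (ξ m) ∈ 𝒜)).card : ℝ) - M * (𝒜.card / (q : ℝ) ^ N)| ≤
        M * Real.exp (-(Real.log M) ^ κ) := by
  obtain ⟨κ1, hκ10, hκ1a, hκ12, hweyl⟩ := weyl (1 / 2) (by norm_num)
  set κ : ℝ := κ1 / 10 with hκ
  have hκ0 : 0 < κ := by rw [hκ]; positivity
  have hκe : κ1 = 10 * κ := by rw [hκ]; ring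
  refine ⟨κ, hκ0, by linarith, ?_⟩
  filter_upwards [hweyl, eventually_ge_atTop 1, tendsto_log_nat.eventually_ge_atTop 1,
    ev_log 5 0 κ hκ0, ev_log 9 κ (2 * κ) (by linarith), ev_log 6 (2 * κ) (3 * κ) (by linarith),
    ev_log 4 (3 * κ) (4 * κ) (by linarith), ev_log 4 (5 * κ) (1 - κ1) (by linarith),
    ev_log 4 (κ + (1 - κ1)) (1 - κ1 + 2 * κ) (by linarith),
    ev_log 30 (1 - κ1 + 2 * κ) 1 (by linarith), ev_log 4 (4 * κ) (1 / 2) (by linarith),
    ev_log 10 (1 / 2) 1 (by norm_num)] with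
    M hW hM1 hℓ1 g1 g2 g3 g4 g5 g6 g7 g8 g9
  intro N q μ A ξ hN hq1 hq hμ hA1 hA hPT 𝒜 h𝒜
  set ℓ : ℝ := Real.log M with hℓ
  have hℓ0 : 0 < ℓ := lt_of_lt_of_le one_pos hℓ1
  have hM0 : (0 : ℝ) < M := by exact_mod_cast hM1
  have hMe : (M : ℝ) = Real.exp ℓ := (Real.exp_log hM0).symm
  rw [Real.rpow_zero, mul_one] at g1
  set a1 : ℝ := ℓ ^ κ with ha1
  set a2 : ℝ := ℓ ^ (2 * κ) with ha2
  set a3 : ℝ := ℓ ^ (3 * κ) with ha3
  set a4 : ℝ := ℓ ^ (4 * κ) with ha4
  set x1 : ℝ := ℓ ^ (1 - κ1) with hx1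
  set x2 : ℝ := ℓ ^ (1 - κ1 + 2 * κ) with hx2
  have hx1p : 0 < x1 := by rw [hx1]; positivity
  rw [Real.rpow_one] at g7 g9
  have hhalf : ℓ ^ (1 - 1 / 2 : ℝ) = ℓ ^ (1 / 2 : ℝ) := by norm_num
  -- parameters
  set w : ℕ := ⌈Real.exp a2⌉₊ with hw
  have hwlow : Real.exp a2 ≤ w := Nat.le_ceil _
  have hw0 : (0 : ℝ) < w := lt_of_lt_of_le (Real.exp_pos _) hwlow
  have hw1 : 1 ≤ w := by exact_mod_cast hw0
  have ha2p : 0 ≤ a2 := by rw [ha2]; positivity
  have hwupp : (w : ℝ) ≤ Real.exp (a2 + 1) := ceil_exp a2 ha2p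
  have h8N : 8 * N ≤ w := by
    have h1 : (8 : ℝ) * N ≤ w := by
      refine le_trans ?_ hwlow
      calc (8 : ℝ) * N ≤ 8 * a1 := by linarith
        _ ≤ a2 := by linarith
        _ ≤ Real.exp a2 := self_le_exp _
    exact_mod_cast h1
  have hqw : (((q * w : ℕ) : ℝ)) ^ 3 ≤ Real.exp a3 := by
    push_cast
    calc ((q : ℝ) * w) ^ 3 ≤ (Real.exp a1 * Real.exp (a2 + 1)) ^ 3 := by
          apply pow_le_pow_left₀ (by positivity)
          exact mul_le_mul hq hwupp hw0.le (Real.exp_pos _).le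
      _ = Real.exp (3 * (a1 + (a2 + 1))) := by
          rw [← Real.exp_add, ← Real.exp_nat_mul]
          norm_num
      _ ≤ _ := by
          apply Real.exp_le_exp.2
          linarith
  -- the denominators
  set K : ℕ := ⌈2 * Real.exp x1⌉₊ with hK
  have hKlow : 2 * Real.exp x1 ≤ K := Nat.le_ceil _
  have hK0 : (0 : ℝ) < K := lt_of_lt_of_le (by positivity) hKlow
  have hK1 : 1 ≤ K := by exact_mod_cast hK0
  have hKupp : (K : ℝ) ≤ Real.exp (x1 + 2) := ceil_exp2 x1 hx1p.le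
  set B : ℝ := Real.exp a4 with hB
  have hB1 : 1 ≤ B := Real.one_le_exp (by linarith)
  set δ : ℝ := 1 / (A * (B * K) ^ μ) with hδ
  have hBK1 : 1 ≤ B * K := mul_ge_one hB1 (by exact_mod_cast hK1)
  have hden1 : 1 ≤ A * (B * K) ^ μ := mul_ge_one hA1 (one_le_pow₀ (n := μ) hBK1)
  have hδ0 : 0 < δ := by rw [hδ]; positivity
  have hδ1 : δ ≤ 1 := by
    rw [hδ, div_le_one (by linarith)]
    exact hden1
  have hinvδ : 1 / δ = A * (B * K) ^ μ := by rw [hδ, one_div_one_div]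
  have hinvδ2 : 1 / δ ≤ Real.exp x2 := by
    rw [hinvδ]
    calc A * (B * K) ^ μ ≤ Real.exp a1 * (Real.exp (a4 + (x1 + 2))) ^ μ := by
          apply mul_le_mul hA _ (by positivity) (Real.exp_pos _).le
          apply pow_le_pow_left₀ (by positivity)
          rw [Real.exp_add]
          exact mul_le_mul_of_nonneg_left hKupp (Real.exp_pos _).le
      _ = Real.exp (a1 + μ * (a4 + (x1 + 2))) := by rw [Real.exp_add a1, Real.exp_nat_mul]
      _ ≤ _ := by
          apply Real.exp_le_exp.2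
          have e5 : ℓ ^ (5 * κ) = a1 * a4 := by
            rw [ha1, ha4, ← Real.rpow_add hℓ0]
            congr 1
            ring
          have e6 : ℓ ^ (κ + (1 - κ1)) = a1 * x1 := by
            rw [ha1, hx1, ← Real.rpow_add hℓ0]
          rw [e5] at g5
          rw [e6] at g6
          have h1 : (μ : ℝ) * (a4 + (x1 + 2)) ≤ a1 * (a4 + (x1 + 2)) :=
            mul_le_mul_of_nonneg_right hμ (by linarith)
          have h2 : 2 * a1 ≤ a1 * a4 := by
            rw [mul_comm]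
            exact mul_le_mul_of_nonneg_left (by linarith) (by linarith)
          have h3 : x1 ≤ a1 * x1 := le_mul_of_one_le_left hx1p.le (by linarith)
          linarith
  obtain ⟨hD1, hDb⟩ := d_bounds δ x2 hδ0 hδ1 hinvδ2
  -- the length of the shifts
  set V : ℕ := ⌊Real.exp (ℓ / 3)⌋₊ with hV
  have hVupp : (V : ℝ) ≤ Real.exp (ℓ / 3) := Nat.floor_le (Real.exp_pos _).le
  have hx12 : x1 ≤ x2 := by
    rw [hx1, hx2]
    exact Real.rpow_le_rpow_of_exponent_le hℓ1 (by linarith)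
  have hx11 : 1 ≤ x1 := by
    rw [hx1]
    exact Real.one_le_rpow hℓ1 (by linarith)
  have hVlow : Real.exp (ℓ / 3 - 1) ≤ V := floor_exp (ℓ / 3) (by linarith)
  have hV0 : (0 : ℝ) < V := lt_of_lt_of_le (Real.exp_pos _) hVlow
  have hV1 : 1 ≤ V := by exact_mod_cast hV0
  have hV1R : (1 : ℝ) ≤ V := by exact_mod_cast hV1
  have hVM : V ≤ M := by
    have h1 : (V : ℝ) ≤ M := by
      rw [hMe]
      refine hVupp.trans ?_
      apply Real.exp_le_exp.2
      linarith
    exact_mod_cast h1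
  have hZt : ∀ j0 : ℕ, 1 ≤ j0 → Zt K δ ((V : ℝ) ^ j0) ≤ Real.exp (-ℓ ^ (1 - κ1)) := by
    intro j0 hj0
    apply zt_le K V j0 δ x1 x2 hKlow hV1 _ hj0 hK1 hD1 hDb
    refine le_trans ?_ hVlow
    apply Real.exp_le_exp.2
    linarith
  -- the exponential sums
  obtain ⟨c, hPT⟩ := hPT
  set η : ℝ := 2 * M * Real.exp (-ℓ ^ (1 / 2 : ℝ)) with hη
  have hη0 : 0 ≤ η := by rw [hη]; positivity
  have hsums : ∀ h : Fin N → ℤ, (∃ l, h l ≠ 0) → (∀ l, |h l| < ((q * w) ^ 3 : ℕ)) →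
      ‖∑ m ∈ range M, e (∑ l, (h l : ℝ) * ξ m l)‖ ≤ η := by
    intro h hne hlt
    obtain ⟨f, j0, hj0, hj0N, hdeg, hev, hdio⟩ := hPT h hne
    have hsumh : ((N : ℝ) + 1) * ∑ l, |(h l : ℝ)| ≤ B := by
      have h1 : ∑ l, |(h l : ℝ)| ≤ N * Real.exp a3 := by
        calc ∑ l, |(h l : ℝ)| ≤ ∑ _l : Fin N, Real.exp a3 := by
              refine Finset.sum_le_sum fun l _ => ?_
              refine le_trans ?_ hqw
              have h2 : |(h l : ℝ)| ≤ (((q * w) ^ 3 : ℕ) : ℝ) := by exact_mod_cast (hlt l).le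
              refine h2.trans (le_of_eq ?_)
              push_cast
              ring
          _ = _ := by rw [Finset.sum_const, Finset.card_univ, Fintype.card_fin, nsmul_eq_mul]
      calc ((N : ℝ) + 1) * ∑ l, |(h l : ℝ)| ≤ Real.exp a1 * (Real.exp a1 * Real.exp a3) := by
            apply mul_le_mul
            · have := Real.add_one_le_exp a1
              linarith
            · refine h1.trans ?_
              apply mul_le_mul_of_nonneg_right _ (Real.exp_pos _).le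
              exact hN.trans (self_le_exp _)
            · positivity
            · positivity
        _ = Real.exp (a1 + (a1 + a3)) := by rw [Real.exp_add, Real.exp_add]
        _ ≤ _ := by
            rw [hB]
            apply Real.exp_le_exp.2
            linarith
    have hN2 : ((N + 2 : ℕ) : ℝ) ≤ ℓ ^ κ1 := by
      have h1 : a2 ≤ ℓ ^ κ1 := by
        rw [ha2, hκe]
        exact Real.rpow_le_rpow_of_exponent_le hℓ1 (by linarith)
      push_cast
      linarith
    have hmain := hW (N + 2) V j0 K f δ (by omega) hN2 hV1 hVM hj0 (by omega) hdeg hK1 hδ0 hδ1 (by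
      intro u hu huK
      have h1 := hdio u hu
      have h2 : (((N : ℝ) + 1) * (∑ l, |(h l : ℝ)|) * u) ^ μ ≤ (B * K) ^ μ := by
        apply pow_le_pow_left₀ (by positivity)
        apply mul_le_mul hsumh _ (Nat.cast_nonneg _) (by linarith)
        exact_mod_cast huK.le
      rw [hδ, div_le_iff₀ (by linarith)]
      have h3 := dz_nonneg (f.coeff j0 * u)
      calc (1 : ℝ) ≤ A * (((N : ℝ) + 1) * (∑ l, |(h l : ℝ)|) * u) ^ μ * dz (f.coeff j0 * u) := h1
        _ ≤ A * (B * K) ^ μ * dz (f.coeff j0 * u) := by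
            apply mul_le_mul_of_nonneg_right _ h3
            exact mul_le_mul_of_nonneg_left h2 (by linarith)
        _ = _ := by ring) (hZt j0 hj0) c
    have e1 : ∑ m ∈ range M, e (∑ l, (h l : ℝ) * ξ m l) =
        ∑ m ∈ range M, e (f.eval ((m : ℝ) + c)) := Finset.sum_congr rfl fun m _ => hev m
    rw [e1]
    refine hmain.trans ?_
    rw [hhalf, hη]
    have h1 : 2 * (V : ℝ) ^ 2 ≤ M * Real.exp (-ℓ ^ (1 / 2 : ℝ)) := by
      have h2 : (V : ℝ) ^ 2 ≤ Real.exp (2 * (ℓ / 3)) := by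
        calc (V : ℝ) ^ 2 ≤ (Real.exp (ℓ / 3)) ^ 2 := pow_le_pow_left₀ hV0.le hVupp 2
          _ = _ := by rw [← Real.exp_nat_mul]; norm_num
      rw [hMe, ← Real.exp_add]
      calc 2 * (V : ℝ) ^ 2 ≤ Real.exp 1 * Real.exp (2 * (ℓ / 3)) := by
            exact mul_le_mul exp_one_ge h2 (by positivity) (Real.exp_pos _).le
        _ = Real.exp (1 + 2 * (ℓ / 3)) := by rw [← Real.exp_add]
        _ ≤ _ := by
            apply Real.exp_le_exp.2
            linarith
    linarith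
  have hfin := joint (range M) ξ q w hq1 hw1 h8N η hη0 hsums 𝒜 h𝒜
  rw [Finset.card_range] at hfin
  refine hfin.trans ?_
  have hq0 : (0 : ℝ) < q := by exact_mod_cast hq1
  have herr1 : (M : ℝ) * (10 * N / w) ≤ M * (Real.exp (-a1) / 2) := by
    apply mul_le_mul_of_nonneg_left _ hM0.le
    rw [div_le_div_iff₀ hw0 (by norm_num)]
    calc 10 * (N : ℝ) * 2 ≤ 20 * a1 := by linarith
      _ ≤ Real.exp (-a1) * Real.exp a2 := by
          rw [← Real.exp_add]
          have h1 : 20 * a1 ≤ Real.exp 4 * Real.exp a1 :=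
            mul_le_mul exp_four_ge (self_le_exp _) (by linarith) (Real.exp_pos _).le
          rw [← Real.exp_add] at h1
          refine h1.trans ?_
          apply Real.exp_le_exp.2
          linarith
      _ ≤ Real.exp (-a1) * w := mul_le_mul_of_nonneg_left hwlow (Real.exp_pos _).le
  have herr2 : 2 * (q : ℝ) ^ N * (((q * w : ℕ) : ℝ) ^ 3) ^ N * η ≤ M * (Real.exp (-a1) / 2) := by
    have h1 : (q : ℝ) ^ N ≤ Real.exp (a1 * a1) := by
      calc (q : ℝ) ^ N ≤ (Real.exp a1) ^ N := pow_le_pow_left₀ hq0.le hq N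
        _ = Real.exp (N * a1) := by rw [← Real.exp_nat_mul]
        _ ≤ _ := by
            apply Real.exp_le_exp.2
            exact mul_le_mul_of_nonneg_right hN (by linarith)
    have h2 : (((q * w : ℕ) : ℝ) ^ 3) ^ N ≤ Real.exp (a1 * a3) := by
      calc (((q * w : ℕ) : ℝ) ^ 3) ^ N ≤ (Real.exp a3) ^ N :=
            pow_le_pow_left₀ (by positivity) hqw N
        _ = Real.exp (N * a3) := by rw [← Real.exp_nat_mul]
        _ ≤ _ := by
            apply Real.exp_le_exp.2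
            exact mul_le_mul_of_nonneg_right hN (by linarith)
    have e4 : a1 * a3 = a4 := by
      rw [ha1, ha3, ha4, ← Real.rpow_add hℓ0]
      congr 1
      ring
    have h3 : a1 * a1 ≤ a4 := by
      rw [← e4]
      exact mul_le_mul_of_nonneg_left (by linarith) (by linarith)
    set z : ℝ := ℓ ^ (1 / 2 : ℝ) with hz
    calc 2 * (q : ℝ) ^ N * (((q * w : ℕ) : ℝ) ^ 3) ^ N * η
        ≤ 2 * Real.exp a4 * Real.exp a4 * (2 * M * Real.exp (-z)) := by
          rw [hη]
          apply mul_le_mul_of_nonneg_right _ (by positivity)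
          apply mul_le_mul _ (h2.trans (by rw [e4])) (by positivity) (by positivity)
          apply mul_le_mul_of_nonneg_left _ (by norm_num)
          exact h1.trans (Real.exp_le_exp.2 h3)
      _ = M * (4 * (Real.exp a4 * Real.exp a4 * Real.exp (-z))) := by ring
      _ ≤ M * (Real.exp (-a1) / 2) := by
          apply mul_le_mul_of_nonneg_left _ hM0.le
          rw [le_div_iff₀ (by norm_num)]
          calc 4 * (Real.exp a4 * Real.exp a4 * Real.exp (-z)) * 2 =
                8 * (Real.exp a4 * Real.exp a4 * Real.exp (-z)) := by ring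
            _ ≤ Real.exp 4 * (Real.exp a4 * Real.exp a4 * Real.exp (-z)) := by
                apply mul_le_mul_of_nonneg_right _ (by positivity)
                linarith [exp_four_ge]
            _ = Real.exp (4 + a4 + a4 + -z) := by
                rw [Real.exp_add, Real.exp_add, Real.exp_add]
                ring
            _ ≤ _ := by
                apply Real.exp_le_exp.2
                linarith
  calc _ ≤ (M : ℝ) * (Real.exp (-a1) / 2) + M * (Real.exp (-a1) / 2) := add_le_add herr1 herr2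
    _ = _ := by ring

end Pool.Agent.Q263.WE
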