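import Mathlib
import Pool.Agent.Q263.WE.Law

/-!
Arithmetic of the frequencies for the digits of powers.
-/

set_option autoImplicit false

open Finset Polynomial Filter Topology

namespace Pool.Agent.Q263.WE

open Pool.Agent.Y957.VK (dz)
open Pool.Agent.H332R2.Lit (e e_add norm_e e_zero)

/-- if `q ^ t` divides `(h + q ^ D B) u` and `|h| < 2 ^ D`, then it divides `h u` -/
lemma dvd_low (q t D u : ℕ) (h B : ℤ) (hh : h ≠ 0) (hD : |h| < 2 ^ D)
    (hdvd : ((q : ℤ) ^ t) ∣ (h + (q : ℤ) ^ D * B) * u) : ((q : ℤ) ^ t) ∣ h * u := by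
  have key : q ^ t ∣ h.natAbs * u := by
    rw [Nat.dvd_iff_prime_pow_dvd_dvd]
    intro r k hr hrk
    rcases Nat.eq_zero_or_pos k with rfl | hk
    · simp
    have hrq : r ∣ q := hr.dvd_of_dvd_pow ((dvd_pow_self r (by omega)).trans hrk)
    have hr2 : 2 ≤ r := hr.two_le
    -- the valuation of h
    obtain ⟨v, h', hv1, hv2⟩ : ∃ (v : ℕ) (h' : ℤ), ¬ (r : ℤ) ∣ h' ∧ h = (r : ℤ) ^ v * h' := by
      have hfin : FiniteMultiplicity (r : ℤ) h := by
        rw [Int.finiteMultiplicity_iff]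
        refine ⟨?_, hh⟩
        rw [Int.natAbs_natCast]
        omega
      obtain ⟨c, hc1, hc2⟩ := hfin.exists_eq_pow_mul_and_not_dvd
      exact ⟨_, c, hc2, hc1⟩
    have hvD : v < D := by
      by_contra hge
      push Not at hge
      have h1 : (r : ℤ) ^ v ∣ h := ⟨h', hv2⟩
      have h2 := Int.le_of_dvd (abs_pos.2 hh) ((dvd_abs _ _).2 h1)
      have h3 : (2 : ℤ) ^ D ≤ (r : ℤ) ^ v := by
        calc (2 : ℤ) ^ D ≤ 2 ^ v := pow_le_pow_right₀ (by norm_num) hge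
          _ ≤ (r : ℤ) ^ v := pow_le_pow_left₀ (by norm_num) (by exact_mod_cast hr2) v
      linarith
    obtain ⟨q', hq'⟩ := hrq
    obtain ⟨g, hg⟩ : ∃ g, D = v + (g + 1) := ⟨D - v - 1, by omega⟩
    have hA : h + (q : ℤ) ^ D * B = (r : ℤ) ^ v * (h' + (r : ℤ) * ((r : ℤ) ^ g * (q' : ℤ) ^ D * B)) := by
      rw [hv2, hq']
      push_cast
      rw [mul_pow, hg, pow_add (r : ℤ) v, pow_succ (r : ℤ) g]
      ring
    set A' : ℤ := h' + (r : ℤ) * ((r : ℤ) ^ g * (q' : ℤ) ^ D * B) with hA'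
    have hrA : ¬ (r : ℤ) ∣ A' := by
      intro h1
      apply hv1
      have h2 : (r : ℤ) ∣ A' - (r : ℤ) * ((r : ℤ) ^ g * (q' : ℤ) ^ D * B) :=
        dvd_sub h1 (dvd_mul_right _ _)
      rw [hA'] at h2
      simpa using h2
    have hrkA : (r : ℤ) ^ k ∣ (r : ℤ) ^ v * (A' * u) := by
      have h1 : (r : ℤ) ^ k ∣ (q : ℤ) ^ t := by exact_mod_cast hrk
      have h2 := h1.trans hdvd
      rw [hA, mul_assoc] at h2
      exact h2
    have hfinal : (r : ℤ) ^ k ∣ h * u := by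
      rcases Nat.lt_or_ge v k with h1 | h1
      · obtain ⟨w, rfl⟩ : ∃ w, k = v + w := ⟨k - v, by omega⟩
        rw [pow_add] at hrkA
        have h2 : (r : ℤ) ^ w ∣ A' * u := by
          have h3 : ((r : ℤ) ^ v) ≠ 0 := by
            have : (r : ℤ) ≠ 0 := by exact_mod_cast hr.ne_zero
            positivity
          exact (mul_dvd_mul_iff_left h3).1 hrkA
        have h4 : IsCoprime ((r : ℤ) ^ w) A' := by
          apply IsCoprime.pow_left
          rw [Int.isCoprime_iff_gcd_eq_one]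
          have h5 : Nat.Coprime r A'.natAbs := by
            rw [Nat.Prime.coprime_iff_not_dvd hr]
            intro h6
            apply hrA
            exact Int.natCast_dvd.2 h6
          simpa [Int.gcd] using h5
        have h5 : (r : ℤ) ^ w ∣ u := h4.dvd_of_dvd_mul_left h2
        rw [hv2, pow_add]
        have h6 : (r : ℤ) ^ v * (r : ℤ) ^ w ∣ (r : ℤ) ^ v * u := mul_dvd_mul_left _ h5
        exact h6.trans ⟨h', by ring⟩
      · rw [hv2]
        have h2 : (r : ℤ) ^ k ∣ (r : ℤ) ^ v := pow_dvd_pow _ h1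
        exact (h2.mul_right h').mul_right _
    have h7 : ((r ^ k : ℕ) : ℤ) ∣ h * u := by exact_mod_cast hfinal
    have h8 := Int.natCast_dvd.1 h7
    rw [Int.natAbs_mul, Int.natAbs_natCast] at h8
    exact h8
  have h9 : ((q ^ t : ℕ) : ℤ) ∣ h * u := by
    apply Int.natCast_dvd.2
    rw [Int.natAbs_mul, Int.natAbs_natCast]
    exact key
  push_cast at h9
  exact h9

/-- the frequencies are not close to rationals with a small denominator -/
lemma dz_freq {N : ℕ} (q i0 D k : ℕ) (hq : 2 ≤ q) (h : Fin N → ℤ) (l0 : Fin N) (hl0 : h l0 ≠ 0)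
    (htop : ∀ l, l0 < l → h l = 0) (hD : |h l0| < 2 ^ D) (u : ℕ) (hu : 1 ≤ u)
    (hlt : |h l0| * u < (q : ℤ) ^ (i0 + (l0 : ℕ) * D + k)) :
    1 / (q : ℝ) ^ (i0 + (l0 : ℕ) * D + k) ≤
      dz ((∑ l, (h l : ℝ) / (q : ℝ) ^ (i0 + (l : ℕ) * D + k)) * u) := by
  set t : ℕ := i0 + (l0 : ℕ) * D + k with ht
  have hq0 : (0 : ℝ) < q := by exact_mod_cast (by omega : 0 < q)
  set B : ℤ := ∑ l ∈ univ.filter (fun l => l < l0), h l * (q : ℤ) ^ (((l0 : ℕ) - (l : ℕ) - 1) * D) with hB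
  have hA : (∑ l, (h l : ℝ) / (q : ℝ) ^ (i0 + (l : ℕ) * D + k)) =
      ((h l0 + (q : ℤ) ^ D * B : ℤ) : ℝ) / (q : ℝ) ^ t := by
    rw [eq_div_iff (by positivity), Finset.sum_mul]
    have h1 : ∀ l : Fin N, (h l : ℝ) / (q : ℝ) ^ (i0 + (l : ℕ) * D + k) * (q : ℝ) ^ t =
        if l = l0 then (h l0 : ℝ) else if l < l0 then
          (q : ℝ) ^ D * ((h l : ℝ) * (q : ℝ) ^ (((l0 : ℕ) - (l : ℕ) - 1) * D)) else 0 := by
      intro l
      split_ifs with h2 h3
      · subst h2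
        rw [← ht]
        field_simp
      · have h4 : (l : ℕ) < l0 := h3
        have e1 : (q : ℝ) ^ t = (q : ℝ) ^ (i0 + (l : ℕ) * D + k) *
            ((q : ℝ) ^ D * (q : ℝ) ^ (((l0 : ℕ) - (l : ℕ) - 1) * D)) := by
          rw [← pow_add, ← pow_add, ht]
          congr 1
          obtain ⟨g, hg⟩ : ∃ g, (l0 : ℕ) = l + (g + 1) := ⟨(l0 : ℕ) - l - 1, by omega⟩
          have e2 : (l0 : ℕ) - (l : ℕ) - 1 = g := by omega
          rw [e2, hg]
          ring
        rw [e1]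
        field_simp
      · have h4 : l0 < l := lt_of_le_of_ne (not_lt.1 h3) (fun h5 => h2 h5.symm)
        rw [htop l h4]
        simp
    rw [Finset.sum_congr rfl fun l _ => h1 l]
    rw [hB]
    push_cast
    rw [Finset.mul_sum]
    have h5 : ∑ l : Fin N, (if l = l0 then (h l0 : ℝ) else if l < l0 then
          (q : ℝ) ^ D * ((h l : ℝ) * (q : ℝ) ^ (((l0 : ℕ) - (l : ℕ) - 1) * D)) else 0) =
        ∑ l : Fin N, ((if l = l0 then (h l0 : ℝ) else 0) + (if l < l0 then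
          (q : ℝ) ^ D * ((h l : ℝ) * (q : ℝ) ^ (((l0 : ℕ) - (l : ℕ) - 1) * D)) else 0)) := by
      refine Finset.sum_congr rfl fun l _ => ?_
      by_cases h6 : l = l0
      · subst h6
        simp
      · simp [h6]
    rw [h5, Finset.sum_add_distrib, Finset.sum_ite_eq', if_pos (Finset.mem_univ _),
      Finset.sum_filter]
  have h2 : ¬ ((q : ℤ) ^ t) ∣ (h l0 + (q : ℤ) ^ D * B) * u := by
    intro h3
    have h4 := dvd_low q t D u (h l0) B hl0 hD h3
    have h5 : h l0 * u ≠ 0 := mul_ne_zero hl0 (by exact_mod_cast (by omega : u ≠ 0))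
    have h6 := Int.le_of_dvd (abs_pos.2 h5) ((dvd_abs _ _).2 h4)
    rw [abs_mul, Nat.abs_cast] at h6
    linarith
  rw [hA]
  set A : ℤ := h l0 + (q : ℤ) ^ D * B with hAd
  set p : ℤ := round ((A : ℝ) / (q : ℝ) ^ t * u) with hp
  unfold dz
  rw [← hp]
  have e3 : (A : ℝ) / (q : ℝ) ^ t * u - p = ((A * u - p * (q : ℤ) ^ t : ℤ) : ℝ) / (q : ℝ) ^ t := by
    push_cast
    field_simp
  rw [e3, abs_div, abs_of_pos (show (0 : ℝ) < (q : ℝ) ^ t by positivity)]
  apply div_le_div_of_nonneg_right _ (by positivity)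
  have h7 : A * u - p * (q : ℤ) ^ t ≠ 0 := by
    intro h8
    apply h2
    exact ⟨p, by linarith⟩
  have h9 : 1 ≤ |A * u - p * (q : ℤ) ^ t| := Int.one_le_abs h7
  exact_mod_cast h9

/-- digits of a natural number -/
lemma word_floor (x q i k : ℕ) (hq : 1 ≤ q) :
    ⌊((q ^ k : ℕ) : ℝ) * Int.fract ((x : ℝ) / (q : ℝ) ^ (i + k))⌋₊ = x / q ^ i % q ^ k := by
  have hq0 : (0 : ℝ) < q := by exact_mod_cast hq
  have h1 : Int.fract ((x : ℝ) / (q : ℝ) ^ (i + k)) = ((x % q ^ (i + k) : ℕ) : ℝ) / (q : ℝ) ^ (i + k) := by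
    have h2 : (x : ℝ) = ((q ^ (i + k) : ℕ) : ℝ) * ((x / q ^ (i + k) : ℕ) : ℝ) +
        ((x % q ^ (i + k) : ℕ) : ℝ) := by exact_mod_cast (Nat.div_add_mod x (q ^ (i + k))).symm
    generalize x / q ^ (i + k) = y at h2
    have hlt : x % q ^ (i + k) < q ^ (i + k) := Nat.mod_lt _ (Nat.pow_pos hq)
    generalize x % q ^ (i + k) = z at h2 hlt
    have h3 : (x : ℝ) / (q : ℝ) ^ (i + k) = ((y : ℤ) : ℝ) + (z : ℝ) / (q : ℝ) ^ (i + k) := by
      rw [h2]
      push_cast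
      field_simp
    rw [h3, Int.fract_intCast_add, Int.fract_eq_self]
    constructor
    · positivity
    · rw [div_lt_one (by positivity)]
      exact_mod_cast hlt
  rw [h1]
  have h4 : ((q ^ k : ℕ) : ℝ) * (((x % q ^ (i + k) : ℕ) : ℝ) / (q : ℝ) ^ (i + k)) =
      ((x % q ^ (i + k) : ℕ) : ℝ) / ((q ^ i : ℕ) : ℝ) := by
    generalize x % q ^ (i + k) = z
    rw [pow_add]
    push_cast
    field_simp
  rw [h4, Nat.floor_div_natCast, Nat.floor_natCast]
  -- `(x % q ^ (i + k)) / q ^ i = x / q ^ i % q ^ k`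
  rw [pow_add]
  exact Nat.mod_mul_right_div_self x (q ^ i) (q ^ k)

end Pool.Agent.Q263.WE
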