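import Mathlib
import Pool.Agent.H429R2.Auto

/-!
The base-6 automaton: the configuration of a natural number, and the cells in terms of fractional parts.
-/

set_option autoImplicit false

open Finset

namespace Pool.Agent.Q263.WE

open Pool.Agent.H429R2.Auto (Conf F Rep letter rep_iter digits_sum sum_lt eq_of_digits)

/-- the configuration of the base 6 digits of the natural number `N` (the units at the place `0`) -/
def conf (N : ℕ) (i : ℤ) : Fin 6 := Fin.ofNat 6 (if i ≤ 0 then N / 6 ^ (-i).toNat else 0)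

lemma rep_conf (N : ℕ) : Rep (conf N) (N : ℝ) := by
  intro i
  unfold conf
  rw [Fin.val_ofNat]
  split_ifs with h
  · obtain ⟨l, hl⟩ := Int.eq_ofNat_of_zero_le (neg_nonneg.2 h)
    have e : (6 : ℝ) ^ i * (N : ℝ) = (N : ℝ) / ((6 ^ l : ℕ) : ℝ) := by
      have : i = -(l : ℤ) := by omega
      rw [this, zpow_neg, zpow_natCast]
      push_cast
      field_simp
    rw [e, Nat.floor_div_eq_div]
    have h2 : (-i).toNat = l := by omega
    rw [h2]
  · obtain ⟨l, hl⟩ := Int.eq_ofNat_of_zero_le (by omega : (0 : ℤ) ≤ i - 1)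
    have e : (6 : ℝ) ^ i * (N : ℝ) = ((6 ^ (l + 1) * N : ℕ) : ℝ) := by
      have : i = (l + 1 : ℕ) := by push_cast; omega
      rw [this, zpow_natCast]
      push_cast
      ring
    rw [e, Nat.floor_natCast, pow_succ', mul_assoc, Nat.mul_mod_right]

/-- the configuration `x` shows the word `w` at the cells `j, j + 1, …, j + |w| - 1` -/
def ShowsAt (x : ℤ → Fin 6) (w : List (Fin 6)) (j : ℤ) : Prop :=
  ∀ (i : ℕ) (h : i < w.length), x (j + i) = w[i]

/-- the number coding the word -/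
def code (w : List (Fin 6)) : ℕ :=
  ∑ r ∈ Finset.range w.length, ((w.getD (w.length - 1 - r) 0 : Fin 6) : ℕ) * 6 ^ r

lemma code_lt (w : List (Fin 6)) : code w < 6 ^ w.length :=
  sum_lt w.length fun r => w.getD (w.length - 1 - r) 0

lemma shows_iff {x : Conf} {β : ℝ} (hx : Rep x β) (w : List (Fin 6)) (j : ℤ) :
    ShowsAt x w j ↔ ⌊(6 : ℝ) ^ (j + w.length - 1) * β⌋₊ % 6 ^ w.length = code w := by
  constructor
  · intro h
    apply eq_of_digits w.length _ _ (Nat.mod_lt _ (by positivity)) (code_lt w)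
    intro r hr
    rw [← letter hx j w.length r hr]
    have h1 := h (w.length - 1 - r) (by omega)
    have e1 : j + (w.length : ℤ) - 1 - (r : ℤ) = j + ((w.length - 1 - r : ℕ) : ℤ) := by omega
    rw [e1, h1]
    have h2 := digits_sum w.length (fun r => w.getD (w.length - 1 - r) 0) r hr
    unfold code
    rw [h2]
    rw [List.getD_eq_getElem?_getD, List.getElem?_eq_getElem (by omega)]
    rfl
  · intro h i hi
    have h1 := letter hx j w.length (w.length - 1 - i) (by omega)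
    rw [h] at h1
    have h2 := digits_sum w.length (fun r => w.getD (w.length - 1 - r) 0) (w.length - 1 - i) (by omega)
    have e1 : j + (w.length : ℤ) - 1 - ((w.length - 1 - i : ℕ) : ℤ) = j + i := by omega
    rw [e1] at h1
    have e2 : w.length - 1 - (w.length - 1 - i) = i := by omega
    unfold code at h1
    rw [h2] at h1
    simp only [e2] at h1
    have h3 : w.getD i 0 = w[i] := by
      rw [List.getD_eq_getElem?_getD, List.getElem?_eq_getElem hi]; rfl
    rw [h3] at h1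
    exact Fin.ext h1

lemma floor_mod (Q : ℕ) (hQ : 1 ≤ Q) (z : ℝ) (hz : 0 ≤ z) :
    ⌊(Q : ℝ) * Int.fract z⌋₊ = ⌊(Q : ℝ) * z⌋₊ % Q := by
  have hQ0 : (0 : ℝ) < Q := by exact_mod_cast hQ
  obtain ⟨k, hk⟩ : ∃ k : ℕ, ⌊z⌋ = k := ⟨⌊z⌋.toNat, (Int.toNat_of_nonneg (Int.floor_nonneg.2 hz)).symm⟩
  have h1 : Int.fract z = z - k := by
    rw [Int.fract, hk]
    norm_cast
  have h2 : (Q : ℝ) * z = (Q : ℝ) * Int.fract z + ((Q * k : ℕ) : ℝ) := by
    rw [h1]
    push_cast
    ring
  rw [h2, Nat.floor_add_natCast (mul_nonneg hQ0.le (Int.fract_nonneg z)), Nat.add_mul_mod_self_left,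
    Nat.mod_eq_of_lt]
  rw [Nat.floor_lt (mul_nonneg hQ0.le (Int.fract_nonneg z))]
  exact mul_lt_of_lt_one_right hQ0 (Int.fract_lt_one z)

/-- the cells of the orbit of `conf N` -/
lemma shows_conf (N : ℕ) (w : List (Fin 6)) (j : ℤ) (n e a : ℕ) (he : (e : ℤ) = n - j + 1)
    (ha : (a : ℤ) = n + j - 1) :
    ShowsAt (F^[n] (conf N)) w j ↔
      ⌊((6 ^ w.length : ℕ) : ℝ) * Int.fract ((N : ℝ) * ((3 ^ a : ℕ) / (2 : ℝ) ^ e))⌋₊ = code w := by
  rw [shows_iff (rep_iter (Nat.cast_nonneg N) (rep_conf N) n) w j,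
    floor_mod _ (Nat.one_le_pow _ _ (by norm_num)) _ (by positivity)]
  have e1 : (6 : ℝ) ^ (j + w.length - 1) * ((3 / 2) ^ n * (N : ℝ)) =
      ((6 ^ w.length : ℕ) : ℝ) * ((N : ℝ) * ((3 ^ a : ℕ) / (2 : ℝ) ^ e)) := by
    have h1 : (6 : ℝ) ^ (j + w.length - 1) = (6 : ℝ) ^ w.length * ((2 : ℝ) ^ (j - 1) * (3 : ℝ) ^ (j - 1)) := by
      rw [show j + (w.length : ℤ) - 1 = (w.length : ℤ) + (j - 1) by ring, zpow_add₀ (by norm_num),
        zpow_natCast, ← mul_zpow]
      norm_num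
    have h2 : (3 : ℝ) ^ a = (3 : ℝ) ^ n * (3 : ℝ) ^ (j - 1) := by
      rw [← zpow_natCast, ← zpow_natCast, ← zpow_add₀ (by norm_num), ha]
      congr 1
      ring
    have h3 : ((2 : ℝ) ^ e)⁻¹ = ((2 : ℝ) ^ n)⁻¹ * (2 : ℝ) ^ (j - 1) := by
      rw [← zpow_natCast, ← zpow_natCast, ← zpow_neg, ← zpow_neg, ← zpow_add₀ (by norm_num), he]
      congr 1
      ring
    rw [h1, div_eq_mul_inv ((3 ^ a : ℕ) : ℝ), h3]
    push_cast
    rw [h2, div_pow]
    field_simp
  rw [e1]

end Pool.Agent.Q263.WE
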