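import Mathlib
import Pool.Agent.Q263.WE.Wey

/-!
From all but few of the `b ≤ M` for every large `M` to one exceptional set.
-/

set_option autoImplicit false

open Finset Filter Topology

namespace Pool.Agent.Q263.WE

lemma sum_pow_two (n : ℕ) : ∑ j ∈ range n, (2 : ℝ) ^ j ≤ 2 ^ n := by
  induction n with
  | zero => simp
  | succ n ih =>
    rw [Finset.sum_range_succ, pow_succ]
    linarith

lemma globalize (κ : ℝ) (hκ : 0 < κ) (hκ1 : κ ≤ 1) (P : ℕ → ℕ → Prop) (Q : ℕ → Prop)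
    (hPQ : ∀ M b : ℕ, 1 ≤ b → b ≤ M → M ≤ 2 * b → P M b → Q b)
    (h : ∀ᶠ M : ℕ in atTop, ∃ X : Finset ℕ, (X.card : ℝ) ≤ M * Real.exp (-(Real.log M) ^ κ) ∧
      ∀ m ∈ range M, m ∉ X → P M (m + 1)) :
    ∃ E : Set ℕ, (∀ᶠ x : ℕ in atTop,
      ((E ∩ Set.Iic x).ncard : ℝ) ≤ x * Real.exp (-(Real.log x) ^ (κ / 2))) ∧
      ∀ b, 1 ≤ b → b ∉ E → Q b := by
  classical
  obtain ⟨M0, hM0⟩ := eventually_atTop.1 h
  have hX : ∀ j : ℕ, ∃ X : Finset ℕ, X ⊆ range (2 ^ j) ∧
      (M0 ≤ 2 ^ j → (X.card : ℝ) ≤ 2 ^ j * Real.exp (-((j : ℝ) * Real.log 2) ^ κ)) ∧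
      ∀ m ∈ range (2 ^ j), m ∉ X → P (2 ^ j) (m + 1) := by
    intro j
    by_cases hj : M0 ≤ 2 ^ j
    · obtain ⟨X, h1, h2⟩ := hM0 _ hj
      refine ⟨X ∩ range (2 ^ j), Finset.inter_subset_right, fun _ => ?_, ?_⟩
      · refine le_trans (by exact_mod_cast Finset.card_le_card Finset.inter_subset_left) (h1.trans (le_of_eq ?_))
        push_cast
        rw [Real.log_pow]
      · intro m hm hmX
        exact h2 m hm fun h3 => hmX (Finset.mem_inter.2 ⟨h3, hm⟩)
    · exact ⟨range (2 ^ j), subset_rfl, fun h => absurd h hj, fun m hm hmX => absurd hm hmX⟩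
  choose X hX1 hX2 hX3 using hX
  refine ⟨{b | 1 ≤ b ∧ b - 1 ∈ X (Nat.log 2 b + 1)}, ?_, ?_⟩
  swap
  · intro b hb hbE
    rw [Set.mem_ofPred_eq] at hbE
    push Not at hbE
    have h1 : 2 ^ Nat.log 2 b ≤ b := Nat.pow_log_le_self 2 (by omega)
    have h2 : b < 2 ^ (Nat.log 2 b + 1) := Nat.lt_pow_succ_log_self (by norm_num) b
    have h3 := hX3 (Nat.log 2 b + 1) (b - 1) (Finset.mem_range.2 (by omega)) (hbE hb)
    rw [Nat.sub_add_cancel hb] at h3
    exact hPQ _ b hb h2.le (by rw [pow_succ]; omega) h3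
  -- the count
  obtain ⟨j0, hj0⟩ : ∃ j0 : ℕ, M0 ≤ 2 ^ j0 := ⟨M0, Nat.lt_two_pow_self.le⟩
  have hlog2 := Real.log_two_gt_d9
  have hev1 : ∀ᶠ y : ℝ in atTop, 3 + y ^ (κ / 2) ≤ (y / 4) ^ κ ∧ 3 + y ^ (κ / 2) ≤ y / 2 := by
    filter_upwards [ev_pow 8 (κ / 2) κ (by linarith), ev_pow 24 0 κ (by linarith),
      ev_pow 4 (κ / 2) 1 (by linarith), eventually_ge_atTop 12] with y h1 h2 h6 h3
    rw [Real.rpow_zero] at h2
    rw [Real.rpow_one] at h6
    refine ⟨?_, by linarith⟩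
    rw [Real.div_rpow (by linarith) (by norm_num)]
    have h4 : (4 : ℝ) ^ κ ≤ 4 := by
      calc (4 : ℝ) ^ κ ≤ 4 ^ (1 : ℝ) := Real.rpow_le_rpow_of_exponent_le (by norm_num) hκ1
        _ = 4 := Real.rpow_one _
    rw [le_div_iff₀ (Real.rpow_pos_of_pos (by norm_num) _)]
    have h5 : 0 ≤ y ^ (κ / 2) := (Real.rpow_pos_of_pos (by linarith) _).le
    calc (3 + y ^ (κ / 2)) * 4 ^ κ ≤ (3 + y ^ (κ / 2)) * 4 :=
          mul_le_mul_of_nonneg_left h4 (by linarith)
      _ ≤ y ^ κ := by linarith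
  filter_upwards [eventually_ge_atTop 1, eventually_ge_atTop (4 ^ (j0 + 1)),
    tendsto_log_nat.eventually_ge_atTop 4, tendsto_log_nat.eventually hev1] with x hx1 hxj hx2 hx3
  obtain ⟨hx3, hx4⟩ := hx3
  set y : ℝ := Real.log x with hy
  have hx0 : (0 : ℝ) < x := by exact_mod_cast hx1
  set J : ℕ := Nat.log 2 x + 1 with hJ
  have hJ1 : 2 ^ (J - 1) ≤ x := Nat.pow_log_le_self 2 (by omega)
  have hJ2 : x < 2 ^ J := Nat.lt_pow_succ_log_self (by norm_num) x
  have hJR : (2 : ℝ) ^ J ≤ 2 * x := by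
    have h1 : 2 ^ J = 2 * 2 ^ (J - 1) := by
      rw [hJ, Nat.add_sub_cancel, pow_succ]
      ring
    have h2 : (2 : ℕ) ^ J ≤ 2 * x := by
      rw [h1]
      omega
    exact_mod_cast h2
  have hyJ : y ≤ J * Real.log 2 := by
    rw [← Real.log_pow]
    exact Real.log_le_log hx0 (by exact_mod_cast hJ2.le)
  -- the counting set
  have hsub : ({b | 1 ≤ b ∧ b - 1 ∈ X (Nat.log 2 b + 1)} ∩ Set.Iic x : Set ℕ) ⊆
      (((range (J + 1)).biUnion (fun j => (X j).image (fun m => m + 1)) : Finset ℕ) : Set ℕ) := by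
    rintro b ⟨⟨hb1, hb2⟩, hbx⟩
    rw [Set.mem_Iic] at hbx
    rw [Finset.mem_coe, Finset.mem_biUnion]
    refine ⟨Nat.log 2 b + 1, ?_, ?_⟩
    · rw [Finset.mem_range]
      have : Nat.log 2 b ≤ Nat.log 2 x := Nat.log_mono_right hbx
      omega
    · rw [Finset.mem_image]
      exact ⟨b - 1, hb2, by omega⟩
  have h1 : ((({b | 1 ≤ b ∧ b - 1 ∈ X (Nat.log 2 b + 1)} ∩ Set.Iic x : Set ℕ)).ncard : ℝ) ≤
      ∑ j ∈ range (J + 1), ((X j).card : ℝ) := by
    have h2 := Set.ncard_le_ncard hsub (Finset.finite_toSet _)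
    rw [Set.ncard_coe_finset] at h2
    have h3 : (((range (J + 1)).biUnion (fun j => (X j).image (fun m => m + 1)) : Finset ℕ)).card ≤
        ∑ j ∈ range (J + 1), (X j).card :=
      Finset.card_biUnion_le.trans (Finset.sum_le_sum fun j _ => Finset.card_image_le)
    exact_mod_cast h2.trans h3
  -- the split
  set H : ℕ := J / 2 with hH
  have hHJ : H ≤ J + 1 := by omega
  have hHj0 : j0 ≤ H := by
    by_contra hlt
    push Not at hlt
    have h4 : J ≤ 2 * j0 := by omega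
    have h5 : (2 : ℕ) ^ J ≤ 2 ^ (2 * j0) := Nat.pow_le_pow_right (by norm_num) h4
    have h6 : (4 : ℕ) ^ (j0 + 1) = 4 * 2 ^ (2 * j0) := by
      rw [pow_succ, pow_mul]
      norm_num
      ring
    omega
  have h2 : ∑ j ∈ range H, ((X j).card : ℝ) ≤ 2 ^ H := by
    refine le_trans (Finset.sum_le_sum fun j _ => ?_) (sum_pow_two H)
    have := Finset.card_le_card (hX1 j)
    rw [Finset.card_range] at this
    exact_mod_cast this
  have h3 : ∑ j ∈ Finset.Ico H (J + 1), ((X j).card : ℝ) ≤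
      2 ^ (J + 1) * Real.exp (-((y / 2 - 1) ^ κ)) := by
    calc ∑ j ∈ Finset.Ico H (J + 1), ((X j).card : ℝ)
        ≤ ∑ j ∈ Finset.Ico H (J + 1), 2 ^ j * Real.exp (-((y / 2 - 1) ^ κ)) := by
          apply Finset.sum_le_sum
          intro j hj
          rw [Finset.mem_Ico] at hj
          have hj1 : M0 ≤ 2 ^ j := hj0.trans (Nat.pow_le_pow_right (by norm_num) (by omega))
          refine (hX2 j hj1).trans ?_
          apply mul_le_mul_of_nonneg_left _ (by positivity)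
          apply Real.exp_le_exp.2
          rw [neg_le_neg_iff]
          apply Real.rpow_le_rpow (by linarith) _ hκ.le
          have h5 : (J : ℝ) ≤ 2 * j + 1 := by
            have : J ≤ 2 * j + 1 := by omega
            exact_mod_cast this
          have h6 : (J : ℝ) * Real.log 2 ≤ (2 * j + 1) * Real.log 2 :=
            mul_le_mul_of_nonneg_right h5 (by linarith)
          have h7 := Real.log_two_lt_d9
          nlinarith
      _ = (∑ j ∈ Finset.Ico H (J + 1), (2 : ℝ) ^ j) * Real.exp (-((y / 2 - 1) ^ κ)) := by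
          rw [Finset.sum_mul]
      _ ≤ _ := by
          apply mul_le_mul_of_nonneg_right _ (Real.exp_pos _).le
          refine le_trans ?_ (sum_pow_two (J + 1))
          apply Finset.sum_le_sum_of_subset_of_nonneg
          · intro j hj
            rw [Finset.mem_Ico] at hj
            exact Finset.mem_range.2 hj.2
          · intro _ _ _
            positivity
  have h4 : ∑ j ∈ range (J + 1), ((X j).card : ℝ) ≤
      2 ^ H + 2 ^ (J + 1) * Real.exp (-((y / 2 - 1) ^ κ)) := by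
    rw [← Finset.sum_range_add_sum_Ico _ hHJ]
    exact add_le_add h2 h3
  have he1 : (2 : ℝ) ≤ Real.exp 1 := by
    have := Real.add_one_le_exp 1
    linarith
  have he3 : (8 : ℝ) ≤ Real.exp 3 := by
    have e : Real.exp 3 = Real.exp 1 ^ 3 := by
      rw [← Real.exp_nat_mul]
      norm_num
    rw [e]
    calc (8 : ℝ) = 2 ^ 3 := by norm_num
      _ ≤ _ := pow_le_pow_left₀ (by norm_num) he1 3
  have hxe : (x : ℝ) = Real.exp y := (Real.exp_log hx0).symm
  set u : ℝ := y ^ (κ / 2) with hu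
  have h5 : (2 : ℝ) ^ H ≤ x * Real.exp (-u) / 2 := by
    have h6 : ((2 : ℝ) ^ H) ^ 2 ≤ 2 * x := by
      rw [← pow_mul]
      refine le_trans ?_ hJR
      exact pow_le_pow_right₀ (by norm_num) (by omega)
    have h7 : (2 : ℝ) * x ≤ (x * Real.exp (-u) / 2) ^ 2 := by
      have h8 : (x * Real.exp (-u) / 2) ^ 2 = x * (Real.exp (y - 2 * u) / 4) := by
        rw [div_pow, mul_pow, ← Real.exp_nat_mul, sub_eq_add_neg, Real.exp_add, ← hxe]
        have : ((2 : ℕ) : ℝ) * -u = -(2 * u) := by push_cast; ring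
        rw [this]
        ring
      rw [h8]
      have h9 : (8 : ℝ) ≤ Real.exp (y - 2 * u) := he3.trans (Real.exp_le_exp.2 (by linarith))
      nlinarith
    exact le_of_sq_le_sq (h6.trans h7) (by positivity)
  have h6 : (2 : ℝ) ^ (J + 1) * Real.exp (-((y / 2 - 1) ^ κ)) ≤ x * Real.exp (-u) / 2 := by
    have h7 : (2 : ℝ) ^ (J + 1) ≤ 4 * x := by
      rw [pow_succ]
      linarith
    have h8 : (y / 4) ^ κ ≤ (y / 2 - 1) ^ κ :=
      Real.rpow_le_rpow (by linarith) (by linarith) hκ.le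
    have h9 : Real.exp (-((y / 2 - 1) ^ κ)) ≤ Real.exp (-u) / 8 := by
      rw [le_div_iff₀ (by norm_num)]
      calc Real.exp (-((y / 2 - 1) ^ κ)) * 8 ≤ Real.exp (-((y / 2 - 1) ^ κ)) * Real.exp 3 :=
            mul_le_mul_of_nonneg_left he3 (Real.exp_pos _).le
        _ = Real.exp (-((y / 2 - 1) ^ κ) + 3) := by rw [Real.exp_add]
        _ ≤ Real.exp (-u) := Real.exp_le_exp.2 (by linarith)
    calc (2 : ℝ) ^ (J + 1) * Real.exp (-((y / 2 - 1) ^ κ)) ≤ (4 * x) * (Real.exp (-u) / 8) :=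
          mul_le_mul h7 h9 (Real.exp_pos _).le (by positivity)
      _ = _ := by ring
  linarith

end Pool.Agent.Q263.WE
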