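import Mathlib
import Pool.Agent.Q263.WE.Law

/-!
The two families: `x b ^ i` and `(m + x) ^ i`.
-/

set_option autoImplicit false

open Finset Polynomial Filter Topology

namespace Pool.Agent.Q263.WE

open Pool.Agent.Y957.VK (dz)
open Pool.Agent.H332R2.Lit (e e_add norm_e e_zero)

/-- the largest index with a nonzero coefficient -/
lemma exists_top {N : ℕ} (h : Fin N → ℤ) (hne : ∃ l, h l ≠ 0) :
    ∃ l0 : Fin N, h l0 ≠ 0 ∧ ∀ l, l0 < l → h l = 0 := by
  classical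
  obtain ⟨l1, hl1⟩ := hne
  have hn : (univ.filter (fun l => h l ≠ 0)).Nonempty := ⟨l1, by simp [hl1]⟩
  refine ⟨(univ.filter (fun l => h l ≠ 0)).max' hn, ?_, ?_⟩
  · have := Finset.max'_mem _ hn
    rw [Finset.mem_filter] at this
    exact this.2
  · intro l hl
    by_contra h0
    have h1 := Finset.le_max' (univ.filter (fun l => h l ≠ 0)) l (by simp [h0])
    exact absurd hl (not_lt.2 h1)

lemma natAbs_cast (h : ℤ) : ((h.natAbs : ℕ) : ℝ) = |(h : ℝ)| := by
  rw [Nat.cast_natAbs, Int.cast_abs]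

lemma dz_mul_int (x : ℝ) (h : ℤ) (u : ℕ) :
    dz ((h : ℝ) * x * u) = dz (x * ((h.natAbs * u : ℕ) : ℝ)) := by
  have h0 : (((h.natAbs * u : ℕ)) : ℝ) = |(h : ℝ)| * u := by
    rw [Nat.cast_mul, natAbs_cast]
  rw [h0]
  rcases abs_cases (h : ℝ) with ⟨h1, _⟩ | ⟨h1, _⟩
  · rw [h1]
    congr 1
    ring
  · rw [h1, ← dz_neg]
    congr 1
    ring

lemma dio_step {N : ℕ} (h : Fin N → ℤ) (l0 : Fin N) (hl0 : h l0 ≠ 0) (x A : ℝ) (μ t : ℕ)
    (ht : 1 ≤ t) (htN : t ≤ N + 1) (hA : 0 ≤ A)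
    (hx : ∀ u : ℕ, 1 ≤ u → 1 ≤ A * (u : ℝ) ^ μ * dz (x * u)) (y : ℝ) (z : ℤ)
    (hy : y = (h l0 : ℝ) * t * x + z) (u : ℕ) (hu : 1 ≤ u) :
    1 ≤ A * (((N : ℝ) + 1) * (∑ l, |(h l : ℝ)|) * u) ^ μ * dz (y * u) := by
  have h1 : dz (y * u) = dz (x * (((h l0).natAbs * (t * u) : ℕ) : ℝ)) := by
    have e1 : y * u = (h l0 : ℝ) * x * ((t * u : ℕ) : ℝ) + ((z * u : ℤ) : ℝ) := by
      rw [hy]
      push_cast
      ring
    rw [e1, dz_add_int, dz_mul_int]
  have hna : 1 ≤ (h l0).natAbs := Nat.one_le_iff_ne_zero.2 (Int.natAbs_ne_zero.2 hl0)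
  have h2 := hx ((h l0).natAbs * (t * u)) (Nat.mul_pos hna (Nat.mul_pos ht hu))
  rw [h1]
  refine h2.trans ?_
  apply mul_le_mul_of_nonneg_right _ (dz_nonneg _)
  apply mul_le_mul_of_nonneg_left _ hA
  apply pow_le_pow_left₀ (Nat.cast_nonneg _)
  rw [Nat.cast_mul, natAbs_cast, Nat.cast_mul]
  have h3 : |(h l0 : ℝ)| ≤ ∑ l, |(h l : ℝ)| :=
    Finset.single_le_sum (f := fun l => |(h l : ℝ)|) (fun _ _ => abs_nonneg _) (Finset.mem_univ l0)
  have h4 : (t : ℝ) ≤ (N : ℝ) + 1 := by exact_mod_cast htN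
  calc |(h l0 : ℝ)| * (t * u) = t * |(h l0 : ℝ)| * u := by ring
    _ ≤ ((N : ℝ) + 1) * (∑ l, |(h l : ℝ)|) * u := by
        apply mul_le_mul_of_nonneg_right _ (Nat.cast_nonneg _)
        exact mul_le_mul h4 h3 (abs_nonneg _) (by positivity)

/-- bases -/
theorem polyType_base (N : ℕ) (x A : ℝ) (μ : ℕ) (hA : 0 ≤ A)
    (hx : ∀ u : ℕ, 1 ≤ u → 1 ≤ A * (u : ℝ) ^ μ * dz (x * u)) :
    PolyType N (fun m l => x * ((m : ℝ) + 1) ^ ((l : ℕ) + 1)) A μ := by
  refine ⟨1, fun h hne => ?_⟩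
  obtain ⟨l0, hl0, htop⟩ := exists_top h hne
  refine ⟨∑ l : Fin N, C ((h l : ℝ) * x) * X ^ ((l : ℕ) + 1), (l0 : ℕ) + 1, by omega,
    by have := l0.2; omega, ?_, ?_, ?_⟩
  · apply natDegree_sum_le_of_forall_le
    intro l _
    by_cases hl : l0 < l
    · rw [htop l hl]
      simp
    · refine (natDegree_C_mul_X_pow_le _ _).trans ?_
      have : l ≤ l0 := not_lt.1 hl
      have : (l : ℕ) ≤ l0 := this
      omega
  · intro m
    congr 1
    rw [eval_finsetSum]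
    refine Finset.sum_congr rfl fun l _ => ?_
    rw [eval_mul, eval_C, eval_pow, eval_X]
    ring
  · intro u hu
    have hcoeff : (∑ l : Fin N, C ((h l : ℝ) * x) * X ^ ((l : ℕ) + 1)).coeff ((l0 : ℕ) + 1) =
        (h l0 : ℝ) * x := by
      rw [finsetSum_coeff]
      rw [Finset.sum_eq_single l0]
      · rw [coeff_C_mul, coeff_X_pow, if_pos rfl, mul_one]
      · intro l _ hl
        rw [coeff_C_mul, coeff_X_pow, if_neg, mul_zero]
        intro h1
        apply hl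
        exact Fin.ext (by omega)
      · intro h1
        exact absurd (Finset.mem_univ _) h1
    rw [hcoeff]
    exact dio_step h l0 hl0 x A μ 1 le_rfl (by omega) hA hx _ 0 (by push_cast; ring) u hu

/-- powers -/
theorem polyType_pow (N : ℕ) (x A : ℝ) (μ : ℕ) (hA : 0 ≤ A)
    (hx : ∀ u : ℕ, 1 ≤ u → 1 ≤ A * (u : ℝ) ^ μ * dz (x * u)) :
    PolyType N (fun m l => (((m : ℝ) + 1) + x) ^ ((l : ℕ) + 2)) A μ := by
  refine ⟨1, fun h hne => ?_⟩
  obtain ⟨l0, hl0, htop⟩ := exists_top h hne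
  set f : ℝ[X] := ∑ l : Fin N, C (h l : ℝ) * (X + C x) ^ ((l : ℕ) + 2) with hf
  have hco : ∀ (n k : ℕ), ((X + C x) ^ n : ℝ[X]).coeff k = x ^ (n - k) * (n.choose k : ℝ) :=
    fun n k => coeff_X_add_C_pow x n k
  have hdeg : f.natDegree ≤ (l0 : ℕ) + 2 := by
    rw [hf]
    apply natDegree_sum_le_of_forall_le
    intro l _
    by_cases hl : l0 < l
    · rw [htop l hl]
      simp
    · refine (natDegree_C_mul_le _ _).trans ?_
      refine (natDegree_pow_le).trans ?_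
      rw [natDegree_X_add_C, mul_one]
      have : l ≤ l0 := not_lt.1 hl
      have : (l : ℕ) ≤ l0 := this
      omega
  have htopc : f.coeff ((l0 : ℕ) + 2) = h l0 := by
    rw [hf, finsetSum_coeff, Finset.sum_eq_single l0]
    · rw [coeff_C_mul, hco, Nat.sub_self, Nat.choose_self]
      simp
    · intro l _ hl
      rw [coeff_C_mul, hco]
      rcases lt_or_gt_of_ne hl with h1 | h1
      · have h1' : (l : ℕ) < l0 := h1
        rw [Nat.choose_eq_zero_of_lt (by omega)]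
        simp
      · rw [htop l h1]
        simp
    · intro h1
      exact absurd (Finset.mem_univ _) h1
  refine ⟨f - C (h l0 : ℝ) * X ^ ((l0 : ℕ) + 2), (l0 : ℕ) + 1, by omega,
    by have := l0.2; omega, ?_, ?_, ?_⟩
  · -- the degree drops
    rw [natDegree_le_iff_coeff_eq_zero]
    intro k hk
    rw [coeff_sub, coeff_C_mul, coeff_X_pow]
    by_cases hk2 : k = (l0 : ℕ) + 2
    · rw [hk2, htopc, if_pos rfl]
      ring
    · rw [if_neg hk2, mul_zero, sub_zero]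
      exact coeff_eq_zero_of_natDegree_lt (by omega)
  · intro m
    have h1 : (∑ l, (h l : ℝ) * (((m : ℝ) + 1) + x) ^ ((l : ℕ) + 2)) =
        (f - C (h l0 : ℝ) * X ^ ((l0 : ℕ) + 2)).eval ((m : ℝ) + 1) +
          ((h l0 * ((m : ℤ) + 1) ^ ((l0 : ℕ) + 2) : ℤ) : ℝ) := by
      rw [eval_sub, eval_mul, eval_C, eval_pow, eval_X, hf, eval_finsetSum]
      have h2 : ∑ l : Fin N, (C (h l : ℝ) * (X + C x) ^ ((l : ℕ) + 2)).eval ((m : ℝ) + 1) =
          ∑ l, (h l : ℝ) * (((m : ℝ) + 1) + x) ^ ((l : ℕ) + 2) := by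
        refine Finset.sum_congr rfl fun l _ => ?_
        rw [eval_mul, eval_C, eval_pow, eval_add, eval_X, eval_C]
      rw [h2]
      push_cast
      ring
    rw [h1, e_add, e_int, mul_one]
  · intro u hu
    have hcoeff : ∃ z : ℤ, (f - C (h l0 : ℝ) * X ^ ((l0 : ℕ) + 2)).coeff ((l0 : ℕ) + 1) =
        (h l0 : ℝ) * ((l0 + 2 : ℕ) : ℝ) * x + z := by
      rw [coeff_sub, coeff_C_mul, coeff_X_pow, if_neg (by omega), mul_zero, sub_zero, hf,
        finsetSum_coeff]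
      rw [← Finset.add_sum_erase _ _ (Finset.mem_univ l0)]
      refine ⟨∑ l ∈ univ.erase l0, if (l : ℕ) + 1 = l0 then h l else 0, ?_⟩
      congr 1
      · rw [coeff_C_mul, hco]
        have e1 : (l0 : ℕ) + 2 - ((l0 : ℕ) + 1) = 1 := by omega
        have e2 : ((l0 : ℕ) + 2).choose ((l0 : ℕ) + 1) = (l0 : ℕ) + 2 := by
          rw [show (l0 : ℕ) + 2 = ((l0 : ℕ) + 1) + 1 by omega, Nat.choose_succ_self_right]
        rw [e1, e2, pow_one]
        push_cast
        ring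
      · push_cast
        refine Finset.sum_congr rfl fun l hl => ?_
        rw [coeff_C_mul, hco]
        rw [Finset.mem_erase] at hl
        rcases lt_or_gt_of_ne hl.1 with h1 | h1
        · have h1' : (l : ℕ) < l0 := h1
          by_cases h2 : (l : ℕ) + 1 = l0
          · rw [if_pos h2, show (l : ℕ) + 2 - ((l0 : ℕ) + 1) = 0 by omega,
              show (l0 : ℕ) + 1 = (l : ℕ) + 2 by omega, Nat.choose_self]
            simp
          · rw [if_neg h2, Nat.choose_eq_zero_of_lt (by omega)]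
            simp
        · rw [htop l h1]
          simp
    obtain ⟨z, hz⟩ := hcoeff
    have hl2 := l0.2
    exact dio_step h l0 hl0 x A μ ((l0 : ℕ) + 2) (by omega) (by omega) hA hx _ z hz u hu

end Pool.Agent.Q263.WE
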