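import Mathlib
import Pool.Agent.Q263.WE.Ar
import Pool.Agent.Q263.WE.Ptp

/-!
The digits of the powers `(m + 1) ^ n` at places in a progression.
-/

set_option autoImplicit false

open Finset Polynomial Filter Topology

namespace Pool.Agent.Q263.WE

open Pool.Agent.Y957.VK (dz)
open Pool.Agent.H332R2.Lit (e e_add norm_e e_zero)

lemma sq_le_exp (x : ℝ) (hx : 0 ≤ x) : x ^ 2 ≤ Real.exp (x ^ (1 / 2 : ℝ) + 4) := by
  have h1 := Real.pow_div_factorial_le_exp (x ^ (1 / 2 : ℝ)) (by positivity) 4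
  have h2 : (x ^ (1 / 2 : ℝ)) ^ 4 = x ^ 2 := by
    rw [← Real.rpow_natCast, ← Real.rpow_mul hx]
    norm_num
  rw [h2] at h1
  have h3 : ((Nat.factorial 4 : ℕ) : ℝ) = 24 := by norm_num [Nat.factorial]
  rw [h3, div_le_iff₀ (by norm_num)] at h1
  have h4 : (24 : ℝ) ≤ Real.exp 4 := by
    have e1 : Real.exp 4 = Real.exp 2 * Real.exp 2 := by rw [← Real.exp_add]; norm_num
    have := exp_two_ge
    nlinarith
  rw [Real.exp_add]
  calc x ^ 2 ≤ Real.exp (x ^ (1 / 2 : ℝ)) * 24 := h1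
    _ ≤ _ := mul_le_mul_of_nonneg_left h4 (Real.exp_pos _).le

/-- the four terms for the digits -/
lemma zt_le2 (K : ℕ) (Qt V2 W a3 x1 z : ℝ) (hQt1 : 1 ≤ Qt) (hW : 1 ≤ W)
    (hK : Qt / Real.exp a3 ≤ K) (hQlow : Real.exp (2 * x1) ≤ Qt)
    (hQtop : Qt ≤ V2 * Real.exp (-(2 * x1))) (hV2 : W ^ 2 = V2)
    (hlogQ : 1 + Real.log Qt ≤ Real.exp (z + 4)) (hWl : Real.exp (a3 + z + x1 + 6) ≤ W)
    (h1 : a3 + 2 ≤ x1) (h2 : z + 6 ≤ x1) (ha3 : 0 ≤ a3) (hz : 0 ≤ z) :
    1 / (K : ℝ) + 1 / W + (1 / (1 / Qt) * (1 + Real.log (1 / (1 / Qt)))) / (K * W) +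
    (1 / (1 / Qt) * (1 + Real.log (1 / (1 / Qt)))) / W ^ 2 ≤ Real.exp (-x1) := by
  have hQ0 : 0 < Qt := by linarith
  have hW0 : 0 < W := by linarith
  have he3 : 0 < Real.exp a3 := Real.exp_pos _
  have hK0 : (0 : ℝ) < K := lt_of_lt_of_le (by positivity) hK
  have hlog0 : 0 ≤ Real.log Qt := Real.log_nonneg hQt1
  rw [one_div_one_div]
  have h4 : Real.exp (-x1 - 2) ≤ Real.exp (-x1) / 4 := by
    rw [Real.exp_sub, div_le_div_iff₀ (Real.exp_pos _) (by norm_num)]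
    exact mul_le_mul_of_nonneg_left (by linarith [exp_two_ge]) (Real.exp_pos _).le
  have t1 : 1 / (K : ℝ) ≤ Real.exp (-x1 - 2) := by
    calc 1 / (K : ℝ) ≤ 1 / (Qt / Real.exp a3) :=
          one_div_le_one_div_of_le (by positivity) hK
      _ = Real.exp a3 / Qt := by rw [one_div_div]
      _ ≤ Real.exp a3 / Real.exp (2 * x1) :=
          div_le_div_of_nonneg_left he3.le (Real.exp_pos _) hQlow
      _ = Real.exp (a3 - 2 * x1) := by rw [Real.exp_sub]
      _ ≤ _ := Real.exp_le_exp.2 (by linarith)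
  have t2 : 1 / W ≤ Real.exp (-x1 - 2) := by
    calc 1 / W ≤ 1 / Real.exp (a3 + z + x1 + 6) := one_div_le_one_div_of_le (Real.exp_pos _) hWl
      _ = Real.exp (-(a3 + z + x1 + 6)) := by rw [Real.exp_neg, one_div]
      _ ≤ _ := Real.exp_le_exp.2 (by linarith)
  have t3 : Qt * (1 + Real.log Qt) / (K * W) ≤ Real.exp (-x1 - 2) := by
    calc Qt * (1 + Real.log Qt) / (K * W) ≤ Qt * (1 + Real.log Qt) / (Qt / Real.exp a3 * W) := by
          apply div_le_div_of_nonneg_left (by positivity) (by positivity)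
          exact mul_le_mul_of_nonneg_right hK hW0.le
      _ = Real.exp a3 * (1 + Real.log Qt) / W := by field_simp
      _ ≤ Real.exp a3 * Real.exp (z + 4) / Real.exp (a3 + z + x1 + 6) := by
          apply div_le_div₀ (by positivity) _ (Real.exp_pos _) hWl
          exact mul_le_mul_of_nonneg_left hlogQ he3.le
      _ = Real.exp (a3 + (z + 4) - (a3 + z + x1 + 6)) := by rw [Real.exp_sub, Real.exp_add a3 (z + 4)]
      _ = _ := by congr 1; ring
  have t4 : Qt * (1 + Real.log Qt) / W ^ 2 ≤ Real.exp (-x1 - 2) := by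
    have hV0 : 0 < V2 := by rw [← hV2]; positivity
    calc Qt * (1 + Real.log Qt) / W ^ 2 ≤ (V2 * Real.exp (-(2 * x1))) * Real.exp (z + 4) / V2 := by
          rw [hV2]
          apply div_le_div_of_nonneg_right _ hV0.le
          exact mul_le_mul hQtop hlogQ (by linarith) (by positivity)
      _ = Real.exp (-(2 * x1)) * Real.exp (z + 4) := by field_simp
      _ = Real.exp (-(2 * x1) + (z + 4)) := by rw [Real.exp_add (-(2 * x1)) (z + 4)]
      _ ≤ _ := Real.exp_le_exp.2 (by linarith)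
  linarith

/-- **The law of the digits of the powers at places in a progression.** -/
theorem digit_law : ∃ κ κ1 : ℝ, 0 < κ ∧ κ ≤ 1 / 40 ∧ κ1 = 10 * κ ∧ κ1 ≤ 1 / 4 ∧
    ∀ᶠ M : ℕ in atTop, ∀ (n N q k i0 D V : ℕ), 1 ≤ n → (n : ℝ) ≤ (Real.log M) ^ κ → 2 ≤ q →
    ((q ^ k : ℕ) : ℝ) ≤ Real.exp ((Real.log M) ^ κ) → (N : ℝ) ≤ (Real.log M) ^ (1 / 2 + 2 * κ) →
    Real.exp ((Real.log M) ^ (3 * κ)) ≤ 2 ^ D →
    1 ≤ V → (V : ℝ) ^ 2 ≤ M * Real.exp (-(Real.log M) ^ (3 / 4 : ℝ)) →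
    Real.exp (Real.log M / 4) ≤ V →
    Real.exp (2 * (Real.log M) ^ (1 - κ1)) ≤ (q : ℝ) ^ (i0 + k) →
    (q : ℝ) ^ (i0 + N * D + k) ≤ ((V : ℝ) ^ n) ^ 2 * Real.exp (-(2 * (Real.log M) ^ (1 - κ1))) →
    ∀ 𝒜 : Finset (Fin N → ℕ), 𝒜 ⊆ (Fintype.piFinset fun _ => range (q ^ k)) →
      |(((range M).filter (fun m : ℕ => cells (q ^ k) (fun l : Fin N =>
        (((m + 1) ^ n : ℕ) : ℝ) / (q : ℝ) ^ (i0 + (l : ℕ) * D + k)) ∈ 𝒜)).card : ℝ) -
        M * (𝒜.card / ((q ^ k : ℕ) : ℝ) ^ N)| ≤ M * Real.exp (-(Real.log M) ^ κ) := by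
  obtain ⟨κ1, hκ10, hκ1a, hκ12, hweyl⟩ := weyl (1 / 4) (by norm_num)
  set κ : ℝ := κ1 / 10 with hκ
  have hκ0 : 0 < κ := by rw [hκ]; positivity
  have hκe : κ1 = 10 * κ := by rw [hκ]; ring
  have hself : ∀ᶠ M : ℕ in atTop, Real.log M ≤ Real.exp ((Real.log M) ^ κ) := by
    have h1 : ∀ᶠ x : ℝ in atTop, x ≤ Real.exp (x ^ κ) := by
      have h2 := (isLittleO_log_rpow_atTop hκ0).bound (show (0 : ℝ) < 1 by norm_num)
      filter_upwards [h2, eventually_ge_atTop 1] with x hx hx1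
      rw [Real.norm_of_nonneg (Real.log_nonneg hx1), Real.norm_of_nonneg (by positivity),
        one_mul] at hx
      calc x = Real.exp (Real.log x) := (Real.exp_log (by linarith)).symm
        _ ≤ _ := Real.exp_le_exp.2 hx
    exact tendsto_log_nat.eventually h1
  refine ⟨κ, κ1, hκ0, by linarith, hκe, hκ1a, ?_⟩
  filter_upwards [hweyl, eventually_ge_atTop 1, tendsto_log_nat.eventually_ge_atTop 1,
    ev_log 5 0 κ hκ0, ev_log 9 κ (2 * κ) (by linarith), ev_log 6 (2 * κ) (3 * κ) (by linarith),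
    ev_log 4 (3 * κ) (1 - κ1) (by linarith), ev_log 7 (1 / 2) (1 - κ1) (by linarith),
    ev_log 30 (1 - κ1) 1 (by linarith),
    ev_log 10 (1 / 2 + 5 * κ) (3 / 4) (by linarith), ev_log 2 (1 + κ) 2 (by linarith),
    ev_log 8 (1 / 2 + 2 * κ) 1 (by linarith), hself] with
    M hW hM1 hℓ1 g1 g2 g3 g4 g5 g6 g8 g9 g10 g11
  intro n N q k i0 D V hn1 hn hq2 hqk hN hD hV1 hV2 hVl hlow htop 𝒜 h𝒜
  set ℓ : ℝ := Real.log M with hℓ
  have hℓ0 : 0 < ℓ := lt_of_lt_of_le one_pos hℓ1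
  have hM0 : (0 : ℝ) < M := by exact_mod_cast hM1
  have hMe : (M : ℝ) = Real.exp ℓ := (Real.exp_log hM0).symm
  rw [Real.rpow_zero, mul_one] at g1
  rw [Real.rpow_one] at g6 g10
  have hq0 : (0 : ℝ) < q := by exact_mod_cast (by omega : 0 < q)
  have hq1 : (1 : ℝ) ≤ q := by exact_mod_cast (by omega : 1 ≤ q)
  have e2p : ℓ ^ (2 : ℝ) = ℓ ^ 2 := by rw [← Real.rpow_natCast]; norm_num
  rw [e2p] at g9
  have e14 : ℓ ^ (1 - 1 / 4 : ℝ) = ℓ ^ (3 / 4 : ℝ) := by norm_num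
  rw [e14] at hW
  have e58 : ℓ ^ (1 / 2 + 5 * κ) = ℓ ^ (1 / 2 + 2 * κ) * ℓ ^ (3 * κ) := by
    rw [← Real.rpow_add hℓ0]
    congr 1
    ring
  have e1κ : ℓ ^ (1 + κ) = ℓ * ℓ ^ κ := by rw [Real.rpow_add hℓ0, Real.rpow_one]
  rw [e58] at g8
  rw [e1κ] at g9
  have hk1 : (1 : ℝ) ≤ ℓ ^ κ1 := Real.one_le_rpow hℓ1 hκ10.le
  have hκκ : ℓ ^ (2 * κ) ≤ ℓ ^ κ1 := Real.rpow_le_rpow_of_exponent_le hℓ1 (by linarith)
  set a1 : ℝ := ℓ ^ κ with ha1
  set a2 : ℝ := ℓ ^ (2 * κ) with ha2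
  set a3 : ℝ := ℓ ^ (3 * κ) with ha3
  set b1 : ℝ := ℓ ^ (1 / 2 + 2 * κ) with hb1
  set x1 : ℝ := ℓ ^ (1 - κ1) with hx1
  set z : ℝ := ℓ ^ (1 / 2 : ℝ) with hz
  set y : ℝ := ℓ ^ (3 / 4 : ℝ) with hy
  have hx1p : 0 < x1 := by rw [hx1]; positivity
  have hzp : 0 ≤ z := by rw [hz]; positivity
  have hb1p : 0 < b1 := by rw [hb1]; positivity
  have hb11 : 1 ≤ b1 := by rw [hb1]; exact Real.one_le_rpow hℓ1 (by linarith)
  have hz1 : 1 ≤ z := by rw [hz]; exact Real.one_le_rpow hℓ1 (by norm_num)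
  -- parameters
  set w : ℕ := ⌈Real.exp a2⌉₊ with hw
  have hwlow : Real.exp a2 ≤ w := Nat.le_ceil _
  have hw0 : (0 : ℝ) < w := lt_of_lt_of_le (Real.exp_pos _) hwlow
  have hw1 : 1 ≤ w := by exact_mod_cast hw0
  have ha2p : 0 ≤ a2 := by linarith
  have hwupp : (w : ℝ) ≤ Real.exp (a2 + 1) := ceil_exp a2 ha2p
  have hNℓ : 8 * (N : ℝ) ≤ ℓ := by linarith
  have h8N : 8 * N ≤ w := by
    have h1 : (8 : ℝ) * N ≤ w := by
      refine le_trans ?_ hwlow
      refine (hNℓ.trans g11).trans ?_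
      apply Real.exp_le_exp.2
      linarith
    exact_mod_cast h1
  have hqw : (((q ^ k * w : ℕ) : ℝ)) ^ 3 ≤ Real.exp a3 := by
    rw [Nat.cast_mul]
    calc (((q ^ k : ℕ) : ℝ) * w) ^ 3 ≤ (Real.exp a1 * Real.exp (a2 + 1)) ^ 3 := by
          apply pow_le_pow_left₀ (by positivity)
          exact mul_le_mul hqk hwupp hw0.le (Real.exp_pos _).le
      _ = Real.exp (3 * (a1 + (a2 + 1))) := by
          rw [← Real.exp_add, ← Real.exp_nat_mul]
          norm_num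
      _ ≤ _ := by
          apply Real.exp_le_exp.2
          linarith
  have hqk1 : 1 ≤ q ^ k := Nat.one_le_pow _ _ (by omega)
  have hV1R : (1 : ℝ) ≤ V := by exact_mod_cast hV1
  have hV2M : (V : ℝ) ^ 2 ≤ M := by
    refine hV2.trans ?_
    apply mul_le_of_le_one_right hM0.le
    rw [Real.exp_le_one_iff]
    have : 0 ≤ y := by rw [hy]; positivity
    linarith
  have hVM : V ≤ M := by
    have h1 : (V : ℝ) ≤ M := by
      calc (V : ℝ) = V * 1 := (mul_one _).symm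
        _ ≤ (V : ℝ) * V := mul_le_mul_of_nonneg_left hV1R (by linarith)
        _ = (V : ℝ) ^ 2 := by ring
        _ ≤ M := hV2M
    exact_mod_cast h1
  -- the exponential sums
  set η : ℝ := 3 * M * Real.exp (-y) with hη
  have hη0 : 0 ≤ η := by rw [hη]; positivity
  have hn2 : ((n + 1 : ℕ) : ℝ) ≤ ℓ ^ κ1 := by
    push_cast
    linarith
  have hsums : ∀ h : Fin N → ℤ, (∃ l, h l ≠ 0) → (∀ l, |h l| < ((q ^ k * w) ^ 3 : ℕ)) →
      ‖∑ m ∈ range M, e (∑ l : Fin N, (h l : ℝ) * ((((m + 1) ^ n : ℕ) : ℝ) /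
        (q : ℝ) ^ (i0 + (l : ℕ) * D + k)))‖ ≤ η := by
    intro h hne hlt
    obtain ⟨l0, hl0, hltop⟩ := exists_top h hne
    set t : ℕ := i0 + (l0 : ℕ) * D + k with ht
    have hl0N := l0.2
    set α : ℝ := ∑ l : Fin N, (h l : ℝ) / (q : ℝ) ^ (i0 + (l : ℕ) * D + k) with hα
    have hh3 : |(h l0 : ℝ)| ≤ Real.exp a3 := by
      have h2 : |(h l0 : ℝ)| ≤ (((q ^ k * w) ^ 3 : ℕ) : ℝ) := by exact_mod_cast (hlt l0).le
      refine h2.trans (le_trans (le_of_eq ?_) hqw)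
      rw [Nat.cast_pow]
    have hh2 : |h l0| < 2 ^ D := by
      have h2 : (|h l0| : ℤ) < (((q ^ k * w) ^ 3 : ℕ) : ℤ) := hlt l0
      have h3 : (((q ^ k * w) ^ 3 : ℕ) : ℝ) ≤ 2 ^ D := by
        rw [Nat.cast_pow]
        exact hqw.trans hD
      have h4 : (((q ^ k * w) ^ 3 : ℕ) : ℤ) ≤ 2 ^ D := by exact_mod_cast h3
      linarith
    set K : ℕ := ⌈(q : ℝ) ^ t / Real.exp a3⌉₊ with hK
    have hKlow : (q : ℝ) ^ t / Real.exp a3 ≤ K := Nat.le_ceil _
    have hK0 : (0 : ℝ) < K := lt_of_lt_of_le (by positivity) hKlow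
    have hK1 : 1 ≤ K := by exact_mod_cast hK0
    have hqt : Real.exp (2 * x1) ≤ (q : ℝ) ^ t := by
      refine hlow.trans ?_
      apply pow_le_pow_right₀ hq1
      omega
    have hqt2 : (q : ℝ) ^ t ≤ ((V : ℝ) ^ n) ^ 2 * Real.exp (-(2 * x1)) := by
      refine le_trans ?_ htop
      apply pow_le_pow_right₀ hq1
      have : (l0 : ℕ) * D ≤ N * D := Nat.mul_le_mul_right _ hl0N.le
      omega
    have hqt1 : 1 ≤ (q : ℝ) ^ t := one_le_pow₀ hq1
    have hdeg : (C α * X ^ n : ℝ[X]).natDegree ≤ n := natDegree_C_mul_X_pow_le _ _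
    have hcoef : (C α * X ^ n : ℝ[X]).coeff n = α := by
      rw [coeff_C_mul, coeff_X_pow, if_pos rfl, mul_one]
    have hWn : (V : ℝ) ≤ (V : ℝ) ^ n := by
      calc (V : ℝ) = (V : ℝ) ^ 1 := (pow_one _).symm
        _ ≤ _ := pow_le_pow_right₀ hV1R hn1
    have hlogq : 1 + Real.log ((q : ℝ) ^ t) ≤ Real.exp (z + 4) := by
      have h1 : Real.log ((q : ℝ) ^ t) ≤ ℓ * a1 := by
        have h2 : (q : ℝ) ^ t ≤ ((V : ℝ) ^ 2) ^ n := by
          have e1 : ((V : ℝ) ^ n) ^ 2 = ((V : ℝ) ^ 2) ^ n := by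
            rw [← pow_mul, ← pow_mul, mul_comm]
          rw [e1] at hqt2
          refine hqt2.trans ?_
          apply mul_le_of_le_one_right (by positivity)
          rw [Real.exp_le_one_iff]
          linarith
        calc Real.log ((q : ℝ) ^ t) ≤ Real.log (((V : ℝ) ^ 2) ^ n) :=
              Real.log_le_log (by positivity) h2
          _ = n * Real.log ((V : ℝ) ^ 2) := by rw [Real.log_pow]
          _ ≤ n * ℓ := by
              apply mul_le_mul_of_nonneg_left _ (Nat.cast_nonneg _)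
              exact Real.log_le_log (by positivity) hV2M
          _ ≤ ℓ * a1 := by
              rw [mul_comm]
              exact mul_le_mul_of_nonneg_left hn hℓ0.le
      have h3 := sq_le_exp ℓ hℓ0.le
      rw [← hz] at h3
      have h4 : 1 ≤ ℓ * a1 := mul_ge_one hℓ1 (by linarith)
      linarith
    have hmain := hW (n + 1) V n K (C α * X ^ n) (1 / (q : ℝ) ^ t) (by omega) hn2 hV1 hVM hn1
      (by omega) hdeg hK1 (by positivity) (by
        rw [div_le_one (by positivity)]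
        exact hqt1) (by
        intro u hu huK
        rw [hcoef]
        apply dz_freq q i0 D k hq2 h l0 hl0 hltop hh2 u hu
        have h1 : (u : ℝ) < (q : ℝ) ^ t / Real.exp a3 := Nat.lt_ceil.1 huK
        rw [lt_div_iff₀ (Real.exp_pos _)] at h1
        have h2 : |(h l0 : ℝ)| * u < (q : ℝ) ^ t := by
          calc |(h l0 : ℝ)| * u ≤ Real.exp a3 * u :=
                mul_le_mul_of_nonneg_right hh3 (Nat.cast_nonneg _)
            _ = u * Real.exp a3 := by ring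
            _ < _ := h1
        exact_mod_cast h2) (by
        unfold Zt
        apply zt_le2 K ((q : ℝ) ^ t) (((V : ℝ) ^ n) ^ 2) ((V : ℝ) ^ n) a3 x1 z hqt1
          (hV1R.trans hWn) hKlow hqt hqt2 rfl hlogq _ (by linarith) (by linarith) (by linarith) hzp
        refine le_trans ?_ hWn
        refine le_trans ?_ hVl
        apply Real.exp_le_exp.2
        linarith) 1
    have e1 : ∑ m ∈ range M, e (∑ l : Fin N, (h l : ℝ) * ((((m + 1) ^ n : ℕ) : ℝ) /
        (q : ℝ) ^ (i0 + (l : ℕ) * D + k))) =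
        ∑ m ∈ range M, e ((C α * X ^ n : ℝ[X]).eval ((m : ℝ) + 1)) := by
      refine Finset.sum_congr rfl fun m _ => ?_
      congr 1
      rw [eval_mul, eval_C, eval_pow, eval_X, hα, Finset.sum_mul]
      refine Finset.sum_congr rfl fun l _ => ?_
      push_cast
      ring
    rw [e1]
    refine hmain.trans ?_
    rw [hη]
    linarith
  have hfin := joint (range M) (fun (m : ℕ) (l : Fin N) => (((m + 1) ^ n : ℕ) : ℝ) /
    (q : ℝ) ^ (i0 + (l : ℕ) * D + k)) (q ^ k) w hqk1 hw1 h8N η hη0 hsums 𝒜 h𝒜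
  rw [Finset.card_range] at hfin
  refine hfin.trans ?_
  have herr1 : (M : ℝ) * (10 * N / w) ≤ M * (Real.exp (-a1) / 2) := by
    apply mul_le_mul_of_nonneg_left _ hM0.le
    rw [div_le_div_iff₀ hw0 (by norm_num)]
    calc 10 * (N : ℝ) * 2 ≤ 3 * ℓ := by linarith
      _ ≤ Real.exp 2 * Real.exp a1 :=
          mul_le_mul (by linarith [exp_two_ge]) g11 hℓ0.le (Real.exp_pos _).le
      _ = Real.exp (2 + a1) := by rw [← Real.exp_add]
      _ ≤ Real.exp (-a1 + a2) := by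
          apply Real.exp_le_exp.2
          linarith
      _ = Real.exp (-a1) * Real.exp a2 := by rw [Real.exp_add]
      _ ≤ Real.exp (-a1) * w := mul_le_mul_of_nonneg_left hwlow (Real.exp_pos _).le
  have herr2 : 2 * (((q ^ k : ℕ) : ℝ)) ^ N * (((q ^ k * w : ℕ) : ℝ) ^ 3) ^ N * η ≤
      M * (Real.exp (-a1) / 2) := by
    have h1 : (((q ^ k : ℕ) : ℝ)) ^ N ≤ Real.exp (b1 * a3) := by
      calc (((q ^ k : ℕ) : ℝ)) ^ N ≤ (Real.exp a1) ^ N := pow_le_pow_left₀ (by positivity) hqk N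
        _ = Real.exp (N * a1) := by rw [← Real.exp_nat_mul]
        _ ≤ _ := by
            apply Real.exp_le_exp.2
            exact mul_le_mul hN (by linarith) (by linarith) hb1p.le
    have h2 : (((q ^ k * w : ℕ) : ℝ) ^ 3) ^ N ≤ Real.exp (b1 * a3) := by
      calc (((q ^ k * w : ℕ) : ℝ) ^ 3) ^ N ≤ (Real.exp a3) ^ N :=
            pow_le_pow_left₀ (by positivity) hqw N
        _ = Real.exp (N * a3) := by rw [← Real.exp_nat_mul]
        _ ≤ _ := by
            apply Real.exp_le_exp.2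
            exact mul_le_mul_of_nonneg_right hN (by linarith)
    have h3 : a1 ≤ b1 * a3 := by
      calc a1 ≤ a3 := by linarith
        _ = 1 * a3 := (one_mul _).symm
        _ ≤ b1 * a3 := mul_le_mul_of_nonneg_right hb11 (by linarith)
    calc 2 * (((q ^ k : ℕ) : ℝ)) ^ N * (((q ^ k * w : ℕ) : ℝ) ^ 3) ^ N * η
        ≤ 2 * Real.exp (b1 * a3) * Real.exp (b1 * a3) * (3 * M * Real.exp (-y)) := by
          rw [hη]
          apply mul_le_mul_of_nonneg_right _ (by positivity)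
          apply mul_le_mul _ h2 (by positivity) (by positivity)
          exact mul_le_mul_of_nonneg_left h1 (by norm_num)
      _ = M * (6 * (Real.exp (b1 * a3) * Real.exp (b1 * a3) * Real.exp (-y))) := by ring
      _ ≤ M * (Real.exp (-a1) / 2) := by
          apply mul_le_mul_of_nonneg_left _ hM0.le
          rw [le_div_iff₀ (by norm_num)]
          calc 6 * (Real.exp (b1 * a3) * Real.exp (b1 * a3) * Real.exp (-y)) * 2 =
                12 * (Real.exp (b1 * a3) * Real.exp (b1 * a3) * Real.exp (-y)) := by ring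
            _ ≤ Real.exp 4 * (Real.exp (b1 * a3) * Real.exp (b1 * a3) * Real.exp (-y)) := by
                apply mul_le_mul_of_nonneg_right _ (by positivity)
                linarith [exp_four_ge]
            _ = Real.exp (4 + b1 * a3 + b1 * a3 + -y) := by
                rw [Real.exp_add (4 + b1 * a3 + b1 * a3), Real.exp_add (4 + b1 * a3),
                  Real.exp_add 4]
                ring
            _ ≤ _ := by
                apply Real.exp_le_exp.2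
                linarith
  calc _ ≤ (M : ℝ) * (Real.exp (-a1) / 2) + M * (Real.exp (-a1) / 2) := add_le_add herr1 herr2
    _ = _ := by ring

end Pool.Agent.Q263.WE
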