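import Mathlib
import Pool.Agent.Q263.WE.Ar
import Pool.Agent.Q263.WE.Pd

/-!
The master form of the law of the cells: up to `(log M) ^ (1 / 2 + 2 κ)` sequences all whose small integral
combinations are polynomials with a leading coefficient that is not too close to fractions with small denominators.
-/

set_option autoImplicit false

open Finset Polynomial Filter Topology

namespace Pool.Agent.Q263.WE

open Pool.Agent.Y957.VK (dz)
open Pool.Agent.H332R2.Lit (e e_add norm_e e_zero)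

/-- the small combinations have good leading coefficients -/
def GoodSums (N : ℕ) (ξ : ℕ → Fin N → ℝ) (V : ℕ) (B J x1 : ℝ) : Prop :=
  ∃ c : ℝ, ∀ h : Fin N → ℤ, (∃ l, h l ≠ 0) → (∀ l, |(h l : ℝ)| ≤ B) →
    ∃ (f : ℝ[X]) (j0 K : ℕ) (δ : ℝ), 1 ≤ j0 ∧ (j0 : ℝ) ≤ J ∧ f.natDegree ≤ j0 ∧
      (∀ m : ℕ, e (∑ l, (h l : ℝ) * ξ m l) = e (f.eval ((m : ℝ) + c))) ∧
      1 ≤ K ∧ 0 < δ ∧ δ ≤ 1 ∧ (∀ u : ℕ, 1 ≤ u → u < K → δ ≤ dz (f.coeff j0 * u)) ∧
      Zt K δ ((V : ℝ) ^ j0) ≤ Real.exp (-x1)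

/-- **The master law.** -/
theorem master : ∃ κ κ1 : ℝ, 0 < κ ∧ κ ≤ 1 / 40 ∧ κ1 = 10 * κ ∧ κ1 ≤ 1 / 4 ∧
    ∀ᶠ M : ℕ in atTop, ∀ (N Q V : ℕ) (ξ : ℕ → Fin N → ℝ), 1 ≤ Q →
    (Q : ℝ) ≤ Real.exp ((Real.log M) ^ κ) → (N : ℝ) ≤ (Real.log M) ^ (1 / 2 + 2 * κ) →
    1 ≤ V → (V : ℝ) ^ 2 ≤ M * Real.exp (-(Real.log M) ^ (3 / 4 : ℝ)) →
    GoodSums N ξ V (Real.exp ((Real.log M) ^ (3 * κ))) (2 * (Real.log M) ^ κ)
      ((Real.log M) ^ (1 - κ1)) →
    ∀ 𝒜 : Finset (Fin N → ℕ), 𝒜 ⊆ (Fintype.piFinset fun _ => range Q) →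
      |(((range M).filter (fun m : ℕ => cells Q (ξ m) ∈ 𝒜)).card : ℝ) -
        M * (𝒜.card / (Q : ℝ) ^ N)| ≤ M * Real.exp (-(Real.log M) ^ κ) := by
  obtain ⟨κ1, hκ10, hκ1a, hκ12, hweyl⟩ := weyl (1 / 4) (by norm_num)
  set κ : ℝ := κ1 / 10 with hκ
  have hκ0 : 0 < κ := by rw [hκ]; positivity
  have hκe : κ1 = 10 * κ := by rw [hκ]; ring
  have hself : ∀ᶠ M : ℕ in atTop, Real.log M ≤ Real.exp ((Real.log M) ^ κ) := by
    have h1 : ∀ᶠ x : ℝ in atTop, x ≤ Real.exp (x ^ κ) := by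
      have h2 := (isLittleO_log_rpow_atTop hκ0).bound (show (0 : ℝ) < 1 by norm_num)
      filter_upwards [h2, eventually_ge_atTop 1] with x hx hx1
      rw [Real.norm_of_nonneg (Real.log_nonneg hx1), Real.norm_of_nonneg (by positivity),
        one_mul] at hx
      calc x = Real.exp (Real.log x) := (Real.exp_log (by linarith)).symm
        _ ≤ _ := Real.exp_le_exp.2 hx
    exact tendsto_log_nat.eventually h1
  refine ⟨κ, κ1, hκ0, by linarith, hκe, hκ1a, ?_⟩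
  filter_upwards [hweyl, eventually_ge_atTop 1, tendsto_log_nat.eventually_ge_atTop 1,
    ev_log 5 0 κ hκ0, ev_log 9 κ (2 * κ) (by linarith), ev_log 6 (2 * κ) (3 * κ) (by linarith),
    ev_log 4 (3 * κ) (1 - κ1) (by linarith), ev_log 7 (1 / 2) (1 - κ1) (by linarith),
    ev_log 30 (1 - κ1) 1 (by linarith),
    ev_log 10 (1 / 2 + 5 * κ) (3 / 4) (by linarith), ev_log 2 (1 + κ) 2 (by linarith),
    ev_log 8 (1 / 2 + 2 * κ) 1 (by linarith), hself] with
    M hW hM1 hℓ1 g1 g2 g3 g4 g5 g6 g8 g9 g10 g11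
  intro N Q V ξ hqk1 hqk hN hV1 hV2 hgood 𝒜 h𝒜
  set ℓ : ℝ := Real.log M with hℓ
  have hℓ0 : 0 < ℓ := lt_of_lt_of_le one_pos hℓ1
  have hM0 : (0 : ℝ) < M := by exact_mod_cast hM1
  have hMe : (M : ℝ) = Real.exp ℓ := (Real.exp_log hM0).symm
  rw [Real.rpow_zero, mul_one] at g1
  rw [Real.rpow_one] at g6 g10
  have e14 : ℓ ^ (1 - 1 / 4 : ℝ) = ℓ ^ (3 / 4 : ℝ) := by norm_num
  rw [e14] at hW
  have e58 : ℓ ^ (1 / 2 + 5 * κ) = ℓ ^ (1 / 2 + 2 * κ) * ℓ ^ (3 * κ) := by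
    rw [← Real.rpow_add hℓ0]
    congr 1
    ring
  rw [e58] at g8
  have hk1 : (1 : ℝ) ≤ ℓ ^ κ1 := Real.one_le_rpow hℓ1 hκ10.le
  have hκκ : ℓ ^ (2 * κ) ≤ ℓ ^ κ1 := Real.rpow_le_rpow_of_exponent_le hℓ1 (by linarith)
  set a1 : ℝ := ℓ ^ κ with ha1
  set a2 : ℝ := ℓ ^ (2 * κ) with ha2
  set a3 : ℝ := ℓ ^ (3 * κ) with ha3
  set b1 : ℝ := ℓ ^ (1 / 2 + 2 * κ) with hb1
  set x1 : ℝ := ℓ ^ (1 - κ1) with hx1
  set y : ℝ := ℓ ^ (3 / 4 : ℝ) with hy
  have hx1p : 0 < x1 := by rw [hx1]; positivity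
  have hb1p : 0 < b1 := by rw [hb1]; positivity
  have hb11 : 1 ≤ b1 := by rw [hb1]; exact Real.one_le_rpow hℓ1 (by linarith)
  -- parameters
  set w : ℕ := ⌈Real.exp a2⌉₊ with hw
  have hwlow : Real.exp a2 ≤ w := Nat.le_ceil _
  have hw0 : (0 : ℝ) < w := lt_of_lt_of_le (Real.exp_pos _) hwlow
  have hw1 : 1 ≤ w := by exact_mod_cast hw0
  have ha2p : 0 ≤ a2 := by linarith
  have hwupp : (w : ℝ) ≤ Real.exp (a2 + 1) := ceil_exp a2 ha2p
  have hNℓ : 8 * (N : ℝ) ≤ ℓ := by linarith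
  have h8N : 8 * N ≤ w := by
    have h1 : (8 : ℝ) * N ≤ w := by
      refine le_trans ?_ hwlow
      refine (hNℓ.trans g11).trans ?_
      apply Real.exp_le_exp.2
      linarith
    exact_mod_cast h1
  have hqw : (((Q * w : ℕ) : ℝ)) ^ 3 ≤ Real.exp a3 := by
    rw [Nat.cast_mul]
    calc ((Q : ℝ) * w) ^ 3 ≤ (Real.exp a1 * Real.exp (a2 + 1)) ^ 3 := by
          apply pow_le_pow_left₀ (by positivity)
          exact mul_le_mul hqk hwupp hw0.le (Real.exp_pos _).le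
      _ = Real.exp (3 * (a1 + (a2 + 1))) := by
          rw [← Real.exp_add, ← Real.exp_nat_mul]
          norm_num
      _ ≤ _ := by
          apply Real.exp_le_exp.2
          linarith
  have hV1R : (1 : ℝ) ≤ V := by exact_mod_cast hV1
  have hV2M : (V : ℝ) ^ 2 ≤ M := by
    refine hV2.trans ?_
    apply mul_le_of_le_one_right hM0.le
    rw [Real.exp_le_one_iff]
    have : 0 ≤ y := by rw [hy]; positivity
    linarith
  have hVM : V ≤ M := by
    have h1 : (V : ℝ) ≤ M := by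
      calc (V : ℝ) = V * 1 := (mul_one _).symm
        _ ≤ (V : ℝ) * V := mul_le_mul_of_nonneg_left hV1R (by linarith)
        _ = (V : ℝ) ^ 2 := by ring
        _ ≤ M := hV2M
    exact_mod_cast h1
  -- the exponential sums
  set η : ℝ := 3 * M * Real.exp (-y) with hη
  have hη0 : 0 ≤ η := by rw [hη]; positivity
  obtain ⟨c, hgood⟩ := hgood
  have hsums : ∀ h : Fin N → ℤ, (∃ l, h l ≠ 0) → (∀ l, |h l| < ((Q * w) ^ 3 : ℕ)) →
      ‖∑ m ∈ range M, e (∑ l : Fin N, (h l : ℝ) * ξ m l)‖ ≤ η := by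
    intro h hne hlt
    obtain ⟨f, j0, K, δ, hj1, hjJ, hdeg, hev, hK1, hδ0, hδ1, hdz, hZ⟩ := hgood h hne (by
      intro l
      have h2 : |(h l : ℝ)| ≤ (((Q * w) ^ 3 : ℕ) : ℝ) := by exact_mod_cast (hlt l).le
      refine h2.trans (le_trans (le_of_eq ?_) hqw)
      rw [Nat.cast_pow])
    have hr : ((j0 + 1 : ℕ) : ℝ) ≤ ℓ ^ κ1 := by
      push_cast
      linarith
    have hmain := hW (j0 + 1) V j0 K f δ (by omega) hr hV1 hVM hj1 (by omega) hdeg hK1 hδ0 hδ1 hdz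
      hZ c
    rw [Finset.sum_congr rfl fun m _ => hev m]
    refine hmain.trans ?_
    rw [hη]
    linarith
  have hfin := joint (range M) ξ Q w hqk1 hw1 h8N η hη0 hsums 𝒜 h𝒜
  rw [Finset.card_range] at hfin
  refine hfin.trans ?_
  have herr1 : (M : ℝ) * (10 * N / w) ≤ M * (Real.exp (-a1) / 2) := by
    apply mul_le_mul_of_nonneg_left _ hM0.le
    rw [div_le_div_iff₀ hw0 (by norm_num)]
    calc 10 * (N : ℝ) * 2 ≤ 3 * ℓ := by linarith
      _ ≤ Real.exp 2 * Real.exp a1 :=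
          mul_le_mul (by linarith [exp_two_ge]) g11 hℓ0.le (Real.exp_pos _).le
      _ = Real.exp (2 + a1) := by rw [← Real.exp_add]
      _ ≤ Real.exp (-a1 + a2) := by
          apply Real.exp_le_exp.2
          linarith
      _ = Real.exp (-a1) * Real.exp a2 := by rw [Real.exp_add]
      _ ≤ Real.exp (-a1) * w := mul_le_mul_of_nonneg_left hwlow (Real.exp_pos _).le
  have herr2 : 2 * ((Q : ℝ)) ^ N * (((Q * w : ℕ) : ℝ) ^ 3) ^ N * η ≤
      M * (Real.exp (-a1) / 2) := by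
    have h1 : ((Q : ℝ)) ^ N ≤ Real.exp (b1 * a3) := by
      calc ((Q : ℝ)) ^ N ≤ (Real.exp a1) ^ N := pow_le_pow_left₀ (by positivity) hqk N
        _ = Real.exp (N * a1) := by rw [← Real.exp_nat_mul]
        _ ≤ _ := by
            apply Real.exp_le_exp.2
            exact mul_le_mul hN (by linarith) (by linarith) hb1p.le
    have h2 : (((Q * w : ℕ) : ℝ) ^ 3) ^ N ≤ Real.exp (b1 * a3) := by
      calc (((Q * w : ℕ) : ℝ) ^ 3) ^ N ≤ (Real.exp a3) ^ N :=
            pow_le_pow_left₀ (by positivity) hqw N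
        _ = Real.exp (N * a3) := by rw [← Real.exp_nat_mul]
        _ ≤ _ := by
            apply Real.exp_le_exp.2
            exact mul_le_mul_of_nonneg_right hN (by linarith)
    have h3 : a1 ≤ b1 * a3 := by
      calc a1 ≤ a3 := by linarith
        _ = 1 * a3 := (one_mul _).symm
        _ ≤ b1 * a3 := mul_le_mul_of_nonneg_right hb11 (by linarith)
    calc 2 * ((Q : ℝ)) ^ N * (((Q * w : ℕ) : ℝ) ^ 3) ^ N * η
        ≤ 2 * Real.exp (b1 * a3) * Real.exp (b1 * a3) * (3 * M * Real.exp (-y)) := by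
          rw [hη]
          apply mul_le_mul_of_nonneg_right _ (by positivity)
          apply mul_le_mul _ h2 (by positivity) (by positivity)
          exact mul_le_mul_of_nonneg_left h1 (by norm_num)
      _ = M * (6 * (Real.exp (b1 * a3) * Real.exp (b1 * a3) * Real.exp (-y))) := by ring
      _ ≤ M * (Real.exp (-a1) / 2) := by
          apply mul_le_mul_of_nonneg_left _ hM0.le
          rw [le_div_iff₀ (by norm_num)]
          calc 6 * (Real.exp (b1 * a3) * Real.exp (b1 * a3) * Real.exp (-y)) * 2 =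
                12 * (Real.exp (b1 * a3) * Real.exp (b1 * a3) * Real.exp (-y)) := by ring
            _ ≤ Real.exp 4 * (Real.exp (b1 * a3) * Real.exp (b1 * a3) * Real.exp (-y)) := by
                apply mul_le_mul_of_nonneg_right _ (by positivity)
                linarith [exp_four_ge]
            _ = Real.exp (4 + b1 * a3 + b1 * a3 + -y) := by
                rw [Real.exp_add (4 + b1 * a3 + b1 * a3), Real.exp_add (4 + b1 * a3),
                  Real.exp_add 4]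
                ring
            _ ≤ _ := by
                apply Real.exp_le_exp.2
                linarith
  calc _ ≤ (M : ℝ) * (Real.exp (-a1) / 2) + M * (Real.exp (-a1) / 2) := add_le_add herr1 herr2
    _ = _ := by ring

end Pool.Agent.Q263.WE
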