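import Mathlib
import Pool.Agent.Q263.WE.Mst

/-!
The family `(m + 1) ^ d c_l / q ^ (i0 + l D)` with integers `c_l` prime to `q`.
-/

set_option autoImplicit false

open Finset Polynomial Filter Topology

namespace Pool.Agent.Q263.WE

open Pool.Agent.Y957.VK (dz)
open Pool.Agent.H332R2.Lit (e e_add norm_e e_zero)

/-- the frequencies are not close to rationals with a small denominator -/
lemma dz_freq2 {N : ℕ} (q i0 D : ℕ) (hq : 2 ≤ q) (c : ℕ → ℤ) (hc : ∀ l, IsCoprime (c l) (q : ℤ))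
    (h : Fin N → ℤ) (l0 : Fin N) (hl0 : h l0 ≠ 0)
    (htop : ∀ l, l0 < l → h l = 0) (hD : |h l0| < 2 ^ D) (u : ℕ) (hu : 1 ≤ u)
    (hlt : |h l0| * u < (q : ℤ) ^ (i0 + (l0 : ℕ) * D)) :
    1 / (q : ℝ) ^ (i0 + (l0 : ℕ) * D) ≤
      dz ((∑ l, (h l : ℝ) * ((c l : ℝ) / (q : ℝ) ^ (i0 + (l : ℕ) * D))) * u) := by
  set t : ℕ := i0 + (l0 : ℕ) * D with ht
  have hq0 : (0 : ℝ) < q := by exact_mod_cast (by omega : 0 < q)
  set B : ℤ := ∑ l ∈ univ.filter (fun l => l < l0), h l * c l * (q : ℤ) ^ (((l0 : ℕ) - (l : ℕ) - 1) * D) with hB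
  have hA : (∑ l, (h l : ℝ) * ((c l : ℝ) / (q : ℝ) ^ (i0 + (l : ℕ) * D))) =
      ((h l0 * c l0 + (q : ℤ) ^ D * B : ℤ) : ℝ) / (q : ℝ) ^ t := by
    rw [eq_div_iff (by positivity), Finset.sum_mul]
    have h1 : ∀ l : Fin N, (h l : ℝ) * ((c l : ℝ) / (q : ℝ) ^ (i0 + (l : ℕ) * D)) * (q : ℝ) ^ t =
        if l = l0 then (h l0 : ℝ) * c l0 else if l < l0 then
          (q : ℝ) ^ D * ((h l : ℝ) * c l * (q : ℝ) ^ (((l0 : ℕ) - (l : ℕ) - 1) * D)) else 0 := by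
      intro l
      split_ifs with h2 h3
      · subst h2
        rw [← ht]
        field_simp
      · have h4 : (l : ℕ) < l0 := h3
        have e1 : (q : ℝ) ^ t = (q : ℝ) ^ (i0 + (l : ℕ) * D) *
            ((q : ℝ) ^ D * (q : ℝ) ^ (((l0 : ℕ) - (l : ℕ) - 1) * D)) := by
          rw [← pow_add, ← pow_add, ht]
          congr 1
          obtain ⟨g, hg⟩ : ∃ g, (l0 : ℕ) = l + (g + 1) := ⟨(l0 : ℕ) - l - 1, by omega⟩
          have e2 : (l0 : ℕ) - (l : ℕ) - 1 = g := by omega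
          rw [e2, hg]
          ring
        rw [e1]
        field_simp
      · have h4 : l0 < l := lt_of_le_of_ne (not_lt.1 h3) (fun h5 => h2 h5.symm)
        rw [htop l h4]
        simp
    rw [Finset.sum_congr rfl fun l _ => h1 l]
    rw [hB]
    push_cast
    rw [Finset.mul_sum]
    have h5 : ∑ l : Fin N, (if l = l0 then (h l0 : ℝ) * c l0 else if l < l0 then
          (q : ℝ) ^ D * ((h l : ℝ) * c l * (q : ℝ) ^ (((l0 : ℕ) - (l : ℕ) - 1) * D)) else 0) =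
        ∑ l : Fin N, ((if l = l0 then (h l0 : ℝ) * c l0 else 0) + (if l < l0 then
          (q : ℝ) ^ D * ((h l : ℝ) * c l * (q : ℝ) ^ (((l0 : ℕ) - (l : ℕ) - 1) * D)) else 0)) := by
      refine Finset.sum_congr rfl fun l _ => ?_
      by_cases h6 : l = l0
      · subst h6
        simp
      · simp [h6]
    rw [h5, Finset.sum_add_distrib, Finset.sum_ite_eq', if_pos (Finset.mem_univ _),
      Finset.sum_filter]
  have h2 : ¬ ((q : ℤ) ^ t) ∣ (h l0 * c l0 + (q : ℤ) ^ D * B) * u := by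
    intro h3
    obtain ⟨a, b, hab⟩ : IsCoprime (c l0) ((q : ℤ) ^ t) := (hc l0).pow_right
    have h30 : ((q : ℤ) ^ t) ∣ (h l0 + (q : ℤ) ^ D * (a * B)) * u := by
      have h31 : (h l0 + (q : ℤ) ^ D * (a * B)) * u =
          a * ((h l0 * c l0 + (q : ℤ) ^ D * B) * u) + (q : ℤ) ^ t * (b * h l0 * u) := by
        have : h l0 = h l0 * (a * c l0 + b * (q : ℤ) ^ t) := by rw [hab, mul_one]
        linear_combination ((u : ℤ)) * this
      rw [h31]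
      exact dvd_add (h3.mul_left a) (dvd_mul_right _ _)
    have h4 := dvd_low q t D u (h l0) (a * B) hl0 hD h30
    have h5 : h l0 * u ≠ 0 := mul_ne_zero hl0 (by exact_mod_cast (by omega : u ≠ 0))
    have h6 := Int.le_of_dvd (abs_pos.2 h5) ((dvd_abs _ _).2 h4)
    rw [abs_mul, Nat.abs_cast] at h6
    linarith
  rw [hA]
  set A : ℤ := h l0 * c l0 + (q : ℤ) ^ D * B with hAd
  set p : ℤ := round ((A : ℝ) / (q : ℝ) ^ t * u) with hp
  unfold dz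
  rw [← hp]
  have e3 : (A : ℝ) / (q : ℝ) ^ t * u - p = ((A * u - p * (q : ℤ) ^ t : ℤ) : ℝ) / (q : ℝ) ^ t := by
    push_cast
    field_simp
  rw [e3, abs_div, abs_of_pos (show (0 : ℝ) < (q : ℝ) ^ t by positivity)]
  apply div_le_div_of_nonneg_right _ (by positivity)
  have h7 : A * u - p * (q : ℤ) ^ t ≠ 0 := by
    intro h8
    apply h2
    exact ⟨p, by linarith⟩
  have h9 : 1 ≤ |A * u - p * (q : ℤ) ^ t| := Int.one_le_abs h7
  exact_mod_cast h9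

lemma good_pow (N d q i0 D V : ℕ) (c : ℕ → ℤ) (a3 x1 z J : ℝ) (hd : 1 ≤ d) (hdJ : (d : ℝ) ≤ J)
    (hq : 2 ≤ q) (hc : ∀ l, IsCoprime (c l) (q : ℤ)) (hD : Real.exp a3 < 2 ^ D) (hV1 : 1 ≤ V)
    (hlow : Real.exp (2 * x1) ≤ (q : ℝ) ^ i0)
    (htop : (q : ℝ) ^ (i0 + N * D) ≤ ((V : ℝ) ^ d) ^ 2 * Real.exp (-(2 * x1)))
    (hlog : 1 + Real.log (((V : ℝ) ^ d) ^ 2) ≤ Real.exp (z + 4))
    (hVl : Real.exp (a3 + z + x1 + 6) ≤ V) (h1 : a3 + 2 ≤ x1) (h2 : z + 6 ≤ x1) (ha3 : 0 ≤ a3)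
    (hz : 0 ≤ z) :
    GoodSums N (fun m l => (((m + 1) ^ d : ℕ) : ℝ) * ((c l : ℝ) / (q : ℝ) ^ (i0 + (l : ℕ) * D))) V
      (Real.exp a3) J x1 := by
  refine ⟨1, fun h hne hB => ?_⟩
  obtain ⟨l0, hl0, hltop⟩ := exists_top h hne
  have hl0N := l0.2
  have hq1 : (1 : ℝ) ≤ q := by exact_mod_cast (by omega : 1 ≤ q)
  have hV1R : (1 : ℝ) ≤ V := by exact_mod_cast hV1
  set t : ℕ := i0 + (l0 : ℕ) * D with ht
  set α : ℝ := ∑ l : Fin N, (h l : ℝ) * ((c l : ℝ) / (q : ℝ) ^ (i0 + (l : ℕ) * D)) with hα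
  have hh2 : |h l0| < 2 ^ D := by
    have := lt_of_le_of_lt (hB l0) hD
    exact_mod_cast this
  have hqt1 : 1 ≤ (q : ℝ) ^ t := one_le_pow₀ hq1
  have hqt0 : 0 < (q : ℝ) ^ t := by linarith
  have hqt : Real.exp (2 * x1) ≤ (q : ℝ) ^ t := by
    refine hlow.trans ?_
    apply pow_le_pow_right₀ hq1
    omega
  have hqt2 : (q : ℝ) ^ t ≤ ((V : ℝ) ^ d) ^ 2 * Real.exp (-(2 * x1)) := by
    refine le_trans ?_ htop
    apply pow_le_pow_right₀ hq1
    have : (l0 : ℕ) * D ≤ N * D := Nat.mul_le_mul_right _ hl0N.le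
    omega
  have hWn : (V : ℝ) ≤ (V : ℝ) ^ d := by
    calc (V : ℝ) = (V : ℝ) ^ 1 := (pow_one _).symm
      _ ≤ _ := pow_le_pow_right₀ hV1R hd
  have hlogq : 1 + Real.log ((q : ℝ) ^ t) ≤ Real.exp (z + 4) := by
    refine le_trans ?_ hlog
    have : Real.log ((q : ℝ) ^ t) ≤ Real.log (((V : ℝ) ^ d) ^ 2) := by
      apply Real.log_le_log hqt0
      refine hqt2.trans ?_
      apply mul_le_of_le_one_right (by positivity)
      rw [Real.exp_le_one_iff]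
      linarith
    linarith
  set K : ℕ := ⌈(q : ℝ) ^ t / Real.exp a3⌉₊ with hK
  have hKlow : (q : ℝ) ^ t / Real.exp a3 ≤ K := Nat.le_ceil _
  have hK0 : (0 : ℝ) < K := lt_of_lt_of_le (by positivity) hKlow
  refine ⟨C α * X ^ d, d, K, 1 / (q : ℝ) ^ t, hd, hdJ, natDegree_C_mul_X_pow_le _ _, ?_,
    by exact_mod_cast hK0, by positivity, ?_, ?_, ?_⟩
  · intro m
    congr 1
    rw [eval_mul, eval_C, eval_pow, eval_X, hα, Finset.sum_mul]
    refine Finset.sum_congr rfl fun l _ => ?_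
    push_cast
    ring
  · rw [div_le_one hqt0]
    exact hqt1
  · intro u hu huK
    rw [coeff_C_mul, coeff_X_pow, if_pos rfl, mul_one]
    apply dz_freq2 q i0 D hq c hc h l0 hl0 hltop hh2 u hu
    have h4 : (u : ℝ) < (q : ℝ) ^ t / Real.exp a3 := Nat.lt_ceil.1 huK
    rw [lt_div_iff₀ (Real.exp_pos _)] at h4
    have h5 : |(h l0 : ℝ)| * u < (q : ℝ) ^ t := by
      calc |(h l0 : ℝ)| * u ≤ Real.exp a3 * u :=
            mul_le_mul_of_nonneg_right (hB l0) (Nat.cast_nonneg _)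
        _ = u * Real.exp a3 := by ring
        _ < _ := h4
    exact_mod_cast h5
  · unfold Zt
    exact zt_le2 K ((q : ℝ) ^ t) (((V : ℝ) ^ d) ^ 2) ((V : ℝ) ^ d) a3 x1 z hqt1
      (hV1R.trans hWn) hKlow hqt hqt2 rfl hlogq (hVl.trans hWn) h1 h2 ha3 hz

end Pool.Agent.Q263.WE
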