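import Mathlib
import Pool.Agent.Q263.JM.Cher
import Pool.Agent.Q263.WE.Jnt

/-!
From the law of the cells to the discrepancy of all initial segments.
-/

set_option autoImplicit false

open Finset

namespace Pool.Agent.Q263.WE

/-- the number of the places `i < n` with a cell below `u` -/
def cnt {N : ℕ} (n u : ℕ) (V : Fin N → ℕ) : ℕ := (univ.filter (fun i : Fin N => (i : ℕ) < n ∧ V i < u)).card

lemma mgf {N : ℕ} (q n u : ℕ) (hn : n ≤ N) (hq : 1 ≤ q) (hu : u ≤ q) (l : ℝ) (hl : |l| ≤ 1) :
    ∑ V ∈ Fintype.piFinset (fun _ : Fin N => range q), Real.exp (l * cnt n u V) ≤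
      (q : ℝ) ^ N * Real.exp ((u / q * l + l ^ 2) * n) := by
  classical
  have hq0 : (0 : ℝ) < q := by exact_mod_cast hq
  have h1 : ∀ V : Fin N → ℕ, Real.exp (l * cnt n u V) =
      ∏ i : Fin N, (if (i : ℕ) < n ∧ V i < u then Real.exp l else 1) := by
    intro V
    rw [Finset.prod_ite, Finset.prod_const, Finset.prod_const_one, mul_one, ← Real.exp_nat_mul]
    congr 1
    unfold cnt
    ring
  simp_rw [h1]
  rw [← Finset.prod_univ_sum (fun _ : Fin N => range q)
    (fun (i : Fin N) (v : ℕ) => if (i : ℕ) < n ∧ v < u then Real.exp l else 1)]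
  have hp := Pool.Agent.Q263.JM.mgf_bound (u / q : ℝ) l (by positivity)
    (by rw [div_le_one hq0]; exact_mod_cast hu) hl
  have h2 : ∀ i : Fin N, ∑ v ∈ range q, (if (i : ℕ) < n ∧ v < u then Real.exp l else 1) ≤
      (q : ℝ) * (if (i : ℕ) < n then Real.exp (u / q * l + l ^ 2) else 1) := by
    intro i
    by_cases hi : (i : ℕ) < n
    · simp only [hi, true_and, if_true]
      rw [Finset.sum_ite, Finset.sum_const, Finset.sum_const]
      have e1 : (range q).filter (fun v => v < u) = range u := by
        ext v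
        rw [Finset.mem_filter, Finset.mem_range, Finset.mem_range]
        omega
      have e2 : ((range q).filter (fun v => ¬ v < u)).card = q - u := by
        have := Finset.card_filter_add_card_filter_not (s := range q) (p := fun v => v < u)
        rw [e1, Finset.card_range, Finset.card_range] at this
        omega
      rw [e1, e2, Finset.card_range, nsmul_eq_mul, nsmul_eq_mul, Nat.cast_sub hu]
      calc (u : ℝ) * Real.exp l + ((q : ℝ) - u) * 1 =
            q * (u / q * Real.exp l + (1 - u / q)) := by field_simp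
        _ ≤ _ := mul_le_mul_of_nonneg_left hp hq0.le
    · simp only [hi, false_and, if_false]
      rw [Finset.sum_const, Finset.card_range, nsmul_eq_mul]
  calc ∏ i : Fin N, ∑ v ∈ range q, (if (i : ℕ) < n ∧ v < u then Real.exp l else 1)
      ≤ ∏ i : Fin N, ((q : ℝ) * (if (i : ℕ) < n then Real.exp (u / q * l + l ^ 2) else 1)) := by
        apply Finset.prod_le_prod
        · intro i _
          exact Finset.sum_nonneg fun v _ => by split_ifs <;> positivity
        · intro i _
          exact h2 i
    _ = (q : ℝ) ^ N * Real.exp ((u / q * l + l ^ 2) * n) := by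
        rw [Finset.prod_mul_distrib, Finset.prod_const, Finset.card_univ, Fintype.card_fin,
          Finset.prod_ite, Finset.prod_const, Finset.prod_const_one, mul_one, ← Real.exp_nat_mul]
        have e3 : (univ.filter (fun i : Fin N => (i : ℕ) < n)).card = n := by
          have : (univ.filter (fun i : Fin N => (i : ℕ) < n)).card = (range n).card := by
            refine Finset.card_bij (fun i _ => (i : ℕ)) ?_ ?_ ?_
            · intro i hi
              rw [Finset.mem_filter] at hi
              exact Finset.mem_range.2 hi.2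
            · intro i _ j _ h
              exact Fin.ext h
            · intro k hk
              rw [Finset.mem_range] at hk
              exact ⟨⟨k, by omega⟩, by simp [hk], rfl⟩
          rw [this, Finset.card_range]
        rw [e3]
        congr 2
        ring

lemma markov {N : ℕ} (q n u : ℕ) (hn : n ≤ N) (hq : 1 ≤ q) (hu : u ≤ q) (l y : ℝ) (hl : |l| ≤ 1)
    (P : (Fin N → ℕ) → Prop) [DecidablePred P] (hP : ∀ V, P V → y ≤ l * cnt n u V) :
    (((Fintype.piFinset (fun _ : Fin N => range q)).filter P).card : ℝ) ≤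
      (q : ℝ) ^ N * Real.exp ((u / q * l + l ^ 2) * n - y) := by
  have h1 := mgf (N := N) q n u hn hq hu l hl
  have h2 : (((Fintype.piFinset (fun _ : Fin N => range q)).filter P).card : ℝ) * Real.exp y ≤
      ∑ V ∈ Fintype.piFinset (fun _ : Fin N => range q), Real.exp (l * cnt n u V) := by
    rw [Finset.card_filter]
    push_cast
    rw [Finset.sum_mul]
    refine Finset.sum_le_sum fun V _ => ?_
    split_ifs with h
    · rw [one_mul]
      exact Real.exp_le_exp.2 (hP V h)
    · rw [zero_mul]
      exact (Real.exp_pos _).le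
  have h3 := h2.trans h1
  rw [Real.exp_sub, ← mul_div_assoc, le_div_iff₀ (Real.exp_pos _)]
  exact h3

/-- words with a large deviation at one place -/
lemma bad_one {N : ℕ} (q n u : ℕ) (hn : n ≤ N) (hn1 : 1 ≤ n) (hq : 1 ≤ q) (hu : u ≤ q) (T : ℝ)
    (hT : 0 ≤ T) :
    (((Fintype.piFinset (fun _ : Fin N => range q)).filter
      (fun V => T * Real.sqrt n < |(cnt n u V : ℝ) - n * u / q|)).card : ℝ) ≤
      2 * (q : ℝ) ^ N * Real.exp (-(T ^ 2 / 4)) := by
  classical
  have hq0 : (0 : ℝ) < q := by exact_mod_cast hq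
  have hn0 : (0 : ℝ) < n := by exact_mod_cast hn1
  set s : ℝ := T * Real.sqrt n with hs
  have hs0 : 0 ≤ s := by rw [hs]; positivity
  have hs2 : s ^ 2 = T ^ 2 * n := by rw [hs, mul_pow, Real.sq_sqrt hn0.le]
  have hcn : ∀ V : Fin N → ℕ, (cnt n u V : ℝ) ≤ n := by
    intro V
    have h1 : cnt n u V ≤ (range n).card := by
      unfold cnt
      refine Finset.card_le_card_of_injOn (fun i => (i : ℕ)) ?_ ?_
      · intro i hi
        rw [Finset.mem_coe, Finset.mem_filter] at hi
        rw [Finset.mem_coe, Finset.mem_range]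
        exact hi.2.1
      · intro i _ j _ h
        exact Fin.ext h
    rw [Finset.card_range] at h1
    exact_mod_cast h1
  have hnu : (n : ℝ) * u / q ≤ n := by
    rw [div_le_iff₀ hq0]
    have : (u : ℝ) ≤ q := by exact_mod_cast hu
    exact mul_le_mul_of_nonneg_left this hn0.le
  by_cases hbig : (2 : ℝ) * n < s
  · have h1 : (Fintype.piFinset (fun _ : Fin N => range q)).filter
        (fun V => s < |(cnt n u V : ℝ) - n * u / q|) = ∅ := by
      rw [Finset.filter_eq_empty_iff]
      intro V _ h2
      have h3 := hcn V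
      have h4 : (0 : ℝ) ≤ cnt n u V := Nat.cast_nonneg _
      have h5 : 0 ≤ (n : ℝ) * u / q := by positivity
      have h6 : |(cnt n u V : ℝ) - n * u / q| ≤ n := by
        rw [abs_le]
        constructor <;> linarith
      linarith
    rw [h1, Finset.card_empty, Nat.cast_zero]
    positivity
  · push Not at hbig
    set l : ℝ := s / (2 * n) with hl
    have hl0 : 0 ≤ l := by positivity
    have hl1 : l ≤ 1 := by
      rw [hl, div_le_one (by positivity)]
      exact hbig
    have e1 : l * s = T ^ 2 / 2 := by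
      rw [hl]
      have : s / (2 * n) * s = s ^ 2 / (2 * n) := by ring
      rw [this, hs2]
      field_simp
    have e2 : l ^ 2 * n = T ^ 2 / 4 := by
      rw [hl, div_pow, hs2]
      field_simp
      norm_num
    have hU := markov q n u hn hq hu l (l * (s + n * u / q)) (by rw [abs_of_nonneg hl0]; exact hl1)
      (fun V : Fin N → ℕ => s ≤ (cnt n u V : ℝ) - n * u / q) (by
        intro V hV
        apply mul_le_mul_of_nonneg_left _ hl0
        linarith)
    have hD := markov q n u hn hq hu (-l) (l * (s - n * u / q)) (by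
        rw [abs_neg, abs_of_nonneg hl0]; exact hl1)
      (fun V : Fin N → ℕ => s ≤ -((cnt n u V : ℝ) - n * u / q)) (by
        intro V hV
        have : l * (s - n * u / q) ≤ l * (-(cnt n u V : ℝ)) :=
          mul_le_mul_of_nonneg_left (by linarith) hl0
        linarith)
    have e3 : ((u : ℝ) / q * l + l ^ 2) * n - l * (s + n * u / q) = -(T ^ 2 / 4) := by
      have : ((u : ℝ) / q * l + l ^ 2) * n - l * (s + n * u / q) = l ^ 2 * n - l * s := by ring
      rw [this, e1, e2]
      ring
    have e4 : ((u : ℝ) / q * (-l) + (-l) ^ 2) * n - l * (s - n * u / q) = -(T ^ 2 / 4) := by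
      have : ((u : ℝ) / q * (-l) + (-l) ^ 2) * n - l * (s - n * u / q) = l ^ 2 * n - l * s := by ring
      rw [this, e1, e2]
      ring
    rw [e3] at hU
    rw [e4] at hD
    have hsplit : (Fintype.piFinset (fun _ : Fin N => range q)).filter
        (fun V => s < |(cnt n u V : ℝ) - n * u / q|) ⊆
        (Fintype.piFinset (fun _ : Fin N => range q)).filter
          (fun V => s ≤ (cnt n u V : ℝ) - n * u / q) ∪
        (Fintype.piFinset (fun _ : Fin N => range q)).filter
          (fun V => s ≤ -((cnt n u V : ℝ) - n * u / q)) := by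
      intro V hV
      rw [Finset.mem_union, Finset.mem_filter, Finset.mem_filter]
      rw [Finset.mem_filter] at hV
      rcases lt_abs.1 hV.2 with h | h
      · exact Or.inl ⟨hV.1, h.le⟩
      · exact Or.inr ⟨hV.1, h.le⟩
    have h1 := (Finset.card_le_card hsplit).trans (Finset.card_union_le _ _)
    have h2 : (((Fintype.piFinset (fun _ : Fin N => range q)).filter
        (fun V => s < |(cnt n u V : ℝ) - n * u / q|)).card : ℝ) ≤
        (((Fintype.piFinset (fun _ : Fin N => range q)).filter
          (fun V => s ≤ (cnt n u V : ℝ) - n * u / q)).card : ℝ) +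
        (((Fintype.piFinset (fun _ : Fin N => range q)).filter
          (fun V => s ≤ -((cnt n u V : ℝ) - n * u / q))).card : ℝ) := by exact_mod_cast h1
    linarith

/-- all words with a large deviation somewhere -/
lemma bad_all {N : ℕ} (q : ℕ) (hq : 1 ≤ q) (T : ℝ) (hT : 0 ≤ T) :
    ∃ 𝒜 : Finset (Fin N → ℕ), 𝒜 ⊆ Fintype.piFinset (fun _ : Fin N => range q) ∧
      (𝒜.card : ℝ) ≤ 2 * N * (q + 1) * Real.exp (-(T ^ 2 / 4)) * (q : ℝ) ^ N ∧
      ∀ V ∈ Fintype.piFinset (fun _ : Fin N => range q), V ∉ 𝒜 →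
        ∀ n u : ℕ, 1 ≤ n → n ≤ N → u ≤ q → |(cnt n u V : ℝ) - n * u / q| ≤ T * Real.sqrt n := by
  classical
  refine ⟨(Finset.Icc 1 N ×ˢ range (q + 1)).biUnion (fun p =>
    (Fintype.piFinset (fun _ : Fin N => range q)).filter
      (fun V => T * Real.sqrt p.1 < |(cnt p.1 p.2 V : ℝ) - p.1 * p.2 / q|)), ?_, ?_, ?_⟩
  · intro V hV
    rw [Finset.mem_biUnion] at hV
    obtain ⟨p, _, hp⟩ := hV
    exact (Finset.mem_filter.1 hp).1
  · refine le_trans (Nat.cast_le.2 Finset.card_biUnion_le) ?_
    push_cast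
    calc ∑ p ∈ Finset.Icc 1 N ×ˢ range (q + 1),
        (((Fintype.piFinset (fun _ : Fin N => range q)).filter
          (fun V => T * Real.sqrt p.1 < |(cnt p.1 p.2 V : ℝ) - p.1 * p.2 / q|)).card : ℝ)
        ≤ ∑ _p ∈ Finset.Icc 1 N ×ˢ range (q + 1), 2 * (q : ℝ) ^ N * Real.exp (-(T ^ 2 / 4)) := by
          refine Finset.sum_le_sum fun p hp => ?_
          rw [Finset.mem_product, Finset.mem_Icc, Finset.mem_range] at hp
          exact bad_one q p.1 p.2 hp.1.2 hp.1.1 hq (by omega) T hT
      _ = _ := by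
          rw [Finset.sum_const, Finset.card_product, Nat.card_Icc, Finset.card_range, nsmul_eq_mul]
          push_cast
          ring
  · intro V hV hV2 n u hn hnN hu
    by_contra hc
    push Not at hc
    apply hV2
    rw [Finset.mem_biUnion]
    refine ⟨(n, u), ?_, ?_⟩
    · rw [Finset.mem_product, Finset.mem_Icc, Finset.mem_range]
      exact ⟨⟨hn, hnN⟩, by show u < q + 1; omega⟩
    · rw [Finset.mem_filter]
      exact ⟨hV, hc⟩

/-- the star discrepancy of all initial segments -/
def Disc {N : ℕ} (T : ℝ) (y : Fin N → ℝ) : Prop :=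
  ∀ (n : ℕ) (t : ℝ), 1 ≤ n → n ≤ N → 0 ≤ t → t ≤ 1 →
    |((univ.filter (fun i : Fin N => (i : ℕ) < n ∧ Int.fract (y i) < t)).card : ℝ) - t * n| ≤
      T * Real.sqrt n + 1

/-- from the cells to the discrepancy -/
lemma disc_of_cells {N : ℕ} (hN : 1 ≤ N) (T : ℝ) (y : Fin N → ℝ)
    (h : ∀ n u : ℕ, 1 ≤ n → n ≤ N → u ≤ N →
      |(cnt n u (cells N y) : ℝ) - n * u / N| ≤ T * Real.sqrt n) : Disc T y := by
  classical
  intro n t hn hnN ht0 ht1
  have hN0 : (0 : ℝ) < N := by exact_mod_cast hN
  have hn0 : (0 : ℝ) < n := by exact_mod_cast hn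
  have hnNR : (n : ℝ) ≤ N := by exact_mod_cast hnN
  -- lower
  set u : ℕ := ⌊t * N⌋₊ with hu
  have huN : u ≤ N := by
    rw [hu]
    apply Nat.floor_le_of_le
    nlinarith
  have hule : (u : ℝ) ≤ t * N := Nat.floor_le (by positivity)
  have hult : t * N < u + 1 := Nat.lt_floor_add_one _
  set c : ℕ := (univ.filter (fun i : Fin N => (i : ℕ) < n ∧ Int.fract (y i) < t)).card with hc
  have hlow : cnt n u (cells N y) ≤ c := by
    unfold cnt
    apply Finset.card_le_card
    intro i hi
    rw [Finset.mem_filter] at hi ⊢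
    refine ⟨hi.1, hi.2.1, ?_⟩
    have h1 : (N : ℝ) * Int.fract (y i) < (cells N y i : ℝ) + 1 := Nat.lt_floor_add_one _
    have h2 : ((cells N y i : ℕ) : ℝ) + 1 ≤ u := by exact_mod_cast hi.2.2
    by_contra h3
    push Not at h3
    nlinarith
  have h1 := (abs_le.1 (h n u hn hnN huN)).1
  have h2 : (n : ℝ) * u / N ≥ t * n - 1 := by
    rw [ge_iff_le, le_div_iff₀ hN0]
    nlinarith
  have hlowR : (cnt n u (cells N y) : ℝ) ≤ c := by exact_mod_cast hlow
  -- upper
  rcases Nat.lt_or_ge u N with hlt | hge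
  · have hupp : c ≤ cnt n (u + 1) (cells N y) := by
      unfold cnt
      rw [hc]
      apply Finset.card_le_card
      intro i hi
      rw [Finset.mem_filter] at hi ⊢
      refine ⟨hi.1, hi.2.1, ?_⟩
      have h3 : ((cells N y i : ℕ) : ℝ) ≤ (N : ℝ) * Int.fract (y i) :=
        Nat.floor_le (mul_nonneg hN0.le (Int.fract_nonneg _))
      have h4 : ((cells N y i : ℕ) : ℝ) < u + 1 := by nlinarith [hi.2.2]
      exact_mod_cast h4
    have h3 := (abs_le.1 (h n (u + 1) hn hnN (by omega))).2
    have h4 : (n : ℝ) * ((u + 1 : ℕ) : ℝ) / N ≤ t * n + 1 := by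
      rw [div_le_iff₀ hN0]
      push_cast
      nlinarith
    have huppR : (c : ℝ) ≤ cnt n (u + 1) (cells N y) := by exact_mod_cast hupp
    rw [abs_le]
    constructor <;> linarith
  · have hueq : u = N := le_antisymm huN hge
    have hcn : (c : ℝ) ≤ n := by
      have h1 : c ≤ (range n).card := by
        rw [hc]
        refine Finset.card_le_card_of_injOn (fun i => (i : ℕ)) ?_ ?_
        · intro i hi
          rw [Finset.mem_coe, Finset.mem_filter] at hi
          rw [Finset.mem_coe, Finset.mem_range]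
          exact hi.2.1
        · intro i _ j _ h
          exact Fin.ext h
      rw [Finset.card_range] at h1
      exact_mod_cast h1
    have ht : t = 1 := by
      rw [hueq] at hule
      have : 1 ≤ t := by
        by_contra h5
        push Not at h5
        nlinarith
      linarith
    have h6 := (abs_le.1 (h n u hn hnN huN)).2
    have h7 : 0 ≤ T * Real.sqrt n := le_trans (abs_nonneg _) (h n u hn hnN huN)
    rw [abs_le]
    constructor
    · linarith
    · rw [ht]
      linarith

/-- **the number of exceptions** -/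
theorem disc_of_law {N M : ℕ} (hN : 1 ≤ N) (ξ : ℕ → Fin N → ℝ) (E T : ℝ) (hT : 0 ≤ T)
    (h : ∀ 𝒜 : Finset (Fin N → ℕ), 𝒜 ⊆ (Fintype.piFinset fun _ => range N) →
      |(((range M).filter (fun m => cells N (ξ m) ∈ 𝒜)).card : ℝ) - M * (𝒜.card / (N : ℝ) ^ N)| ≤ E) :
    ∃ X : Finset ℕ, X ⊆ range M ∧
      (X.card : ℝ) ≤ M * (2 * N * (N + 1) * Real.exp (-(T ^ 2 / 4))) + E ∧
      ∀ m ∈ range M, m ∉ X → Disc T (ξ m) := by
  classical
  obtain ⟨𝒜, h1, h2, h3⟩ := bad_all (N := N) N hN T hT
  refine ⟨(range M).filter (fun m => cells N (ξ m) ∈ 𝒜), Finset.filter_subset _ _, ?_, ?_⟩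
  · have h4 := (abs_le.1 (h 𝒜 h1)).2
    have hN0 : (0 : ℝ) < N := by exact_mod_cast hN
    have h5 : (M : ℝ) * (𝒜.card / (N : ℝ) ^ N) ≤
        M * (2 * N * (N + 1) * Real.exp (-(T ^ 2 / 4))) := by
      apply mul_le_mul_of_nonneg_left _ (Nat.cast_nonneg _)
      rw [div_le_iff₀ (by positivity)]
      exact h2
    linarith
  · intro m hm hmX
    apply disc_of_cells hN
    intro n u hn hnN hu
    apply h3 (cells N (ξ m)) _ _ n u hn hnN hu
    · rw [Fintype.mem_piFinset]
      intro l
      exact Finset.mem_range.2 (cells_lt N hN (ξ m) l)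
    · intro h4
      exact hmX (Finset.mem_filter.2 ⟨hm, h4⟩)

end Pool.Agent.Q263.WE
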