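import Mathlib
import Pool.Agent.Q263.WE.Pd
import Pool.Agent.Q263.WE.Dsc

/-!
The digits of all powers `m ^ n`, `n ≤ (log M) ^ κ`, for almost all `m ≤ M`.
-/

set_option autoImplicit false

open Finset Polynomial Filter Topology

namespace Pool.Agent.Q263.WE

/-- the number of the cells with a given value -/
lemma count_of_law {N M : ℕ} (Q : ℕ) (hQ : 1 ≤ Q) (ξ : ℕ → Fin N → ℝ) (E T : ℝ) (hT : 0 ≤ T)
    (hE : 0 ≤ E)
    (h : ∀ 𝒜 : Finset (Fin N → ℕ), 𝒜 ⊆ (Fintype.piFinset fun _ => range Q) →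
      |(((range M).filter (fun m => cells Q (ξ m) ∈ 𝒜)).card : ℝ) - M * (𝒜.card / (Q : ℝ) ^ N)| ≤ E) :
    ∃ X : Finset ℕ,
      (X.card : ℝ) ≤ M * (2 * N * (Q + 1) * Real.exp (-(T ^ 2 / 4))) + E ∧
      ∀ m ∈ range M, m ∉ X → ∀ W < Q,
        |((univ.filter (fun l : Fin N => cells Q (ξ m) l = W)).card : ℝ) - N / Q| ≤
          2 * (T * Real.sqrt N) := by
  classical
  have hQ0 : (0 : ℝ) < Q := by exact_mod_cast hQ
  rcases Nat.eq_zero_or_pos N with hN | hN
  · subst hN
    refine ⟨∅, ?_, ?_⟩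
    · simpa using hE
    · intro m _ _ W _
      simp
  obtain ⟨𝒜, h1, h2, h3⟩ := bad_all (N := N) Q hQ T hT
  refine ⟨(range M).filter (fun m => cells Q (ξ m) ∈ 𝒜), ?_, ?_⟩
  · have h4 := (abs_le.1 (h 𝒜 h1)).2
    have h5 : (M : ℝ) * (𝒜.card / (Q : ℝ) ^ N) ≤
        M * (2 * N * (Q + 1) * Real.exp (-(T ^ 2 / 4))) := by
      apply mul_le_mul_of_nonneg_left _ (Nat.cast_nonneg _)
      rw [div_le_iff₀ (by positivity)]
      exact h2
    linarith
  · intro m hm hmX W hW
    have hmem : cells Q (ξ m) ∈ Fintype.piFinset (fun _ : Fin N => range Q) := by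
      rw [Fintype.mem_piFinset]
      intro l
      exact Finset.mem_range.2 (cells_lt Q hQ (ξ m) l)
    have hnot : cells Q (ξ m) ∉ 𝒜 := fun h4 => hmX (Finset.mem_filter.2 ⟨hm, h4⟩)
    have h4 := h3 _ hmem hnot N (W + 1) hN le_rfl hW
    have h5 := h3 _ hmem hnot N W hN le_rfl hW.le
    set V := cells Q (ξ m) with hV
    have h6 : cnt N (W + 1) V = cnt N W V + (univ.filter (fun l : Fin N => V l = W)).card := by
      unfold cnt
      rw [← Finset.card_union_of_disjoint]
      · congr 1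
        ext l
        simp only [Finset.mem_filter, Finset.mem_union, Finset.mem_univ, true_and]
        have := l.2
        omega
      · rw [Finset.disjoint_filter]
        intro l _ h7 h8
        omega
    have h7 : (cnt N (W + 1) V : ℝ) = cnt N W V + (univ.filter (fun l : Fin N => V l = W)).card := by
      exact_mod_cast h6
    have h8 := abs_le.1 h4
    have h9 := abs_le.1 h5
    have e1 : (N : ℝ) * ((W + 1 : ℕ) : ℝ) / Q = N * W / Q + N / Q := by
      push_cast
      ring
    rw [e1] at h8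
    rw [abs_le]
    constructor <;> linarith [h8.1, h8.2, h9.1, h9.2]

/-- from classes to blocks -/
lemma block_of_classes (P : ℕ → Prop) [DecidablePred P] (i0 N D : ℕ) (ρ Δ : ℝ)
    (h : ∀ a < D, |((univ.filter (fun l : Fin N => P (i0 + a + (l : ℕ) * D))).card : ℝ) - ρ| ≤ Δ) :
    |(((Finset.Ico i0 (i0 + N * D)).filter P).card : ℝ) - D * ρ| ≤ D * Δ := by
  have h1 : (((Finset.Ico i0 (i0 + N * D)).filter P).card : ℝ) =
      ∑ a ∈ range D, ((univ.filter (fun l : Fin N => P (i0 + a + (l : ℕ) * D))).card : ℝ) := by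
    have h2 : ∀ a, ((univ.filter (fun l : Fin N => P (i0 + a + (l : ℕ) * D))).card : ℝ) =
        ∑ l ∈ range N, (if P (i0 + a + l * D) then (1 : ℝ) else 0) := by
      intro a
      rw [Finset.card_filter]
      push_cast
      rw [← Fin.sum_univ_eq_sum_range (fun l => if P (i0 + a + l * D) then (1 : ℝ) else 0) N]
    simp_rw [h2]
    rw [Finset.sum_comm, Finset.card_filter]
    push_cast
    rw [Finset.sum_Ico_eq_sum_range, Nat.add_sub_cancel_left, sum_blocks]
    refine Finset.sum_congr rfl fun l _ => Finset.sum_congr rfl fun a _ => ?_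
    congr 2
    ring
  have h3 : (((Finset.Ico i0 (i0 + N * D)).filter P).card : ℝ) - D * ρ =
      ∑ a ∈ range D, (((univ.filter (fun l : Fin N => P (i0 + a + (l : ℕ) * D))).card : ℝ) - ρ) := by
    rw [h1, Finset.sum_sub_distrib, Finset.sum_const, Finset.card_range, nsmul_eq_mul]
  rw [h3]
  refine (Finset.abs_sum_le_sum_abs _ _).trans ?_
  calc ∑ a ∈ range D, |((univ.filter (fun l : Fin N => P (i0 + a + (l : ℕ) * D))).card : ℝ) - ρ|
      ≤ ∑ _a ∈ range D, Δ := Finset.sum_le_sum fun a ha => h a (Finset.mem_range.1 ha)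
    _ = _ := by rw [Finset.sum_const, Finset.card_range, nsmul_eq_mul]

/-- from the block to all places -/
lemma all_of_block (P : ℕ → Prop) [DecidablePred P] (i0 B L : ℕ) (hBL : i0 + B ≤ L) (ρ : ℝ)
    (hρ0 : 0 ≤ ρ) (hρ1 : ρ ≤ 1) (Δ : ℝ)
    (h : |(((Finset.Ico i0 (i0 + B)).filter P).card : ℝ) - B * ρ| ≤ Δ) :
    |(((range L).filter P).card : ℝ) - L * ρ| ≤ Δ + (L - B) := by
  set cB : ℕ := ((Finset.Ico i0 (i0 + B)).filter P).card with hcB
  set cL : ℕ := ((range L).filter P).card with hcL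
  have h1 : cB ≤ cL := by
    rw [hcB, hcL]
    apply Finset.card_le_card
    apply Finset.filter_subset_filter
    intro i hi
    rw [Finset.mem_Ico] at hi
    rw [Finset.mem_range]
    omega
  have h2 : cL ≤ cB + (L - B) := by
    have h3 : (range L).filter P ⊆ ((Finset.Ico i0 (i0 + B)).filter P) ∪
        ((range L) \ (Finset.Ico i0 (i0 + B))) := by
      intro i hi
      rw [Finset.mem_filter] at hi
      rw [Finset.mem_union, Finset.mem_filter, Finset.mem_sdiff]
      by_cases h4 : i ∈ Finset.Ico i0 (i0 + B)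
      · exact Or.inl ⟨h4, hi.2⟩
      · exact Or.inr ⟨hi.1, h4⟩
    have h4 := (Finset.card_le_card h3).trans (Finset.card_union_le _ _)
    have h5 : ((range L) \ (Finset.Ico i0 (i0 + B))).card = L - B := by
      rw [Finset.card_sdiff_of_subset]
      · rw [Finset.card_range, Nat.card_Ico]
        omega
      · intro i hi
        rw [Finset.mem_Ico] at hi
        rw [Finset.mem_range]
        omega
    rw [h5] at h4
    exact h4
  have hBL' : B ≤ L := by omega
  have h1R : (cB : ℝ) ≤ cL := by exact_mod_cast h1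
  have h2R : (cL : ℝ) ≤ cB + (L - B) := by
    have : (cL : ℝ) ≤ ((cB + (L - B) : ℕ) : ℝ) := by exact_mod_cast h2
    rw [Nat.cast_add, Nat.cast_sub hBL'] at this
    exact this
  have hLB : (0 : ℝ) ≤ (L : ℝ) - B := by
    have : (B : ℝ) ≤ L := by exact_mod_cast hBL'
    linarith
  have h3 := abs_le.1 h
  have h4 : ((L : ℝ) - B) * ρ ≤ (L : ℝ) - B := mul_le_of_le_one_right hLB hρ1
  have h5 : 0 ≤ ((L : ℝ) - B) * ρ := mul_nonneg hLB hρ0
  rw [abs_le]
  constructor <;> nlinarith [h3.1, h3.2]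

end Pool.Agent.Q263.WE
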