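import Mathlib
import Pool.Agent.Q263.WE.Pf

/-!
The sizes of the parameters for the digits of powers.
-/

set_option autoImplicit false

open Finset Polynomial Filter Topology

namespace Pool.Agent.Q263.WE

lemma vv : ∀ᶠ x : ℝ in atTop, ∃ V : ℕ, 1 ≤ V ∧ (V : ℝ) ^ 2 ≤ Real.exp (x - x ^ (3 / 4 : ℝ)) ∧
    Real.exp (x / 4) ≤ V ∧ x - 2 * x ^ (3 / 4 : ℝ) ≤ 2 * Real.log V ∧ 2 * Real.log V ≤ x := by
  filter_upwards [eventually_ge_atTop 16, ev_pow 8 (3 / 4) 1 (by norm_num),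
    ev_pow 2 0 (3 / 4) (by norm_num)] with x hx g1 g2
  rw [Real.rpow_one] at g1
  rw [Real.rpow_zero, mul_one] at g2
  set y : ℝ := x ^ (3 / 4 : ℝ) with hy
  set z : ℝ := x / 2 - y / 2 with hz
  have hz1 : x / 4 + 1 ≤ z := by rw [hz]; linarith
  have he1 : (2 : ℝ) ≤ Real.exp 1 := by
    have := Real.add_one_le_exp 1
    linarith
  have hez : Real.exp z = Real.exp (z - 1) * Real.exp 1 := by
    rw [← Real.exp_add]
    congr 1
    ring
  have hpos := Real.exp_pos (z - 1)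
  have h1 : 1 ≤ Real.exp (z - 1) := Real.one_le_exp (by linarith)
  have hfl : Real.exp z < ⌊Real.exp z⌋₊ + 1 := Nat.lt_floor_add_one _
  have hfl2 : (⌊Real.exp z⌋₊ : ℝ) ≤ Real.exp z := Nat.floor_le (Real.exp_pos _).le
  have hV : Real.exp (z - 1) ≤ (⌊Real.exp z⌋₊ : ℝ) := by nlinarith
  have hV0 : (0 : ℝ) < (⌊Real.exp z⌋₊ : ℝ) := lt_of_lt_of_le hpos hV
  have hlog : Real.log (⌊Real.exp z⌋₊ : ℝ) ≤ z := by
    have := Real.log_le_log hV0 hfl2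
    rwa [Real.log_exp] at this
  refine ⟨⌊Real.exp z⌋₊, ?_, ?_, ?_, ?_, ?_⟩
  · exact_mod_cast (h1.trans hV)
  · calc (⌊Real.exp z⌋₊ : ℝ) ^ 2 ≤ (Real.exp z) ^ 2 := by
          apply pow_le_pow_left₀ (Nat.cast_nonneg _) hfl2
      _ = _ := by
          rw [← Real.exp_nat_mul]
          congr 1
          rw [hz]
          push_cast
          ring
  · refine le_trans (Real.exp_le_exp.2 ?_) hV
    linarith
  · have h2 : z - 1 ≤ Real.log (⌊Real.exp z⌋₊ : ℝ) := by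
      rw [Real.le_log_iff_exp_le hV0]
      exact hV
    rw [hz] at h2
    linarith
  · rw [hz] at hlog
    linarith

lemma dims_N (k i00 D : ℕ) (lam S : ℝ) (hlam : 0 < lam) (hD : 1 ≤ D)
    (hS : ((i00 + D + k : ℕ) : ℝ) * lam ≤ S) :
    ∃ N : ℕ, ((i00 + D + N * D + k : ℕ) : ℝ) * lam ≤ S ∧
      S ≤ ((N * D + i00 + 2 * D + k : ℕ) : ℝ) * lam := by
  have hD0 : (0 : ℝ) < D := by exact_mod_cast hD
  have h0 : ((i00 + D + k : ℕ) : ℝ) ≤ S / lam := by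
    rw [le_div_iff₀ hlam]
    exact hS
  set z : ℝ := (S / lam - ((i00 + D + k : ℕ) : ℝ)) / D with hz
  have hz0 : 0 ≤ z := by
    apply div_nonneg _ hD0.le
    linarith
  have hzD : z * D = S / lam - ((i00 + D + k : ℕ) : ℝ) := by
    rw [hz]
    field_simp
  have h1 : (⌊z⌋₊ : ℝ) ≤ z := Nat.floor_le hz0
  have h2 : z < ⌊z⌋₊ + 1 := Nat.lt_floor_add_one z
  refine ⟨⌊z⌋₊, ?_, ?_⟩
  · have h3 : (⌊z⌋₊ : ℝ) * D ≤ S / lam - ((i00 + D + k : ℕ) : ℝ) := by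
      rw [← hzD]
      exact mul_le_mul_of_nonneg_right h1 hD0.le
    rw [← le_div_iff₀ hlam]
    push_cast at h3 ⊢
    linarith
  · have h3 : S / lam - ((i00 + D + k : ℕ) : ℝ) ≤ ((⌊z⌋₊ : ℝ) + 1) * D := by
      rw [← hzD]
      exact mul_le_mul_of_nonneg_right h2.le hD0.le
    rw [← div_le_iff₀ hlam]
    push_cast at h3 ⊢
    linarith

lemma dims_len (n k i00 D N L : ℕ) (lam lV x x1 y r : ℝ)
    (hn : (1 : ℝ) ≤ n) (hlam : 1 / 2 ≤ lam)
    (hV1 : x - 2 * y ≤ 2 * lV) (hy0 : 0 ≤ y)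
    (hy : y ≤ x1) (hr : r ≤ x1) (hr1 : 1 ≤ r)
    (hk : (k : ℝ) ≤ x1) (hi : (i00 : ℝ) ≤ 4 * x1 + 1) (hD2 : (D : ℝ) ≤ r + 1)
    (hN2 : (n : ℝ) * (2 * lV) - 2 * x1 ≤ ((N * D + i00 + 2 * D + k : ℕ) : ℝ) * lam)
    (hL1 : ((L : ℝ) - 1) * lam ≤ n * x) :
    (L : ℝ) - ((N * D : ℕ) : ℝ) ≤ 21 * (n * x1) := by
  have hlam0 : 0 < lam := by linarith
  have hx1 : 1 ≤ x1 := hr1.trans hr
  have h1 : ((L : ℝ) - 1 - ((N * D + i00 + 2 * D + k : ℕ) : ℝ)) * lam ≤ 2 * (n * y) + 2 * x1 := by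
    have h2 : (n : ℝ) * (x - 2 * y) ≤ n * (2 * lV) := by
      apply mul_le_mul_of_nonneg_left hV1
      linarith
    have e : ((L : ℝ) - 1 - ((N * D + i00 + 2 * D + k : ℕ) : ℝ)) * lam =
        ((L : ℝ) - 1) * lam - ((N * D + i00 + 2 * D + k : ℕ) : ℝ) * lam := by ring
    rw [e]
    have e2 : (n : ℝ) * (x - 2 * y) = n * x - 2 * (n * y) := by ring
    linarith
  have h2 : (L : ℝ) - 1 - ((N * D + i00 + 2 * D + k : ℕ) : ℝ) ≤ 4 * (n * y) + 4 * x1 := by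
    by_cases h0 : (L : ℝ) - 1 - ((N * D + i00 + 2 * D + k : ℕ) : ℝ) ≤ 0
    · have : 0 ≤ (n : ℝ) * y := by positivity
      linarith
    · push Not at h0
      have h3 : ((L : ℝ) - 1 - ((N * D + i00 + 2 * D + k : ℕ) : ℝ)) * (1 / 2) ≤
          ((L : ℝ) - 1 - ((N * D + i00 + 2 * D + k : ℕ) : ℝ)) * lam :=
        mul_le_mul_of_nonneg_left hlam h0.le
      linarith
  have h3 : (n : ℝ) * y ≤ n * x1 := mul_le_mul_of_nonneg_left hy (by linarith)
  have h4 : x1 ≤ n * x1 := le_mul_of_one_le_left (by linarith) hn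
  push_cast at h2 ⊢
  nlinarith

lemma dims_err (n D N L : ℕ) (lam lV x x1 y r s t w : ℝ)
    (hn : (1 : ℝ) ≤ n) (hlam : 1 / 2 ≤ lam) (hlamw : lam ≤ w) 
    (hV1 : x - 2 * y ≤ 2 * lV) (hV2 : 2 * lV ≤ x)
    (hr1 : 1 ≤ r) (hrr : r * r = x)
    (hss : s * s = r) (hs : 0 ≤ s) (ht : 0 ≤ t)
    (hD1 : r ≤ D) (hD2 : (D : ℝ) ≤ r + 1)
    (hN1 : ((N * D : ℕ) : ℝ) * lam ≤ (n : ℝ) * (2 * lV))
    (hLB : (L : ℝ) - ((N * D : ℕ) : ℝ) ≤ 21 * (n * x1))
    (hL2 : (n : ℝ) * (2 * lV) ≤ L * lam)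
    (g1 : 32 * (r * t * s) * w ^ 2 ≤ x) (g2 : 84 * x1 * w ^ 2 ≤ x) (g3 : 4 * y ≤ x) :
    (N : ℝ) ≤ 2 * (n * r) ∧
    (D : ℝ) * (2 * (t * Real.sqrt N)) + ((L : ℝ) - ((N * D : ℕ) : ℝ)) ≤ L / w := by
  have hlam0 : 0 < lam := by linarith
  have hw0 : 0 < w := by linarith
  have hn0 : (0 : ℝ) < n := by linarith
  have hr0 : 0 < r := by linarith
  have hx0 : 0 < x := by rw [← hrr]; positivity
  -- N
  have hN : (N : ℝ) ≤ 2 * (n * r) := by
    have h1 : (N : ℝ) * r * (1 / 2) ≤ n * x := by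
      calc (N : ℝ) * r * (1 / 2) ≤ (N : ℝ) * D * lam := by
            apply mul_le_mul (mul_le_mul_of_nonneg_left hD1 (Nat.cast_nonneg _)) hlam (by norm_num)
            positivity
        _ = ((N * D : ℕ) : ℝ) * lam := by push_cast; ring
        _ ≤ n * (2 * lV) := hN1
        _ ≤ n * x := mul_le_mul_of_nonneg_left hV2 hn0.le
    rw [← hrr] at h1
    have h2 : (N : ℝ) * r ≤ (2 * (n * r)) * r := by linarith
    exact le_of_mul_le_mul_right h2 hr0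
  have hsq : Real.sqrt N ≤ 2 * (n * s) := by
    rw [Real.sqrt_le_left (by positivity)]
    calc (N : ℝ) ≤ 2 * (n * r) := hN
      _ = 2 * (n * (s * s)) := by rw [hss]
      _ ≤ (2 * (n * s)) ^ 2 := by
          have h3 : (n : ℝ) * (s * s) ≤ n * n * (s * s) := by
            have : (n : ℝ) ≤ n * n := by nlinarith
            exact mul_le_mul_of_nonneg_right this (by positivity)
          nlinarith [mul_nonneg (mul_nonneg hn0.le hn0.le) (mul_nonneg hs hs)]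
  refine ⟨hN, ?_⟩
  have h1 : (D : ℝ) * (2 * (t * Real.sqrt N)) ≤ 8 * (n * (r * t * s)) := by
    calc (D : ℝ) * (2 * (t * Real.sqrt N)) ≤ (2 * r) * (2 * (t * (2 * (n * s)))) := by
          apply mul_le_mul (by linarith) _ (by positivity) (by positivity)
          apply mul_le_mul_of_nonneg_left _ (by norm_num)
          exact mul_le_mul_of_nonneg_left hsq ht
      _ = _ := by ring
  have h2 : (n : ℝ) * (x / 2) ≤ L * lam := by
    refine le_trans ?_ hL2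
    apply mul_le_mul_of_nonneg_left _ hn0.le
    linarith
  have h3 : (n : ℝ) * (x / 2) ≤ L * w := h2.trans (mul_le_mul_of_nonneg_left hlamw (Nat.cast_nonneg _))
  rw [le_div_iff₀ hw0]
  have h4 : (8 * (n * (r * t * s)) + 21 * (n * x1)) * w * w ≤ n * (x / 2) := by
    have e : (8 * (n * (r * t * s)) + 21 * (n * x1)) * w * w =
        n * ((32 * (r * t * s) * w ^ 2 + 84 * x1 * w ^ 2) / 4) := by ring
    rw [e]
    apply mul_le_mul_of_nonneg_left _ hn0.le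
    linarith
  have h5 : (8 * (n * (r * t * s)) + 21 * (n * x1)) * w ≤ L :=
    le_of_mul_le_mul_right (h4.trans h3) hw0
  refine le_trans (mul_le_mul_of_nonneg_right (add_le_add h1 hLB) hw0.le) h5

end Pool.Agent.Q263.WE
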