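import Mathlib
import Pool.Agent.Q263.WE.Pg

/-!
The digits of `b ^ n` in base `q` for almost all `b ≤ M`, one triple `(n, q, k)` at a time.
-/

set_option autoImplicit false

open Finset Polynomial Filter Topology

namespace Pool.Agent.Q263.WE

/-- the statement for one base and one exponent -/
def Good (w : ℝ) (b n q k : ℕ) : Prop :=
  ∀ W < q ^ k,
    |(((range (Nat.digits q (b ^ n)).length).filter
        (fun i => b ^ n / q ^ i % q ^ k = W)).card : ℝ) -
      ((Nat.digits q (b ^ n)).length : ℝ) * (1 / (q : ℝ) ^ k)| ≤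
        ((Nat.digits q (b ^ n)).length : ℝ) / w

lemma good_mono (w w' : ℝ) (hw : 0 < w') (hww : w' ≤ w) (b n q k : ℕ) (h : Good w b n q k) :
    Good w' b n q k := by
  intro W hW
  exact (h W hW).trans (div_le_div_of_nonneg_left (Nat.cast_nonneg _) hw hww)

/-- the length of the expansion -/
lemma len_bounds (b n q M : ℕ) (hq : 2 ≤ q) (hb : 1 ≤ b) (hbM : b ≤ M) (U : ℕ)
    (hU : 1 ≤ U) (hUb : U ^ 2 ≤ b) :
    (((Nat.digits q (b ^ n)).length : ℝ) - 1) * Real.log q ≤ n * Real.log M ∧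
    (n : ℝ) * (2 * Real.log U) ≤ ((Nat.digits q (b ^ n)).length : ℝ) * Real.log q ∧
    ∀ t : ℕ, (t : ℝ) * Real.log q ≤ (n : ℝ) * (2 * Real.log U) →
      t ≤ (Nat.digits q (b ^ n)).length := by
  have hb0 : b ^ n ≠ 0 := by positivity
  have hq1 : (1 : ℝ) < q := by exact_mod_cast hq
  have hq0 : (0 : ℝ) < q := by linarith
  have hlq : 0 < Real.log q := Real.log_pos hq1
  have hlen : (Nat.digits q (b ^ n)).length = Nat.log q (b ^ n) + 1 := Nat.length_digits q _ (by omega) hb0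
  have h1 : q ^ Nat.log q (b ^ n) ≤ b ^ n := Nat.pow_log_le_self q hb0
  have h2 : b ^ n < q ^ (Nat.log q (b ^ n) + 1) := Nat.lt_pow_succ_log_self (by omega) _
  have h1' := Real.log_le_log (by positivity) (by exact_mod_cast h1 : ((q : ℝ)) ^ Nat.log q (b ^ n) ≤ (b : ℝ) ^ n)
  have hbp : (0 : ℝ) < b := by exact_mod_cast hb
  have h2' := Real.log_le_log (by positivity) (by exact_mod_cast h2.le : (b : ℝ) ^ n ≤ (q : ℝ) ^ (Nat.log q (b ^ n) + 1))
  rw [Real.log_pow, Real.log_pow] at h1' h2'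
  have h3 : Real.log b ≤ Real.log M := Real.log_le_log hbp (by exact_mod_cast hbM)
  have hU0 : (0 : ℝ) < U := by exact_mod_cast hU
  have h4 : 2 * Real.log U ≤ Real.log b := by
    have := Real.log_le_log (by positivity) (by exact_mod_cast hUb : (U : ℝ) ^ 2 ≤ b)
    rwa [Real.log_pow] at this
  have hn0 : (0 : ℝ) ≤ n := Nat.cast_nonneg n
  have h5 : (n : ℝ) * (2 * Real.log U) ≤ ((Nat.digits q (b ^ n)).length : ℝ) * Real.log q := by
    rw [hlen]
    exact (mul_le_mul_of_nonneg_left h4 hn0).trans h2'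
  refine ⟨?_, h5, ?_⟩
  · rw [hlen]
    push_cast
    rw [add_sub_cancel_right]
    exact h1'.trans (mul_le_mul_of_nonneg_left h3 hn0)
  · intro t ht
    have h6 := ht.trans h5
    exact_mod_cast le_of_mul_le_mul_right h6 hlq

/-- the exponents in the window -/
lemma window (q n V e : ℕ) (x1 : ℝ) (hq : 2 ≤ q) (hV : 1 ≤ V)
    (h : (e : ℝ) * Real.log q ≤ (n : ℝ) * (2 * Real.log V) - 2 * x1) :
    (q : ℝ) ^ e ≤ ((V : ℝ) ^ n) ^ 2 * Real.exp (-(2 * x1)) := by
  have hq0 : (0 : ℝ) < q := by exact_mod_cast (by omega : 0 < q)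
  have hV0 : (0 : ℝ) < V := by exact_mod_cast hV
  have h1 : (q : ℝ) ^ e = Real.exp (e * Real.log q) := by
    rw [Real.exp_nat_mul, Real.exp_log hq0]
  have h2 : ((V : ℝ) ^ n) ^ 2 = Real.exp (n * (2 * Real.log V)) := by
    rw [← pow_mul, show (n : ℝ) * (2 * Real.log V) = ((n * 2 : ℕ) : ℝ) * Real.log V by push_cast; ring,
      Real.exp_nat_mul, Real.exp_log hV0]
  rw [h1, h2, ← Real.exp_add]
  apply Real.exp_le_exp.2
  linarith

lemma low_ok (q i00 e : ℕ) (x1 : ℝ) (hq : 2 ≤ q) (hi : 4 * x1 ≤ i00) (he : i00 ≤ e) :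
    Real.exp (2 * x1) ≤ (q : ℝ) ^ e := by
  have hq0 : (0 : ℝ) < q := by exact_mod_cast (by omega : 0 < q)
  have h1 : (q : ℝ) ^ e = Real.exp (e * Real.log q) := by
    rw [Real.exp_nat_mul, Real.exp_log hq0]
  rw [h1]
  apply Real.exp_le_exp.2
  have h2 : (1 / 2 : ℝ) ≤ Real.log q := by
    have h3 : Real.log 2 ≤ Real.log q := Real.log_le_log (by norm_num) (by exact_mod_cast hq)
    have := Real.log_two_gt_d9
    linarith
  have h3 : 4 * x1 ≤ e := hi.trans (by exact_mod_cast he)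
  calc 2 * x1 = 4 * x1 * (1 / 2) := by ring
    _ ≤ e * Real.log q := mul_le_mul h3 h2 (by norm_num) (Nat.cast_nonneg _)

/-- the exceptional set of one class, sizes -/
lemma class_size (D N Q : ℕ) (n r w x Mr : ℝ) (hM : 0 ≤ Mr) (hw : 1 ≤ w) (hr : 1 ≤ r) (hn : n ≤ w)
    (hrr : r * r = x) (hN : (N : ℝ) ≤ 2 * (n * r)) (hQ : (Q : ℝ) ≤ w) (hD : (D : ℝ) ≤ 2 * r)
    (T2 : ℝ) (hT : w ≤ T2) (g : 18 * w ^ 2 ≤ x ^ 2) :
    (D : ℝ) * (Mr * (2 * N * (Q + 1) * Real.exp (-T2)) + Mr * Real.exp (-w)) ≤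
      Mr * (x ^ 3 * Real.exp (-w)) := by
  have hx1 : 1 ≤ x := by rw [← hrr]; nlinarith
  have he : Real.exp (-T2) ≤ Real.exp (-w) := Real.exp_le_exp.2 (by linarith)
  have h1 : 2 * (N : ℝ) * (Q + 1) * Real.exp (-T2) ≤ 8 * (w ^ 2 * r) * Real.exp (-w) := by
    apply mul_le_mul _ he (Real.exp_pos _).le (by positivity)
    have hN' : (N : ℝ) ≤ 2 * (w * r) := hN.trans (by nlinarith)
    calc 2 * (N : ℝ) * (Q + 1) ≤ 2 * (2 * (w * r)) * (w + w) := by
          apply mul_le_mul (by linarith) (by linarith) (by positivity) (by positivity)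
      _ = _ := by ring
  have h2 : Mr * (2 * N * (Q + 1) * Real.exp (-T2)) + Mr * Real.exp (-w) ≤
      Mr * (9 * (w ^ 2 * r) * Real.exp (-w)) := by
    have h3 : Real.exp (-w) ≤ (w ^ 2 * r) * Real.exp (-w) := by
      apply le_mul_of_one_le_left (Real.exp_pos _).le
      nlinarith [mul_nonneg (by linarith : (0:ℝ) ≤ w - 1) (by linarith : (0:ℝ) ≤ r),
        mul_nonneg (by linarith : (0:ℝ) ≤ w) (by linarith : (0:ℝ) ≤ w - 1)]
    calc Mr * (2 * N * (Q + 1) * Real.exp (-T2)) + Mr * Real.exp (-w) =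
        Mr * (2 * N * (Q + 1) * Real.exp (-T2) + Real.exp (-w)) := by ring
      _ ≤ Mr * (8 * (w ^ 2 * r) * Real.exp (-w) + (w ^ 2 * r) * Real.exp (-w)) :=
          mul_le_mul_of_nonneg_left (add_le_add h1 h3) hM
      _ = _ := by ring
  calc (D : ℝ) * (Mr * (2 * N * (Q + 1) * Real.exp (-T2)) + Mr * Real.exp (-w))
      ≤ (2 * r) * (Mr * (9 * (w ^ 2 * r) * Real.exp (-w))) := by
        apply mul_le_mul hD h2 (by positivity) (by positivity)
    _ = Mr * ((18 * w ^ 2) * x * Real.exp (-w)) := by rw [← hrr]; ring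
    _ ≤ Mr * (x ^ 3 * Real.exp (-w)) := by
        apply mul_le_mul_of_nonneg_left _ hM
        apply mul_le_mul_of_nonneg_right _ (Real.exp_pos _).le
        calc 18 * w ^ 2 * x ≤ x ^ 2 * x := mul_le_mul_of_nonneg_right g (by linarith)
          _ = x ^ 3 := by ring

end Pool.Agent.Q263.WE
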