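import Mathlib
import Pool.Agent.Q263.WE.Pf

/-!
From classes of places to all windows of places.
-/

set_option autoImplicit false

open Finset Polynomial Filter Topology

namespace Pool.Agent.Q263.WE

/-- all initial segments -/
lemma count_of_law2 {N M : ℕ} (Q : ℕ) (hQ : 1 ≤ Q) (ξ : ℕ → Fin N → ℝ) (E T : ℝ) (hT : 0 ≤ T)
    (hE : 0 ≤ E)
    (h : ∀ 𝒜 : Finset (Fin N → ℕ), 𝒜 ⊆ (Fintype.piFinset fun _ => range Q) →
      |(((range M).filter (fun m => cells Q (ξ m) ∈ 𝒜)).card : ℝ) - M * (𝒜.card / (Q : ℝ) ^ N)| ≤ E) :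
    ∃ X : Finset ℕ,
      (X.card : ℝ) ≤ M * (2 * N * (Q + 1) * Real.exp (-(T ^ 2 / 4))) + E ∧
      ∀ m ∈ range M, m ∉ X → ∀ n ≤ N, ∀ W < Q,
        |((univ.filter (fun l : Fin N => (l : ℕ) < n ∧ cells Q (ξ m) l = W)).card : ℝ) - n / Q| ≤
          2 * (T * Real.sqrt N) := by
  classical
  have hQ0 : (0 : ℝ) < Q := by exact_mod_cast hQ
  obtain ⟨𝒜, h1, h2, h3⟩ := bad_all (N := N) Q hQ T hT
  refine ⟨(range M).filter (fun m => cells Q (ξ m) ∈ 𝒜), ?_, ?_⟩
  · have h4 := (abs_le.1 (h 𝒜 h1)).2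
    have h5 : (M : ℝ) * (𝒜.card / (Q : ℝ) ^ N) ≤
        M * (2 * N * (Q + 1) * Real.exp (-(T ^ 2 / 4))) := by
      apply mul_le_mul_of_nonneg_left _ (Nat.cast_nonneg _)
      rw [div_le_iff₀ (by positivity)]
      exact h2
    linarith
  · intro m hm hmX n hnN W hW
    rcases Nat.eq_zero_or_pos n with hn | hn
    · subst hn
      simp only [Nat.not_lt_zero, false_and, Finset.filter_false, Finset.card_empty, Nat.cast_zero,
        zero_div, sub_zero, abs_zero]
      positivity
    have hmem : cells Q (ξ m) ∈ Fintype.piFinset (fun _ : Fin N => range Q) := by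
      rw [Fintype.mem_piFinset]
      intro l
      exact Finset.mem_range.2 (cells_lt Q hQ (ξ m) l)
    have hnot : cells Q (ξ m) ∉ 𝒜 := fun h4 => hmX (Finset.mem_filter.2 ⟨hm, h4⟩)
    have h4 := h3 _ hmem hnot n (W + 1) hn hnN hW
    have h5 := h3 _ hmem hnot n W hn hnN hW.le
    set V := cells Q (ξ m) with hV
    have h6 : cnt n (W + 1) V = cnt n W V +
        (univ.filter (fun l : Fin N => (l : ℕ) < n ∧ V l = W)).card := by
      unfold cnt
      rw [← Finset.card_union_of_disjoint]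
      · congr 1
        ext l
        simp only [Finset.mem_filter, Finset.mem_union, Finset.mem_univ, true_and]
        omega
      · rw [Finset.disjoint_filter]
        intro l _ h7 h8
        omega
    have h7 : (cnt n (W + 1) V : ℝ) = cnt n W V +
        (univ.filter (fun l : Fin N => (l : ℕ) < n ∧ V l = W)).card := by
      exact_mod_cast h6
    have h8 := abs_le.1 h4
    have h9 := abs_le.1 h5
    have e1 : (n : ℝ) * ((W + 1 : ℕ) : ℝ) / Q = n * W / Q + n / Q := by
      push_cast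
      ring
    rw [e1] at h8
    have h10 : T * Real.sqrt n ≤ T * Real.sqrt N := by
      apply mul_le_mul_of_nonneg_left _ hT
      exact Real.sqrt_le_sqrt (by exact_mod_cast hnN)
    rw [abs_le]
    constructor <;> linarith [h8.1, h8.2, h9.1, h9.2]

lemma card_fin_filter (N n : ℕ) (hn : n ≤ N) (P : ℕ → Prop) [DecidablePred P] :
    (univ.filter (fun l : Fin N => (l : ℕ) < n ∧ P l)).card = ((range n).filter P).card := by
  rw [← Finset.card_map Fin.valEmbedding]
  congr 1
  ext i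
  simp only [Finset.mem_map, Finset.mem_filter, Finset.mem_univ, true_and, Fin.valEmbedding_apply,
    Finset.mem_range]
  constructor
  · rintro ⟨l, ⟨h1, h2⟩, rfl⟩
    exact ⟨h1, h2⟩
  · rintro ⟨h1, h2⟩
    exact ⟨⟨i, by omega⟩, ⟨h1, h2⟩, rfl⟩

/-- the initial segments of the block -/
lemma prefix_block (P : ℕ → Prop) [DecidablePred P] (i0 N D : ℕ) (ρ Δ : ℝ) (hρ0 : 0 ≤ ρ)
    (hρ1 : ρ ≤ 1) (hD : 1 ≤ D)
    (h : ∀ a < D, ∀ n ≤ N, |(((range n).filter (fun l => P (i0 + a + l * D))).card : ℝ) - n * ρ| ≤ Δ)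
    (t : ℕ) (ht : t ≤ N * D) :
    |(((Finset.Ico i0 (i0 + t)).filter P).card : ℝ) - t * ρ| ≤ D * Δ + D := by
  set n : ℕ := t / D with hn
  have hnN : n ≤ N := by
    rw [hn]
    calc t / D ≤ N * D / D := Nat.div_le_div_right ht
      _ = N := Nat.mul_div_cancel _ hD
  have hnD : n * D ≤ t := Nat.div_mul_le_self t D
  have hr : t < n * D + D := by
    have := Nat.lt_div_mul_add (a := t) (b := D) hD
    exact this
  have h1 : (((Finset.Ico i0 (i0 + n * D)).filter P).card : ℝ) =
      ∑ a ∈ range D, (((range n).filter (fun l => P (i0 + a + l * D))).card : ℝ) := by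
    have h2 : ∀ a, (((range n).filter (fun l => P (i0 + a + l * D))).card : ℝ) =
        ∑ l ∈ range n, (if P (i0 + a + l * D) then (1 : ℝ) else 0) := by
      intro a
      rw [Finset.card_filter]
      push_cast
      rfl
    simp_rw [h2]
    rw [Finset.sum_comm, Finset.card_filter]
    push_cast
    rw [Finset.sum_Ico_eq_sum_range, Nat.add_sub_cancel_left, sum_blocks]
    refine Finset.sum_congr rfl fun l _ => Finset.sum_congr rfl fun a _ => ?_
    congr 2
    ring
  have h3 : |(((Finset.Ico i0 (i0 + n * D)).filter P).card : ℝ) - (n * D : ℕ) * ρ| ≤ D * Δ := by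
    have e : (((Finset.Ico i0 (i0 + n * D)).filter P).card : ℝ) - (n * D : ℕ) * ρ =
        ∑ a ∈ range D, ((((range n).filter (fun l => P (i0 + a + l * D))).card : ℝ) - n * ρ) := by
      rw [h1, Finset.sum_sub_distrib, Finset.sum_const, Finset.card_range, nsmul_eq_mul]
      push_cast
      ring
    rw [e]
    refine (Finset.abs_sum_le_sum_abs _ _).trans ?_
    calc ∑ a ∈ range D, |(((range n).filter (fun l => P (i0 + a + l * D))).card : ℝ) - n * ρ|
        ≤ ∑ _a ∈ range D, Δ := Finset.sum_le_sum fun a ha => h a (Finset.mem_range.1 ha) n hnN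
      _ = _ := by rw [Finset.sum_const, Finset.card_range, nsmul_eq_mul]
  have h4 : ((Finset.Ico i0 (i0 + t)).filter P).card =
      ((Finset.Ico i0 (i0 + n * D)).filter P).card +
        ((Finset.Ico (i0 + n * D) (i0 + t)).filter P).card := by
    rw [← Finset.card_union_of_disjoint]
    · congr 1
      rw [← Finset.filter_union]
      congr 1
      rw [Finset.Ico_union_Ico_eq_Ico (by omega) (by omega)]
    · apply Finset.disjoint_filter_filter
      rw [Finset.disjoint_left]
      intro i hi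
      rw [Finset.mem_Ico] at hi ⊢
      omega
  have h5 : ((Finset.Ico (i0 + n * D) (i0 + t)).filter P).card ≤ t - n * D := by
    refine (Finset.card_filter_le _ _).trans ?_
    rw [Nat.card_Ico]
    omega
  have h6 : (((Finset.Ico (i0 + n * D) (i0 + t)).filter P).card : ℝ) ≤ (t : ℝ) - (n * D : ℕ) := by
    rw [← Nat.cast_sub hnD]
    exact_mod_cast h5
  have h7 : (t : ℝ) - (n * D : ℕ) ≤ D := by
    have : (t : ℝ) < ((n * D + D : ℕ) : ℝ) := by exact_mod_cast hr
    push_cast at this ⊢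
    linarith
  have h8 : (0 : ℝ) ≤ (t : ℝ) - (n * D : ℕ) := by
    have : ((n * D : ℕ) : ℝ) ≤ t := by exact_mod_cast hnD
    linarith
  have h9 : 0 ≤ ((t : ℝ) - (n * D : ℕ)) * ρ := mul_nonneg h8 hρ0
  have h10 : ((t : ℝ) - (n * D : ℕ)) * ρ ≤ (t : ℝ) - (n * D : ℕ) := mul_le_of_le_one_right h8 hρ1
  have h11 := abs_le.1 h3
  have h12 : (0 : ℝ) ≤ (((Finset.Ico (i0 + n * D) (i0 + t)).filter P).card : ℝ) := Nat.cast_nonneg _
  rw [h4, Nat.cast_add, abs_le]
  constructor <;> linarith [h11.1, h11.2]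

/-- all windows -/
lemma windows (P : ℕ → Prop) [DecidablePred P] (i0 B L : ℕ) (ρ Δ : ℝ) (hρ0 : 0 ≤ ρ)
    (hρ1 : ρ ≤ 1) (hBL : i0 + B ≤ L)
    (h : ∀ t ≤ B, |(((Finset.Ico i0 (i0 + t)).filter P).card : ℝ) - t * ρ| ≤ Δ)
    (s T : ℕ) (hsT : s + T ≤ L) :
    |(((Finset.Ico s (s + T)).filter P).card : ℝ) - T * ρ| ≤ 2 * Δ + (L - B) := by
  obtain ⟨s', hs1⟩ : ∃ s', s' = min (max s i0) (i0 + B) := ⟨_, rfl⟩
  obtain ⟨e', he1⟩ : ∃ e', e' = min (max (s + T) i0) (i0 + B) := ⟨_, rfl⟩
  obtain ⟨t1, ht1⟩ : ∃ t1, s' = i0 + t1 := ⟨s' - i0, by omega⟩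
  obtain ⟨t2, ht2⟩ : ∃ t2, e' = i0 + t2 := ⟨e' - i0, by omega⟩
  have hse : s' ≤ e' := by omega
  have ht1B : t1 ≤ B := by omega
  have ht2B : t2 ≤ B := by omega
  have hsub : Finset.Ico s' e' ⊆ Finset.Ico s (s + T) := by
    intro i hi
    rw [Finset.mem_Ico] at hi ⊢
    omega
  have hcard : T - (e' - s') ≤ L - B ∧ e' - s' ≤ T := by
    constructor
    · omega
    · have := Finset.card_le_card hsub
      rw [Nat.card_Ico, Nat.card_Ico] at this
      omega
  have h1 := abs_le.1 (h t1 ht1B)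
  have h2 := abs_le.1 (h t2 ht2B)
  rw [← ht1] at h1
  rw [← ht2] at h2
  have h3 : ((Finset.Ico i0 e').filter P).card =
      ((Finset.Ico i0 s').filter P).card + ((Finset.Ico s' e').filter P).card := by
    rw [← Finset.card_union_of_disjoint]
    · congr 1
      rw [← Finset.filter_union]
      congr 1
      rw [Finset.Ico_union_Ico_eq_Ico (by omega) (by omega)]
    · apply Finset.disjoint_filter_filter
      rw [Finset.disjoint_left]
      intro i hi
      rw [Finset.mem_Ico] at hi ⊢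
      omega
  have h3R : (((Finset.Ico i0 e').filter P).card : ℝ) =
      ((Finset.Ico i0 s').filter P).card + ((Finset.Ico s' e').filter P).card := by
    exact_mod_cast h3
  have h4 : ((Finset.Ico s (s + T)).filter P).card =
      ((Finset.Ico s' e').filter P).card +
        ((Finset.Ico s (s + T) \ Finset.Ico s' e').filter P).card := by
    rw [← Finset.card_union_of_disjoint]
    · congr 1
      rw [← Finset.filter_union]
      congr 1
      rw [Finset.union_sdiff_of_subset hsub]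
    · apply Finset.disjoint_filter_filter
      exact Finset.disjoint_sdiff
  have h4R : (((Finset.Ico s (s + T)).filter P).card : ℝ) =
      ((Finset.Ico s' e').filter P).card +
        ((Finset.Ico s (s + T) \ Finset.Ico s' e').filter P).card := by
    exact_mod_cast h4
  have h5 : ((Finset.Ico s (s + T) \ Finset.Ico s' e').filter P).card ≤ T - (e' - s') := by
    refine (Finset.card_filter_le _ _).trans ?_
    rw [Finset.card_sdiff_of_subset hsub, Nat.card_Ico, Nat.card_Ico]
    omega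
  have hlen : ((T - (e' - s') : ℕ) : ℝ) = (T : ℝ) - ((t2 : ℝ) - t1) := by
    rw [Nat.cast_sub hcard.2, Nat.cast_sub hse, ht1, ht2]
    push_cast
    ring
  have h6 : (((Finset.Ico s (s + T) \ Finset.Ico s' e').filter P).card : ℝ) ≤
      (T : ℝ) - ((t2 : ℝ) - t1) := by
    rw [← hlen]
    exact_mod_cast h5
  have h7 : (T : ℝ) - ((t2 : ℝ) - t1) ≤ (L : ℝ) - B := by
    rw [← hlen]
    have : ((T - (e' - s') : ℕ) : ℝ) ≤ ((L - B : ℕ) : ℝ) := by exact_mod_cast hcard.1
    rw [Nat.cast_sub (by omega : B ≤ L)] at this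
    exact this
  have h8 : (0 : ℝ) ≤ (T : ℝ) - ((t2 : ℝ) - t1) := by
    rw [← hlen]
    exact Nat.cast_nonneg _
  have h9 : 0 ≤ ((T : ℝ) - ((t2 : ℝ) - t1)) * ρ := mul_nonneg h8 hρ0
  have h10 : ((T : ℝ) - ((t2 : ℝ) - t1)) * ρ ≤ (T : ℝ) - ((t2 : ℝ) - t1) :=
    mul_le_of_le_one_right h8 hρ1
  have h12 : (0 : ℝ) ≤ (((Finset.Ico s (s + T) \ Finset.Ico s' e').filter P).card : ℝ) :=
    Nat.cast_nonneg _
  rw [h4R, abs_le]
  constructor <;> nlinarith [h1.1, h1.2, h2.1, h2.2]

end Pool.Agent.Q263.WE
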