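import Mathlib
import Pool.Agent.Q263.WE.Ppw

/-!
Unions of exceptional sets.
-/

set_option autoImplicit false

open Finset Filter Topology

namespace Pool.Agent.Q263.WE

lemma exp_self_pow (κ : ℝ) (hκ : 0 < κ) (A : ℝ) :
    ∀ᶠ x : ℝ in atTop, A * Real.log x + A ≤ x ^ κ := by
  have h2 := (isLittleO_log_rpow_atTop hκ).bound (show (0 : ℝ) < 1 / (2 * (|A| + 1)) by positivity)
  filter_upwards [h2, eventually_ge_atTop 1, ev_pow (2 * |A|) 0 κ (by linarith)] with x hx hx1 h3
  rw [Real.norm_of_nonneg (Real.log_nonneg hx1), Real.norm_of_nonneg (by positivity)] at hx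
  rw [Real.rpow_zero, mul_one] at h3
  have h4 : A * Real.log x ≤ x ^ κ / 2 := by
    calc A * Real.log x ≤ |A| * Real.log x :=
          mul_le_mul_of_nonneg_right (le_abs_self A) (Real.log_nonneg hx1)
      _ ≤ (|A| + 1) * (1 / (2 * (|A| + 1)) * x ^ κ) := by
          apply mul_le_mul (by linarith) hx (Real.log_nonneg hx1) (by positivity)
      _ = x ^ κ / 2 := by field_simp
  have h5 := le_abs_self A
  linarith

/-- the union of few exceptional sets -/
lemma union_gen (κ : ℝ) (hκ : 0 < κ) (hκ1 : κ ≤ 1 / 40) : ∀ᶠ M : ℕ in atTop, ∀ {ι : Type}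
    (I : Finset ι) (F : ι → Finset ℕ) (V0 : ℕ),
    (I.card : ℝ) ≤ Real.exp (2 * (Real.log M) ^ (κ / 2)) →
    (V0 : ℝ) ≤ M * Real.exp (-(Real.log M) ^ (3 / 4 : ℝ)) →
    (∀ i ∈ I, ((F i).card : ℝ) ≤ M * ((Real.log M) ^ 3 * Real.exp (-(Real.log M) ^ κ))) →
    ((range V0 ∪ I.biUnion F).card : ℝ) ≤ M * Real.exp (-(Real.log M) ^ (κ / 2)) := by
  classical
  filter_upwards [tendsto_log_nat.eventually (exp_self_pow κ hκ 6), eventually_ge_atTop 1,
    tendsto_log_nat.eventually_ge_atTop 1, ev_log 1 κ (3 / 4) (by linarith),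
    ev_log 6 (κ / 2) κ (by linarith)] with M h1 hM1 hℓ1 g1 g2
  intro ι I F V0 hI hV0 hF
  set x : ℝ := Real.log M with hx
  have hx0 : 0 < x := lt_of_lt_of_le one_pos hℓ1
  have hM0 : (0 : ℝ) < M := by exact_mod_cast hM1
  set w : ℝ := x ^ κ with hw
  set v : ℝ := x ^ (κ / 2) with hv
  have hv0 : 0 ≤ v := by rw [hv]; positivity
  rw [one_mul] at g1
  have e1 : x ^ 3 = Real.exp (3 * Real.log x) := by
    rw [show (3 : ℝ) * Real.log x = ((3 : ℕ) : ℝ) * Real.log x by norm_num, Real.exp_nat_mul,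
      Real.exp_log hx0]
  have hb : ((I.biUnion F).card : ℝ) ≤ Real.exp (2 * v) * (M * (x ^ 3 * Real.exp (-w))) := by
    refine (by exact_mod_cast Finset.card_biUnion_le :
      ((I.biUnion F).card : ℝ) ≤ ((∑ a ∈ I, (F a).card : ℕ) : ℝ)).trans ?_
    push_cast
    calc ∑ a ∈ I, ((F a).card : ℝ) ≤ ∑ _a ∈ I, (M * (x ^ 3 * Real.exp (-w))) :=
          Finset.sum_le_sum hF
      _ = I.card * (M * (x ^ 3 * Real.exp (-w))) := by rw [Finset.sum_const, nsmul_eq_mul]
      _ ≤ _ := mul_le_mul_of_nonneg_right hI (by positivity)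
  have h2 : ((range V0 ∪ I.biUnion F).card : ℝ) ≤ V0 + ((I.biUnion F).card : ℝ) := by
    have := Finset.card_union_le (range V0) (I.biUnion F)
    rw [Finset.card_range] at this
    exact_mod_cast this
  have h3 : (V0 : ℝ) ≤ M * (Real.exp (-v) / 2) := by
    refine hV0.trans (mul_le_mul_of_nonneg_left ?_ hM0.le)
    rw [le_div_iff₀ (by norm_num)]
    have h4 : (2 : ℝ) ≤ Real.exp 1 := by
      have := Real.add_one_le_exp 1
      linarith
    calc Real.exp (-x ^ (3 / 4 : ℝ)) * 2 ≤ Real.exp (-x ^ (3 / 4 : ℝ)) * Real.exp 1 :=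
          mul_le_mul_of_nonneg_left h4 (Real.exp_pos _).le
      _ = Real.exp (-x ^ (3 / 4 : ℝ) + 1) := by rw [Real.exp_add]
      _ ≤ _ := by
          apply Real.exp_le_exp.2
          have := Real.log_nonneg hℓ1
          linarith
  have h4 : Real.exp (2 * v) * (M * (x ^ 3 * Real.exp (-w))) ≤ M * (Real.exp (-v) / 2) := by
    have h5 : Real.exp (2 * v) * (x ^ 3 * Real.exp (-w)) ≤ Real.exp (-v) / 2 := by
      rw [le_div_iff₀ (by norm_num)]
      have h4 : (2 : ℝ) ≤ Real.exp 1 := by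
        have := Real.add_one_le_exp 1
        linarith
      calc Real.exp (2 * v) * (x ^ 3 * Real.exp (-w)) * 2
          ≤ Real.exp (2 * v) * (x ^ 3 * Real.exp (-w)) * Real.exp 1 :=
            mul_le_mul_of_nonneg_left h4 (by positivity)
        _ = Real.exp (2 * v + 3 * Real.log x + -w + 1) := by
            rw [e1, Real.exp_add, Real.exp_add, Real.exp_add]
            ring
        _ ≤ _ := by
            apply Real.exp_le_exp.2
            have := Real.log_nonneg hℓ1
            linarith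
    calc Real.exp (2 * v) * (M * (x ^ 3 * Real.exp (-w))) =
        M * (Real.exp (2 * v) * (x ^ 3 * Real.exp (-w))) := by ring
      _ ≤ _ := mul_le_mul_of_nonneg_left h5 hM0.le
  have e2 : M * Real.exp (-v) = M * (Real.exp (-v) / 2) + M * (Real.exp (-v) / 2) := by ring
  rw [e2]
  linarith

end Pool.Agent.Q263.WE
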