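import Mathlib
import Pool.Agent.Q263.WE.Uni
import Pool.Agent.Q263.WE.Aut
import Pool.Agent.Q263.WE.Glo

/-!
The base-6 automaton started at the configurations of the powers of almost all integers.
-/

set_option autoImplicit false

open Finset Filter Topology

namespace Pool.Agent.Q263.WE

open Pool.Agent.H429R2.Auto (F)

lemma card_Ico_shift (s T : ℕ) (A : ℕ → Prop) [DecidablePred A] :
    ((Finset.Ico s (s + T)).filter A).card = ((range T).filter (fun i => A (s + i))).card := by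
  rw [Finset.card_filter, Finset.card_filter, Finset.sum_Ico_eq_sum_range, Nat.add_sub_cancel_left]

open Classical in
/-- the statement for one `b` -/
def AutGood (v w : ℝ) (b : ℕ) : Prop :=
  ∀ d : ℕ, 1 ≤ d → (d : ℝ) ≤ w → ∀ u : List (Fin 6), (6 : ℝ) ^ u.length ≤ w → ∀ j : ℤ,
    (j : ℝ) ≤ Real.exp v → ∀ s T : ℕ, j ≤ s → 1 ≤ s + j → s + T - j ≤ Nat.log 2 (b ^ d) →
      |(((Finset.Ico s (s + T)).filter (fun n => ShowsAt (F^[n] (conf (b ^ d))) u j)).card : ℝ) -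
        T / 6 ^ u.length| ≤ ((Nat.log 2 (b ^ d) : ℝ) + 1) / w

theorem auto_M : ∃ κ : ℝ, 0 < κ ∧ κ ≤ 1 / 40 ∧ ∀ᶠ M : ℕ in atTop, ∃ X : Finset ℕ,
    (X.card : ℝ) ≤ M * Real.exp (-(Real.log M) ^ (κ / 2)) ∧
    ∀ m ∈ range M, m ∉ X → AutGood ((Real.log M) ^ (κ / 2)) ((Real.log M) ^ κ) (m + 1) := by
  classical
  obtain ⟨κ, hκ0, hκ40, h⟩ := one_power
  refine ⟨κ, hκ0, hκ40, ?_⟩
  filter_upwards [h, union_gen κ hκ0 hκ40,
    tendsto_log_nat.eventually (exp_self_pow (κ / 2) (by linarith) 6), eventually_ge_atTop 1,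
    tendsto_log_nat.eventually_ge_atTop 1, ev_log 2 κ 1 (by linarith)] with
    M hM hU hself hM1 hℓ1 g1
  set x : ℝ := Real.log M with hx
  have hx0 : 0 < x := lt_of_lt_of_le one_pos hℓ1
  have hM0 : (0 : ℝ) < M := by exact_mod_cast hM1
  rw [Real.rpow_one] at g1
  set w : ℝ := x ^ κ with hw
  set v : ℝ := x ^ (κ / 2) with hv
  have hw1 : 1 ≤ w := Real.one_le_rpow hℓ1 hκ0.le
  have hv0 : 0 ≤ v := by rw [hv]; positivity
  have hexpv : 64 * x ^ 6 ≤ Real.exp v := by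
    have e1 : x ^ 6 = Real.exp (6 * Real.log x) := by
      rw [show (6 : ℝ) * Real.log x = ((6 : ℕ) : ℝ) * Real.log x by norm_num, Real.exp_nat_mul,
        Real.exp_log hx0]
    have e2 : (64 : ℝ) ≤ Real.exp 6 := by
      have h4 : (2 : ℝ) ≤ Real.exp 1 := by
        have := Real.add_one_le_exp 1
        linarith
      have e : Real.exp 6 = Real.exp 1 ^ 6 := by
        rw [← Real.exp_nat_mul]
        norm_num
      rw [e]
      calc (64 : ℝ) = 2 ^ 6 := by norm_num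
        _ ≤ _ := pow_le_pow_left₀ (by norm_num) h4 6
    calc 64 * x ^ 6 ≤ Real.exp 6 * Real.exp (6 * Real.log x) := by
          rw [e1]
          exact mul_le_mul_of_nonneg_right e2 (Real.exp_pos _).le
      _ = Real.exp (6 * Real.log x + 6) := by rw [← Real.exp_add]; congr 1; ring
      _ ≤ _ := Real.exp_le_exp.2 hself
  obtain ⟨V0, hV0, hX⟩ := hM
  have hX' : ∀ p : ℕ × ℕ × ℤ, ∃ X : Finset ℕ,
      (X.card : ℝ) ≤ M * (x ^ 3 * Real.exp (-w)) ∧
      (1 ≤ p.1 → (p.1 : ℝ) ≤ w → (6 : ℝ) ^ p.2.1 ≤ w →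
        ∀ m ∈ range M, m ∉ X → V0 ≤ m + 1 → ∀ s T : ℕ,
          s + T ≤ (Nat.digits 2 ((m + 1) ^ p.1)).length → ∀ W < 6 ^ p.2.1,
          |(((Finset.Ico s (s + T)).filter (fun i : ℕ =>
            ⌊((6 ^ p.2.1 : ℕ) : ℝ) * Int.fract ((((m + 1) ^ p.1 : ℕ) : ℝ) *
              ((((3 ^ ((i : ℤ) + 2 * p.2.2 - 2).toNat : ℕ) : ℤ) : ℝ) / ((2 : ℕ) : ℝ) ^ i))⌋₊ = W)).card : ℝ) -
              T / ((6 ^ p.2.1 : ℕ) : ℝ)| ≤ ((Nat.digits 2 ((m + 1) ^ p.1)).length : ℝ) / w) := by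
    rintro ⟨d, k, j⟩
    by_cases hc : 1 ≤ d ∧ (d : ℝ) ≤ w ∧ (6 : ℝ) ^ k ≤ w
    · obtain ⟨c1, c2, c3⟩ := hc
      obtain ⟨X, h1, h2⟩ := hX d 2 (6 ^ k) (fun i => ((3 ^ ((i : ℤ) + 2 * j - 2).toNat : ℕ) : ℤ)) c1
        le_rfl (Nat.one_le_pow _ _ (by norm_num)) c2 (by
          have := Real.log_two_lt_d9
          have e2 : Real.log ((2 : ℕ) : ℝ) = Real.log 2 := by norm_num
          rw [e2]
          linarith) (by push_cast; exact c3) (by
          intro i
          push_cast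
          apply IsCoprime.pow_left
          rw [Int.isCoprime_iff_gcd_eq_one]
          norm_num)
      exact ⟨X, h1, fun _ _ _ => h2⟩
    · refine ⟨∅, ?_, fun c1 c2 c3 => absurd ⟨c1, c2, c3⟩ hc⟩
      rw [Finset.card_empty, Nat.cast_zero]
      positivity
  choose G hG1 hG2 using hX'
  set R : ℕ := ⌊w⌋₊ + 1 with hR
  have hRw : (R : ℝ) ≤ 2 * w := by
    rw [hR]
    push_cast
    have := Nat.floor_le (by linarith : 0 ≤ w)
    linarith
  have hlt : ∀ n : ℕ, (n : ℝ) ≤ w → n < R := by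
    intro n hn
    rw [hR, Nat.lt_succ_iff]
    exact Nat.le_floor hn
  set J1 : ℤ := ⌈x ^ 2⌉ with hJ1
  set J2 : ℤ := ⌊Real.exp v⌋ with hJ2
  set I : Finset (ℕ × ℕ × ℤ) := range R ×ˢ range R ×ˢ Finset.Icc (-J1) J2 with hI
  have hIcard : (I.card : ℝ) ≤ Real.exp (2 * v) := by
    have h1 : ((Finset.Icc (-J1) J2).card : ℝ) ≤ 2 * Real.exp v := by
      rw [Int.card_Icc]
      have h2 : 0 ≤ J2 + 1 - -J1 := by
        have h3 : 0 ≤ J1 := Int.ceil_nonneg (by positivity)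
        have h4 : 0 ≤ J2 := Int.floor_nonneg.2 (Real.exp_pos _).le
        linarith
      have h3 : (((J2 + 1 - -J1).toNat : ℕ) : ℝ) = (J2 : ℝ) + 1 + J1 := by
        have h4 : (((J2 + 1 - -J1).toNat : ℕ) : ℤ) = J2 + 1 - -J1 := Int.toNat_of_nonneg h2
        have h5 : (((J2 + 1 - -J1).toNat : ℕ) : ℝ) = ((J2 + 1 - -J1 : ℤ) : ℝ) := by exact_mod_cast h4
        rw [h5]
        push_cast
        ring
      rw [h3]
      have h4 : (J2 : ℝ) ≤ Real.exp v := Int.floor_le _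
      have h5 : (J1 : ℝ) < x ^ 2 + 1 := Int.ceil_lt_add_one _
      have h6 : (1 : ℝ) ≤ x ^ 2 := one_le_pow₀ hℓ1
      have h7 : x ^ 2 ≤ x ^ 6 := pow_le_pow_right₀ hℓ1 (by norm_num)
      linarith
    rw [hI, Finset.card_product, Finset.card_product, Finset.card_range]
    push_cast
    have h2 : w ≤ x := by linarith
    calc (R : ℝ) * (R * ((Finset.Icc (-J1) J2).card : ℝ)) ≤ (2 * x) * ((2 * x) * (2 * Real.exp v)) := by
          apply mul_le_mul (by linarith) _ (by positivity) (by positivity)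
          exact mul_le_mul (by linarith) h1 (by positivity) (by positivity)
      _ = (8 * x ^ 2) * Real.exp v := by ring
      _ ≤ Real.exp v * Real.exp v := by
          apply mul_le_mul_of_nonneg_right _ (Real.exp_pos _).le
          have h7 : x ^ 2 ≤ x ^ 6 := pow_le_pow_right₀ hℓ1 (by norm_num)
          linarith [sq_nonneg x]
      _ = _ := by rw [← Real.exp_add]; congr 1; ring
  refine ⟨range V0 ∪ I.biUnion G, hU I G V0 hIcard hV0 (fun i _ => hG1 i), ?_⟩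
  intro m hm hmX d hd hdw u hu j hj s T hjs hsj hlog
  rcases Nat.eq_zero_or_pos T with hT | hT
  · subst hT
    simp only [add_zero, Finset.Ico_self, Finset.filter_empty, Finset.card_empty, Nat.cast_zero,
      zero_div, sub_zero, abs_zero]
    positivity
  rw [Finset.mem_union, Finset.mem_range, Finset.mem_biUnion] at hmX
  push Not at hmX
  obtain ⟨c1, c2⟩ := hmX
  have hmM : m + 1 ≤ M := by
    have := Finset.mem_range.1 hm
    omega
  have hlenl : (Nat.log 2 ((m + 1) ^ d) : ℝ) ≤ x ^ 2 := by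
    have h1 : 2 ^ Nat.log 2 ((m + 1) ^ d) ≤ (m + 1) ^ d := Nat.pow_log_le_self 2 (by positivity)
    have h2 : Real.log ((2 : ℝ) ^ Nat.log 2 ((m + 1) ^ d)) ≤ Real.log (((m : ℝ) + 1) ^ d) :=
      Real.log_le_log (by positivity) (by exact_mod_cast h1)
    rw [Real.log_pow, Real.log_pow] at h2
    have h3 : Real.log ((m : ℝ) + 1) ≤ x := Real.log_le_log (by positivity) (by exact_mod_cast hmM)
    have h4 := Real.log_two_gt_d9
    have h5 : (Nat.log 2 ((m + 1) ^ d) : ℝ) * (1 / 2) ≤ (Nat.log 2 ((m + 1) ^ d) : ℝ) * Real.log 2 :=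
      mul_le_mul_of_nonneg_left (by linarith) (Nat.cast_nonneg _)
    have h6 : (d : ℝ) * Real.log ((m : ℝ) + 1) ≤ w * x :=
      mul_le_mul hdw h3 (Real.log_nonneg (by
        have : (0 : ℝ) ≤ m := Nat.cast_nonneg m
        linarith)) (by linarith)
    have h7 : 2 * (w * x) ≤ x * x := by nlinarith
    calc (Nat.log 2 ((m + 1) ^ d) : ℝ) ≤ 2 * (w * x) := by linarith
      _ ≤ x * x := h7
      _ = x ^ 2 := by ring
  have hjlow : -J1 ≤ j := by
    have h1 : -j ≤ (Nat.log 2 ((m + 1) ^ d) : ℤ) := by omega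
    have h2 : (-j : ℝ) ≤ x ^ 2 := by
      have : ((-j : ℤ) : ℝ) ≤ ((Nat.log 2 ((m + 1) ^ d) : ℤ) : ℝ) := by exact_mod_cast h1
      push_cast at this
      linarith
    have h3 : x ^ 2 ≤ (J1 : ℝ) := Int.le_ceil _
    have h4 : (-j : ℝ) ≤ J1 := h2.trans h3
    have h5 : -j ≤ J1 := by exact_mod_cast h4
    omega
  have hjup : j ≤ J2 := Int.le_floor.2 hj
  have hk : (u.length : ℝ) ≤ w := by
    have h1 : u.length < 2 ^ u.length := Nat.lt_two_pow_self
    have h2 : 2 ^ u.length ≤ 6 ^ u.length := Nat.pow_le_pow_left (by norm_num) _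
    have h3 : (u.length : ℝ) ≤ (6 : ℝ) ^ u.length := by exact_mod_cast (h1.le.trans h2)
    linarith
  have hmem : (d, u.length, j) ∈ I := by
    simp only [hI, Finset.mem_product, Finset.mem_range, Finset.mem_Icc]
    exact ⟨hlt d hdw, hlt _ hk, hjlow, hjup⟩
  have hb0 : (m + 1) ^ d ≠ 0 := by positivity
  have hlen : (Nat.digits 2 ((m + 1) ^ d)).length = Nat.log 2 ((m + 1) ^ d) + 1 :=
    Nat.length_digits 2 _ (by norm_num) hb0
  obtain ⟨s', hs'⟩ : ∃ s' : ℕ, (s' : ℤ) = s - j + 1 :=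
    ⟨((s : ℤ) - j + 1).toNat, Int.toNat_of_nonneg (by omega)⟩
  have hmain := hG2 (d, u.length, j) hd hdw hu m hm (c2 _ hmem) (by omega) s' T (by
    rw [hlen]
    omega) (code u) (code_lt u)
  have hcard : ((Finset.Ico s (s + T)).filter (fun n => ShowsAt (F^[n] (conf ((m + 1) ^ d))) u j)).card =
      ((Finset.Ico s' (s' + T)).filter (fun i : ℕ =>
            ⌊((6 ^ u.length : ℕ) : ℝ) * Int.fract ((((m + 1) ^ d : ℕ) : ℝ) *
              ((((3 ^ ((i : ℤ) + 2 * j - 2).toNat : ℕ) : ℤ) : ℝ) / ((2 : ℕ) : ℝ) ^ i))⌋₊ = code u)).card := by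
    rw [card_Ico_shift, card_Ico_shift]
    congr 1
    apply Finset.filter_congr
    intro i _
    rw [shows_conf ((m + 1) ^ d) u j (s + i) (s' + i) ((((s' + i : ℕ) : ℤ) + 2 * j - 2).toNat)
      (by push_cast; omega) (by
        rw [Int.toNat_of_nonneg (by push_cast; omega)]
        push_cast
        omega)]
    push_cast
    rfl
  rw [hcard]
  rw [hlen] at hmain
  push_cast at hmain ⊢
  exact hmain

end Pool.Agent.Q263.WE
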