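import Mathlib
import Pool.Agent.Q263.WE.Ptp

/-!
One power `(m + 1 + x) ^ n` at a time, with a fine partition.
-/

set_option autoImplicit false

open Finset Polynomial Filter Topology

namespace Pool.Agent.Q263.WE

open Pool.Agent.Y957.VK (dz)
open Pool.Agent.H332R2.Lit (e e_add norm_e e_zero)

/-- the condition on one power -/
lemma one_type (n : ℕ) (hn : 2 ≤ n) (x A : ℝ) (μ : ℕ) (hA : 0 ≤ A)
    (hx : ∀ u : ℕ, 1 ≤ u → 1 ≤ A * (u : ℝ) ^ μ * dz (x * u)) : ∃ c : ℝ, ∀ h : ℤ, h ≠ 0 →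
    ∃ (f : ℝ[X]) (j0 : ℕ), 1 ≤ j0 ∧ j0 ≤ n ∧ f.natDegree ≤ j0 ∧
      (∀ m : ℕ, e ((h : ℝ) * (((m : ℝ) + 1) + x) ^ n) = e (f.eval ((m : ℝ) + c))) ∧
      ∀ u : ℕ, 1 ≤ u → 1 ≤ A * ((n : ℝ) * |(h : ℝ)| * u) ^ μ * dz (f.coeff j0 * u) := by
  obtain ⟨N, rfl⟩ : ∃ N, n = N + 2 := ⟨n - 2, by omega⟩
  obtain ⟨c, H⟩ := polyType_pow (N + 1) x A μ hA hx
  refine ⟨c, fun h hh => ?_⟩
  set h' : Fin (N + 1) → ℤ := fun l => if l = Fin.last N then h else 0 with hh'
  obtain ⟨f, j0, h1, h2, h3, h4, h5⟩ := H h' ⟨Fin.last N, by simp [hh', hh]⟩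
  have e1 : ∑ l, |(h' l : ℝ)| = |(h : ℝ)| := by
    rw [Finset.sum_eq_single (Fin.last N)]
    · simp [hh']
    · intro l _ hl
      simp [hh', hl]
    · intro h0
      exact absurd (Finset.mem_univ _) h0
  refine ⟨f, j0, h1, h2, h3, fun m => ?_, fun u hu => ?_⟩
  · rw [← h4 m]
    congr 1
    rw [Finset.sum_eq_single (Fin.last N)]
    · simp [hh']
    · intro l _ hl
      simp [hh', hl]
    · intro h0
      exact absurd (Finset.mem_univ _) h0
  · have := h5 u hu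
    rw [e1] at this
    push_cast at this ⊢
    rw [show (N : ℝ) + 1 + 1 = N + 2 by ring] at this
    exact this

/-- **One power, fine partition.** -/
theorem law1 (a : ℝ) (ha0 : 0 < a) (ha1 : a < 1) : ∃ κ : ℝ, 0 < κ ∧ ∀ (x A : ℝ) (μ : ℕ), 1 ≤ A →
    (∀ u : ℕ, 1 ≤ u → 1 ≤ A * (u : ℝ) ^ μ * dz (x * u)) → ∀ᶠ M : ℕ in atTop,
    ∀ n : ℕ, 2 ≤ n → (n : ℝ) ≤ (Real.log M) ^ κ → ∀ Q : ℕ, 1 ≤ Q →
      (Q : ℝ) ≤ Real.exp ((Real.log M) ^ (1 - a)) → ∀ 𝒞 : Finset ℕ, 𝒞 ⊆ range Q →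
      |(((range M).filter (fun m : ℕ =>
        ⌊(Q : ℝ) * Int.fract ((((m : ℝ) + 1) + x) ^ n)⌋₊ ∈ 𝒞)).card : ℝ) - M * (𝒞.card / Q)| ≤
        M * Real.exp (-(Real.log M) ^ (1 - a)) := by
  obtain ⟨κ1, hκ10, hκ1a, hκ12, hweyl⟩ := weyl (a / 2) (by linarith)
  refine ⟨κ1 / 2, by linarith, fun x A μ hA1 hx => ?_⟩
  filter_upwards [hweyl, eventually_ge_atTop 1, tendsto_log_nat.eventually_ge_atTop 1,
    ev_log 4 (κ1 / 2) κ1 (by linarith), ev_log 20 (1 - a) (1 - a / 2) (by linarith),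
    ev_log 40 0 (1 - a / 2) (by linarith), ev_log 1 (1 - a) (1 - κ1) (by linarith),
    ev_log (30 * (μ + 1)) (1 - κ1) (1 - κ1 / 2) (by linarith),
    ev_log (4 * (A + 20 * (μ + 1))) 0 (1 - κ1 / 2) (by linarith),
    ev_log 30 (1 - κ1 / 2) 1 (by linarith), ev_log 1 (1 - κ1) (1 - κ1 / 2) (by linarith),
    ev_log 20 (1 - a / 2) 1 (by linarith), ev_log 2 (κ1 / 2) (1 - κ1) (by linarith)] with
    M hW hM1 hℓ1 g1 g2 g3 g4 g5 g6 g7 g8 g9 g10
  intro n hn2 hn Q hQ1 hQ 𝒞 h𝒞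
  obtain ⟨c, hT⟩ := one_type n hn2 x A μ (by linarith) hx
  set ℓ : ℝ := Real.log M with hℓ
  have hℓ0 : 0 < ℓ := lt_of_lt_of_le one_pos hℓ1
  have hM0 : (0 : ℝ) < M := by exact_mod_cast hM1
  have hMe : (M : ℝ) = Real.exp ℓ := (Real.exp_log hM0).symm
  rw [Real.rpow_zero, mul_one] at g3 g6
  rw [one_mul] at g4 g8
  rw [Real.rpow_one] at g7 g9
  set k0 : ℝ := ℓ ^ (κ1 / 2) with hk0
  set y : ℝ := ℓ ^ (1 - a) with hy
  set y2 : ℝ := ℓ ^ (1 - a / 2) with hy2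
  set x1 : ℝ := ℓ ^ (1 - κ1) with hx1
  set x2 : ℝ := ℓ ^ (1 - κ1 / 2) with hx2
  have hy1 : 1 ≤ y := Real.one_le_rpow hℓ1 (by linarith)
  have hx11 : 1 ≤ x1 := Real.one_le_rpow hℓ1 (by linarith)
  have hx21 : 1 ≤ x2 := Real.one_le_rpow hℓ1 (by linarith)
  have hk01 : 1 ≤ k0 := Real.one_le_rpow hℓ1 (by linarith)
  -- the majorant parameter
  set w : ℕ := ⌈Real.exp (y + 4)⌉₊ with hw
  have hwlow : Real.exp (y + 4) ≤ w := Nat.le_ceil _
  have hw0 : (0 : ℝ) < w := lt_of_lt_of_le (Real.exp_pos _) hwlow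
  have hw1 : 1 ≤ w := by exact_mod_cast hw0
  have hwupp : (w : ℝ) ≤ Real.exp (y + 4 + 1) := ceil_exp (y + 4) (by linarith)
  have h8N : 8 * 1 ≤ w := by
    have h1 : (8 : ℝ) ≤ w := by
      refine le_trans ?_ hwlow
      calc (8 : ℝ) ≤ Real.exp 4 := by linarith [exp_four_ge]
        _ ≤ _ := Real.exp_le_exp.2 (by linarith)
    exact_mod_cast h1
  have hqw : (((Q * w : ℕ) : ℝ)) ^ 3 ≤ Real.exp (6 * y + 15) := by
    rw [Nat.cast_mul]
    calc ((Q : ℝ) * w) ^ 3 ≤ (Real.exp y * Real.exp (y + 4 + 1)) ^ 3 := by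
          apply pow_le_pow_left₀ (by positivity)
          exact mul_le_mul hQ hwupp hw0.le (Real.exp_pos _).le
      _ = Real.exp (6 * y + 15) := by
          rw [← Real.exp_add, ← Real.exp_nat_mul]
          congr 1
          push_cast
          ring
  -- the denominators
  set K : ℕ := ⌈2 * Real.exp x1⌉₊ with hK
  have hKlow : 2 * Real.exp x1 ≤ K := Nat.le_ceil _
  have hK0 : (0 : ℝ) < K := lt_of_lt_of_le (by positivity) hKlow
  have hK1 : 1 ≤ K := by exact_mod_cast hK0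
  have hKupp : (K : ℝ) ≤ Real.exp (x1 + 2) := ceil_exp2 x1 (by linarith)
  set B : ℝ := Real.exp (7 * x1 + 15) with hB
  have hB1 : 1 ≤ B := Real.one_le_exp (by linarith)
  set δ : ℝ := 1 / (A * (B * K) ^ μ) with hδ
  have hBK1 : 1 ≤ B * K := mul_ge_one hB1 (by exact_mod_cast hK1)
  have hden1 : 1 ≤ A * (B * K) ^ μ := mul_ge_one hA1 (one_le_pow₀ (n := μ) hBK1)
  have hδ0 : 0 < δ := by rw [hδ]; positivity
  have hδ1 : δ ≤ 1 := by
    rw [hδ, div_le_one (by linarith)]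
    exact hden1
  have hinvδ : 1 / δ = A * (B * K) ^ μ := by rw [hδ, one_div_one_div]
  have hinvδ2 : 1 / δ ≤ Real.exp x2 := by
    rw [hinvδ]
    calc A * (B * K) ^ μ ≤ Real.exp A * (Real.exp (7 * x1 + 15 + (x1 + 2))) ^ μ := by
          apply mul_le_mul (self_le_exp A) _ (by positivity) (Real.exp_pos _).le
          apply pow_le_pow_left₀ (by positivity)
          rw [Real.exp_add]
          exact mul_le_mul_of_nonneg_left hKupp (Real.exp_pos _).le
      _ = Real.exp (A + μ * (7 * x1 + 15 + (x1 + 2))) := by rw [Real.exp_add A, Real.exp_nat_mul]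
      _ ≤ _ := by
          apply Real.exp_le_exp.2
          have hμ0 : (0 : ℝ) ≤ μ := Nat.cast_nonneg μ
          nlinarith [mul_nonneg hμ0 (by linarith : (0 : ℝ) ≤ x1)]
  obtain ⟨hD1, hDb⟩ := d_bounds δ x2 hδ0 hδ1 hinvδ2
  -- the length of the shifts
  set V : ℕ := ⌊Real.exp (ℓ / 3)⌋₊ with hV
  have hVupp : (V : ℝ) ≤ Real.exp (ℓ / 3) := Nat.floor_le (Real.exp_pos _).le
  have hVlow : Real.exp (ℓ / 3 - 1) ≤ V := floor_exp (ℓ / 3) (by linarith)
  have hV0 : (0 : ℝ) < V := lt_of_lt_of_le (Real.exp_pos _) hVlow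
  have hV1 : 1 ≤ V := by exact_mod_cast hV0
  have hVM : V ≤ M := by
    have h1 : (V : ℝ) ≤ M := by
      rw [hMe]
      refine hVupp.trans ?_
      apply Real.exp_le_exp.2
      linarith
    exact_mod_cast h1
  have hZt : ∀ j0 : ℕ, 1 ≤ j0 → Zt K δ ((V : ℝ) ^ j0) ≤ Real.exp (-ℓ ^ (1 - κ1)) := by
    intro j0 hj0
    apply zt_le K V j0 δ x1 x2 hKlow hV1 _ hj0 hK1 hD1 hDb
    refine le_trans ?_ hVlow
    apply Real.exp_le_exp.2
    linarith
  -- the exponential sums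
  set η : ℝ := 2 * M * Real.exp (-y2) with hη
  have hη0 : 0 ≤ η := by rw [hη]; positivity
  have hsums : ∀ h : Fin 1 → ℤ, (∃ l, h l ≠ 0) → (∀ l, |h l| < ((Q * w) ^ 3 : ℕ)) →
      ‖∑ m ∈ range M, e (∑ l : Fin 1, (h l : ℝ) * (((m : ℝ) + 1) + x) ^ n)‖ ≤ η := by
    intro h hne hlt
    have h0 : h 0 ≠ 0 := by
      obtain ⟨l, hl⟩ := hne
      rwa [Subsingleton.elim l 0] at hl
    obtain ⟨f, j0, hj0, hj0n, hdeg, hev, hdio⟩ := hT (h 0) h0
    have habs : (n : ℝ) * |((h 0 : ℤ) : ℝ)| ≤ B := by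
      have h1 : |((h 0 : ℤ) : ℝ)| ≤ Real.exp (6 * y + 15) := by
        refine le_trans ?_ hqw
        have h2 : |((h 0 : ℤ) : ℝ)| ≤ (((Q * w) ^ 3 : ℕ) : ℝ) := by exact_mod_cast (hlt 0).le
        refine h2.trans (le_of_eq ?_)
        rw [Nat.cast_pow]
      have h2 : (n : ℝ) ≤ Real.exp x1 := by
        refine hn.trans ?_
        have := self_le_exp x1
        linarith
      calc (n : ℝ) * |((h 0 : ℤ) : ℝ)| ≤ Real.exp x1 * Real.exp (6 * y + 15) :=
            mul_le_mul h2 h1 (abs_nonneg _) (Real.exp_pos _).le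
        _ = Real.exp (x1 + (6 * y + 15)) := by rw [← Real.exp_add]
        _ ≤ _ := by
            rw [hB]
            apply Real.exp_le_exp.2
            linarith
    have hn1 : ((n + 1 : ℕ) : ℝ) ≤ ℓ ^ κ1 := by
      push_cast
      linarith
    have hmain := hW (n + 1) V j0 K f δ (by omega) hn1 hV1 hVM hj0 (by omega) hdeg hK1 hδ0 hδ1 (by
      intro u hu huK
      have h1 := hdio u hu
      have h2 : ((n : ℝ) * |((h 0 : ℤ) : ℝ)| * u) ^ μ ≤ (B * K) ^ μ := by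
        apply pow_le_pow_left₀ (by positivity)
        apply mul_le_mul habs _ (Nat.cast_nonneg _) (by linarith)
        exact_mod_cast huK.le
      rw [hδ, div_le_iff₀ (by linarith)]
      have h3 := dz_nonneg (f.coeff j0 * u)
      calc (1 : ℝ) ≤ A * ((n : ℝ) * |((h 0 : ℤ) : ℝ)| * u) ^ μ * dz (f.coeff j0 * u) := h1
        _ ≤ A * (B * K) ^ μ * dz (f.coeff j0 * u) := by
            apply mul_le_mul_of_nonneg_right _ h3
            exact mul_le_mul_of_nonneg_left h2 (by linarith)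
        _ = _ := by ring) (hZt j0 hj0) c
    have e1 : ∑ m ∈ range M, e (∑ l : Fin 1, (h l : ℝ) * (((m : ℝ) + 1) + x) ^ n) =
        ∑ m ∈ range M, e (f.eval ((m : ℝ) + c)) := by
      refine Finset.sum_congr rfl fun m _ => ?_
      rw [← hev m, Fin.sum_univ_one]
    rw [e1]
    refine hmain.trans ?_
    rw [hη]
    have h1 : 2 * (V : ℝ) ^ 2 ≤ M * Real.exp (-y2) := by
      have h2 : (V : ℝ) ^ 2 ≤ Real.exp (2 * (ℓ / 3)) := by
        calc (V : ℝ) ^ 2 ≤ (Real.exp (ℓ / 3)) ^ 2 := pow_le_pow_left₀ hV0.le hVupp 2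
          _ = _ := by rw [← Real.exp_nat_mul]; norm_num
      rw [hMe, ← Real.exp_add]
      calc 2 * (V : ℝ) ^ 2 ≤ Real.exp 1 * Real.exp (2 * (ℓ / 3)) := by
            exact mul_le_mul exp_one_ge h2 (by positivity) (Real.exp_pos _).le
        _ = Real.exp (1 + 2 * (ℓ / 3)) := by rw [← Real.exp_add]
        _ ≤ _ := by
            apply Real.exp_le_exp.2
            linarith
    linarith
  have hfin := joint (range M) (fun (m : ℕ) (_ : Fin 1) => (((m : ℝ) + 1) + x) ^ n) Q w hQ1 hw1 h8N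
    η hη0 hsums (Fintype.piFinset fun _ => 𝒞) (Fintype.piFinset_subset _ _ fun _ => h𝒞)
  have hset : (range M).filter (fun m => cells Q ((fun (m : ℕ) (_ : Fin 1) => (((m : ℝ) + 1) + x) ^ n) m) ∈
      (Fintype.piFinset fun _ => 𝒞)) = (range M).filter (fun m : ℕ =>
        ⌊(Q : ℝ) * Int.fract ((((m : ℝ) + 1) + x) ^ n)⌋₊ ∈ 𝒞) := by
    apply Finset.filter_congr
    intro m _
    rw [Fintype.mem_piFinset]
    unfold cells
    exact ⟨fun h => h 0, fun h _ => h⟩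
  rw [hset, Finset.card_range, Fintype.card_piFinset_const] at hfin
  simp only [pow_one] at hfin
  refine hfin.trans ?_
  have herr1 : (M : ℝ) * (10 * ((1 : ℕ) : ℝ) / w) ≤ M * (Real.exp (-y) / 2) := by
    apply mul_le_mul_of_nonneg_left _ hM0.le
    rw [div_le_div_iff₀ hw0 (by norm_num)]
    calc 10 * ((1 : ℕ) : ℝ) * 2 = 20 := by norm_num
      _ ≤ Real.exp 4 := exp_four_ge
      _ = Real.exp (-y) * Real.exp (y + 4) := by rw [← Real.exp_add]; congr 1; ring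
      _ ≤ Real.exp (-y) * w := mul_le_mul_of_nonneg_left hwlow (Real.exp_pos _).le
  have herr2 : 2 * (Q : ℝ) * (((Q * w : ℕ) : ℝ) ^ 3) * η ≤ M * (Real.exp (-y) / 2) := by
    calc 2 * (Q : ℝ) * (((Q * w : ℕ) : ℝ) ^ 3) * η
        ≤ 2 * Real.exp y * Real.exp (6 * y + 15) * (2 * M * Real.exp (-y2)) := by
          rw [hη]
          apply mul_le_mul_of_nonneg_right _ (by positivity)
          apply mul_le_mul _ hqw (by positivity) (by positivity)
          exact mul_le_mul_of_nonneg_left hQ (by norm_num)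
      _ = M * (4 * (Real.exp y * Real.exp (6 * y + 15) * Real.exp (-y2))) := by ring
      _ ≤ M * (Real.exp (-y) / 2) := by
          apply mul_le_mul_of_nonneg_left _ hM0.le
          rw [le_div_iff₀ (by norm_num)]
          calc 4 * (Real.exp y * Real.exp (6 * y + 15) * Real.exp (-y2)) * 2 =
                8 * (Real.exp y * Real.exp (6 * y + 15) * Real.exp (-y2)) := by ring
            _ ≤ Real.exp 4 * (Real.exp y * Real.exp (6 * y + 15) * Real.exp (-y2)) := by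
                apply mul_le_mul_of_nonneg_right _ (by positivity)
                linarith [exp_four_ge]
            _ = Real.exp (4 + y + (6 * y + 15) + -y2) := by
                rw [Real.exp_add (4 + y + (6 * y + 15)), Real.exp_add (4 + y), Real.exp_add 4]
                ring
            _ ≤ _ := by
                apply Real.exp_le_exp.2
                linarith
  calc _ ≤ (M : ℝ) * (Real.exp (-y) / 2) + M * (Real.exp (-y) / 2) := add_le_add herr1 herr2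
    _ = _ := by ring

end Pool.Agent.Q263.WE
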