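import Mathlib
import Pool.Agent.Q263.CM.NL
import Pool.Agent.Q263.WE.Ptp
import Pool.Agent.Q263.WE.Dsc

/-!
The powers of `m + x` for almost all integers `m`.
-/

set_option autoImplicit false

open Finset Polynomial Filter Topology

namespace Pool.Agent.Q263.WE

open Pool.Agent.Y957.VK (dz)

lemma dio_nl (x : ℝ) (hirr : Irrational x) (hL : ¬ Liouville x) : ∃ (A : ℝ) (μ : ℕ), 1 ≤ A ∧
    ∀ u : ℕ, 1 ≤ u → 1 ≤ A * (u : ℝ) ^ μ * dz (x * u) := by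
  obtain ⟨κ, C, _, hC, h⟩ := Pool.Agent.Q263.CM.measure_of x hirr hL
  refine ⟨C, κ, by exact_mod_cast hC, fun u hu => ?_⟩
  have h1 := h u hu (round (x * u))
  unfold dz
  rw [mul_comm x (u : ℝ)] at h1 ⊢
  exact h1

/-- the law of the cells and the discrepancy for the powers `(m + 1 + x) ^ i`, `2 ≤ i ≤ N + 1` -/
theorem powers : ∃ κ : ℝ, 0 < κ ∧ ∀ x : ℝ, Irrational x → ¬ Liouville x → ∀ᶠ M : ℕ in atTop,
    ∀ N : ℕ, (N : ℝ) ≤ (Real.log M) ^ κ →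
    (∀ q : ℕ, 1 ≤ q → (q : ℝ) ≤ Real.exp ((Real.log M) ^ κ) →
      ∀ 𝒜 : Finset (Fin N → ℕ), 𝒜 ⊆ (Fintype.piFinset fun _ => range q) →
      |(((range M).filter (fun m : ℕ =>
        cells q (fun l : Fin N => (((m : ℝ) + 1) + x) ^ ((l : ℕ) + 2)) ∈ 𝒜)).card : ℝ) -
        M * (𝒜.card / (q : ℝ) ^ N)| ≤ M * Real.exp (-(Real.log M) ^ κ)) ∧
    (∀ T : ℝ, 0 ≤ T → 1 ≤ N → ∃ X : Finset ℕ, X ⊆ range M ∧
      (X.card : ℝ) ≤ M * (2 * N * (N + 1) * Real.exp (-(T ^ 2 / 4))) +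
        M * Real.exp (-(Real.log M) ^ κ) ∧
      ∀ m ∈ range M, m ∉ X → Disc T (fun l : Fin N => (((m : ℝ) + 1) + x) ^ ((l : ℕ) + 2))) := by
  obtain ⟨κ, h1, h2, h3⟩ := law
  refine ⟨κ, h1, fun x hx hL => ?_⟩
  obtain ⟨A, μ, hA, hdio⟩ := dio_nl x hx hL
  have h4 : Tendsto (fun M : ℕ => (Real.log M) ^ κ) atTop atTop :=
    (tendsto_rpow_atTop h1).comp tendsto_log_nat
  filter_upwards [h3, h4.eventually_ge_atTop (μ : ℝ), h4.eventually_ge_atTop A] with M hlaw hμ hAM N hN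
  have hAe : A ≤ Real.exp ((Real.log M) ^ κ) := hAM.trans (self_le_exp _)
  have hpt := polyType_pow N x A μ (by linarith) hdio
  have hq : ∀ q : ℕ, 1 ≤ q → (q : ℝ) ≤ Real.exp ((Real.log M) ^ κ) →
      ∀ 𝒜 : Finset (Fin N → ℕ), 𝒜 ⊆ (Fintype.piFinset fun _ => range q) →
      |(((range M).filter (fun m : ℕ =>
        cells q (fun l : Fin N => (((m : ℝ) + 1) + x) ^ ((l : ℕ) + 2)) ∈ 𝒜)).card : ℝ) -
        M * (𝒜.card / (q : ℝ) ^ N)| ≤ M * Real.exp (-(Real.log M) ^ κ) := by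
    intro q hq1 hq 𝒜 h𝒜
    exact hlaw N q μ A _ hN hq1 hq hμ hA hAe hpt 𝒜 h𝒜
  refine ⟨hq, fun T hT hN1 => ?_⟩
  exact disc_of_law (M := M) hN1 _ (M * Real.exp (-(Real.log M) ^ κ)) T hT
    (hq N hN1 (hN.trans (self_le_exp _)))

end Pool.Agent.Q263.WE
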