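import Mathlib
import Pool.Agent.Q263.WE.Law1
import Pool.Agent.Q263.WE.Pwr
import Pool.Agent.Q263.WE.Uni

/-!
Borel-Cantelli for the rational approximations to the powers `(m + x) ^ n`.
-/

set_option autoImplicit false

open Finset Polynomial Filter Topology

namespace Pool.Agent.Q263.WE

lemma cnt_interval (S : Finset ℕ) (u L : ℝ) (hL : 0 ≤ L) :
    ((S.filter (fun c : ℕ => u ≤ c ∧ (c : ℝ) ≤ u + L)).card : ℝ) ≤ L + 1 := by
  have h1 : (S.filter (fun c : ℕ => u ≤ c ∧ (c : ℝ) ≤ u + L)).card ≤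
      (Finset.Icc ⌈u⌉ ⌊u + L⌋).card := by
    apply Finset.card_le_card_of_injOn (fun c : ℕ => (c : ℤ))
    · intro c hc
      rw [Finset.mem_coe, Finset.mem_filter] at hc
      rw [Finset.mem_coe, Finset.mem_Icc]
      exact ⟨Int.ceil_le.2 (by exact_mod_cast hc.2.1), Int.le_floor.2 (by exact_mod_cast hc.2.2)⟩
    · intro a _ b _ hab
      have h0 : (a : ℤ) = (b : ℤ) := hab
      exact_mod_cast h0
  rw [Int.card_Icc] at h1
  have h2 : ((⌊u + L⌋ + 1 - ⌈u⌉).toNat : ℝ) ≤ L + 1 := by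
    rcases le_total 0 (⌊u + L⌋ + 1 - ⌈u⌉) with h | h
    · have e1 : (((⌊u + L⌋ + 1 - ⌈u⌉).toNat : ℕ) : ℝ) = ((⌊u + L⌋ + 1 - ⌈u⌉ : ℤ) : ℝ) := by
        exact_mod_cast Int.toNat_of_nonneg h
      rw [e1]
      push_cast
      have h3 := Int.floor_le (u + L)
      have h4 := Int.le_ceil u
      linarith
    · rw [Int.toNat_of_nonpos h]
      push_cast
      linarith
  exact le_trans (by exact_mod_cast h1) h2

/-- the cells near the fractions with denominator `q` -/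
noncomputable def nearCells (Q q : ℕ) (δ : ℝ) : Finset ℕ :=
  (range q).biUnion (fun r => (range Q).filter (fun c : ℕ =>
    ((r : ℝ) - q / Q) * (Q / q) ≤ c ∧ (c : ℝ) ≤ ((r : ℝ) - q / Q) * (Q / q) + (δ + q / Q) * (Q / q))) ∪
  (range q).biUnion (fun r => (range Q).filter (fun c : ℕ =>
    ((r : ℝ) + 1 - δ - q / Q) * (Q / q) ≤ c ∧
      (c : ℝ) ≤ ((r : ℝ) + 1 - δ - q / Q) * (Q / q) + (δ + q / Q) * (Q / q)))

lemma nearCells_sub (Q q : ℕ) (δ : ℝ) : nearCells Q q δ ⊆ range Q := by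
  unfold nearCells
  apply Finset.union_subset
  · rw [Finset.biUnion_subset]
    intro r _
    exact Finset.filter_subset _ _
  · rw [Finset.biUnion_subset]
    intro r _
    exact Finset.filter_subset _ _

lemma nearCells_card (Q q : ℕ) (δ : ℝ) (hQ : 1 ≤ Q) (hq : 1 ≤ q) (hδ : 0 ≤ δ) :
    ((nearCells Q q δ).card : ℝ) ≤ 2 * δ * Q + 4 * q := by
  have hQ0 : (0 : ℝ) < Q := by exact_mod_cast hQ
  have hq0 : (0 : ℝ) < q := by exact_mod_cast hq
  have hL : 0 ≤ (δ + q / Q) * (Q / q) := by positivity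
  have hLe : (q : ℝ) * ((δ + q / Q) * (Q / q) + 1) = δ * Q + 2 * q := by
    field_simp
    ring
  have h1 : ∀ u : ℕ → ℝ, (((range q).biUnion (fun r => (range Q).filter (fun c : ℕ =>
      u r ≤ c ∧ (c : ℝ) ≤ u r + (δ + q / Q) * (Q / q)))).card : ℝ) ≤ δ * Q + 2 * q := by
    intro u
    refine (by exact_mod_cast Finset.card_biUnion_le : (((range q).biUnion (fun r =>
      (range Q).filter (fun c : ℕ => u r ≤ c ∧ (c : ℝ) ≤ u r + (δ + q / Q) * (Q / q)))).card : ℝ) ≤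
        ((∑ r ∈ range q, ((range Q).filter (fun c : ℕ =>
          u r ≤ c ∧ (c : ℝ) ≤ u r + (δ + q / Q) * (Q / q))).card : ℕ) : ℝ)).trans ?_
    push_cast
    calc ∑ r ∈ range q, (((range Q).filter (fun c : ℕ =>
          u r ≤ c ∧ (c : ℝ) ≤ u r + (δ + q / Q) * (Q / q))).card : ℝ)
        ≤ ∑ _r ∈ range q, ((δ + q / Q) * (Q / q) + 1) :=
          Finset.sum_le_sum fun r _ => cnt_interval _ _ _ hL
      _ = δ * Q + 2 * q := by rw [Finset.sum_const, Finset.card_range, nsmul_eq_mul, hLe]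
  unfold nearCells
  have h2 := Finset.card_union_le ((range q).biUnion (fun r => (range Q).filter (fun c : ℕ =>
    ((r : ℝ) - q / Q) * (Q / q) ≤ c ∧ (c : ℝ) ≤ ((r : ℝ) - q / Q) * (Q / q) + (δ + q / Q) * (Q / q))))
    ((range q).biUnion (fun r => (range Q).filter (fun c : ℕ =>
    ((r : ℝ) + 1 - δ - q / Q) * (Q / q) ≤ c ∧
      (c : ℝ) ≤ ((r : ℝ) + 1 - δ - q / Q) * (Q / q) + (δ + q / Q) * (Q / q))))
  have h3 := h1 (fun r => ((r : ℝ) - q / Q) * (Q / q))
  have h4 := h1 (fun r => ((r : ℝ) + 1 - δ - q / Q) * (Q / q))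
  have h5 : ((((range q).biUnion (fun r => (range Q).filter (fun c : ℕ =>
    ((r : ℝ) - q / Q) * (Q / q) ≤ c ∧ (c : ℝ) ≤ ((r : ℝ) - q / Q) * (Q / q) + (δ + q / Q) * (Q / q))) ∪
    (range q).biUnion (fun r => (range Q).filter (fun c : ℕ =>
    ((r : ℝ) + 1 - δ - q / Q) * (Q / q) ≤ c ∧
      (c : ℝ) ≤ ((r : ℝ) + 1 - δ - q / Q) * (Q / q) + (δ + q / Q) * (Q / q)))).card : ℕ) : ℝ) ≤
      (((range q).biUnion (fun r => (range Q).filter (fun c : ℕ =>
    ((r : ℝ) - q / Q) * (Q / q) ≤ c ∧ (c : ℝ) ≤ ((r : ℝ) - q / Q) * (Q / q) + (δ + q / Q) * (Q / q)))).card : ℝ) +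
      (((range q).biUnion (fun r => (range Q).filter (fun c : ℕ =>
    ((r : ℝ) + 1 - δ - q / Q) * (Q / q) ≤ c ∧
      (c : ℝ) ≤ ((r : ℝ) + 1 - δ - q / Q) * (Q / q) + (δ + q / Q) * (Q / q)))).card : ℝ) := by
    exact_mod_cast h2
  linarith

lemma mem_nearCells (Q q : ℕ) (δ y : ℝ) (hQ : 1 ≤ Q) (hq : 1 ≤ q)
    (h : ∃ p : ℤ, |(q : ℝ) * y - p| ≤ δ) : ⌊(Q : ℝ) * Int.fract y⌋₊ ∈ nearCells Q q δ := by
  have hQ0 : (0 : ℝ) < Q := by exact_mod_cast hQ
  have hq0 : (0 : ℝ) < q := by exact_mod_cast hq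
  obtain ⟨p, hp⟩ := h
  set f : ℝ := Int.fract y with hf
  have hf0 : 0 ≤ f := Int.fract_nonneg y
  have hf1 : f < 1 := Int.fract_lt_one y
  have hyf : y = f + ⌊y⌋ := by
    rw [hf]
    exact (Int.fract_add_floor y).symm
  set p' : ℤ := p - q * ⌊y⌋ with hp'
  have hp2 : |(q : ℝ) * f - p'| ≤ δ := by
    have e : (q : ℝ) * f - p' = q * y - p := by
      rw [hp']
      push_cast
      linear_combination (-(q : ℝ)) * hyf
    rw [e]
    exact hp
  set c : ℕ := ⌊(Q : ℝ) * f⌋₊ with hc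
  have hc1 : (c : ℝ) ≤ Q * f := Nat.floor_le (by positivity)
  have hc2 : (Q : ℝ) * f < c + 1 := Nat.lt_floor_add_one _
  have hcQ : c < Q := by
    rw [hc, Nat.floor_lt (by positivity)]
    exact mul_lt_of_lt_one_right hQ0 hf1
  set g : ℝ := (q : ℝ) * f with hg
  have hg0 : 0 ≤ g := by positivity
  have hgq : g < q := mul_lt_of_lt_one_right hq0 hf1
  -- c in terms of g
  have hcg1 : (c : ℝ) ≤ g * (Q / q) := by
    have : g * (Q / q) = Q * f := by rw [hg]; field_simp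
    rw [this]
    exact hc1
  have hcg2 : g * (Q / q) - 1 ≤ c := by
    have : g * (Q / q) = Q * f := by rw [hg]; field_simp
    rw [this]
    linarith
  have hone : (q : ℝ) / Q * (Q / q) = 1 := by field_simp
  have hQq : 0 < (Q : ℝ) / q := by positivity
  set r : ℕ := ⌊g⌋₊ with hr
  have hr1 : (r : ℝ) ≤ g := Nat.floor_le hg0
  have hr2 : g < r + 1 := Nat.lt_floor_add_one _
  have hrq : r < q := by
    rw [hr, Nat.floor_lt hg0]
    exact hgq
  unfold nearCells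
  rw [Finset.mem_union]
  have hab := abs_le.1 hp2
  by_cases hpr : p' ≤ r
  · -- g is close to a smaller integer
    left
    rw [Finset.mem_biUnion]
    refine ⟨r, Finset.mem_range.2 hrq, ?_⟩
    rw [Finset.mem_filter, Finset.mem_range]
    have hpr' : (p' : ℝ) ≤ r := by exact_mod_cast hpr
    refine ⟨hcQ, ?_, ?_⟩
    · have h1 : (r : ℝ) * (Q / q) ≤ g * (Q / q) := mul_le_mul_of_nonneg_right hr1 hQq.le
      rw [sub_mul, hone]
      linarith
    · have h1 : g ≤ r + δ := by linarith [hab.2]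
      have h2 : g * (Q / q) ≤ (r + δ) * (Q / q) := mul_le_mul_of_nonneg_right h1 hQq.le
      have e : ((r : ℝ) - q / Q) * (Q / q) + (δ + q / Q) * (Q / q) = (r + δ) * (Q / q) := by ring
      rw [e]
      linarith
  · right
    push Not at hpr
    rw [Finset.mem_biUnion]
    refine ⟨r, Finset.mem_range.2 hrq, ?_⟩
    rw [Finset.mem_filter, Finset.mem_range]
    have hpr' : (r : ℝ) + 1 ≤ p' := by exact_mod_cast hpr
    refine ⟨hcQ, ?_, ?_⟩
    · have h1 : (r : ℝ) + 1 - δ ≤ g := by linarith [hab.1]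
      have h2 : ((r : ℝ) + 1 - δ) * (Q / q) ≤ g * (Q / q) := mul_le_mul_of_nonneg_right h1 hQq.le
      rw [sub_mul, hone]
      linarith
    · have h2 : g * (Q / q) ≤ ((r : ℝ) + 1) * (Q / q) := mul_le_mul_of_nonneg_right hr2.le hQq.le
      have e : ((r : ℝ) + 1 - δ - q / Q) * (Q / q) + (δ + q / Q) * (Q / q) =
        ((r : ℝ) + 1) * (Q / q) := by ring
      rw [e]
      linarith

end Pool.Agent.Q263.WE
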