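import Mathlib
import Pool.Agent.Q263.WE.Bc

/-!
Rational approximations to the powers `(m + 1 + x) ^ n`, for almost all `m`.
-/

set_option autoImplicit false

open Finset Polynomial Filter Topology

namespace Pool.Agent.Q263.WE

/-- the exceptional numbers for the function `δ` -/
def Exc (x R Y : ℝ) (δ : ℕ → ℕ → ℝ) (m : ℕ) : Prop :=
  ∃ n q : ℕ, 2 ≤ n ∧ (n : ℝ) ≤ R ∧ 1 ≤ q ∧ (q : ℝ) ≤ Y ∧
    ∃ p : ℤ, |(q : ℝ) * ((m : ℝ) + x) ^ n - p| ≤ δ n q

open Classical in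
theorem bc (a : ℝ) (ha0 : 0 < a) (ha1 : a < 1) : ∃ κ : ℝ, 0 < κ ∧ ∀ x : ℝ, Irrational x →
    ¬ Liouville x → ∀ᶠ M : ℕ in atTop, ∀ δ : ℕ → ℕ → ℝ, (∀ n q, 0 ≤ δ n q) →
      (((range M).filter (fun m : ℕ => Exc x ((Real.log M) ^ κ) (Real.exp ((Real.log M) ^ (1 - a)))
        δ (m + 1))).card : ℝ) ≤
      M * (2 * ∑ n ∈ Finset.Icc 2 ⌊(Real.log M) ^ κ⌋₊,
        ∑ q ∈ Finset.Icc 1 ⌊Real.exp ((Real.log M) ^ (1 - a))⌋₊, δ n q +
          Real.exp (-(Real.log M) ^ (1 - a))) := by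
  obtain ⟨κ, hκ0, hlaw⟩ := law1 (a / 2) (by linarith) (by linarith)
  refine ⟨κ, hκ0, fun x hirr hL => ?_⟩
  obtain ⟨A, μ, hA, hdio⟩ := dio_nl x hirr hL
  filter_upwards [hlaw x A μ hA hdio, eventually_ge_atTop 1,
    tendsto_log_nat.eventually_ge_atTop 1, ev_log 5 (1 - a) (1 - a / 2) (by linarith),
    ev_log 40 0 (1 - a / 2) (by linarith),
    tendsto_log_nat.eventually (exp_self_pow (1 - a) (by linarith) κ)] with
    M hM hM1 hℓ1 g1 g2 g3
  intro δ hδ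
  set ℓ : ℝ := Real.log M with hℓ
  have hℓ0 : 0 < ℓ := lt_of_lt_of_le one_pos hℓ1
  have hM0 : (0 : ℝ) < M := by exact_mod_cast hM1
  rw [Real.rpow_zero, mul_one] at g2
  set y : ℝ := ℓ ^ (1 - a) with hy
  set y2 : ℝ := ℓ ^ (1 - a / 2) with hy2
  set w : ℝ := ℓ ^ κ with hw
  have hy1 : 1 ≤ y := Real.one_le_rpow hℓ1 (by linarith)
  have hw0 : 0 ≤ w := by rw [hw]; positivity
  have hwy : w ≤ Real.exp y := by
    have h1 : w = Real.exp (κ * Real.log ℓ) := by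
      rw [hw, Real.rpow_def_of_pos hℓ0, mul_comm]
    rw [h1]
    apply Real.exp_le_exp.2
    linarith
  set Q : ℕ := ⌊Real.exp y2⌋₊ with hQ
  have hQlow : Real.exp (y2 - 1) ≤ Q := floor_exp y2 (by linarith)
  have hQ0 : (0 : ℝ) < Q := lt_of_lt_of_le (Real.exp_pos _) hQlow
  have hQ1 : 1 ≤ Q := by exact_mod_cast hQ0
  have hQupp : (Q : ℝ) ≤ Real.exp y2 := Nat.floor_le (Real.exp_pos _).le
  set In : Finset ℕ := Finset.Icc 2 ⌊w⌋₊ with hIn
  set Iq : Finset ℕ := Finset.Icc 1 ⌊Real.exp y⌋₊ with hIq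
  have hInc : (In.card : ℝ) ≤ Real.exp y := by
    refine le_trans ?_ hwy
    have h1 : In.card ≤ ⌊w⌋₊ := by
      rw [hIn, Nat.card_Icc]
      omega
    exact le_trans (by exact_mod_cast h1) (Nat.floor_le hw0)
  have hIqc : (Iq.card : ℝ) ≤ Real.exp y := by
    have h1 : Iq.card ≤ ⌊Real.exp y⌋₊ := by
      rw [hIq, Nat.card_Icc]
      omega
    exact le_trans (by exact_mod_cast h1) (Nat.floor_le (Real.exp_pos _).le)
  have hsub : (range M).filter (fun m : ℕ => Exc x w (Real.exp y) δ (m + 1)) ⊆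
      (In ×ˢ Iq).biUnion (fun s => (range M).filter (fun m : ℕ =>
        ⌊(Q : ℝ) * Int.fract ((((m : ℝ) + 1) + x) ^ s.1)⌋₊ ∈ nearCells Q s.2 (δ s.1 s.2))) := by
    intro m hm
    rw [Finset.mem_filter] at hm
    obtain ⟨hm1, n, q, h1, h2, h3, h4, p, hp⟩ := hm
    rw [Finset.mem_biUnion]
    refine ⟨(n, q), ?_, ?_⟩
    · rw [Finset.mem_product, hIn, hIq, Finset.mem_Icc, Finset.mem_Icc]
      exact ⟨⟨h1, Nat.le_floor h2⟩, ⟨h3, Nat.le_floor h4⟩⟩
    · rw [Finset.mem_filter]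
      refine ⟨hm1, mem_nearCells Q q _ _ hQ1 h3 ⟨p, ?_⟩⟩
      push_cast at hp
      exact hp
  have hone : ∀ s ∈ In ×ˢ Iq, (((range M).filter (fun m : ℕ =>
        ⌊(Q : ℝ) * Int.fract ((((m : ℝ) + 1) + x) ^ s.1)⌋₊ ∈ nearCells Q s.2 (δ s.1 s.2))).card : ℝ) ≤
      M * (2 * δ s.1 s.2 + (4 * Real.exp (y + 1 - y2) + Real.exp (-y2))) := by
    rintro ⟨n, q⟩ hs
    rw [Finset.mem_product, hIn, hIq, Finset.mem_Icc, Finset.mem_Icc] at hs
    obtain ⟨⟨h1, h2⟩, ⟨h3, h4⟩⟩ := hs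
    dsimp only at h1 h2 h3 h4 ⊢
    have hnw : (n : ℝ) ≤ w := le_trans (by exact_mod_cast h2) (Nat.floor_le hw0)
    have hqy : (q : ℝ) ≤ Real.exp y := le_trans (by exact_mod_cast h4) (Nat.floor_le (Real.exp_pos _).le)
    have h5 := (abs_le.1 (hM n h1 hnw Q hQ1 hQupp (nearCells Q q (δ n q)) (nearCells_sub _ _ _))).2
    have h6 := nearCells_card Q q (δ n q) hQ1 h3 (hδ n q)
    have h7 : ((nearCells Q q (δ n q)).card : ℝ) / Q ≤ 2 * δ n q + 4 * Real.exp (y + 1 - y2) := by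
      rw [div_le_iff₀ hQ0]
      have h8 : 4 * (q : ℝ) ≤ 4 * Real.exp (y + 1 - y2) * Q := by
        have h9 : Real.exp y ≤ Real.exp (y + 1 - y2) * Q := by
          calc Real.exp y = Real.exp (y + 1 - y2) * Real.exp (y2 - 1) := by
                rw [← Real.exp_add]; congr 1; ring
            _ ≤ _ := mul_le_mul_of_nonneg_left hQlow (Real.exp_pos _).le
        linarith
      nlinarith
    have h8 : (M : ℝ) * (((nearCells Q q (δ n q)).card : ℝ) / Q) ≤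
        M * (2 * δ n q + 4 * Real.exp (y + 1 - y2)) := mul_le_mul_of_nonneg_left h7 hM0.le
    have e : (M : ℝ) * (2 * δ n q + (4 * Real.exp (y + 1 - y2) + Real.exp (-y2))) =
        M * (2 * δ n q + 4 * Real.exp (y + 1 - y2)) + M * Real.exp (-y2) := by ring
    rw [e]
    linarith
  have hc1 : (((range M).filter (fun m : ℕ => Exc x w (Real.exp y) δ (m + 1))).card : ℝ) ≤
      ∑ s ∈ In ×ˢ Iq, M * (2 * δ s.1 s.2 + (4 * Real.exp (y + 1 - y2) + Real.exp (-y2))) := by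
    have hc0 := (Finset.card_le_card hsub).trans Finset.card_biUnion_le
    refine le_trans (Nat.cast_le.2 hc0) ?_
    rw [Nat.cast_sum]
    exact Finset.sum_le_sum hone
  refine hc1.trans ?_
  rw [← Finset.mul_sum, Finset.sum_add_distrib, Finset.sum_const, Finset.card_product,
    ← Finset.mul_sum, Finset.sum_product]
  apply mul_le_mul_of_nonneg_left _ hM0.le
  rw [nsmul_eq_mul]
  push_cast
  have hlast : (In.card : ℝ) * Iq.card * (4 * Real.exp (y + 1 - y2) + Real.exp (-y2)) ≤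
      Real.exp (-y) := by
    have h1 : Real.exp (-y2) ≤ Real.exp (y + 1 - y2) := Real.exp_le_exp.2 (by linarith)
    calc (In.card : ℝ) * Iq.card * (4 * Real.exp (y + 1 - y2) + Real.exp (-y2))
        ≤ Real.exp y * Real.exp y * (5 * Real.exp (y + 1 - y2)) := by
          apply mul_le_mul (mul_le_mul hInc hIqc (Nat.cast_nonneg _) (Real.exp_pos _).le)
            (by linarith) (by positivity) (by positivity)
      _ ≤ Real.exp y * Real.exp y * (Real.exp 2 * Real.exp (y + 1 - y2)) := by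
          apply mul_le_mul_of_nonneg_left _ (by positivity)
          exact mul_le_mul_of_nonneg_right exp_two_ge (Real.exp_pos _).le
      _ = Real.exp (y + y + (2 + (y + 1 - y2))) := by
          rw [Real.exp_add (y + y), Real.exp_add y y, Real.exp_add 2]
      _ ≤ _ := by
          apply Real.exp_le_exp.2
          linarith
  linarith

lemma summable_g (ε : ℝ) (hε : 0 < ε) :
    Summable (fun q : ℕ => 1 / ((q : ℝ) * (Real.log q) ^ (1 + ε))) := by
  rw [← summable_nat_add_iff 1]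
  set f : ℕ → ℝ := fun q => 1 / (((q + 1 : ℕ) : ℝ) * (Real.log ((q + 1 : ℕ) : ℝ)) ^ (1 + ε)) with hf
  have hlog0 : ∀ q : ℕ, 0 ≤ Real.log ((q + 1 : ℕ) : ℝ) := fun q => Real.log_natCast_nonneg _
  have hnn : ∀ q, 0 ≤ f q := by
    intro q
    rw [hf]
    have := hlog0 q
    positivity
  have hmono : ∀ ⦃m n : ℕ⦄, 0 < m → m ≤ n → f n ≤ f m := by
    intro m n hm hmn
    rw [hf]
    have hlm : 0 < Real.log ((m + 1 : ℕ) : ℝ) := Real.log_pos (by exact_mod_cast (by omega : 1 < m + 1))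
    have hll : Real.log ((m + 1 : ℕ) : ℝ) ≤ Real.log ((n + 1 : ℕ) : ℝ) :=
      Real.log_le_log (by positivity) (by exact_mod_cast (by omega))
    have hmn' : ((m + 1 : ℕ) : ℝ) ≤ ((n + 1 : ℕ) : ℝ) := by exact_mod_cast (by omega)
    apply one_div_le_one_div_of_le (by positivity)
    apply mul_le_mul hmn' (Real.rpow_le_rpow hlm.le hll (by linarith)) (by positivity) (by positivity)
  rw [← summable_condensed_iff_of_nonneg hnn hmono]
  have hl2 := Real.log_two_gt_d9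
  have hs : Summable (fun k : ℕ => (2 / Real.log 2) ^ (1 + ε) * (1 / ((k + 1 : ℕ) : ℝ) ^ (1 + ε))) := by
    apply Summable.mul_left
    exact (summable_nat_add_iff 1).2 (Real.summable_one_div_nat_rpow.2 (by linarith : 1 < 1 + ε))
  refine Summable.of_nonneg_of_le (fun k => mul_nonneg (by positivity) (hnn _)) (fun k => ?_) hs
  have hlk : ((k + 1 : ℕ) : ℝ) * (Real.log 2 / 2) ≤ Real.log (((2 ^ k + 1 : ℕ)) : ℝ) := by
    rcases Nat.eq_zero_or_pos k with rfl | hk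
    · norm_num
      linarith
    · have h1 : Real.log ((2 : ℝ) ^ k) ≤ Real.log (((2 ^ k + 1 : ℕ)) : ℝ) := by
        apply Real.log_le_log (by positivity)
        push_cast
        linarith
      rw [Real.log_pow] at h1
      have h2 : (1 : ℝ) ≤ k := by exact_mod_cast hk
      refine le_trans ?_ h1
      push_cast
      nlinarith
  have hp : 0 < ((k + 1 : ℕ) : ℝ) * (Real.log 2 / 2) := by positivity
  have hlp : 0 < Real.log (((2 ^ k + 1 : ℕ)) : ℝ) := lt_of_lt_of_le hp hlk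
  have h3 : (((k + 1 : ℕ) : ℝ) * (Real.log 2 / 2)) ^ (1 + ε) ≤
      (Real.log (((2 ^ k + 1 : ℕ)) : ℝ)) ^ (1 + ε) := Real.rpow_le_rpow hp.le hlk (by linarith)
  have h4 : 0 < (((k + 1 : ℕ) : ℝ) * (Real.log 2 / 2)) ^ (1 + ε) := Real.rpow_pos_of_pos hp _
  calc (2 : ℝ) ^ k * f (2 ^ k) ≤ 1 / (Real.log (((2 ^ k + 1 : ℕ)) : ℝ)) ^ (1 + ε) := by
        rw [hf, mul_one_div, div_le_div_iff₀ (by positivity) (by positivity), one_mul]
        apply mul_le_mul_of_nonneg_right _ (by positivity)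
        push_cast
        linarith
    _ ≤ 1 / (((k + 1 : ℕ) : ℝ) * (Real.log 2 / 2)) ^ (1 + ε) := one_div_le_one_div_of_le h4 h3
    _ = _ := by
        have hl20 : 0 ≤ Real.log 2 := by linarith
        rw [Real.mul_rpow (by positivity) (by positivity), Real.div_rpow (by norm_num) hl20,
          Real.div_rpow hl20 (by norm_num)]
        have h5 : (0 : ℝ) < (2 : ℝ) ^ (1 + ε) := by positivity
        have h6 : (0 : ℝ) < (Real.log 2) ^ (1 + ε) := Real.rpow_pos_of_pos (by linarith) _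
        have h7 : (0 : ℝ) < (((k + 1 : ℕ) : ℝ)) ^ (1 + ε) := by positivity
        field_simp

open Classical in
/-- Lang's inequality -/
theorem lang (a κ : ℝ) (ha1 : a < 1) (x : ℝ)
    (hbc : ∀ᶠ M : ℕ in atTop, ∀ δ : ℕ → ℕ → ℝ, (∀ n q, 0 ≤ δ n q) →
      (((range M).filter (fun m : ℕ => Exc x ((Real.log M) ^ κ) (Real.exp ((Real.log M) ^ (1 - a)))
        δ (m + 1))).card : ℝ) ≤
      M * (2 * ∑ n ∈ Finset.Icc 2 ⌊(Real.log M) ^ κ⌋₊,
        ∑ q ∈ Finset.Icc 1 ⌊Real.exp ((Real.log M) ^ (1 - a))⌋₊, δ n q +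
          Real.exp (-(Real.log M) ^ (1 - a)))) :
    ∀ ε η : ℝ, 0 < ε → 0 < η → ∃ c : ℝ, 0 < c ∧ ∀ᶠ M : ℕ in atTop,
      (((range M).filter (fun m : ℕ => ¬ ∀ n q : ℕ, 2 ≤ n → (n : ℝ) ≤ (Real.log M) ^ κ → 2 ≤ q →
        (q : ℝ) ≤ Real.exp ((Real.log M) ^ (1 - a)) → ∀ p : ℤ,
          c / ((n : ℝ) ^ (1 + ε) * ((q : ℝ) ^ 2 * (Real.log q) ^ (1 + ε))) <
            |(((m + 1 : ℕ) : ℝ) + x) ^ n - p / q|)).card : ℝ) ≤ η * M := by
  intro ε η hε hη
  have hs1 : Summable (fun n : ℕ => 1 / (n : ℝ) ^ (1 + ε)) :=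
    Real.summable_one_div_nat_rpow.2 (by linarith : 1 < 1 + ε)
  have hs2 := summable_g ε hε
  set S1 : ℝ := ∑' n : ℕ, 1 / (n : ℝ) ^ (1 + ε) with hS1
  set S2 : ℝ := ∑' q : ℕ, 1 / ((q : ℝ) * (Real.log q) ^ (1 + ε)) with hS2
  have hg0 : ∀ q : ℕ, 0 ≤ 1 / ((q : ℝ) * (Real.log q) ^ (1 + ε)) := by
    intro q
    have := Real.log_natCast_nonneg q
    positivity
  have hS10 : 0 ≤ S1 := tsum_nonneg fun n => by positivity
  have hS20 : 0 ≤ S2 := tsum_nonneg hg0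
  set c : ℝ := η / (4 * ((S1 + 1) * (S2 + 1))) with hc
  have hc0 : 0 < c := by positivity
  refine ⟨c, hc0, ?_⟩
  have hsmall : ∀ᶠ M : ℕ in atTop, Real.exp (-(Real.log M) ^ (1 - a)) ≤ η / 2 := by
    have h1 : Tendsto (fun M : ℕ => (Real.log M) ^ (1 - a)) atTop atTop :=
      (tendsto_rpow_atTop (by linarith)).comp tendsto_log_nat
    have h2 : Tendsto (fun M : ℕ => Real.exp (-(Real.log M) ^ (1 - a))) atTop (𝓝 0) :=
      Real.tendsto_exp_neg_atTop_nhds_zero.comp h1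
    exact (h2.eventually_lt_const (by linarith : 0 < η / 2)).mono fun _ h => h.le
  filter_upwards [hbc, hsmall] with M hM hsm
  set δ : ℕ → ℕ → ℝ := fun n q => c * (1 / (n : ℝ) ^ (1 + ε)) *
    (1 / ((q : ℝ) * (Real.log q) ^ (1 + ε))) with hδ
  have hδ0 : ∀ n q, 0 ≤ δ n q := by
    intro n q
    rw [hδ]
    have := hg0 q
    positivity
  have h1 := hM δ hδ0
  have hsum : ∑ n ∈ Finset.Icc 2 ⌊(Real.log M) ^ κ⌋₊,
        ∑ q ∈ Finset.Icc 1 ⌊Real.exp ((Real.log M) ^ (1 - a))⌋₊, δ n q ≤ c * (S1 * S2) := by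
    rw [hδ]
    simp_rw [mul_assoc, ← Finset.mul_sum, ← Finset.sum_mul]
    apply mul_le_mul_of_nonneg_left _ hc0.le
    apply mul_le_mul _ _ (Finset.sum_nonneg fun q _ => hg0 q) hS10
    · exact hs1.sum_le_tsum _ (fun n _ => by positivity)
    · exact hs2.sum_le_tsum _ (fun q _ => hg0 q)
  have hcS : c * (S1 * S2) ≤ η / 4 := by
    have h2 : S1 * S2 ≤ (S1 + 1) * (S2 + 1) := by nlinarith
    calc c * (S1 * S2) ≤ c * ((S1 + 1) * (S2 + 1)) := mul_le_mul_of_nonneg_left h2 hc0.le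
      _ = η / 4 := by rw [hc]; field_simp
  have hM00 : (0 : ℝ) ≤ M := Nat.cast_nonneg M
  have h2 : (M : ℝ) * (2 * ∑ n ∈ Finset.Icc 2 ⌊(Real.log M) ^ κ⌋₊,
        ∑ q ∈ Finset.Icc 1 ⌊Real.exp ((Real.log M) ^ (1 - a))⌋₊, δ n q +
          Real.exp (-(Real.log M) ^ (1 - a))) ≤ M * η :=
    mul_le_mul_of_nonneg_left (by linarith) hM00
  have h3 : (((range M).filter (fun m : ℕ => ¬ ∀ n q : ℕ, 2 ≤ n → (n : ℝ) ≤ (Real.log M) ^ κ →
        2 ≤ q → (q : ℝ) ≤ Real.exp ((Real.log M) ^ (1 - a)) → ∀ p : ℤ,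
          c / ((n : ℝ) ^ (1 + ε) * ((q : ℝ) ^ 2 * (Real.log q) ^ (1 + ε))) <
            |(((m + 1 : ℕ) : ℝ) + x) ^ n - p / q|))).card ≤
      ((range M).filter (fun m : ℕ => Exc x ((Real.log M) ^ κ) (Real.exp ((Real.log M) ^ (1 - a)))
        δ (m + 1))).card := by
    apply Finset.card_le_card
    intro m hm
    rw [Finset.mem_filter] at hm ⊢
    refine ⟨hm.1, ?_⟩
    have h4 := hm.2
    push Not at h4
    obtain ⟨n, q, g1, g2, g3, g4, p, g5⟩ := h4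
    refine ⟨n, q, g1, g2, by omega, g4, p, ?_⟩
    have hq0 : (0 : ℝ) < q := by exact_mod_cast (by omega : 0 < q)
    have hn0 : (0 : ℝ) < n := by exact_mod_cast (by omega : 0 < n)
    have hlq : 0 < Real.log q := Real.log_pos (by exact_mod_cast (by omega : 1 < q))
    have e1 : (q : ℝ) * (((m + 1 : ℕ) : ℝ) + x) ^ n - p = q * ((((m + 1 : ℕ) : ℝ) + x) ^ n - p / q) := by
      field_simp
    rw [e1, abs_mul, abs_of_pos hq0]
    calc (q : ℝ) * |(((m + 1 : ℕ) : ℝ) + x) ^ n - p / q|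
        ≤ q * (c / ((n : ℝ) ^ (1 + ε) * ((q : ℝ) ^ 2 * (Real.log q) ^ (1 + ε)))) :=
          mul_le_mul_of_nonneg_left g5 hq0.le
      _ = δ n q := by
          rw [hδ]
          have h5 : (0 : ℝ) < (n : ℝ) ^ (1 + ε) := by positivity
          have h6 : (0 : ℝ) < (Real.log q) ^ (1 + ε) := by positivity
          field_simp
  calc _ ≤ (((range M).filter (fun m : ℕ => Exc x ((Real.log M) ^ κ)
        (Real.exp ((Real.log M) ^ (1 - a))) δ (m + 1))).card : ℝ) := by exact_mod_cast h3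
    _ ≤ _ := h1
    _ ≤ _ := h2
    _ = _ := by ring

end Pool.Agent.Q263.WE
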