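import Mathlib
import Pool.Agent.Q263.WE.Ph

/-!
The digits of `b ^ n` in base `q` for almost all `b ≤ M`: one triple `(n, q, k)`.
-/

set_option autoImplicit false

open Finset Polynomial Filter Topology

namespace Pool.Agent.Q263.WE

theorem one_triple : ∃ κ : ℝ, 0 < κ ∧ κ ≤ 1 / 40 ∧ ∀ᶠ M : ℕ in atTop, ∃ V0 : ℕ,
    (V0 : ℝ) ≤ M * Real.exp (-(Real.log M) ^ (3 / 4 : ℝ)) ∧
    ∀ n q k : ℕ, 1 ≤ n → 2 ≤ q → 1 ≤ k → (n : ℝ) ≤ (Real.log M) ^ κ →
      (q : ℝ) ^ k ≤ (Real.log M) ^ κ →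
      ∃ X : Finset ℕ,
        (X.card : ℝ) ≤ M * ((Real.log M) ^ 3 * Real.exp (-(Real.log M) ^ κ)) ∧
        ∀ m ∈ range M, m ∉ X → V0 ≤ m + 1 → Good ((Real.log M) ^ κ) (m + 1) n q k := by
  classical
  obtain ⟨κ, κ1, hκ0, hκ40, hκ1, hκ14, hlaw⟩ := digit_law
  refine ⟨κ, hκ0, hκ40, ?_⟩
  have hκb : κ ≤ 1 / 40 := hκ40
  filter_upwards [hlaw, tendsto_log_nat.eventually vv, eventually_ge_atTop 1,
    tendsto_log_nat.eventually_ge_atTop 1,
    ev_log 2 (3 * κ) (1 / 2) (by linarith),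
    ev_log 4 (1 / 2 + κ) (1 / 2 + 2 * κ) (by linarith),
    ev_log 32 (7 / 8 + 2 * κ) 1 (by linarith),
    ev_log 84 (1 - κ1 + 2 * κ) 1 (by linarith),
    ev_log 4 (3 / 4) 1 (by norm_num),
    ev_log 4 κ (1 / 4) (by linarith),
    ev_log 18 (2 * κ) 2 (by linarith),
    ev_log 30 (1 - κ1 + κ) 1 (by linarith),
    ev_log 1 (3 / 4) (1 - κ1 + κ) (by linarith)] with
    M hlaw hvv hM1 hℓ1 g1 g2 g3 g4 g5 g6 g7 g8 g9
  set x : ℝ := Real.log M with hx
  have hx0 : 0 < x := lt_of_lt_of_le one_pos hℓ1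
  have hM0 : (0 : ℝ) < M := by exact_mod_cast hM1
  have hMe : (M : ℝ) = Real.exp x := (Real.exp_log hM0).symm
  rw [Real.rpow_one] at g3 g4 g5 g8
  rw [one_mul] at g9
  obtain ⟨V, hV1, hV2, hV3, hV4, hV5⟩ := hvv
  have hV2' : (V : ℝ) ^ 2 ≤ M * Real.exp (-x ^ (3 / 4 : ℝ)) := by
    refine hV2.trans (le_of_eq ?_)
    rw [hMe, ← Real.exp_add]
    congr 1
  refine ⟨V ^ 2, by exact_mod_cast hV2', ?_⟩
  intro n q k hn hq hk hnw hqw
  -- the names of the powers
  set w : ℝ := x ^ κ with hw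
  set x1 : ℝ := x ^ (1 - κ1) with hx1
  set y : ℝ := x ^ (3 / 4 : ℝ) with hy
  set r : ℝ := x ^ (1 / 2 : ℝ) with hr
  set s : ℝ := x ^ (1 / 4 : ℝ) with hs
  set t : ℝ := x ^ (1 / 8 : ℝ) with ht
  have hw1 : 1 ≤ w := Real.one_le_rpow hℓ1 hκ0.le
  have hr1 : 1 ≤ r := Real.one_le_rpow hℓ1 (by norm_num)
  have hs1 : 1 ≤ s := Real.one_le_rpow hℓ1 (by norm_num)
  have ht1 : 1 ≤ t := Real.one_le_rpow hℓ1 (by norm_num)
  have hx11 : 1 ≤ x1 := Real.one_le_rpow hℓ1 (by linarith)
  have hyx1 : y ≤ x1 := Real.rpow_le_rpow_of_exponent_le hℓ1 (by linarith)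
  have hrx1 : r ≤ x1 := Real.rpow_le_rpow_of_exponent_le hℓ1 (by linarith)
  have hwx1 : w ≤ x1 := Real.rpow_le_rpow_of_exponent_le hℓ1 (by linarith)
  have hy0 : 0 ≤ y := (Real.rpow_pos_of_pos hx0 _).le
  have hrr : r * r = x := by
    rw [hr, ← Real.rpow_add hx0]
    norm_num
  have hss : s * s = r := by
    rw [hs, hr, ← Real.rpow_add hx0]
    norm_num
  have hw2 : x ^ (2 * κ) = w ^ 2 := by
    rw [hw, ← Real.rpow_natCast (x ^ κ) 2, ← Real.rpow_mul hx0.le]
    congr 1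
    push_cast
    ring
  have hrts : r * t * s = x ^ (7 / 8 : ℝ) := by
    rw [hr, hs, ht, ← Real.rpow_add hx0, ← Real.rpow_add hx0]
    norm_num
  have g3' : 32 * (r * t * s) * w ^ 2 ≤ x := by
    rw [hrts, ← hw2, mul_assoc, ← Real.rpow_add hx0]
    exact g3
  have g4' : 84 * x1 * w ^ 2 ≤ x := by
    rw [hx1, ← hw2, mul_assoc, ← Real.rpow_add hx0]
    exact g4
  have g7' : 18 * w ^ 2 ≤ x ^ 2 := by
    rw [← hw2, ← Real.rpow_natCast x 2]
    exact_mod_cast g7
  have g8' : 30 * (x1 * w) ≤ x := by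
    rw [hx1, hw, ← Real.rpow_add hx0]
    exact g8
  have hnr : (1 : ℝ) ≤ n := by exact_mod_cast hn
  -- log q
  have hq0 : (0 : ℝ) < q := by exact_mod_cast (by omega : 0 < q)
  have hlam : (1 / 2 : ℝ) ≤ Real.log q := by
    have h3 : Real.log 2 ≤ Real.log q := Real.log_le_log (by norm_num) (by exact_mod_cast hq)
    have := Real.log_two_gt_d9
    linarith
  have hqqk : (q : ℝ) ≤ (q : ℝ) ^ k := by
    calc (q : ℝ) = (q : ℝ) ^ 1 := (pow_one _).symm
      _ ≤ _ := pow_le_pow_right₀ (by exact_mod_cast (by omega : 1 ≤ q)) hk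
  have hlamw : Real.log q ≤ w := by
    have := Real.log_le_self hq0.le
    linarith
  have hkw : (k : ℝ) ≤ w := by
    have h1 : k < 2 ^ k := Nat.lt_two_pow_self
    have h2 : 2 ^ k ≤ q ^ k := Nat.pow_le_pow_left hq k
    have h3 : (k : ℝ) ≤ (q : ℝ) ^ k := by exact_mod_cast (h1.le.trans h2)
    linarith
  set lam : ℝ := Real.log q with hlamdef
  -- D
  set D : ℕ := ⌈r⌉₊ with hD
  have hD1 : r ≤ D := Nat.le_ceil r
  have hD2 : (D : ℝ) ≤ r + 1 := (Nat.ceil_lt_add_one (by linarith)).le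
  have hDpos : 1 ≤ D := by
    have : (1 : ℝ) ≤ D := hr1.trans hD1
    exact_mod_cast this
  have h2D : Real.exp (x ^ (3 * κ)) ≤ 2 ^ D := by
    have h1 : (2 : ℝ) ^ D = Real.exp (D * Real.log 2) := by
      rw [Real.exp_nat_mul, Real.exp_log (by norm_num)]
    rw [h1]
    apply Real.exp_le_exp.2
    have h2 := Real.log_two_gt_d9
    have h3 : (D : ℝ) * (1 / 2) ≤ D * Real.log 2 :=
      mul_le_mul_of_nonneg_left (by linarith) (Nat.cast_nonneg _)
    linarith
  -- i00
  set i00 : ℕ := ⌈4 * x1⌉₊ with hi00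
  have hi1 : 4 * x1 ≤ i00 := Nat.le_ceil _
  have hi2 : (i00 : ℝ) ≤ 4 * x1 + 1 := (Nat.ceil_lt_add_one (by linarith)).le
  -- N
  obtain ⟨N, hN1, hN2⟩ := dims_N k i00 D lam ((n : ℝ) * (2 * Real.log V) - 2 * x1) (by linarith)
    hDpos (by
      push_cast
      have h1 : ((i00 : ℝ) + D + k) ≤ 8 * x1 := by linarith
      have h2 : ((i00 : ℝ) + D + k) * lam ≤ 8 * x1 * w :=
        mul_le_mul h1 hlamw (by linarith) (by linarith)
      have h3 : (n : ℝ) * (x - 2 * y) ≤ n * (2 * Real.log V) :=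
        mul_le_mul_of_nonneg_left hV4 (by linarith)
      have h4 : x - 2 * y ≤ n * (x - 2 * y) := le_mul_of_one_le_left (by linarith) hnr
      have h5 : x1 ≤ x1 * w := le_mul_of_one_le_right (by linarith) hw1
      nlinarith)
  have hND : ((N * D : ℕ) : ℝ) * lam ≤ (n : ℝ) * (2 * Real.log V) := by
    have h1 : ((N * D : ℕ) : ℝ) * lam ≤ ((i00 + D + N * D + k : ℕ) : ℝ) * lam := by
      apply mul_le_mul_of_nonneg_right _ (by linarith)
      exact_mod_cast (by omega)
    linarith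
  have hNr : (N : ℝ) ≤ 2 * (n * r) := by
    have h1 : (N : ℝ) * r * (1 / 2) ≤ n * x := by
      calc (N : ℝ) * r * (1 / 2) ≤ (N : ℝ) * D * lam := by
            apply mul_le_mul (mul_le_mul_of_nonneg_left hD1 (Nat.cast_nonneg _)) hlam (by norm_num)
            positivity
        _ = ((N * D : ℕ) : ℝ) * lam := by push_cast; ring
        _ ≤ n * (2 * Real.log V) := hND
        _ ≤ n * x := mul_le_mul_of_nonneg_left hV5 (by linarith)
    rw [← hrr] at h1
    have h2 : (N : ℝ) * r ≤ (2 * (n * r)) * r := by linarith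
    exact le_of_mul_le_mul_right h2 (by linarith)
  have hNbig : (N : ℝ) ≤ x ^ (1 / 2 + 2 * κ) := by
    have h1 : (n : ℝ) * r ≤ x ^ (1 / 2 + κ) := by
      rw [add_comm, Real.rpow_add hx0]
      exact mul_le_mul_of_nonneg_right hnw (by linarith)
    have h2 : 0 ≤ x ^ (1 / 2 + κ) := (Real.rpow_pos_of_pos hx0 _).le
    linarith
  -- the law of the classes
  have hcls : ∀ a : ℕ, ∃ X : Finset ℕ,
      (X.card : ℝ) ≤ M * (2 * N * (((q ^ k : ℕ) : ℝ) + 1) * Real.exp (-(t ^ 2 / 4))) +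
        M * Real.exp (-w) ∧
      (a < D → ∀ m ∈ range M, m ∉ X → ∀ W < q ^ k,
        |((univ.filter (fun l : Fin N =>
          (m + 1) ^ n / q ^ (i00 + a + (l : ℕ) * D) % q ^ k = W)).card : ℝ) -
            N / ((q ^ k : ℕ) : ℝ)| ≤ 2 * (t * Real.sqrt N)) := by
    intro a
    by_cases ha : a < D
    · have h1 := hlaw n N q k (i00 + a) D V hn hnw hq (by
          push_cast
          refine hqw.trans ?_
          have := Real.add_one_le_exp w
          linarith) hNbig h2D hV1 hV2' hV3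
        (low_ok q i00 _ x1 hq hi1 (by omega))
        (window q n V _ x1 hq hV1 (by
          refine le_trans ?_ hN1
          apply mul_le_mul_of_nonneg_right _ (by linarith)
          have : i00 + a + N * D + k ≤ i00 + D + N * D + k := by omega
          exact_mod_cast this))
      obtain ⟨X, hX1, hX2⟩ := count_of_law (q ^ k) (Nat.one_le_pow _ _ (by omega))
        (fun m : ℕ => fun l : Fin N =>
          (((m + 1) ^ n : ℕ) : ℝ) / (q : ℝ) ^ (i00 + a + (l : ℕ) * D + k))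
        (M * Real.exp (-w)) t (by linarith) (by positivity) h1
      refine ⟨X, hX1, fun _ m hm hmX W hW => ?_⟩
      have h2 := hX2 m hm hmX W hW
      have h3 : (univ.filter (fun l : Fin N =>
          (m + 1) ^ n / q ^ (i00 + a + (l : ℕ) * D) % q ^ k = W)) =
          (univ.filter (fun l : Fin N => cells (q ^ k) (fun l : Fin N =>
          (((m + 1) ^ n : ℕ) : ℝ) / (q : ℝ) ^ (i00 + a + (l : ℕ) * D + k)) l = W)) := by
        apply Finset.filter_congr
        intro l _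
        unfold cells
        rw [word_floor _ _ _ _ (by omega)]
      rw [h3]
      exact h2
    · refine ⟨∅, ?_, fun h => absurd h ha⟩
      rw [Finset.card_empty, Nat.cast_zero]
      positivity
  choose F hF1 hF2 using hcls
  refine ⟨(range D).biUnion F, ?_, ?_⟩
  · have h1 : (((range D).biUnion F).card : ℝ) ≤ D * (M * (2 * N * (((q ^ k : ℕ) : ℝ) + 1) *
        Real.exp (-(t ^ 2 / 4))) + M * Real.exp (-w)) := by
      refine (by exact_mod_cast Finset.card_biUnion_le :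
        (((range D).biUnion F).card : ℝ) ≤ ((∑ a ∈ range D, (F a).card : ℕ) : ℝ)).trans ?_
      push_cast
      calc ∑ a ∈ range D, ((F a).card : ℝ) ≤ ∑ _a ∈ range D, (M * (2 * N * (((q : ℝ) ^ k) + 1) *
            Real.exp (-(t ^ 2 / 4))) + M * Real.exp (-w)) := by
            apply Finset.sum_le_sum
            intro a _
            have := hF1 a
            push_cast at this
            exact this
        _ = _ := by rw [Finset.sum_const, Finset.card_range, nsmul_eq_mul]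
    refine h1.trans ?_
    apply class_size D N (q ^ k) n r w x M hM0.le hw1 hr1 hnw hrr hNr (by push_cast; exact hqw)
      (by linarith) (t ^ 2 / 4) _ g7'
    have ht2 : t ^ 2 = s := by
      rw [ht, hs, ← Real.rpow_natCast, ← Real.rpow_mul hx0.le]
      norm_num
    rw [ht2]
    linarith
  · intro m hm hmX hVm W hW
    rw [Finset.mem_biUnion] at hmX
    push Not at hmX
    have hmM : m + 1 ≤ M := by
      have := Finset.mem_range.1 hm
      omega
    obtain ⟨hL1, hL2, hL3⟩ := len_bounds (m + 1) n q M hq (by omega) hmM V hV1 hVm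
    set L : ℕ := (Nat.digits q ((m + 1) ^ n)).length with hL
    rw [← hlamdef] at hL1 hL2 hL3
    have hBL : i00 + N * D ≤ L := by
      apply hL3
      have h1 : ((i00 + N * D : ℕ) : ℝ) * lam ≤ ((i00 + D + N * D + k : ℕ) : ℝ) * lam := by
        apply mul_le_mul_of_nonneg_right _ (by linarith)
        have : i00 + N * D ≤ i00 + D + N * D + k := by omega
        exact_mod_cast this
      linarith
    have hlen := dims_len n k i00 D N L lam (Real.log V) x x1 y r hnr hlam hV4 hy0 hyx1 hrx1 hr1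
      (by linarith) hi2 hD2 hN2 hL1
    have herr := dims_err n D N L lam (Real.log V) x x1 y r s t w hnr hlam hlamw hV4 hV5 hr1 hrr
      hss (by linarith) (by linarith) hD1 hD2 hND hlen hL2 g3' g4' g5
    have hblk := block_of_classes (fun i => (m + 1) ^ n / q ^ i % q ^ k = W) i00 N D
      (N / ((q ^ k : ℕ) : ℝ)) (2 * (t * Real.sqrt N)) (fun a ha => hF2 a ha m hm
        (hmX a (Finset.mem_range.2 ha)) W hW)
    have hρ1 : (1 / (q : ℝ) ^ k) ≤ 1 := by
      rw [div_le_one (by positivity)]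
      exact le_trans (by exact_mod_cast (by omega : 1 ≤ q)) hqqk
    have hall := all_of_block (fun i => (m + 1) ^ n / q ^ i % q ^ k = W) i00 (N * D) L hBL
      (1 / (q : ℝ) ^ k) (by positivity) hρ1 (D * (2 * (t * Real.sqrt N))) (by
        have e : ((N * D : ℕ) : ℝ) * (1 / (q : ℝ) ^ k) = D * (N / ((q ^ k : ℕ) : ℝ)) := by
          push_cast
          ring
        rw [e]
        exact hblk)
    exact hall.trans herr.2

end Pool.Agent.Q263.WE
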