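import Mathlib
import Pool.Agent.Q263.WE.Pi
import Pool.Agent.Q263.WE.Glo

/-!
The digits of all powers `b ^ n`, `n ≤ (log b) ^ κ`, in all small bases, for almost all `b`.
-/

set_option autoImplicit false

open Finset Polynomial Filter Topology

namespace Pool.Agent.Q263.WE

theorem all_triples : ∃ κ : ℝ, 0 < κ ∧ κ ≤ 1 / 40 ∧ ∀ᶠ M : ℕ in atTop, ∃ X : Finset ℕ,
    (X.card : ℝ) ≤ M * Real.exp (-(Real.log M) ^ (κ / 2)) ∧
    ∀ m ∈ range M, m ∉ X → ∀ n q k : ℕ, 1 ≤ n → 2 ≤ q → 1 ≤ k → (n : ℝ) ≤ (Real.log M) ^ κ →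
      (q : ℝ) ^ k ≤ (Real.log M) ^ κ → Good ((Real.log M) ^ κ) (m + 1) n q k := by
  classical
  obtain ⟨κ, hκ0, hκ40, h⟩ := one_triple
  refine ⟨κ, hκ0, hκ40, ?_⟩
  have hself : ∀ᶠ M : ℕ in atTop, 7 * Real.log (Real.log M) + 4 ≤ (Real.log M) ^ κ / 2 := by
    have h1 : ∀ᶠ x : ℝ in atTop, 7 * Real.log x + 4 ≤ x ^ κ / 2 := by
      have h2 := (isLittleO_log_rpow_atTop hκ0).bound (show (0 : ℝ) < 1 / 28 by norm_num)
      filter_upwards [h2, eventually_ge_atTop 1, ev_pow 16 0 κ (by linarith)] with x hx hx1 h3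
      rw [Real.norm_of_nonneg (Real.log_nonneg hx1), Real.norm_of_nonneg (by positivity)] at hx
      rw [Real.rpow_zero] at h3
      linarith
    exact tendsto_log_nat.eventually h1
  filter_upwards [h, hself, eventually_ge_atTop 1, tendsto_log_nat.eventually_ge_atTop 1,
    ev_log 1 κ (3 / 4) (by linarith), ev_log 2 (κ / 2) κ (by linarith),
    ev_log 1 κ 1 (by linarith)] with M hM hself hM1 hℓ1 g1 g2 g3
  set x : ℝ := Real.log M with hx
  have hx0 : 0 < x := lt_of_lt_of_le one_pos hℓ1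
  have hM0 : (0 : ℝ) < M := by exact_mod_cast hM1
  set w : ℝ := x ^ κ with hw
  have hw1 : 1 ≤ w := Real.one_le_rpow hℓ1 hκ0.le
  rw [one_mul] at g1 g3
  rw [Real.rpow_one] at g3
  obtain ⟨V0, hV0, hX⟩ := hM
  have hX' : ∀ p : ℕ × ℕ × ℕ, ∃ X : Finset ℕ,
      (X.card : ℝ) ≤ M * (x ^ 3 * Real.exp (-w)) ∧
      (1 ≤ p.1 → 2 ≤ p.2.1 → 1 ≤ p.2.2 → (p.1 : ℝ) ≤ w → (p.2.1 : ℝ) ^ p.2.2 ≤ w →
        ∀ m ∈ range M, m ∉ X → V0 ≤ m + 1 → Good w (m + 1) p.1 p.2.1 p.2.2) := by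
    rintro ⟨n, q, k⟩
    by_cases hc : 1 ≤ n ∧ 2 ≤ q ∧ 1 ≤ k ∧ (n : ℝ) ≤ w ∧ (q : ℝ) ^ k ≤ w
    · obtain ⟨c1, c2, c3, c4, c5⟩ := hc
      obtain ⟨X, h1, h2⟩ := hX n q k c1 c2 c3 c4 c5
      exact ⟨X, h1, fun _ _ _ _ _ => h2⟩
    · refine ⟨∅, ?_, fun c1 c2 c3 c4 c5 => absurd ⟨c1, c2, c3, c4, c5⟩ hc⟩
      rw [Finset.card_empty, Nat.cast_zero]
      positivity
  choose F hF1 hF2 using hX'
  set R : ℕ := ⌊w⌋₊ + 1 with hR
  have hRw : (R : ℝ) ≤ 2 * w := by
    rw [hR]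
    push_cast
    have := Nat.floor_le (by linarith : 0 ≤ w)
    linarith
  have hlt : ∀ n : ℕ, (n : ℝ) ≤ w → n < R := by
    intro n hn
    rw [hR, Nat.lt_succ_iff]
    exact Nat.le_floor hn
  refine ⟨range V0 ∪ (range R ×ˢ range R ×ˢ range R).biUnion F, ?_, ?_⟩
  · have h1 : (((range R ×ˢ range R ×ˢ range R).biUnion F).card : ℝ) ≤
        8 * w ^ 3 * (M * (x ^ 3 * Real.exp (-w))) := by
      refine (by exact_mod_cast Finset.card_biUnion_le :
        (((range R ×ˢ range R ×ˢ range R).biUnion F).card : ℝ) ≤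
          ((∑ a ∈ range R ×ˢ range R ×ˢ range R, (F a).card : ℕ) : ℝ)).trans ?_
      push_cast
      calc ∑ a ∈ range R ×ˢ range R ×ˢ range R, ((F a).card : ℝ)
          ≤ ∑ _a ∈ range R ×ˢ range R ×ˢ range R, (M * (x ^ 3 * Real.exp (-w))) :=
            Finset.sum_le_sum fun a _ => hF1 a
        _ = ((R : ℝ) ^ 3) * (M * (x ^ 3 * Real.exp (-w))) := by
            rw [Finset.sum_const, Finset.card_product, Finset.card_product, Finset.card_range,
              nsmul_eq_mul]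
            push_cast
            ring
        _ ≤ _ := by
            apply mul_le_mul_of_nonneg_right _ (by positivity)
            calc (R : ℝ) ^ 3 ≤ (2 * w) ^ 3 := pow_le_pow_left₀ (Nat.cast_nonneg _) hRw 3
              _ = _ := by ring
    have h2 : ((range V0 ∪ (range R ×ˢ range R ×ˢ range R).biUnion F).card : ℝ) ≤
        V0 + (((range R ×ˢ range R ×ˢ range R).biUnion F).card : ℝ) := by
      have := Finset.card_union_le (range V0) ((range R ×ˢ range R ×ˢ range R).biUnion F)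
      rw [Finset.card_range] at this
      exact_mod_cast this
    have h3 : (V0 : ℝ) ≤ M * Real.exp (-w) := by
      refine hV0.trans (mul_le_mul_of_nonneg_left ?_ hM0.le)
      exact Real.exp_le_exp.2 (by linarith)
    have h4 : w ^ 3 ≤ x ^ 3 := pow_le_pow_left₀ (by linarith) g3 3
    have h5 : M * Real.exp (-w) + 8 * w ^ 3 * (M * (x ^ 3 * Real.exp (-w))) ≤
        M * (9 * x ^ 7 * Real.exp (-w)) := by
      have h6 : (1 : ℝ) + 8 * w ^ 3 * x ^ 3 ≤ 9 * x ^ 7 := by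
        have h7 : (1 : ℝ) ≤ x ^ 7 := one_le_pow₀ hℓ1
        have h8 : w ^ 3 * x ^ 3 ≤ x ^ 7 := by
          calc w ^ 3 * x ^ 3 ≤ x ^ 3 * x ^ 3 := mul_le_mul_of_nonneg_right h4 (by positivity)
            _ = x ^ 6 := by ring
            _ ≤ x ^ 7 := pow_le_pow_right₀ hℓ1 (by norm_num)
        linarith
      calc M * Real.exp (-w) + 8 * w ^ 3 * (M * (x ^ 3 * Real.exp (-w))) =
          M * ((1 + 8 * w ^ 3 * x ^ 3) * Real.exp (-w)) := by ring
        _ ≤ _ := by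
          apply mul_le_mul_of_nonneg_left _ hM0.le
          exact mul_le_mul_of_nonneg_right h6 (Real.exp_pos _).le
    have h6 : 9 * x ^ 7 * Real.exp (-w) ≤ Real.exp (-x ^ (κ / 2)) := by
      have e1 : x ^ 7 = Real.exp (7 * Real.log x) := by
        rw [show (7 : ℝ) * Real.log x = ((7 : ℕ) : ℝ) * Real.log x by norm_num, Real.exp_nat_mul,
          Real.exp_log hx0]
      have e2 : (9 : ℝ) ≤ Real.exp 4 := by
        have e3 : Real.exp 4 = Real.exp 1 ^ 4 := by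
          rw [← Real.exp_nat_mul]
          norm_num
        rw [e3]
        have he1 : (2 : ℝ) ≤ Real.exp 1 := by
          have := Real.add_one_le_exp 1
          linarith
        calc (9 : ℝ) ≤ 2 ^ 4 := by norm_num
          _ ≤ _ := pow_le_pow_left₀ (by norm_num) he1 4
      calc 9 * x ^ 7 * Real.exp (-w) ≤ Real.exp 4 * Real.exp (7 * Real.log x) * Real.exp (-w) := by
            rw [e1]
            apply mul_le_mul_of_nonneg_right _ (Real.exp_pos _).le
            exact mul_le_mul_of_nonneg_right e2 (Real.exp_pos _).le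
        _ = Real.exp (4 + 7 * Real.log x + -w) := by rw [Real.exp_add, Real.exp_add]
        _ ≤ _ := Real.exp_le_exp.2 (by linarith)
    calc ((range V0 ∪ (range R ×ˢ range R ×ˢ range R).biUnion F).card : ℝ)
        ≤ M * Real.exp (-w) + 8 * w ^ 3 * (M * (x ^ 3 * Real.exp (-w))) := by linarith
      _ ≤ M * (9 * x ^ 7 * Real.exp (-w)) := h5
      _ ≤ _ := mul_le_mul_of_nonneg_left h6 hM0.le
  · intro m hm hmX n q k hn hq hk hnw hqw
    rw [Finset.mem_union, Finset.mem_range, Finset.mem_biUnion] at hmX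
    push Not at hmX
    obtain ⟨c1, c2⟩ := hmX
    have hqk : (q : ℝ) ≤ w := by
      refine le_trans ?_ hqw
      calc (q : ℝ) = (q : ℝ) ^ 1 := (pow_one _).symm
        _ ≤ _ := pow_le_pow_right₀ (by exact_mod_cast (by omega : 1 ≤ q)) hk
    have hkw : (k : ℝ) ≤ w := by
      have h1 : k < 2 ^ k := Nat.lt_two_pow_self
      have h2 : 2 ^ k ≤ q ^ k := Nat.pow_le_pow_left hq k
      have h3 : (k : ℝ) ≤ (q : ℝ) ^ k := by exact_mod_cast (h1.le.trans h2)
      linarith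
    have hmem : (n, q, k) ∈ range R ×ˢ range R ×ˢ range R := by
      simp only [Finset.mem_product, Finset.mem_range]
      exact ⟨hlt n hnw, hlt q hqk, hlt k hkw⟩
    exact hF2 (n, q, k) hn hq hk hnw hqw m hm (c2 _ hmem) (by omega)

theorem powers_normal : ∃ κ : ℝ, 0 < κ ∧ ∃ E : Set ℕ,
    (∀ᶠ x : ℕ in atTop, ((E ∩ Set.Iic x).ncard : ℝ) ≤ x * Real.exp (-(Real.log x) ^ κ)) ∧
    ∀ b : ℕ, b ∉ E → ∀ n q k : ℕ, 1 ≤ n → 2 ≤ q → 1 ≤ k → (n : ℝ) ≤ (Real.log b) ^ κ →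
      (q : ℝ) ^ k ≤ (Real.log b) ^ κ → Good ((Real.log b) ^ κ) b n q k := by
  obtain ⟨κ, hκ0, hκ40, h⟩ := all_triples
  obtain ⟨E, hE1, hE2⟩ := globalize (κ / 2) (by linarith) (by linarith)
    (fun M b => ∀ n q k : ℕ, 1 ≤ n → 2 ≤ q → 1 ≤ k → (n : ℝ) ≤ (Real.log M) ^ κ →
      (q : ℝ) ^ k ≤ (Real.log M) ^ κ → Good ((Real.log M) ^ κ) b n q k)
    (fun b => ∀ n q k : ℕ, 1 ≤ n → 2 ≤ q → 1 ≤ k → (n : ℝ) ≤ (Real.log b) ^ (κ / 2 / 2) →
      (q : ℝ) ^ k ≤ (Real.log b) ^ (κ / 2 / 2) → Good ((Real.log b) ^ (κ / 2 / 2)) b n q k)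
    (by
      intro M b hb hbM _ hP n q k hn hq hk hnb hqb
      have hlb : 1 ≤ Real.log b := by
        by_contra hlt
        push Not at hlt
        have h0 : 0 ≤ Real.log b := Real.log_nonneg (by exact_mod_cast hb)
        have h1 : (Real.log b) ^ (κ / 2 / 2) < 1 := Real.rpow_lt_one h0 hlt (by linarith)
        have h2 : (1 : ℝ) ≤ n := by exact_mod_cast hn
        linarith
      have hlM : Real.log b ≤ Real.log M :=
        Real.log_le_log (by exact_mod_cast hb) (by exact_mod_cast hbM)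
      have hpow : (Real.log b) ^ (κ / 2 / 2) ≤ (Real.log M) ^ κ :=
        (Real.rpow_le_rpow_of_exponent_le hlb (by linarith)).trans
          (Real.rpow_le_rpow (by linarith) hlM hκ0.le)
      exact good_mono _ _ (Real.rpow_pos_of_pos (by linarith) _) hpow b n q k
        (hP n q k hn hq hk (hnb.trans hpow) (hqb.trans hpow)))
    (h.mono fun M hM => by
      obtain ⟨X, h1, h2⟩ := hM
      exact ⟨X, h1, fun m hm hmX n q k hn hq hk hn2 hq2 => h2 m hm hmX n q k hn hq hk hn2 hq2⟩)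
  refine ⟨κ / 2 / 2, by linarith, E, hE1, ?_⟩
  intro b hbE n q k hn hq hk hnb hqb
  rcases Nat.eq_zero_or_pos b with rfl | hb
  · exfalso
    rw [Nat.cast_zero, Real.log_zero, Real.zero_rpow (by linarith : κ / 2 / 2 ≠ 0)] at hnb
    have h2 : (1 : ℝ) ≤ n := by exact_mod_cast hn
    linarith
  · exact hE2 b hb hbE n q k hn hq hk hnb hqb

end Pool.Agent.Q263.WE
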